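import Pool.Agent.Helper6.CX.LNK
import Pool.Agent.Helper39.CX.CER
import Pool.Agent.Helper21.CX.PAR

/-!
LNK, second part: charts `TM`, run matrices `RMb`, and the structure `Link` of helper39 for the blocks
of helper21, up to an arbitrary gauge.
-/

set_option autoImplicit false
noncomputable section
namespace Pool.Agent.Helper6.MONO

open Pool.Agent.Helper21.SUP (GS Sch gM gM_append fD SBlk SSt DG DG_nx sD_cons sD_nil okD_cons)

open Pool.Agent.Helper21.SUP renaming nx → nxs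

/-! ### weights of a triangle -/

theorem LNI_kk_symm (p q r : ℕ) (i j : Fin 3) : kk p q r i j = kk p q r j i := by
  fin_cases i <;> fin_cases j <;> simp [kk, mm]

theorem LNI_mm {p q r : ℕ} (hp : 3 ≤ p) (hq : 3 ≤ q) (hr : 3 ≤ r) (i j : Fin 3) (h : i ≠ j) :
    3 ≤ mm p q r i j := by
  fin_cases i <;> fin_cases j <;> simp_all [mm]

theorem LNI_Kp {M : ℕ} (h : 3 ≤ M) : 0 < Kp M ∧ Kp M < 2 := by
  have hM : (3 : ℝ) ≤ M := by exact_mod_cast h
  have hpos : 0 < Real.pi / M := by positivity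
  have hlt : Real.pi / M < Real.pi / 2 := by
    apply div_lt_div_of_pos_left Real.pi_pos (by norm_num) (by linarith)
  constructor
  · exact mul_pos two_pos (Real.cos_pos_of_mem_Ioo ⟨by linarith, hlt⟩)
  · have h1 : Real.cos (Real.pi / M) < Real.cos 0 :=
      Real.cos_lt_cos_of_nonneg_of_le_pi le_rfl (by linarith [Real.pi_pos]) hpos
    rw [Real.cos_zero] at h1
    rw [Kp]
    linarith

theorem LNI_kk {p q r : ℕ} (hp : 3 ≤ p) (hq : 3 ≤ q) (hr : 3 ≤ r) (i j : Fin 3) (h : i ≠ j) :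
    0 < kk p q r i j ∧ kk p q r i j < 2 := LNI_Kp (LNI_mm hp hq hr i j h)

theorem LNI_WGr {p q r : ℕ} (hp : 3 ≤ p) (hq : 3 ≤ q) (hr : 3 ≤ r) {z : ℂ} (hz : z ≠ 0) :
    WGr (kk p q r) (wG (cw p q r) z) := by
  refine ⟨?_, LNI_kk_symm p q r, fun i j h => (LNI_kk hp hq hr i j h).1⟩
  intro i j h
  have hzz : z⁻¹ * z = 1 := inv_mul_cancel₀ hz
  have s20 : kk p q r 0 2 = kk p q r 2 0 := LNI_kk_symm p q r 0 2
  have s10 : kk p q r 1 0 = kk p q r 0 1 := LNI_kk_symm p q r 1 0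
  have s21 : kk p q r 2 1 = kk p q r 1 2 := LNI_kk_symm p q r 2 1
  fin_cases i <;> fin_cases j <;> simp [wG, cw, s20, s10, s21] at h ⊢ <;>
    first
    | ring1
    | linear_combination ((kk p q r 2 0 : ℂ) ^ 2) * hzz

/-- the orientation: `true` when the phase of the state is `z`, `false` when it is `1/z` -/
def oriZ (s : GS) : Bool := decide (s.2.1 = s.2.2 + 1)

theorem LNI_zo {p q r : ℕ} (hp : 3 ≤ p) (hq : 3 ≤ q) (hr : 3 ≤ r) {z : ℂ} (n a b : Fin 3)
    (h : Dist n a b) :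
    zoG (kk p q r) (wG (cw p q r) z) n a b = if oriZ (n, a, b) then z else z⁻¹ := by
  have s20 : kk p q r 0 2 = kk p q r 2 0 := LNI_kk_symm p q r 0 2
  have s10 : kk p q r 1 0 = kk p q r 0 1 := LNI_kk_symm p q r 1 0
  have s21 : kk p q r 2 1 = kk p q r 1 2 := LNI_kk_symm p q r 2 1
  have p01 : (kk p q r 0 1 : ℂ) ≠ 0 := by
    exact_mod_cast (LNI_kk hp hq hr 0 1 (by decide)).1.ne'
  have p12 : (kk p q r 1 2 : ℂ) ≠ 0 := by
    exact_mod_cast (LNI_kk hp hq hr 1 2 (by decide)).1.ne'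
  have p20 : (kk p q r 2 0 : ℂ) ≠ 0 := by
    exact_mod_cast (LNI_kk hp hq hr 2 0 (by decide)).1.ne'
  obtain ⟨h1, h2, h3⟩ := h
  fin_cases n <;> fin_cases a <;> fin_cases b <;>
    simp [zoG, wG, cw, oriZ, s20, s10, s21] at h1 h2 h3 ⊢ <;> field_simp

/-- the parameter `λ` of a state -/
def lamS (p q r : ℕ) (s : GS) : ℝ :=
  2 * kk p q r s.2.1 s.2.2 / (kk p q r s.1 s.2.1 * kk p q r s.1 s.2.2)

/-- `1/(2(1 + λ z))` or `1/(2(1 + λ/z))` as a function of `w` -/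
def omW (o : Bool) (lam : ℝ) (w : ℂ) : ℂ :=
  if o then (1 - w) / (2 * ((1 - w) + (lam : ℂ) * (1 + w)))
  else (1 + w) / (2 * ((1 + w) + (lam : ℂ) * (1 - w)))

/-- the parameter `ω` of a state -/
def omS (p q r : ℕ) (s : GS) (w : ℂ) : ℂ := omW (oriZ s) (lamS p q r s) w

/-- the change of star -/
def Cm (od : Bool) (k : ℝ) (om om' : ℂ) : Matrix (Fin 3) (Fin 3) ℂ :=
  if od then !![1, 0, 0; 0, om', 0; 0, 0, om * om']
  else !![1, 0, (k : ℂ) * om / 2 - (k : ℂ) ^ 2 / (4 * (2 + (k : ℂ))); 0, om', 0;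
    0, 0, om' * ((k : ℂ) / 2) * (1 / 2 - om)]

/-- the real matrix of a run -/
def Bm (k R : ℝ) : Matrix (Fin 3) (Fin 3) ℂ :=
  !![1, 2 * (R : ℂ), (R : ℂ) ^ 2 - (SbP k : ℂ);
    (R : ℂ), (R : ℂ) ^ 2 - (SbP k : ℂ), -2 * (SbP k : ℂ) * (R : ℂ);
    (R : ℂ) ^ 2 + (SbP k : ℂ), 0, 0]

/-- THE MATRIX OF A RUN of `m` letters from the state `s` -/
def RMb (p q r : ℕ) (s : GS) (m : ℕ) (w : ℂ) : Matrix (Fin 3) (Fin 3) ℂ :=
  Cm (decide (m % 2 = 1)) (kk p q r s.1 s.2.1) (omS p q r s w) (omS p q r (nxs s m) w) *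
    Bm (kk p q r s.1 s.2.1) (Rb (mm p q r s.1 s.2.1) (m - 1))

/-! ### charts -/

/-- the chart vector as a linear map -/
def TSl (κ : Fin 3 → Fin 3 → ℝ) (G : Fin 3 → Fin 3 → ℂ) (n a b : Fin 3) : V3 →ₗ[ℂ] V3 where
  toFun := TSv κ G n a b
  map_add' x y := by
    ext i
    fin_cases i <;> simp [TSv] <;> ring
  map_smul' c x := by
    ext i
    fin_cases i <;> simp [TSv] <;> ring

/-- the chart for states which are not geometric -/
def Tdeg (b : Fin 3) : V3 →ₗ[ℂ] V3 where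
  toFun x := ![x b, x (b + 1), x (b + 2)]
  map_add' x y := by ext i; fin_cases i <;> simp
  map_smul' c x := by ext i; fin_cases i <;> simp

/-- THE CHART at the state `s`, as a function of `w` -/
def TM (p q r : ℕ) (s : GS) (w : ℂ) : Matrix (Fin 3) (Fin 3) ℂ :=
  haveI := Classical.dec (DG s)
  LinearMap.toMatrix' (if DG s then TSl (kk p q r) (wG (cw p q r) (wz w)) s.1 s.2.1 s.2.2
    else Tdeg s.2.2)

theorem TM_mulVec {p q r : ℕ} {s : GS} (h : DG s) (w : ℂ) (X : V3) :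
    (TM p q r s w).mulVec X = TSv (kk p q r) (wG (cw p q r) (wz w)) s.1 s.2.1 s.2.2 X := by
  rw [TM, LinearMap.toMatrix'_mulVec, if_pos h]
  rfl

theorem TM_mulVec' {p q r : ℕ} {s : GS} (h : ¬ DG s) (w : ℂ) (X : V3) :
    (TM p q r s w).mulVec X = ![X s.2.2, X (s.2.2 + 1), X (s.2.2 + 2)] := by
  rw [TM, LinearMap.toMatrix'_mulVec, if_neg h]
  rfl

/-! ### the phase parameter -/

theorem LNI_om {x0 : ℝ} (hx : -2 < x0) {z : ℂ} (hz : InX x0 z) (o : Bool) (lam : ℝ)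
    (hl : 0 < lam) :
    1 + (lam : ℂ) * (if o then z else z⁻¹) ≠ 0 ∧
      omW o lam (zw z) = 1 / (2 * (1 + (lam : ℂ) * (if o then z else z⁻¹))) := by
  have hz1 := inX_ne hx hz
  have hz0 := hz.1
  have key : ∀ u : ℂ, InX x0 u → 1 + (lam : ℂ) * u ≠ 0 := by
    intro u hu h0
    have hlc : (lam : ℂ) ≠ 0 := by exact_mod_cast hl.ne'
    have h1 : u = ((-(1 / lam) : ℝ) : ℂ) := by
      push_cast
      field_simp
      linear_combination h0
    have h2 := hu.2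
    have h3 : u⁻¹ = ((-lam : ℝ) : ℂ) := by
      rw [h1]
      push_cast
      rw [inv_neg, one_div, inv_inv]
    rw [h3, h1, Complex.add_re, Complex.ofReal_re, Complex.ofReal_re] at h2
    have h4 : 2 ≤ 1 / lam + lam := by
      have h5 : 0 ≤ (1 / lam + lam - 2) := by
        have h6 : 1 / lam + lam - 2 = (1 - lam) ^ 2 / lam := by field_simp; ring
        rw [h6]; positivity
      linarith
    linarith
  have hinv : InX x0 z⁻¹ := ⟨inv_ne_zero hz0, by rw [inv_inv, add_comm]; exact hz.2⟩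
  have h1 := key _ hz
  have h2 := key _ hinv
  have d1 : 1 - zw z = 2 / (z + 1) := by rw [zw]; field_simp; ring
  have d2 : 1 + zw z = 2 * z / (z + 1) := by rw [zw]; field_simp; ring
  cases o with
  | true =>
    simp only [if_true]
    refine ⟨h1, ?_⟩
    simp only [omW, if_true]
    have e : (1 - zw z) + (lam : ℂ) * (1 + zw z) = 2 / (z + 1) * (1 + (lam : ℂ) * z) := by
      rw [d1, d2]; field_simp
    rw [e, d1]
    field_simp
  | false =>
    simp only [Bool.false_eq_true, if_false]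
    refine ⟨h2, ?_⟩
    simp only [omW, Bool.false_eq_true, if_false]
    have e : (1 + zw z) + (lam : ℂ) * (1 - zw z) = 2 * z / (z + 1) * (1 + (lam : ℂ) * z⁻¹) := by
      rw [d1, d2]; field_simp
    rw [e, d2]
    field_simp

theorem LNI_lam_pos {p q r : ℕ} (hp : 3 ≤ p) (hq : 3 ≤ q) (hr : 3 ≤ r) {s : GS} (h : DG s) :
    0 < lamS p q r s := by
  obtain ⟨h1, h2, h3⟩ := h
  have k1 := (LNI_kk hp hq hr s.1 s.2.1 h1).1
  have k2 := (LNI_kk hp hq hr s.2.1 s.2.2 h2).1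
  have k3 := (LNI_kk hp hq hr s.1 s.2.2 (Ne.symm h3)).1
  rw [lamS]
  positivity

/-- the centre parameter in terms of `ω` -/
theorem LNI_Gh {p q r : ℕ} (hp : 3 ≤ p) (hq : 3 ≤ q) (hr : 3 ≤ r) {x0 : ℝ} (hx : -2 < x0) {z : ℂ}
    (hz : InX x0 z) {s : GS} (h : DG s) :
    omS p q r s (zw z) ≠ 0 ∧
    GhP (kk p q r s.1 s.2.1) (kk p q r s.2.1 s.2.2) (kk p q r s.1 s.2.2)
      (zoG (kk p q r) (wG (cw p q r) z) s.1 s.2.1 s.2.2) ≠ 0 ∧
    (kk p q r s.1 s.2.1 : ℂ) * GhP (kk p q r s.1 s.2.1) (kk p q r s.2.1 s.2.2) (kk p q r s.1 s.2.2)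
      (zoG (kk p q r) (wG (cw p q r) z) s.1 s.2.1 s.2.2) * omS p q r s (zw z) =
        (kk p q r s.1 s.2.2 : ℂ) := by
  have k1 := (LNI_kk hp hq hr s.1 s.2.1 h.1).1
  have k2 := (LNI_kk hp hq hr s.2.1 s.2.2 h.2.1).1
  have k3 := (LNI_kk hp hq hr s.1 s.2.2 (Ne.symm h.2.2)).1
  obtain ⟨h1, h2⟩ := LNI_om hx hz (oriZ s) (lamS p q r s) (LNI_lam_pos hp hq hr h)
  have hzo := LNI_zo hp hq hr (z := z) s.1 s.2.1 s.2.2 h
  have hzo' : zoG (kk p q r) (wG (cw p q r) z) s.1 s.2.1 s.2.2 = if oriZ s then z else z⁻¹ := hzo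
  rw [hzo']
  generalize (if oriZ s = true then z else z⁻¹) = u at h1 h2 ⊢
  have c1 : (kk p q r s.1 s.2.1 : ℂ) ≠ 0 := by exact_mod_cast k1.ne'
  have c2 : (kk p q r s.2.1 s.2.2 : ℂ) ≠ 0 := by exact_mod_cast k2.ne'
  have c3 : (kk p q r s.1 s.2.2 : ℂ) ≠ 0 := by exact_mod_cast k3.ne'
  have hom : omS p q r s (zw z) = 1 / (2 * (1 + (lamS p q r s : ℂ) * u)) := h2
  have hG : GhP (kk p q r s.1 s.2.1) (kk p q r s.2.1 s.2.2) (kk p q r s.1 s.2.2) u =
      2 * (kk p q r s.1 s.2.2 : ℂ) / (kk p q r s.1 s.2.1 : ℂ) * (1 + (lamS p q r s : ℂ) * u) := by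
    rw [GhP, lamS]
    push_cast
    field_simp
    ring
  rw [hG, hom]
  refine ⟨?_, ?_, ?_⟩
  · exact div_ne_zero one_ne_zero (mul_ne_zero two_ne_zero h1)
  · exact mul_ne_zero (div_ne_zero (mul_ne_zero two_ne_zero c3) c1) h1
  · field_simp


/-! ### one run -/

theorem oriZ_rot {n a b : Fin 3} (h : Dist n a b) : oriZ (a, b, n) = oriZ (n, a, b) := by
  obtain ⟨h1, h2, h3⟩ := h
  revert n a b
  decide

theorem oriZ_flip {n a b : Fin 3} (h : Dist n a b) : oriZ (n, b, a) = !oriZ (n, a, b) := by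
  obtain ⟨h1, h2, h3⟩ := h
  revert n a b
  decide

theorem Cm_even {k h h' : ℝ} {zo Gh Gh' om om' : ℂ} (hk : (k : ℂ) ≠ 0) (hh' : (h' : ℂ) ≠ 0)
    (hG : Gh = GhP k h h' zo) (hG' : Gh' = GhP h' h k zo⁻¹) (h0 : Gh ≠ 0) (h1 : Gh' ≠ 0)
    (e : (k : ℂ) * Gh * om = h') (e' : (h' : ℂ) * Gh' * om' = k) (v : V3) :
    (Cm true k om om').mulVec v = (1 / Gh) • CEv k h h' zo v := by
  have o1 : om = (h' : ℂ) / ((k : ℂ) * Gh) := by
    rw [eq_div_iff (mul_ne_zero hk h0)]; linear_combination e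
  have o2 : om' = (k : ℂ) / ((h' : ℂ) * Gh') := by
    rw [eq_div_iff (mul_ne_zero hh' h1)]; linear_combination e'
  ext i
  fin_cases i
  · simp [Cm, CEv, Matrix.mulVec, dotProduct, Fin.sum_univ_three, ← hG, ← hG']
    field_simp
  · simp [Cm, CEv, Matrix.mulVec, dotProduct, Fin.sum_univ_three, ← hG, ← hG']
    rw [o2]
    field_simp
  · simp [Cm, CEv, Matrix.mulVec, dotProduct, Fin.sum_univ_three, ← hG, ← hG']
    rw [o1, o2]
    field_simp

theorem Cm_odd {k h h' : ℝ} {zo Gh Gh' om om' : ℂ} (hk : (k : ℂ) ≠ 0) (hh : (h : ℂ) ≠ 0)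
    (hk2 : (2 + k : ℂ) ≠ 0)
    (hG : Gh = GhP k h h' zo) (hG' : Gh' = GhP h h' k zo) (h0 : Gh ≠ 0) (h1 : Gh' ≠ 0)
    (e : (k : ℂ) * Gh * om = h') (e' : (h : ℂ) * Gh' * om' = k) (v : V3) :
    (Cm false k om om').mulVec v = (1 / Gh) • COv k h h' zo v := by
  have o1 : om = (h' : ℂ) / ((k : ℂ) * Gh) := by
    rw [eq_div_iff (mul_ne_zero hk h0)]; linear_combination e
  have o2 : om' = (k : ℂ) / ((h : ℂ) * Gh') := by
    rw [eq_div_iff (mul_ne_zero hh h1)]; linear_combination e'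
  have hGd : (k : ℂ) ^ 2 * Gh = 2 * (2 * (h : ℂ) * zo + (k : ℂ) * (h' : ℂ)) := by
    rw [hG, GhP]; field_simp
  ext i
  fin_cases i
  · simp [Cm, COv, Matrix.mulVec, dotProduct, Fin.sum_univ_three, ← hG, ← hG']
    rw [o1]
    field_simp
    linear_combination (-2 * v 2) * hGd
  · simp [Cm, COv, Matrix.mulVec, dotProduct, Fin.sum_univ_three, ← hG, ← hG']
    rw [o2]
    field_simp
  · simp [Cm, COv, Matrix.mulVec, dotProduct, Fin.sum_univ_three, ← hG, ← hG']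
    rw [o1, o2]
    field_simp
    linear_combination (v 2) * hGd

theorem Bm_mulVec (k R : ℝ) (v : V3) : (Bm k R).mulVec v = BRv k R v := by
  ext i
  fin_cases i <;> simp [Bm, BRv, Matrix.mulVec, dotProduct, Fin.sum_univ_three] <;> ring

theorem LNI_run {p q r : ℕ} (hp : 3 ≤ p) (hq : 3 ≤ q) (hr : 3 ≤ r) {x0 : ℝ} (hx : -2 < x0) {z : ℂ}
    (hz : InX x0 z) {s : GS} (h : DG s) {m : ℕ} (hm : 2 ≤ m) (hm' : m ≤ mm p q r s.1 s.2.1) :
    ∃ f : ℂ, f ≠ 0 ∧ ∀ X : V3,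
      (RMb p q r s m (zw z)).mulVec ((TM p q r s (zw z)).mulVec X) =
        f • (TM p q r (nxs s m) (zw z)).mulVec
          (gact (wG (cw p q r) z) (alt s.1 s.2.1 (m - 1)) X) := by
  have hD' := DG_nx s m h
  obtain ⟨o1, g1, e1⟩ := LNI_Gh hp hq hr hx hz h
  obtain ⟨o2, g2, e2⟩ := LNI_Gh hp hq hr hx hz hD'
  have hwz := wz_zw hx hz
  obtain ⟨n, a, b⟩ := s
  have hd : Dist n a b := h
  have hG := LNI_WGr hp hq hr (z := z) hz.1
  have hM : 3 ≤ mm p q r n a := LNI_mm hp hq hr n a hd.1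
  have k1 := (LNI_kk hp hq hr n a hd.1)
  have k2 := (LNI_kk hp hq hr a b hd.2.1).1
  have k3 := (LNI_kk hp hq hr n b (Ne.symm hd.2.2)).1
  have c1 : (kk p q r n a : ℂ) ≠ 0 := by exact_mod_cast k1.1.ne'
  have c2 : (kk p q r a b : ℂ) ≠ 0 := by exact_mod_cast k2.ne'
  have c3 : (kk p q r n b : ℂ) ≠ 0 := by exact_mod_cast k3.ne'
  have c4 : (2 + (kk p q r n a : ℂ)) ≠ 0 := by
    have : (0 : ℝ) < 2 + kk p q r n a := by linarith [k1.1]
    exact_mod_cast this.ne'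
  have hms : ∀ i j, kk p q r i j = kk p q r j i := LNI_kk_symm p q r
  have hzo := LNI_zo hp hq hr (z := z) n a b hd
  set G := wG (cw p q r) z with hGdef
  have hk : kk p q r n a = Kp (mm p q r n a) := rfl
  have hm1 : 2 ≤ m := hm
  have hm2 : m ≤ mm p q r n a := hm'
  obtain ⟨q1, q2, q3, q4⟩ := LNK_Kp (mm p q r n a) (m - 1) hM (by omega) (by omega)
  -- the factor
  have hW : ((Rb (mm p q r n a) (m - 1) : ℂ) ^ 2 + (SbP (kk p q r n a) : ℂ)) ≠ 0 := by
    have hS : 0 < SbP (kk p q r n a) := by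
      rw [SbP]
      have : 0 < (2 - kk p q r n a) * (2 + kk p q r n a) :=
        mul_pos (by linarith [k1.2]) (by linarith [k1.1])
      have h2 := k1.1
      positivity
    have : 0 < (Rb (mm p q r n a) (m - 1)) ^ 2 + SbP (kk p q r n a) := by positivity
    exact_mod_cast this.ne'
  rcases Nat.mod_two_eq_zero_or_one m with hpar | hpar
  · -- `m` even
    have hnx : nxs (n, a, b) m = (a, b, n) := by
      show nxD m n a b = _
      rw [nxD, if_pos hpar]
    rw [hnx] at hD' o2 g2 e2 ⊢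
    have hzo' : zoG (kk p q r) G a b n = zoG (kk p q r) G n a b := by
      rw [hGdef, LNI_zo hp hq hr (z := z) a b n hD', LNI_zo hp hq hr (z := z) n a b hd,
        oriZ_rot hd]
    have g1' : GhP (kk p q r n a) (kk p q r a b) (kk p q r n b) (zoG (kk p q r) G n a b) ≠ 0 := g1
    have g2' : GhP (kk p q r a b) (kk p q r n b) (kk p q r n a) (zoG (kk p q r) G n a b) ≠ 0 := by
      have := g2
      rw [← hzo', hms n b, hms n a]
      exact this
    have e1' : (kk p q r n a : ℂ) * GhP (kk p q r n a) (kk p q r a b) (kk p q r n b)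
        (zoG (kk p q r) G n a b) * omS p q r (n, a, b) (zw z) = (kk p q r n b : ℂ) := e1
    have e2' : (kk p q r a b : ℂ) * GhP (kk p q r a b) (kk p q r n b) (kk p q r n a)
        (zoG (kk p q r) G n a b) * omS p q r (a, b, n) (zw z) = (kk p q r n a : ℂ) := by
      have := e2
      rw [← hzo', hms n b, hms n a]
      exact this
    have hGna : G n a ≠ 0 := by
      intro h0
      have := hG.mul n a hd.1
      rw [h0, zero_mul] at this
      exact pow_ne_zero 2 c1 this.symm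
    have hu : G n a / (kk p q r n a : ℂ) ≠ 0 := div_ne_zero hGna c1
    refine ⟨((Rb (mm p q r n a) (m - 1) : ℂ) ^ 2 + (SbP (kk p q r n a) : ℂ)) /
      (GhP (kk p q r n a) (kk p q r a b) (kk p q r n b) (zoG (kk p q r) G n a b) *
        (G n a / (kk p q r n a : ℂ))), div_ne_zero hW (mul_ne_zero g1' hu), fun X => ?_⟩
    rw [TM_mulVec h, TM_mulVec hD', hwz]
    have hodd := LNK_odd (kk p q r) G hG hd (mm p q r n a) (m - 1) hM hk (by omega) (by omega)
      g1' g2' X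
    rw [← hGdef]
    simp only
    rw [hodd, RMb, ← Matrix.mulVec_mulVec]
    simp only
    rw [Bm_mulVec, hnx, show (decide (m % 2 = 1)) = false by simp [hpar],
      Cm_odd c1 c2 c4 rfl rfl g1' g2' e1' e2', smul_smul]
    congr 1
    field_simp
  · -- `m` odd
    have hnx : nxs (n, a, b) m = (n, b, a) := by
      show nxD m n a b = _
      rw [nxD, if_neg (by omega)]
    rw [hnx] at hD' o2 g2 e2 ⊢
    have hzo' : zoG (kk p q r) G n b a = (zoG (kk p q r) G n a b)⁻¹ := by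
      rw [hGdef, LNI_zo hp hq hr (z := z) n b a hD', LNI_zo hp hq hr (z := z) n a b hd,
        oriZ_flip hd]
      cases oriZ (n, a, b) <;> simp
    have g1' : GhP (kk p q r n a) (kk p q r a b) (kk p q r n b) (zoG (kk p q r) G n a b) ≠ 0 := g1
    have g2' : GhP (kk p q r n b) (kk p q r a b) (kk p q r n a) (zoG (kk p q r) G n a b)⁻¹ ≠ 0 := by
      have := g2
      rw [← hzo', hms a b]
      exact this
    have e1' : (kk p q r n a : ℂ) * GhP (kk p q r n a) (kk p q r a b) (kk p q r n b)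
        (zoG (kk p q r) G n a b) * omS p q r (n, a, b) (zw z) = (kk p q r n b : ℂ) := e1
    have e2' : (kk p q r n b : ℂ) * GhP (kk p q r n b) (kk p q r a b) (kk p q r n a)
        (zoG (kk p q r) G n a b)⁻¹ * omS p q r (n, b, a) (zw z) = (kk p q r n a : ℂ) := by
      have := e2
      rw [← hzo', hms a b]
      exact this
    refine ⟨((Rb (mm p q r n a) (m - 1) : ℂ) ^ 2 + (SbP (kk p q r n a) : ℂ)) /
      (GhP (kk p q r n a) (kk p q r a b) (kk p q r n b) (zoG (kk p q r) G n a b)),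
      div_ne_zero hW g1', fun X => ?_⟩
    rw [TM_mulVec h, TM_mulVec hD', hwz]
    have heven := LNK_even (kk p q r) G hG hd (mm p q r n a) (m - 1) hM hk (by omega) (by omega)
      (by omega) g1' g2' X
    rw [← hGdef]
    simp only
    rw [heven, RMb, ← Matrix.mulVec_mulVec]
    simp only
    rw [Bm_mulVec, hnx, show (decide (m % 2 = 1)) = true by simp [hpar],
      Cm_even c1 c3 rfl rfl g1' g2' e1' e2', smul_smul]
    congr 1
    field_simp

/-! ### lists of runs -/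

theorem DG_sD : ∀ (ms : List ℕ) (s : GS), DG s → DG (sD s ms) := by
  intro ms
  induction ms with
  | nil => intro s h; rw [sD_nil]; exact h
  | cons m ms ih => intro s h; rw [sD_cons]; exact ih _ (DG_nx s m h)

theorem LNI_list {p q r : ℕ} (hp : 3 ≤ p) (hq : 3 ≤ q) (hr : 3 ≤ r) {x0 : ℝ} (hx : -2 < x0) :
    ∀ (ms : List ℕ) (f0 : Bool) (s : GS), DG s → okD p q r f0 s ms → ∀ z : ℂ, InX x0 z →
      ∃ f : ℂ, f ≠ 0 ∧ ∀ X : V3,
        (gM (RMb p q r) s ms (zw z)).mulVec ((TM p q r s (zw z)).mulVec X) =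
          f • (TM p q r (sD s ms) (zw z)).mulVec (gact (wG (cw p q r) z) (dw s ms) X) := by
  intro ms
  induction ms with
  | nil =>
    intro f0 s _ _ z _
    refine ⟨1, one_ne_zero, fun X => ?_⟩
    rw [sD_nil]
    obtain ⟨n, a, b⟩ := s
    simp [dw, gact, gM]
  | cons m ms ih =>
    intro f0 s hs hok z hz
    rw [okD_cons] at hok
    obtain ⟨⟨h1, h2, -⟩, h4⟩ := hok
    obtain ⟨f, hf, e⟩ := LNI_run hp hq hr hx hz hs h1 h2
    obtain ⟨f', hf', e'⟩ := ih _ _ (DG_nx s m hs) h4 z hz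
    refine ⟨f' * f, mul_ne_zero hf' hf, fun X => ?_⟩
    have hd : dw s (m :: ms) = alt s.1 s.2.1 (m - 1) ++ dw (nxs s m) ms := by
      obtain ⟨n, a, b⟩ := s
      rfl
    rw [hd, sD_cons, cer_gact_append]
    have e1 := e' (gact (wG (cw p q r) z) (alt s.1 s.2.1 (m - 1)) X)
    have e2 := e X
    show (gM (RMb p q r) (nxs s m) ms (zw z) * RMb p q r s m (zw z)).mulVec _ = _
    rw [← Matrix.mulVec_mulVec, e2, Matrix.mulVec_smul, e1, smul_smul, mul_comm f' f]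

/-! ### the chart is nondegenerate -/

theorem LNI_first {p q r : ℕ} (hp : 3 ≤ p) (hq : 3 ≤ q) (hr : 3 ≤ r) {x0 : ℝ} (hx : -2 < x0)
    {z : ℂ} (hz : InX x0 z) (s : GS) :
    ∃ f : ℂ, f ≠ 0 ∧ ∀ X : V3, (TM p q r s (zw z)).mulVec X 0 = f * X s.2.2 := by
  by_cases h : DG s
  · have hwz := wz_zw hx hz
    have hG := LNI_WGr hp hq hr (z := z) hz.1
    have hd : Dist s.1 s.2.1 s.2.2 := h
    have k3 := (LNI_kk hp hq hr s.1 s.2.2 (Ne.symm hd.2.2)).1
    have c3 : (kk p q r s.1 s.2.2 : ℂ) ≠ 0 := by exact_mod_cast k3.ne'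
    have hne : wG (cw p q r) z s.2.2 s.1 ≠ 0 := by
      intro h0
      have := hG.mul s.2.2 s.1 hd.2.2
      rw [h0, zero_mul, LNI_kk_symm] at this
      exact pow_ne_zero 2 c3 this.symm
    refine ⟨wG (cw p q r) z s.2.2 s.1 / (kk p q r s.1 s.2.2 : ℂ), div_ne_zero hne c3, fun X => ?_⟩
    rw [TM_mulVec h, hwz]
    simp [TSv]
  · refine ⟨1, one_ne_zero, fun X => ?_⟩
    rw [TM_mulVec' h]
    simp

theorem wG_norm {p q r : ℕ} (hp : 3 ≤ p) (hq : 3 ≤ q) (hr : 3 ≤ r) {z : ℂ} (hz : ‖z‖ = 1)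
    (i j : Fin 3) (h : i ≠ j) : ‖wG (cw p q r) z i j‖ = kk p q r i j := by
  have s20 : kk p q r 0 2 = kk p q r 2 0 := LNI_kk_symm p q r 0 2
  have s10 : kk p q r 1 0 = kk p q r 0 1 := LNI_kk_symm p q r 1 0
  have s21 : kk p q r 2 1 = kk p q r 1 2 := LNI_kk_symm p q r 2 1
  have p01 := (LNI_kk hp hq hr 0 1 (by decide)).1
  have p12 := (LNI_kk hp hq hr 1 2 (by decide)).1
  have p20 := (LNI_kk hp hq hr 2 0 (by decide)).1
  fin_cases i <;> fin_cases j <;>
    simp [wG, cw, s20, s10, s21, hz, abs_of_pos, p01, p12, p20] at h ⊢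

theorem LNI_bound1 {p q r : ℕ} (hp : 3 ≤ p) (hq : 3 ≤ q) (hr : 3 ≤ r) {x0 : ℝ} (hx : -2 < x0)
    (s : GS) : ∃ K : ℝ, 0 ≤ K ∧ ∀ z : ℂ, ‖z‖ = 1 → x0 < 2 * z.re → ∀ X : V3,
      ‖X‖ ≤ K * ‖(TM p q r s (zw z)).mulVec X‖ ∧
        ‖(TM p q r s (zw z)).mulVec X 0‖ ≤ K * ‖X s.2.2‖ := by
  by_cases h : DG s
  swap
  · refine ⟨1, zero_le_one, fun z _ _ X => ?_⟩
    rw [TM_mulVec' h, one_mul, one_mul]
    constructor
    · rw [pi_norm_le_iff_of_nonneg (norm_nonneg _)]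
      intro i
      have h0 := norm_le_pi_norm (![X s.2.2, X (s.2.2 + 1), X (s.2.2 + 2)] : Fin 3 → ℂ) 0
      have h1 := norm_le_pi_norm (![X s.2.2, X (s.2.2 + 1), X (s.2.2 + 2)] : Fin 3 → ℂ) 1
      have h2 := norm_le_pi_norm (![X s.2.2, X (s.2.2 + 1), X (s.2.2 + 2)] : Fin 3 → ℂ) 2
      simp only [Matrix.cons_val_zero, Matrix.cons_val_one, Matrix.cons_val] at h0 h1 h2
      have hi : i = s.2.2 ∨ i = s.2.2 + 1 ∨ i = s.2.2 + 2 := by
        generalize s.2.2 = b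
        fin_cases i <;> fin_cases b <;> simp
      rcases hi with hi | hi | hi <;> rw [hi] <;> assumption
    · simp
  · have hd : Dist s.1 s.2.1 s.2.2 := h
    obtain ⟨n, a, b⟩ := s
    simp only at hd
    have k1 := (LNI_kk hp hq hr n a hd.1)
    have k2 := (LNI_kk hp hq hr a b hd.2.1)
    have k3 := (LNI_kk hp hq hr n b (Ne.symm hd.2.2))
    set g : ℝ := 2 / kk p q r n a ^ 2 * (2 * kk p q r a b + kk p q r n a * kk p q r n b) with hg
    have hg0 : 0 ≤ g := by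
      have h1 := k1.1
      have h2 := k2.1
      have h3 := k3.1
      positivity
    refine ⟨2 + 2 * g, by positivity, fun z hz1 hz2 X => ?_⟩
    have hz := inX_of_norm hz1 hz2
    have hwz := wz_zw hx hz
    have hG := LNI_WGr hp hq hr (z := z) hz.1
    obtain ⟨o1, g1, e1⟩ := LNI_Gh hp hq hr hx hz h
    have g1' : GhP (kk p q r n a) (kk p q r a b) (kk p q r n b)
        (zoG (kk p q r) (wG (cw p q r) z) n a b) ≠ 0 := g1
    rw [TM_mulVec h, hwz]
    simp only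
    set G := wG (cw p q r) z with hGdef
    set Gh := GhP (kk p q r n a) (kk p q r a b) (kk p q r n b) (zoG (kk p q r) G n a b) with hGh
    have nan : ‖G a n‖ = kk p q r n a := by
      rw [hGdef, wG_norm hp hq hr hz1 a n (Ne.symm hd.1), LNI_kk_symm]
    have nbn : ‖G b n‖ = kk p q r n b := by
      rw [hGdef, wG_norm hp hq hr hz1 b n hd.2.2, LNI_kk_symm]
    have nk1 : ‖(kk p q r n a : ℂ)‖ = kk p q r n a := by
      rw [Complex.norm_real, Real.norm_eq_abs, abs_of_pos k1.1]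
    have nk2 : ‖(kk p q r a b : ℂ)‖ = kk p q r a b := by
      rw [Complex.norm_real, Real.norm_eq_abs, abs_of_pos k2.1]
    have nk3 : ‖(kk p q r n b : ℂ)‖ = kk p q r n b := by
      rw [Complex.norm_real, Real.norm_eq_abs, abs_of_pos k3.1]
    have nzo : ‖zoG (kk p q r) G n a b‖ = 1 := by
      rw [hGdef, LNI_zo hp hq hr (z := z) n a b hd]
      split_ifs
      · exact hz1
      · rw [norm_inv, hz1, inv_one]
    have nGh : ‖Gh‖ ≤ g := by
      rw [hGh, GhP, norm_mul, norm_div, norm_pow, nk1, hg]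
      have h2 : ‖(2 : ℂ)‖ = 2 := by simp
      rw [h2]
      refine mul_le_mul_of_nonneg_left ?_ (by have := k1.1; positivity)
      refine (norm_add_le _ _).trans ?_
      rw [norm_mul, norm_mul, norm_mul, nzo, nk2, h2, nk1, nk3, mul_one]
    have c1 : (kk p q r n a : ℂ) ≠ 0 := by exact_mod_cast k1.1.ne'
    have c3 : (kk p q r n b : ℂ) ≠ 0 := by exact_mod_cast k3.1.ne'
    have gan : G a n ≠ 0 := by
      intro h0
      rw [h0, norm_zero] at nan
      linarith [k1.1]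
    have gbn : G b n ≠ 0 := by
      intro h0
      rw [h0, norm_zero] at nbn
      linarith [k3.1]
    set T : V3 := TSv (kk p q r) G n a b X with hT
    have t0 : T 0 = G b n / (kk p q r n b : ℂ) * X b := by simp [hT, TSv]
    have t1 : (kk p q r n a : ℂ) * Gh * T 1 = -2 * X n + G a n * X a + G b n * X b := by
      simp only [hT, TSv, Matrix.cons_val_one, Matrix.cons_val_zero]
      rw [← hGh]
      field_simp
    have t2 : (kk p q r n a : ℂ) * Gh * T 2 = G a n * X a := by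
      simp only [hT, TSv, Matrix.cons_val]
      rw [← hGh]
      field_simp
    have n0 : ‖T 0‖ = ‖X b‖ := by
      rw [t0, norm_mul, norm_div, nbn, nk3, div_self k3.1.ne', one_mul]
    have n2 : ‖X a‖ = ‖Gh‖ * ‖T 2‖ := by
      have := congrArg norm t2
      rw [norm_mul, norm_mul, norm_mul, nk1, nan, mul_assoc] at this
      exact (mul_left_cancel₀ k1.1.ne' this).symm
    have hT0 := norm_le_pi_norm T 0
    have hT1 := norm_le_pi_norm T 1
    have hT2 := norm_le_pi_norm T 2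
    have hTn := norm_nonneg T
    have xb : ‖X b‖ ≤ (2 + 2 * g) * ‖T‖ := by
      rw [← n0]
      nlinarith [mul_nonneg hg0 hTn]
    have xa : ‖X a‖ ≤ (2 + 2 * g) * ‖T‖ := by
      rw [n2]
      have := mul_le_mul nGh hT2 (norm_nonneg _) hg0
      nlinarith [mul_nonneg hg0 hTn]
    have xn : ‖X n‖ ≤ (2 + 2 * g) * ‖T‖ := by
      have e : X n = ((kk p q r n a : ℂ) * Gh * T 2 + G b n * X b -
          (kk p q r n a : ℂ) * Gh * T 1) / 2 := by
        rw [t1, t2]; ring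
      rw [e, norm_div]
      have h2 : ‖(2 : ℂ)‖ = 2 := by simp
      rw [h2, div_le_iff₀ two_pos]
      have hb : ‖G b n * X b‖ ≤ 2 * ‖T‖ := by
        rw [norm_mul, nbn, ← n0]
        exact mul_le_mul k3.2.le hT0 (norm_nonneg _) (by norm_num)
      have hc : ∀ i : Fin 3, ‖(kk p q r n a : ℂ) * Gh * T i‖ ≤ 2 * g * ‖T‖ := by
        intro i
        rw [norm_mul, norm_mul, nk1]
        exact mul_le_mul (mul_le_mul k1.2.le nGh (norm_nonneg _) (by norm_num))
          (norm_le_pi_norm T i) (norm_nonneg _) (by positivity)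
      have hs := norm_sub_le ((kk p q r n a : ℂ) * Gh * T 2 + G b n * X b)
        ((kk p q r n a : ℂ) * Gh * T 1)
      have hs' := norm_add_le ((kk p q r n a : ℂ) * Gh * T 2) (G b n * X b)
      have c1 := hc 1
      have c2 := hc 2
      nlinarith
    constructor
    · rw [pi_norm_le_iff_of_nonneg (by positivity)]
      intro i
      have hi : i = n ∨ i = a ∨ i = b := by
        obtain ⟨h1, h2, h3⟩ := hd
        clear * - h1 h2 h3
        fin_cases n <;> fin_cases a <;> fin_cases b <;> fin_cases i <;> simp_all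
      rcases hi with hi | hi | hi <;> rw [hi] <;> assumption
    · rw [n0]
      nlinarith [norm_nonneg (X b), mul_nonneg hg0 (norm_nonneg (X b))]

theorem LNI_bound {p q r : ℕ} (hp : 3 ≤ p) (hq : 3 ≤ q) (hr : 3 ≤ r) {x0 : ℝ} (hx : -2 < x0) :
    ∃ K : ℝ, 0 ≤ K ∧ ∀ (s : GS) (z : ℂ), ‖z‖ = 1 → x0 < 2 * z.re → ∀ X : V3,
      ‖X‖ ≤ K * ‖(TM p q r s (zw z)).mulVec X‖ ∧
        ‖(TM p q r s (zw z)).mulVec X 0‖ ≤ K * ‖X s.2.2‖ := by
  choose K hK0 hK using fun s => LNI_bound1 hp hq hr hx s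
  refine ⟨∑ s, K s, Finset.sum_nonneg fun s _ => hK0 s, fun s z h1 h2 X => ?_⟩
  have hle : K s ≤ ∑ s, K s := Finset.single_le_sum (fun s _ => hK0 s) (Finset.mem_univ s)
  obtain ⟨e1, e2⟩ := hK s z h1 h2 X
  exact ⟨e1.trans (mul_le_mul_of_nonneg_right hle (norm_nonneg _)),
    e2.trans (mul_le_mul_of_nonneg_right hle (norm_nonneg _))⟩

/-! ### the structure `Link` -/

/-- `Link` for the blocks of a scheme, with any gauge `E` (a chart change for every state of the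
automaton) and any normalisation of the block matrices -/
theorem link_of_gauge {p q r : ℕ} (hp : 3 ≤ p) (hq : 3 ≤ q) (hr : 3 ≤ r) {x0 : ℝ} (hx : -2 < x0)
    {τ : Type} (Z : Sch τ) (E : SSt τ → ℂ → Matrix (Fin 3) (Fin 3) ℂ)
    (M : SBlk Z p q r → ℂ → Matrix (Fin 3) (Fin 3) ℂ)
    (hM : ∀ b z, InX x0 z → ∃ g : ℂ, g ≠ 0 ∧ ∀ v : V3,
      (M b (zw z)).mulVec ((E b.src (zw z)).mulVec v) =
        g • (E b.tgt (zw z)).mulVec ((gM (RMb p q r) b.s b.runs (zw z)).mulVec v))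
    (hE : ∀ s z, InX x0 z → ∃ f : ℂ, f ≠ 0 ∧ ∀ v : V3, (E s (zw z)).mulVec v 0 = f * v 0)
    (hEb : ∃ K : ℝ, 0 ≤ K ∧ ∀ s z, ‖z‖ = 1 → x0 < 2 * z.re → ∀ v : V3,
      ‖v‖ ≤ K * ‖(E s (zw z)).mulVec v‖ ∧ ‖(E s (zw z)).mulVec v 0‖ ≤ K * ‖v 0‖) :
    Link p q r x0 SBlk.src SBlk.tgt M (fun s w => E s w * TM p q r s.1 w) (fun s => s.1)
      SBlk.runs := by
  obtain ⟨K1, hK1, hT⟩ := LNI_bound hp hq hr hx
  obtain ⟨K2, hK2, hE2⟩ := hEb
  refine ⟨fun b => rfl, fun b z hz => ?_, fun s z hz => ?_, K1 * K2, fun s z h1 h2 X => ?_⟩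
  · obtain ⟨g, hg, e⟩ := hM b z hz
    obtain ⟨f, hf, e'⟩ := LNI_list hp hq hr hx b.runs b.f b.s b.hs b.hb.ok z hz
    refine ⟨g * f, mul_ne_zero hg hf, fun X => ?_⟩
    show (M b (zw z)).mulVec ((E b.src (zw z) * TM p q r b.s (zw z)).mulVec X) =
      (g * f) • (E b.tgt (zw z) * TM p q r (sD b.s b.runs) (zw z)).mulVec
        (gact (wG (cw p q r) z) (dw b.s b.runs) X)
    rw [← Matrix.mulVec_mulVec, e, e', Matrix.mulVec_smul, smul_smul, Matrix.mulVec_mulVec]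
  · obtain ⟨g, hg, e⟩ := hE s z hz
    obtain ⟨f, hf, e'⟩ := LNI_first hp hq hr hx hz s.1
    refine ⟨g * f, mul_ne_zero hg hf, fun X => ?_⟩
    show (E s (zw z) * TM p q r s.1 (zw z)).mulVec X 0 = g * f * X s.1.2.2
    rw [← Matrix.mulVec_mulVec, e, e', mul_assoc]
  · obtain ⟨a1, a2⟩ := hT s.1 z h1 h2 X
    obtain ⟨b1, b2⟩ := hE2 s z h1 h2 ((TM p q r s.1 (zw z)).mulVec X)
    show ‖X‖ ≤ K1 * K2 * ‖(E s (zw z) * TM p q r s.1 (zw z)).mulVec X‖ ∧
      ‖(E s (zw z) * TM p q r s.1 (zw z)).mulVec X 0‖ ≤ K1 * K2 * ‖X s.1.2.2‖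
    rw [← Matrix.mulVec_mulVec]
    constructor
    · calc ‖X‖ ≤ K1 * ‖(TM p q r s.1 (zw z)).mulVec X‖ := a1
        _ ≤ K1 * (K2 * _) := mul_le_mul_of_nonneg_left b1 hK1
        _ = _ := by ring
    · calc _ ≤ K2 * ‖(TM p q r s.1 (zw z)).mulVec X 0‖ := b2
        _ ≤ K2 * (K1 * ‖X s.1.2.2‖) := mul_le_mul_of_nonneg_left a2 hK2
        _ = _ := by ring

/-- without gauge -/
theorem link_plain {p q r : ℕ} (hp : 3 ≤ p) (hq : 3 ≤ q) (hr : 3 ≤ r) {x0 : ℝ} (hx : -2 < x0)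
    {τ : Type} (Z : Sch τ) :
    Link p q r x0 SBlk.src SBlk.tgt (fun b : SBlk Z p q r => gM (RMb p q r) b.s b.runs)
      (fun (s : SSt τ) w => TM p q r s.1 w) (fun s => s.1) SBlk.runs := by
  have h := link_of_gauge hp hq hr hx Z (fun _ _ => 1)
    (fun b : SBlk Z p q r => gM (RMb p q r) b.s b.runs)
    (fun b z _ => ⟨1, one_ne_zero, fun v => by simp⟩)
    (fun s z _ => ⟨1, one_ne_zero, fun v => by simp⟩)
    ⟨1, zero_le_one, fun s z _ _ v => by simp⟩
  simpa using h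

/-! ### regularity -/

/-- regular on the closure -/
def RegM (Ω : Set ℂ) (M : ℂ → Matrix (Fin 3) (Fin 3) ℂ) : Prop :=
  ∀ i j, ContinuousOn (fun w => M w i j) (closure Ω) ∧ DifferentiableOn ℂ (fun w => M w i j) Ω

theorem RegM.mul {Ω : Set ℂ} {M N : ℂ → Matrix (Fin 3) (Fin 3) ℂ} (hM : RegM Ω M)
    (hN : RegM Ω N) : RegM Ω (fun w => M w * N w) := by
  intro i j
  simp only [Matrix.mul_apply]
  constructor
  · exact continuousOn_finsetSum _ fun k _ => (hM i k).1.mul (hN k j).1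
  · exact DifferentiableOn.fun_sum fun k _ => (hM i k).2.mul (hN k j).2

theorem RegM.const {Ω : Set ℂ} (A : Matrix (Fin 3) (Fin 3) ℂ) : RegM Ω (fun _ => A) :=
  fun _ _ => ⟨continuousOn_const, differentiableOn_const _⟩

theorem RegM.smul {Ω : Set ℂ} {M : ℂ → Matrix (Fin 3) (Fin 3) ℂ} (hM : RegM Ω M) {g : ℂ → ℂ}
    (hc : ContinuousOn g (closure Ω)) (hd : DifferentiableOn ℂ g Ω) :
    RegM Ω (fun w => g w • M w) := by
  intro i j
  simp only [Matrix.smul_apply, smul_eq_mul]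
  exact ⟨hc.mul (hM i j).1, hd.mul (hM i j).2⟩

/-- the denominator does not vanish -/
theorem omW_den {x0 : ℝ} (hx : -2 < x0) {lam : ℝ} (hl : 0 < lam) {w : ℂ}
    (hw : w ∈ closure (Omg x0)) : (1 - w) + (lam : ℂ) * (1 + w) ≠ 0 := by
  intro h0
  have h1 := omg_closure hw
  have h2 : ((1 - lam : ℝ) : ℂ) * w = ((1 + lam : ℝ) : ℂ) := by
    push_cast
    linear_combination -h0
  have h3 : (1 - lam : ℝ) ≠ 0 := by
    intro h
    rw [h] at h2
    simp only [Complex.ofReal_zero, zero_mul] at h2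
    have : (1 + lam : ℝ) = 0 := by exact_mod_cast h2.symm
    linarith
  have h4 : w = (((1 + lam) / (1 - lam) : ℝ) : ℂ) := by
    rw [Complex.ofReal_div, eq_div_iff (by exact_mod_cast h3), mul_comm]
    exact h2
  set t : ℝ := (1 + lam) / (1 - lam) with ht
  have h5 : 1 < t ^ 2 := by
    rw [ht, div_pow, one_lt_div (by positivity)]
    nlinarith
  rw [h4] at h1
  have h6 : ((x0 + 2 : ℝ) : ℂ) * ((t : ℝ) : ℂ) ^ 2 - (x0 : ℂ) =
      (((x0 + 2) * t ^ 2 - x0 : ℝ) : ℂ) := by push_cast; ring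
  rw [h6, Complex.norm_real, Real.norm_eq_abs] at h1
  have h7 := (abs_le.1 h1).2
  have h8 : (x0 + 2) * 1 < (x0 + 2) * t ^ 2 := mul_lt_mul_of_pos_left h5 (by linarith)
  linarith

theorem Omg_neg {x0 : ℝ} {w : ℂ} (hw : w ∈ closure (Omg x0)) : -w ∈ closure (Omg x0) := by
  have h : ∀ w, w ∈ Omg x0 → -w ∈ Omg x0 := by
    intro w hw
    show ‖((x0 + 2 : ℝ) : ℂ) * (-w) ^ 2 - (x0 : ℂ)‖ < 2
    rw [neg_sq]
    exact hw
  have := closure_mono (s := (fun w => -w) '' Omg x0) (t := Omg x0) (by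
    rintro _ ⟨w, hw, rfl⟩
    exact h w hw)
  refine this ?_
  exact image_closure_subset_closure_image continuous_neg ⟨w, hw, rfl⟩

theorem omW_den' {x0 : ℝ} (hx : -2 < x0) {lam : ℝ} (hl : 0 < lam) {w : ℂ}
    (hw : w ∈ closure (Omg x0)) : (1 + w) + (lam : ℂ) * (1 - w) ≠ 0 := by
  have h := omW_den hx hl (Omg_neg hw)
  intro h0
  apply h
  rw [sub_neg_eq_add, ← sub_eq_add_neg]
  exact h0

theorem omW_reg {x0 : ℝ} (hx : -2 < x0) {lam : ℝ} (hl : 0 < lam) (o : Bool) :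
    ContinuousOn (omW o lam) (closure (Omg x0)) ∧ DifferentiableOn ℂ (omW o lam) (Omg x0) := by
  have hc : ∀ w ∈ closure (Omg x0), DifferentiableAt ℂ (omW o lam) w := by
    intro w hw
    have h1 := omW_den hx hl hw
    have h2 := omW_den' hx hl hw
    cases o with
    | true =>
      have e : omW true lam = fun w => (1 - w) / (2 * ((1 - w) + (lam : ℂ) * (1 + w))) := by
        funext w; simp [omW]
      rw [e]
      exact DifferentiableAt.fun_div (by fun_prop) (by fun_prop) (mul_ne_zero two_ne_zero h1)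
    | false =>
      have e : omW false lam = fun w => (1 + w) / (2 * ((1 + w) + (lam : ℂ) * (1 - w))) := by
        funext w; simp [omW]
      rw [e]
      exact DifferentiableAt.fun_div (by fun_prop) (by fun_prop) (mul_ne_zero two_ne_zero h2)
  exact ⟨fun w hw => (hc w hw).continuousAt.continuousWithinAt,
    fun w hw => (hc w (subset_closure hw)).differentiableWithinAt⟩

theorem omS_reg {p q r : ℕ} (hp : 3 ≤ p) (hq : 3 ≤ q) (hr : 3 ≤ r) {x0 : ℝ} (hx : -2 < x0)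
    {s : GS} (h : DG s) :
    ContinuousOn (omS p q r s) (closure (Omg x0)) ∧ DifferentiableOn ℂ (omS p q r s) (Omg x0) :=
  omW_reg hx (LNI_lam_pos hp hq hr h) _

theorem RMb_reg {p q r : ℕ} (hp : 3 ≤ p) (hq : 3 ≤ q) (hr : 3 ≤ r) {x0 : ℝ} (hx : -2 < x0)
    {s : GS} (h : DG s) (m : ℕ) : RegM (Omg x0) (RMb p q r s m) := by
  have h1 := omS_reg hp hq hr hx h
  have h2 := omS_reg hp hq hr hx (DG_nx s m h)
  refine RegM.mul ?_ (RegM.const _)
  intro i j
  set k := kk p q r s.1 s.2.1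
  set o1 := omS p q r s
  set o2 := omS p q r (nxs s m)
  have c := h1.1
  have d := h1.2
  have c' := h2.1
  have d' := h2.2
  have z0 : ContinuousOn (fun _ : ℂ => (0 : ℂ)) (closure (Omg x0)) ∧
      DifferentiableOn ℂ (fun _ : ℂ => (0 : ℂ)) (Omg x0) :=
    ⟨continuousOn_const, differentiableOn_const _⟩
  have z1 : ContinuousOn (fun _ : ℂ => (1 : ℂ)) (closure (Omg x0)) ∧
      DifferentiableOn ℂ (fun _ : ℂ => (1 : ℂ)) (Omg x0) :=
    ⟨continuousOn_const, differentiableOn_const _⟩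
  have z2 : ContinuousOn (fun w => o1 w * o2 w) (closure (Omg x0)) ∧
      DifferentiableOn ℂ (fun w => o1 w * o2 w) (Omg x0) := ⟨c.mul c', d.mul d'⟩
  have z3 : ContinuousOn (fun w => (k : ℂ) * o1 w / 2 - (k : ℂ) ^ 2 / (4 * (2 + (k : ℂ))))
      (closure (Omg x0)) ∧
      DifferentiableOn ℂ (fun w => (k : ℂ) * o1 w / 2 - (k : ℂ) ^ 2 / (4 * (2 + (k : ℂ))))
      (Omg x0) := ⟨((continuousOn_const.mul c).div_const 2).sub continuousOn_const,
          ((d.const_mul _).div_const 2).sub_const _⟩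
  have z4 : ContinuousOn (fun w => o2 w * ((k : ℂ) / 2) * (1 / 2 - o1 w))
      (closure (Omg x0)) ∧
      DifferentiableOn ℂ (fun w => o2 w * ((k : ℂ) / 2) * (1 / 2 - o1 w))
      (Omg x0) := ⟨(c'.mul continuousOn_const).mul (continuousOn_const.sub c),
          (d'.mul_const _).mul ((differentiableOn_const _).sub d)⟩
  have z5 : ContinuousOn (fun w => o2 w) (closure (Omg x0)) ∧
      DifferentiableOn ℂ (fun w => o2 w) (Omg x0) := ⟨c', d'⟩
  cases decide (m % 2 = 1) with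
  | true =>
    fin_cases i <;> fin_cases j <;>
      first
      | exact z0
      | exact z1
      | exact z2
      | exact z5
  | false =>
    fin_cases i <;> fin_cases j <;>
      first
      | exact z0
      | exact z1
      | exact z3
      | exact z4
      | exact z5

theorem gM_reg {p q r : ℕ} (hp : 3 ≤ p) (hq : 3 ≤ q) (hr : 3 ≤ r) {x0 : ℝ} (hx : -2 < x0) :
    ∀ (l : List ℕ) (s : GS), DG s → RegM (Omg x0) (gM (RMb p q r) s l) := by
  intro l
  induction l with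
  | nil => intro s _; exact RegM.const _
  | cons m l ih => intro s h; exact (ih _ (DG_nx s m h)).mul (RMb_reg hp hq hr hx h m)

end Pool.Agent.Helper6.MONO
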