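import Pool.Agent.Helper6.CX.LNG
import Pool.Agent.Helper21.CX.CLS

/-!
LNK, fourth part: the block matrices are regular on the closed domain and compatible with complex
conjugation.
-/

set_option autoImplicit false
noncomputable section
namespace Pool.Agent.Helper6.MONO

open Pool.Agent.Helper21.SUP (GS Sch gM gM_append fD SBlk SSt DG DG_nx sD_cons sD_nil sD_append
  okD_cons Ty std Modes std_blk alL alL_self)

open Pool.Agent.Helper21.SUP renaming nx → nxs

/-- regular on the closure, real on the real axis -/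
structure RCF (Ω : Set ℂ) (f : ℂ → ℂ) : Prop where
  c : ContinuousOn f (closure Ω)
  d : DifferentiableOn ℂ f Ω
  s : ∀ w, f (starRingEnd ℂ w) = starRingEnd ℂ (f w)

variable {Ω : Set ℂ} {f g : ℂ → ℂ}

theorem RCF.real (a : ℝ) : RCF Ω (fun _ => (a : ℂ)) :=
  ⟨continuousOn_const, differentiableOn_const _, fun _ => (Complex.conj_ofReal a).symm⟩

theorem RCF.zero : RCF Ω (fun _ => (0 : ℂ)) :=
  ⟨continuousOn_const, differentiableOn_const _, fun _ => by simp⟩

theorem RCF.one : RCF Ω (fun _ => (1 : ℂ)) :=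
  ⟨continuousOn_const, differentiableOn_const _, fun _ => by simp⟩

theorem RCF.ofNat (n : ℕ) [n.AtLeastTwo] : RCF Ω (fun _ => (OfNat.ofNat n : ℂ)) :=
  ⟨continuousOn_const, differentiableOn_const _, fun _ => by
    exact (Complex.conj_natCast n).symm⟩

theorem RCF.id : RCF Ω (fun w => w) := ⟨continuousOn_id, differentiableOn_id, fun _ => rfl⟩

theorem RCF.add (hf : RCF Ω f) (hg : RCF Ω g) : RCF Ω (fun w => f w + g w) :=
  ⟨hf.c.add hg.c, hf.d.add hg.d, fun w => by rw [hf.s, hg.s, map_add]⟩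

theorem RCF.sub (hf : RCF Ω f) (hg : RCF Ω g) : RCF Ω (fun w => f w - g w) :=
  ⟨hf.c.sub hg.c, hf.d.sub hg.d, fun w => by rw [hf.s, hg.s, map_sub]⟩

theorem RCF.neg (hf : RCF Ω f) : RCF Ω (fun w => -f w) :=
  ⟨hf.c.neg, hf.d.neg, fun w => by rw [hf.s, map_neg]⟩

theorem RCF.mul (hf : RCF Ω f) (hg : RCF Ω g) : RCF Ω (fun w => f w * g w) :=
  ⟨hf.c.mul hg.c, hf.d.mul hg.d, fun w => by rw [hf.s, hg.s, map_mul]⟩

theorem RCF.div (hf : RCF Ω f) (hg : RCF Ω g) (h0 : ∀ w ∈ closure Ω, g w ≠ 0) :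
    RCF Ω (fun w => f w / g w) :=
  ⟨hf.c.div hg.c h0, hf.d.div hg.d fun w hw => h0 w (subset_closure hw),
    fun w => by rw [hf.s, hg.s, map_div₀]⟩

/-- regular matrices -/
def RCM (Ω : Set ℂ) (M : ℂ → Matrix (Fin 3) (Fin 3) ℂ) : Prop := ∀ i j, RCF Ω (fun w => M w i j)

theorem RCM.reg {M : ℂ → Matrix (Fin 3) (Fin 3) ℂ} (h : RCM Ω M) : RegM Ω M :=
  fun i j => ⟨(h i j).c, (h i j).d⟩

theorem RCM.conj {M : ℂ → Matrix (Fin 3) (Fin 3) ℂ} (h : RCM Ω M) (w : ℂ) (i j : Fin 3) :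
    M (starRingEnd ℂ w) i j = starRingEnd ℂ (M w i j) := (h i j).s w

theorem RCM.mul {M N : ℂ → Matrix (Fin 3) (Fin 3) ℂ} (hM : RCM Ω M) (hN : RCM Ω N) :
    RCM Ω (fun w => M w * N w) := by
  intro i j
  simp only [Matrix.mul_apply, Fin.sum_univ_three]
  exact (((hM i 0).mul (hN 0 j)).add ((hM i 1).mul (hN 1 j))).add ((hM i 2).mul (hN 2 j))

theorem RCM.one' : RCM Ω (fun _ => 1) := by
  intro i j
  by_cases h : i = j
  · subst h
    simp only [Matrix.one_apply_eq]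
    exact RCF.one
  · simp only [Matrix.one_apply_ne h]
    exact RCF.zero

theorem RCM.mk9 {a b c d e f g h k : ℂ → ℂ} (h00 : RCF Ω a) (h01 : RCF Ω b) (h02 : RCF Ω c)
    (h10 : RCF Ω d) (h11 : RCF Ω e) (h12 : RCF Ω f) (h20 : RCF Ω g) (h21 : RCF Ω h)
    (h22 : RCF Ω k) :
    RCM Ω (fun w => !![a w, b w, c w; d w, e w, f w; g w, h w, k w]) := by
  intro i j
  fin_cases i <;> fin_cases j <;> assumption

theorem denS_rc (p q r : ℕ) (s : GS) : RCF Ω (denS p q r s) := by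
  unfold denS
  cases oriZ s
  · simp only [Bool.false_eq_true, if_false]
    repeat' (first
      | assumption
      | exact RCF.zero
      | exact RCF.one
      | exact RCF.ofNat _
      | exact RCF.real _
      | exact RCF.id
      | apply RCF.add
      | apply RCF.sub
      | apply RCF.neg
      | apply RCF.mul)
  · simp only [if_true]
    repeat' (first
      | assumption
      | exact RCF.zero
      | exact RCF.one
      | exact RCF.ofNat _
      | exact RCF.real _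
      | exact RCF.id
      | apply RCF.add
      | apply RCF.sub
      | apply RCF.neg
      | apply RCF.mul)

section
variable {p q r : ℕ} {x0 : ℝ}

theorem omS_rc (hp : 3 ≤ p) (hq : 3 ≤ q) (hr : 3 ≤ r) (hx : -2 < x0) {s : GS} (h : DG s) :
    RCF (Omg x0) (omS p q r s) := by
  have h1 : RCF (Omg x0) (numS s) := by
    unfold numS
    cases oriZ s
    · simp only [Bool.false_eq_true, if_false]
      repeat' (first
        | assumption
        | exact RCF.zero
        | exact RCF.one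
        | exact RCF.ofNat _
        | exact RCF.real _
        | exact RCF.id
        | apply RCF.add
        | apply RCF.sub
        | apply RCF.neg
        | apply RCF.mul)
    · simp only [if_true]
      repeat' (first
        | assumption
        | exact RCF.zero
        | exact RCF.one
        | exact RCF.ofNat _
        | exact RCF.real _
        | exact RCF.id
        | apply RCF.add
        | apply RCF.sub
        | apply RCF.neg
        | apply RCF.mul)
  have h2 : RCF (Omg x0) (fun w => 2 * denS p q r s w) := (RCF.ofNat 2).mul (denS_rc p q r s)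
  have h3 := h1.div h2 fun w hw => mul_ne_zero two_ne_zero (denS_ne hp hq hr hx h hw)
  have e : omS p q r s = fun w => numS s w / (2 * denS p q r s w) :=
    funext fun w => omS_eq p q r s w
  rw [e]
  exact h3

theorem teS_rc (hp : 3 ≤ p) (hq : 3 ≤ q) (hr : 3 ≤ r) (hx : -2 < x0) {s : GS} (h : DG s) :
    RCF (Omg x0) (teS p q r s) := by
  have h1 : RCF (Omg x0) (fun _ => (1 / 2 : ℂ)) := by
    have := RCF.real (Ω := Omg x0) (1 / 2)
    push_cast at this
    exact this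
  exact h1.sub (omS_rc hp hq hr hx h)

theorem rhoG_rc (hp : 3 ≤ p) (hq : 3 ≤ q) (hr : 3 ≤ r) (hx : -2 < x0) {s : GS} (h : DG s) :
    RCF (Omg x0) (rhoG p q r s) :=
  (denS_rc p q r s).div (denS_rc p q r _) fun _ hw => denS_ne hp hq hr hx (DG_nx s 2 h) hw

theorem tauG_rc (hp : 3 ≤ p) (hq : 3 ≤ q) (hr : 3 ≤ r) (hx : -2 < x0) {s : GS} (h : DG s) :
    RCF (Omg x0) (tauG p q r s) :=
  (RCF.real _).mul ((denS_rc p q r _).div (denS_rc p q r _)
    fun _ hw => denS_ne hp hq hr hx h hw)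

theorem kapG_rc (hp : 3 ≤ p) (hq : 3 ≤ q) (hr : 3 ≤ r) (hx : -2 < x0) {s : GS} (h : DG s) :
    RCF (Omg x0) (kapG p q r s) :=
  (denS_rc p q r _).div ((RCF.real _).mul (denS_rc p q r _)) fun _ hw =>
    mul_ne_zero (by exact_mod_cast (LNI_lam_pos hp hq hr h).ne') (denS_ne hp hq hr hx h hw)

theorem Bm_rc (k R : ℝ) : RCM Ω (fun _ => Bm k R) := by
  have e : ∀ a : ℝ, RCF Ω (fun _ => (a : ℂ)) := fun a => RCF.real a
  have h1 := e (R ^ 2 - SbP k)
  have h2 := e (R ^ 2 + SbP k)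
  push_cast at h1 h2
  exact RCM.mk9 RCF.one ((RCF.ofNat 2).mul (e R)) h1 (e R) h1
    (((RCF.ofNat 2).neg.mul (e _)).mul (e R)) h2 RCF.zero RCF.zero

theorem DKm_rc (hp : 3 ≤ p) (hq : 3 ≤ q) (hr : 3 ≤ r) (hx : -2 < x0) {s : GS} (h : DG s)
    (L : Bool) : RCM (Omg x0) (fun w => DKm L (omS p q r s w)) := by
  have ho := omS_rc hp hq hr hx h
  have ht : RCF (Omg x0) (fun w => 1 / 2 - omS p q r s w) := teS_rc hp hq hr hx h
  cases L
  · exact RCM.mk9 RCF.one RCF.zero RCF.zero RCF.zero ho RCF.zero RCF.zero RCF.zero (ho.mul ht)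
  · exact RCM.mk9 RCF.one RCF.zero RCF.zero RCF.zero ht ho RCF.zero ht RCF.zero

theorem CGm_rc (hp : 3 ≤ p) (hq : 3 ≤ q) (hr : 3 ≤ r) (hx : -2 < x0) {s : GS} (h : DG s)
    (m : ℕ) : RCM (Omg x0) (CGm p q r s m) := by
  have ho := omS_rc hp hq hr hx h
  have hk := kapG_rc hp hq hr hx h
  have ht := tauG_rc hp hq hr hx h
  rcases Nat.mod_two_eq_zero_or_one m with hm | hm
  · have e : CGm p q r s m = fun w => !![1, 0, (kk p q r s.1 s.2.1 : ℂ) * omS p q r s w / 2 -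
      (kk p q r s.1 s.2.1 : ℂ) ^ 2 / (4 * (2 + (kk p q r s.1 s.2.1 : ℂ)));
    0, 1, 0; 0, 0, (kk p q r s.1 s.2.1 : ℂ) / 2 * tauG p q r s w] := by
      funext w
      rw [CGm, if_neg (by omega)]
    rw [e]
    have h1 : RCF (Omg x0) (fun w => (kk p q r s.1 s.2.1 : ℂ) * omS p q r s w / 2 -
      (kk p q r s.1 s.2.1 : ℂ) ^ 2 / (4 * (2 + (kk p q r s.1 s.2.1 : ℂ)))) := by
      have h2 := RCF.real (Ω := Omg x0)
        ((kk p q r s.1 s.2.1) ^ 2 / (4 * (2 + (kk p q r s.1 s.2.1))))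
      push_cast at h2
      exact ((((RCF.real _).mul ho).div (RCF.ofNat 2) fun _ _ => two_ne_zero)).sub h2
    have h2 : RCF (Omg x0) (fun w => (kk p q r s.1 s.2.1 : ℂ) / 2 * tauG p q r s w) := by
      have h3 := RCF.real (Ω := Omg x0) ((kk p q r s.1 s.2.1) / 2)
      push_cast at h3
      exact h3.mul ht
    exact RCM.mk9 RCF.one RCF.zero h1 RCF.zero RCF.one RCF.zero RCF.zero RCF.zero h2
  · have e : CGm p q r s m = fun w => !![1, 0, 0; 0, 1, 0; 0, 0, kapG p q r s w] := by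
      funext w
      rw [CGm, if_pos hm]
    rw [e]
    exact RCM.mk9 RCF.one RCF.zero RCF.zero RCF.zero RCF.one RCF.zero RCF.zero RCF.zero hk

theorem GR_rc (hp : 3 ≤ p) (hq : 3 ≤ q) (hr : 3 ≤ r) (hx : -2 < x0) {s : GS} (h : DG s)
    (L : Bool) (m : ℕ) : RCM (Omg x0) (GR p q r L s m) :=
  (CGm_rc hp hq hr hx h m).mul ((Bm_rc _ _).mul (DKm_rc hp hq hr hx h L))

theorem gG_rc (hp : 3 ≤ p) (hq : 3 ≤ q) (hr : 3 ≤ r) (hx : -2 < x0) :
    ∀ (l : List ℕ) (L : Bool) (s : GS), DG s → RCM (Omg x0) (gG p q r L s l) := by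
  intro l
  induction l with
  | nil => intro L s _; exact RCM.one'
  | cons m l ih => intro L s h; exact (ih false _ (DG_nx s m h)).mul (GR_rc hp hq hr hx h L m)

theorem N1m_rc (hp : 3 ≤ p) (hq : 3 ≤ q) (hr : 3 ≤ r) (hx : -2 < x0) {s : GS} (h : DG s) :
    RCM (Omg x0) (N1m p q r s) := by
  have ht := teS_rc hp hq hr hx h
  have h1 := rhoG_rc hp hq hr hx h
  have h2 := tauG_rc hp hq hr hx h
  have hS : RCF (Omg x0) (fun _ => SS p q r s) := RCF.real _
  exact RCM.mk9 RCF.one RCF.one ht (h1.mul h2) RCF.zero RCF.zero RCF.one RCF.one (hS.neg.mul ht)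

theorem NLm_rc (hp : 3 ≤ p) (hq : 3 ≤ q) (hr : 3 ≤ r) (hx : -2 < x0) {s : GS} (h : DG s) :
    RCM (Omg x0) (NLm p q r s) := by
  have ho := omS_rc hp hq hr hx h
  have ho' := omS_rc hp hq hr hx (DG_nx s 2 h)
  have ht := teS_rc hp hq hr hx h
  have h2 := tauG_rc hp hq hr hx h
  have hS : RCF (Omg x0) (fun _ => SS p q r s) := RCF.real _
  exact RCM.mk9 ho ((RCF.ofNat 2).mul ht) ho (ho'.mul h2) RCF.zero RCF.zero ho
    (ht.mul (RCF.one.sub hS)) ho

theorem UUm_rc (hp : 3 ≤ p) (hq : 3 ≤ q) (hr : 3 ≤ r) (hx : -2 < x0) {s : GS} (h : DG s) :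
    RCM (Omg x0) (UUm p q r s) := by
  have ho := omS_rc hp hq hr hx h
  have ht := teS_rc hp hq hr hx h
  have h1 := rhoG_rc hp hq hr hx (DG_nx s 2 h)
  have h2 := tauG_rc hp hq hr hx (DG_nx s 2 h)
  have hS : RCF (Omg x0) (fun _ => SS p q r s) := RCF.real _
  have hS' : RCF (Omg x0) (fun _ => SS p q r (nxs s 2)) := RCF.real _
  have h3 : RCF (Omg x0) (fun w => teS p q r s w * (3 - SS p q r s)) :=
    ht.mul ((RCF.ofNat 3).sub hS)
  have h4 : RCF (Omg x0) (fun w => 2 * omS p q r s w) := (RCF.ofNat 2).mul ho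
  have h5 := (h1.mul h2).mul ho
  exact RCM.mk9 RCF.one h3 h4 h5 (((RCF.ofNat 2).mul (h1.mul h2)).mul ht) h5
    (h4.add (ht.mul (RCF.one.sub hS'))) h3 h4

theorem BN_rc (hp : 3 ≤ p) (hq : 3 ≤ q) (hr : 3 ≤ r) (hx : -2 < x0) {s : GS} (h : DG s) :
    ∀ n : ℕ, RCM (Omg x0) (BN p q r s n) ∧ RCM (Omg x0) (BN p q r s (n + 1)) ∧
      RCM (Omg x0) (BN p q r s (n + 2)) := by
  intro n
  induction n with
  | zero =>
    refine ⟨RCM.one', N1m_rc hp hq hr hx h, ?_⟩
    exact (NLm_rc hp hq hr hx (DG_nx s 2 h)).mul (N1m_rc hp hq hr hx h)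
  | succ n ih =>
    refine ⟨ih.2.1, ih.2.2, ?_⟩
    exact (UUm_rc hp hq hr hx (s2_DG h (n + 1))).mul ih.2.1

/-- THE BLOCK MATRICES ARE REGULAR -/
theorem MG_rc (hp : 3 ≤ p) (hq : 3 ≤ q) (hr : 3 ≤ r) (hx : -2 < x0) {Y : Modes}
    (b : SBlk (std Y) p q r) : RCM (Omg x0) (MG p q r b) := by
  by_cases ht : b.t = Ty.B
  · have e : MG p q r b = BN p q r b.s (b.ms.length + 1) := by
      funext w
      rw [MG, if_pos ht]
    rw [e]
    exact (BN_rc hp hq hr hx b.hs _).2.1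
  · have e : MG p q r b = gG p q r (decide (b.o = some Ty.B)) b.s b.runs := by
      funext w
      rw [MG, if_neg ht]
    rw [e]
    exact gG_rc hp hq hr hx _ _ _ b.hs

end

end Pool.Agent.Helper6.MONO
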