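import Pool.Agent.Helper6.CX.CLI
import Pool.Agent.Helper39.CX.TYP

/-!
The certificate `PCert` from regions for the types of the last run.
-/

set_option autoImplicit false
noncomputable section
namespace Pool.Agent.Helper6.MONO

open Pool.Agent.Helper21.SUP (GS Sch gM gM_append fD SBlk SSt DG DG_nx sD_cons sD_nil sD_append
  okD_cons okD_append ok1 Ty std Modes std_blk alL alL_self)
open Pool.Agent.Helper6.MONO.SV (UY StartY D4)
open Pool.Agent.Helper39.C75 (IsRegion RCert Reg)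
open Pool.Agent.Helper39.SLT (BlkCert T4 ML reg isRegion_empty mem_any reg_all reg_mem ML_ge
  isRegion_reg DG_sD')

open Pool.Agent.Helper21.SUP renaming nx → nxs

variable {p q r : ℕ}

/-- the states which can be reached (all superblocks of types A and B are glued) -/
def liveT (p q r : ℕ) (x : SSt Ty) : Prop :=
  x.2.2 = some Ty.B ∧ x.2.1 = false ∨ x.2.2 = some Ty.A ∧ x.2.1 = decide (3 = ML p q r x.1) ∨
    x.2.2 = some Ty.o ∧ (x.2.1 = true ∧ 4 ≤ ML p q r x.1 ∨ x.2.1 = false ∧ 5 ≤ ML p q r x.1) ∨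
      x.2.2 = none ∧ x.2.1 = false ∧ 4 ≤ ML p q r x.1

/-- the regions at the states which exist -/
def cutR (p q r : ℕ) (R : GS → T4 → Set V3) (s : GS) (T : T4) : Set V3 :=
  {v | (DG s ∧ T.ok (ML p q r s)) ∧ v ∈ R s T}

theorem cutR_reg {R : GS → T4 → Set V3} {s : GS} (h : DG s) (f : Bool) (o : Option Ty) :
    reg p q r (cutR p q r R) (s, f, o) = reg p q r R (s, f, o) := by
  ext v
  match o with
  | some Ty.B =>
    exact ⟨fun hv => ⟨hv.1, hv.2.2⟩, fun hv => ⟨hv.1, ⟨h, trivial⟩, hv.2⟩⟩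
  | some Ty.A =>
    exact ⟨fun hv => ⟨hv.1, hv.2.2⟩, fun hv => ⟨hv.1, ⟨h, trivial⟩, hv.2⟩⟩
  | some (Ty.P _) => exact Iff.rfl
  | some (Ty.Q _) => exact Iff.rfl
  | none =>
    exact ⟨fun hv => ⟨hv.1, hv.2.1, hv.2.2.1.2, hv.2.2.2.2⟩,
      fun hv => ⟨hv.1, hv.2.1, ⟨⟨h, trivial⟩, hv.2.2.1⟩, ⟨⟨h, trivial⟩, hv.2.2.2⟩⟩⟩
  | some Ty.o =>
    constructor
    · rintro (⟨h1, h2, h3⟩ | ⟨h1, h2, h3⟩)
      · exact Or.inl ⟨h1, h2, h3.2⟩
      · exact Or.inr ⟨h1, h2, h3.2⟩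
    · rintro (⟨h1, h2, h3⟩ | ⟨h1, h2, h3⟩)
      · exact Or.inl ⟨h1, h2, ⟨h, h2⟩, h3⟩
      · exact Or.inr ⟨h1, h2, ⟨h, h2⟩, h3⟩

theorem cutR_blk {Z : Sch Ty} {RM : GS → ℕ → ℂ → Matrix (Fin 3) (Fin 3) ℂ} {w : ℂ}
    {R : GS → T4 → Set V3} (h : BlkCert Z p q r RM w (reg p q r R)) :
    BlkCert Z p q r RM w (reg p q r (cutR p q r R)) := by
  intro o f s m ms t hs hb v hv
  rw [cutR_reg hs] at hv
  rw [cutR_reg (DG_sD' _ _ hs)]
  exact h o f s m ms t hs hb v hv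

/-- THE CERTIFICATE for the types of the last run, plain charts -/
structure TCert (V : RV2) (e : ℝ) (p q r : ℕ) (C : ℝ) (w : ℂ) (R : GS → T4 → Set V3) : Prop where
  reg : ∀ s, DG s → ∀ T : T4, T.ok (ML p q r s) → IsRegion (R s T)
  blk : BlkCert (std Y0) p q r (RMb p q r) w (Pool.Agent.Helper39.SLT.reg p q r R)
  refY : ∀ s, DG s → ∀ T : T4, T.ok (ML p q r s) → T ≠ T4.two →
    (DYm (omS p q r s w)).mulVec ![1, (V.al : ℂ), (V.be : ℂ)] ∈ R s T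
  refL : ∀ s, DG s → ML p q r s = 3 → (DLm (omS p q r s w)).mulVec
    ![1, (V.c : ℂ), (V.d (kk p q r s.1 s.2.2) : ℂ)] ∈ R s T4.two
  start : ∀ s, DG s → 4 ≤ ML p q r s → ∀ i,
    (DYm (omS p q r s w)).mulVec (UY V.al V.be e i) ∈ R s T4.two ∧
      (DYm (omS p q r s w)).mulVec (UY V.al V.be e i) ∈ R s T4.three
  slit3 : ∀ s, DG s → ∀ u ∈ R s T4.three, DTH (kk p q r s.1 s.2.1) u / u 0 ∈ Complex.slitPlane
  slit2 : ∀ s, DG s → ∀ u ∈ R s T4.two, DTH (kk p q r s.1 s.2.1) u / u 0 ∈ Complex.slitPlane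
  bound : ∀ s, DG s → ∀ T : T4, T.ok (ML p q r s) → ∀ u ∈ R s T, ∀ j, ‖u j‖ ≤ C * ‖u 0‖

theorem D4_ML (hp : 3 ≤ p) (hq : 3 ≤ q) (hr : 3 ≤ r) {s : GS} (h : DG s) (h4 : D4 p q r s) :
    4 ≤ ML p q r s := by
  have h1 := ML_ge hp hq hr h
  have h2 : ML p q r s ≠ 3 := h4
  omega

theorem UY_zero (al be e : ℝ) : UY al be e 0 = ![1, (al : ℂ), (be : ℂ)] := by
  unfold UY
  simp

theorem TCert.pcert (hp : 3 ≤ p) (hq : 3 ≤ q) (hr : 3 ≤ r) {V : RV2} {e C : ℝ} {w : ℂ}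
    {R : GS → T4 → Set V3} (h : TCert V e p q r C w R) :
    PCert V e p q r Y0 (liveT p q r) C w
      (Pool.Agent.Helper39.SLT.reg p q r (cutR p q r R)) := by
  refine ⟨fun σ => isRegion_reg ?_ σ, cutR_blk h.blk, ?_, ?_, ?_, ?_, ?_, ?_, ?_, ?_⟩
  · intro s T
    by_cases hs : DG s ∧ T.ok (ML p q r s)
    · have e : cutR p q r R s T = R s T := by
        ext v
        exact ⟨fun hv => hv.2, fun hv => ⟨hs, hv⟩⟩
      rw [e]
      exact h.reg s hs.1 T hs.2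
    · have e : cutR p q r R s T = ∅ := by
        ext v
        exact ⟨fun hv => hs hv.1, fun hv => hv.elim⟩
      rw [e]
      exact isRegion_empty
  · -- dead
    rintro ⟨s, f, o⟩ hl v hv
    apply hl
    match o, hv with
    | some Ty.B, hv => exact Or.inl ⟨rfl, hv.1⟩
    | some Ty.A, hv => exact Or.inr (Or.inl ⟨rfl, hv.1⟩)
    | some (Ty.P _), hv => exact hv.elim
    | some (Ty.Q _), hv => exact hv.elim
    | none, hv => exact Or.inr (Or.inr (Or.inr ⟨rfl, hv.1, hv.2.1⟩))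
    | some Ty.o, hv =>
      rcases hv with ⟨h1, h2, -⟩ | ⟨h1, h2, -⟩
      · exact Or.inr (Or.inr (Or.inl ⟨rfl, Or.inl ⟨h1, h2⟩⟩))
      · exact Or.inr (Or.inr (Or.inl ⟨rfl, Or.inr ⟨h1, h2⟩⟩))
  · -- ref
    rintro ⟨s, f, o⟩ hs hl
    have hs' : DG s := hs
    rw [cutR_reg hs']
    rcases hl with ⟨h1, h2⟩ | ⟨h1, h2⟩ | ⟨h1, h2⟩ | ⟨h1, h2, h3⟩
    · have h1' : o = some Ty.B := h1
      subst h1'
      by_cases h3 : ML p q r s = 3
      · rw [DG3_L hs', rG_L V h3]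
        exact ⟨h2, h.refL s hs' h3⟩
      · have h4 : 4 ≤ ML p q r s := by
          have := ML_ge hp hq hr hs'
          omega
        rw [DG3_L hs', rG_LY V h3, DLm_yL, ← UY_zero V.al V.be e]
        exact ⟨h2, (h.start s hs' h4 0).1⟩
    · have h1' : o = some Ty.A := h1
      subst h1'
      rw [DG3_Y hs' f (by simp), rG_Y V (by simp)]
      exact ⟨h2, h.refY s hs' T4.three trivial (by decide)⟩
    · have h1' : o = some Ty.o := h1
      subst h1'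
      rw [DG3_Y hs' f (by simp), rG_Y V (by simp)]
      rcases h2 with ⟨h2, h3⟩ | ⟨h2, h3⟩
      · exact Or.inl ⟨h2, h3, h.refY s hs' T4.full h3 (by decide)⟩
      · exact Or.inr ⟨h2, h3, h.refY s hs' T4.oth h3 (by decide)⟩
    · have h1' : o = none := h1
      subst h1'
      rw [DG3_Y hs' f (by simp), rG_Y V (by simp), ← UY_zero V.al V.be e]
      obtain ⟨h4, h5⟩ := h.start s hs' h3 0
      exact ⟨h2, h3, h4, h5⟩
  · -- start
    intro s hs h4 i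
    rw [cutR_reg hs]
    have h3 := D4_ML hp hq hr hs h4
    obtain ⟨h5, h6⟩ := h.start s hs h3 i
    exact ⟨rfl, h3, h5, h6⟩
  · intro s f hs _ u hu
    rw [cutR_reg hs] at hu
    exact h.slit3 s hs u hu.2
  · intro s f k hs _ u hu
    exact hu.elim
  · intro s f k hs _ u hu
    exact hu.elim
  · intro s f hs _ u hu
    rw [cutR_reg hs] at hu
    exact h.slit2 s hs u hu.2
  · rintro ⟨s, f, o⟩ v j hv
    obtain ⟨T, -, hT⟩ := mem_any hv
    exact h.bound s hT.1.1 T hT.1.2 v hT.2 j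

theorem liveT_rl {σ : Equiv.Perm (Fin 3)} {p' q' r' : ℕ}
    (h : Pool.Agent.Helper21.SUP.MmOK σ p q r p' q' r') (x : SSt Ty) :
    liveT p' q' r' (Pool.Agent.Helper21.SUP.srl σ x) ↔ liveT p q r x := by
  have e : ML p' q' r' (Pool.Agent.Helper21.SUP.srl σ x).1 = ML p q r x.1 := h _ _
  unfold liveT
  rw [e]
  rfl

/-- THE CLASS THEOREM for sorted orders: typed plain certificates away from `w = 1`, global ones
near `w = 1`, for the class and for the mirrored class. -/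
theorem zf_sorted (hp : 3 ≤ p) (hpq : p ≤ q) (hqr : q ≤ r) (hne : ¬ (p = 3 ∧ q = 3 ∧ r = 3))
    {x0 : ℝ} (hx : -2 < x0) (hA : xA p q r ≤ x0) {V : RV2} (h1 : 0 ≤ V.al) (h2 : 0 ≤ V.be)
    (h3 : V.be ≤ 3 / 2) (h4 : 0 ≤ V.c) (h5 : ∀ k, 0 ≤ V.d k) {e : ℝ} (he : e ≠ 0)
    {d : ℝ} (hd : 0 < d) (C₁ C₂ : ℝ)
    (hc : ∀ p' q' : ℕ, (p' = p ∧ q' = q ∨ p' = q ∧ q' = p) →
      ∀ w ∈ Frt x0, 0 ≤ w.im → 0 ≤ w.re → (d ≤ ‖1 - w‖ ∧ ∃ R, TCert V e p' q' r C₁ w R) ∨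
        ∃ R, GCert V e p' q' r Y0 (liveT p' q' r) C₂ w R) : ZF p q r x0 := by
  have hq : 3 ≤ q := hp.trans hpq
  have hr : 3 ≤ r := hq.trans hqr
  refine zf_of_parts hp hq hr hne hx (Y := Y0) (Y' := Y0) (live := liveT p q r)
    (live' := liveT q p r) he (clo_sorted hp hpq hqr hx hA h1 h2 h3 h4 h5 _)
    (Y0_rel _) (liveT_rl (Pool.Agent.Helper21.SUP.mmOK_02 p q r)) hd C₁ C₂ ?_ ?_
  · intro w hw hi hre
    rcases hc p q (Or.inl ⟨rfl, rfl⟩) w hw hi hre with ⟨h6, R, hR⟩ | h6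
    · exact Or.inl ⟨h6, _, hR.pcert hp hq hr⟩
    · exact Or.inr h6
  · intro w hw hi hre
    rcases hc q p (Or.inr ⟨rfl, rfl⟩) w hw hi hre with ⟨h6, R, hR⟩ | h6
    · exact Or.inl ⟨h6, _, hR.pcert hq hp hr⟩
    · exact Or.inr h6

end Pool.Agent.Helper6.MONO
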