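import Pool.Agent.Helper6.CX.TPC

/-!
Row ARC: the quarter of the critical line in terms of `z` and of `x = z + 1/z = x0 + i y`.
-/

set_option autoImplicit false
noncomputable section
namespace Pool.Agent.Helper6.MONO

open Pool.Agent.Helper21.SUP (GS SBlk SSt DG Ty std Modes)
open Pool.Agent.Helper39.SLT (T4)

theorem zw_wz {w : ℂ} (h : 1 - w ≠ 0) : zw (wz w) = w := by
  unfold zw wz
  have h2 : (1 + w) / (1 - w) + 1 = 2 / (1 - w) := by
    field_simp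
    ring
  have h3 : (1 + w) / (1 - w) - 1 = 2 * w / (1 - w) := by
    field_simp
    ring
  rw [h2, h3]
  field_simp

/-- `z` of a point of the quarter -/
theorem arc_z {x0 : ℝ} (hx : -2 < x0) {w : ℂ} (hw : w ∈ Frt x0) (hr : 0 ≤ w.re) (hi : 0 ≤ w.im)
    (h1 : w ≠ 1) : ∃ (z : ℂ) (y : ℝ), 0 ≤ y ∧ z ≠ 0 ∧ 1 ≤ ‖z‖ ∧ 0 ≤ z.im ∧
      z + z⁻¹ = (x0 : ℂ) + (y : ℂ) * Complex.I ∧ zw z = w := by
  have a1 : 1 - w ≠ 0 := fun h => h1 (by linear_combination -h)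
  have h2 : w ≠ -1 := by
    rintro rfl
    simp at hr
    linarith
  have a2 : 1 + w ≠ 0 := fun h => h2 (by linear_combination h)
  have hz0 : wz w ≠ 0 := div_ne_zero a2 a1
  have hn : ‖1 - w‖ ≤ ‖1 + w‖ := by
    have h3 : ‖1 - w‖ ^ 2 ≤ ‖1 + w‖ ^ 2 := by
      rw [← Complex.normSq_eq_norm_sq, ← Complex.normSq_eq_norm_sq, Complex.normSq_apply,
        Complex.normSq_apply]
      simp
      nlinarith
    exact le_of_sq_le_sq h3 (norm_nonneg _)
  have hz1 : 1 ≤ ‖wz w‖ := by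
    rw [wz, norm_div, le_div_iff₀ (norm_pos_iff.2 a1), one_mul]
    exact hn
  have hzi : 0 ≤ (wz w).im := by
    have e : (wz w).im = 2 * w.im / Complex.normSq (1 - w) := by
      rw [wz, Complex.div_im]
      simp
      ring
    rw [e]
    exact div_nonneg (by linarith) (Complex.normSq_nonneg _)
  have hre : (wz w + (wz w)⁻¹).re = x0 := frt_z hx hw h1 h2
  refine ⟨wz w, (wz w + (wz w)⁻¹).im, ?_, hz0, hz1, hzi, ?_, zw_wz a1⟩
  · rw [Complex.add_im, Complex.inv_im]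
    have hns : 1 ≤ Complex.normSq (wz w) := by
      rw [Complex.normSq_eq_norm_sq]
      nlinarith
    have h4 : (wz w).im / Complex.normSq (wz w) ≤ (wz w).im :=
      div_le_self hzi hns
    have h5 : -(wz w).im / Complex.normSq (wz w) = -((wz w).im / Complex.normSq (wz w)) := by
      rw [neg_div]
    rw [h5]
    linarith
  · apply Complex.ext
    · rw [hre]
      simp
    · simp

/-- the distance to `w = 1` -/
theorem arc_dist {x0 : ℝ} (hx : -2 < x0) {w : ℂ} (hw : w ∈ Frt x0) {z : ℂ} {y : ℝ} (hy : 0 ≤ y)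
    (hz : z ≠ 0) (h1 : 1 ≤ ‖z‖) (he : z + z⁻¹ = (x0 : ℂ) + (y : ℂ) * Complex.I) (hzw : zw z = w) :
    4 / ((|x0| + 2 + y) * (1 + Real.sqrt ((2 + |x0|) / (x0 + 2)))) ≤ ‖1 - w‖ := by
  have hz1 : z + 1 ≠ 0 := by
    intro h
    have h2 : z = -1 := by linear_combination h
    rw [h2] at he
    have h3 := congrArg Complex.re he
    norm_num at h3
    linarith
  have e1 : 1 - w = 2 / (z + 1) := by
    rw [← hzw, zw]
    field_simp
    ring
  have e2 : (1 - w) * (1 + w) * (z + z⁻¹ + 2) = 4 := by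
    rw [← hzw, zw]
    field_simp
    ring
  have hxn : ‖z + z⁻¹ + 2‖ ≤ |x0| + 2 + y := by
    rw [he]
    calc ‖(x0 : ℂ) + (y : ℂ) * Complex.I + 2‖ ≤ ‖(x0 : ℂ)‖ + ‖(y : ℂ) * Complex.I‖ + ‖(2 : ℂ)‖ :=
          norm_add₃_le
      _ = |x0| + y + 2 := by
          rw [norm_mul, Complex.norm_I, mul_one, Complex.norm_real, Complex.norm_real,
            Real.norm_eq_abs, Real.norm_eq_abs, abs_of_nonneg hy]
          norm_num
      _ = |x0| + 2 + y := by ring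
  have hwn : ‖1 + w‖ ≤ 1 + Real.sqrt ((2 + |x0|) / (x0 + 2)) := by
    refine (norm_add_le _ _).trans ?_
    rw [norm_one]
    have := Real.le_sqrt_of_sq_le (frt_norm hx hw)
    linarith
  have e3 : ‖1 - w‖ * ‖1 + w‖ * ‖z + z⁻¹ + 2‖ = 4 := by
    rw [← norm_mul, ← norm_mul, e2]
    norm_num
  have hp : 0 < (|x0| + 2 + y) * (1 + Real.sqrt ((2 + |x0|) / (x0 + 2))) := by
    have := abs_nonneg x0
    have := Real.sqrt_nonneg ((2 + |x0|) / (x0 + 2))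
    positivity
  rw [div_le_iff₀ hp]
  have h4 : ‖1 + w‖ * ‖z + z⁻¹ + 2‖ ≤
      (|x0| + 2 + y) * (1 + Real.sqrt ((2 + |x0|) / (x0 + 2))) := by
    rw [mul_comm (|x0| + 2 + y)]
    exact mul_le_mul hwn hxn (norm_nonneg _) (by positivity)
  calc (4 : ℝ) = ‖1 - w‖ * (‖1 + w‖ * ‖z + z⁻¹ + 2‖) := by rw [← e3]; ring
    _ ≤ _ := mul_le_mul_of_nonneg_left h4 (norm_nonneg _)

/-- the ratio `ω` of a state in terms of `z` -/
theorem arc_om (p q r : ℕ) (s : GS) {z : ℂ} (hz : z ≠ 0) (h1 : z + 1 ≠ 0)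
    (hd : 1 + (lamS p q r s : ℂ) * z ≠ 0) (hd' : 1 + (lamS p q r s : ℂ) * z⁻¹ ≠ 0) :
    omS p q r s (zw z) = if oriZ s then 1 / (2 * (1 + (lamS p q r s : ℂ) * z))
      else 1 / (2 * (1 + (lamS p q r s : ℂ) * z⁻¹)) := by
  rw [omS_eq, numS, denS]
  have e1 : 1 - zw z = 2 / (z + 1) := by
    rw [zw]
    field_simp
    ring
  have e2 : 1 + zw z = 2 * z / (z + 1) := by
    rw [zw]
    field_simp
    ring
  rw [e1, e2]
  have hd2 : z + (lamS p q r s : ℂ) ≠ 0 := by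
    intro h
    apply hd'
    field_simp
    linear_combination h
  cases oriZ s with
  | true =>
    simp only [if_true]
    have e3 : 2 / (z + 1) + (lamS p q r s : ℂ) * (2 * z / (z + 1)) =
        2 * (1 + (lamS p q r s : ℂ) * z) / (z + 1) := by
      field_simp
    rw [e3]
    field_simp
  | false =>
    simp only [Bool.false_eq_true, if_false]
    have e3 : 2 * z / (z + 1) + (lamS p q r s : ℂ) * (2 / (z + 1)) =
        2 * (z + (lamS p q r s : ℂ)) / (z + 1) := by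
      field_simp
    rw [e3]
    field_simp

/-- THE CLASS THEOREM in terms of `y = Im x`: typed certificates for `0 ≤ y ≤ Y1`, certificates in
the global charts for `Y1 ≤ y ≤ ∞` (`ε = 1/z`). -/
theorem zf_cells {p q r : ℕ} (hp : 3 ≤ p) (hpq : p ≤ q) (hqr : q ≤ r)
    (hne : ¬ (p = 3 ∧ q = 3 ∧ r = 3)) {x0 : ℝ} (hx : -2 < x0) (hA : xA p q r ≤ x0) {V : RV2}
    (h1 : 0 ≤ V.al) (h2 : 0 ≤ V.be) (h3 : V.be ≤ 3 / 2) (h4 : 0 ≤ V.c) (h5 : ∀ k, 0 ≤ V.d k)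
    {e : ℝ} (he : e ≠ 0) {Y1 : ℝ} (hY : 0 ≤ Y1) (C₁ C₂ : ℝ)
    (hnear : ∀ p' q' : ℕ, (p' = p ∧ q' = q ∨ p' = q ∧ q' = p) → ∀ (z : ℂ) (y : ℝ), 0 ≤ y →
      y ≤ Y1 → z ≠ 0 → 1 ≤ ‖z‖ → 0 ≤ z.im → z + z⁻¹ = (x0 : ℂ) + (y : ℂ) * Complex.I →
      ∃ R, TCert V e p' q' r C₁ (zw z) R)
    (hfar : ∀ p' q' : ℕ, (p' = p ∧ q' = q ∨ p' = q ∧ q' = p) → ∀ ε : ℂ,
      (ε = 0 ∨ ∃ y : ℝ, Y1 ≤ y ∧ ε ≠ 0 ∧ ‖ε‖ ≤ 1 ∧ ε.im ≤ 0 ∧
        ε⁻¹ + ε = (x0 : ℂ) + (y : ℂ) * Complex.I) →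
      ∃ R, GCert V e p' q' r Y0 (liveT p' q' r) C₂ ((1 - ε) / (1 + ε)) R) : ZF p q r x0 := by
  set d : ℝ := 4 / ((|x0| + 2 + Y1) * (1 + Real.sqrt ((2 + |x0|) / (x0 + 2)))) with hd
  have hd0 : 0 < d := by
    have := abs_nonneg x0
    have := Real.sqrt_nonneg ((2 + |x0|) / (x0 + 2))
    positivity
  refine zf_sorted hp hpq hqr hne hx hA h1 h2 h3 h4 h5 he hd0 C₁ C₂ ?_
  intro p' q' hpq' w hw hi hre
  by_cases hw1 : w = 1
  · right
    have h6 := hfar p' q' hpq' 0 (Or.inl rfl)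
    rw [hw1]
    simpa using h6
  obtain ⟨z, y, hy, hz, hz1, hzi, hez, hzw⟩ := arc_z hx hw hre hi hw1
  rcases le_total y Y1 with hyY | hyY
  · left
    refine ⟨?_, ?_⟩
    · refine le_trans ?_ (arc_dist hx hw hy hz hz1 hez hzw)
      rw [hd]
      have := abs_nonneg x0
      have := Real.sqrt_nonneg ((2 + |x0|) / (x0 + 2))
      apply div_le_div_of_nonneg_left (by norm_num) (by positivity)
      exact mul_le_mul_of_nonneg_right (by linarith) (by positivity)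
    · obtain ⟨R, hR⟩ := hnear p' q' hpq' z y hy hyY hz hz1 hzi hez
      rw [← hzw]
      exact ⟨R, hR⟩
  · right
    have h6 := hfar p' q' hpq' z⁻¹ (Or.inr ⟨y, hyY, inv_ne_zero hz, ?_, ?_, ?_⟩)
    · have e1 : (1 - z⁻¹) / (1 + z⁻¹) = w := by
        rw [← hzw, zw]
        have h7 : 1 - z⁻¹ = (z - 1) * z⁻¹ := by field_simp
        have h8 : 1 + z⁻¹ = (z + 1) * z⁻¹ := by field_simp
        rw [h7, h8, mul_div_mul_right _ _ (inv_ne_zero hz)]
      rw [e1] at h6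
      exact h6
    · rw [norm_inv]
      exact inv_le_one_of_one_le₀ hz1
    · rw [Complex.inv_im]
      exact div_nonpos_of_nonpos_of_nonneg (by linarith) (Complex.normSq_nonneg _)
    · rw [inv_inv]
      exact hez

end Pool.Agent.Helper6.MONO
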