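import Pool.Agent.Helper6.CX.LNI

/-!
LNK, third part: the global charts, regular up to `w = 1` and `w = -1`, for the standard scheme of
superblocks, and the regular block matrices.
-/

set_option autoImplicit false
noncomputable section
namespace Pool.Agent.Helper6.MONO

open Pool.Agent.Helper21.SUP (GS Sch gM gM_append fD SBlk SSt DG DG_nx sD_cons sD_nil sD_append
  okD_cons Ty std Modes std_blk alL alL_self)

open Pool.Agent.Helper21.SUP renaming nx → nxs

/-! ### ratios -/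

/-- numerator of `2 ω` -/
def numS (s : GS) (w : ℂ) : ℂ := if oriZ s then 1 - w else 1 + w

/-- denominator -/
def denS (p q r : ℕ) (s : GS) (w : ℂ) : ℂ :=
  if oriZ s then (1 - w) + (lamS p q r s : ℂ) * (1 + w)
  else (1 + w) + (lamS p q r s : ℂ) * (1 - w)

theorem omS_eq (p q r : ℕ) (s : GS) (w : ℂ) :
    omS p q r s w = numS s w / (2 * denS p q r s w) := by
  unfold omS omW numS denS
  cases oriZ s <;> simp

/-- `τ = 1/2 - ω` -/
def teS (p q r : ℕ) (s : GS) (w : ℂ) : ℂ := 1 / 2 - omS p q r s w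

theorem denS_ne {p q r : ℕ} (hp : 3 ≤ p) (hq : 3 ≤ q) (hr : 3 ≤ r) {x0 : ℝ} (hx : -2 < x0)
    {s : GS} (h : DG s) {w : ℂ} (hw : w ∈ closure (Omg x0)) : denS p q r s w ≠ 0 := by
  have hl := LNI_lam_pos hp hq hr h
  unfold denS
  cases oriZ s with
  | true => simpa using omW_den hx hl hw
  | false => simpa using omW_den' hx hl hw

theorem denS_reg (p q r : ℕ) (s : GS) : Differentiable ℂ (denS p q r s) := by
  unfold denS
  cases oriZ s <;> simp <;> fun_prop

/-- `ω'/ω` after an even run -/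
def rhoG (p q r : ℕ) (s : GS) (w : ℂ) : ℂ := denS p q r s w / denS p q r (nxs s 2) w

/-- `τ/τ'` after an even run -/
def tauG (p q r : ℕ) (s : GS) (w : ℂ) : ℂ :=
  (lamS p q r s / lamS p q r (nxs s 2) : ℝ) * (denS p q r (nxs s 2) w / denS p q r s w)

/-- `ω/τ'` after an odd run -/
def kapG (p q r : ℕ) (s : GS) (w : ℂ) : ℂ :=
  denS p q r (nxs s 3) w / ((lamS p q r s : ℂ) * denS p q r s w)

theorem oriZ_even {s : GS} (h : DG s) : oriZ (nxs s 2) = oriZ s := by
  obtain ⟨n, a, b⟩ := s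
  exact oriZ_rot h

theorem oriZ_odd {s : GS} (h : DG s) : oriZ (nxs s 3) = !oriZ s := by
  obtain ⟨n, a, b⟩ := s
  exact oriZ_flip h

theorem lamS_odd (p q r : ℕ) (s : GS) : lamS p q r (nxs s 3) = lamS p q r s := by
  obtain ⟨n, a, b⟩ := s
  show 2 * kk p q r b a / (kk p q r n b * kk p q r n a) =
    2 * kk p q r a b / (kk p q r n a * kk p q r n b)
  rw [LNI_kk_symm p q r b a, mul_comm (kk p q r n b)]

theorem rhoG_om {p q r : ℕ} {s : GS} (h : DG s) {w : ℂ} (h1 : denS p q r s w ≠ 0)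
    (h2 : denS p q r (nxs s 2) w ≠ 0) :
    rhoG p q r s w * omS p q r s w = omS p q r (nxs s 2) w := by
  rw [omS_eq, omS_eq, rhoG]
  have : numS (nxs s 2) w = numS s w := by rw [numS, numS, oriZ_even h]
  rw [this]
  field_simp

theorem teS_eq {p q r : ℕ} {s : GS} {w : ℂ} (h1 : denS p q r s w ≠ 0) :
    teS p q r s w = (lamS p q r s : ℂ) * (if oriZ s then 1 + w else 1 - w) /
      (2 * denS p q r s w) := by
  have hd : denS p q r s w = numS s w + (lamS p q r s : ℂ) * (if oriZ s then 1 + w else 1 - w) := by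
    unfold denS numS
    cases oriZ s <;> simp
  rw [teS, omS_eq]
  field_simp
  rw [hd]
  ring

theorem tauG_te {p q r : ℕ} (hp : 3 ≤ p) (hq : 3 ≤ q) (hr : 3 ≤ r) {s : GS} (h : DG s) {w : ℂ}
    (h1 : denS p q r s w ≠ 0) (h2 : denS p q r (nxs s 2) w ≠ 0) :
    tauG p q r s w * teS p q r (nxs s 2) w = teS p q r s w := by
  have hl : (lamS p q r (nxs s 2) : ℂ) ≠ 0 := by
    exact_mod_cast (LNI_lam_pos hp hq hr (DG_nx s 2 h)).ne'
  rw [teS_eq h1, teS_eq h2, tauG, oriZ_even h]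
  push_cast
  field_simp

theorem kapG_te {p q r : ℕ} (hp : 3 ≤ p) (hq : 3 ≤ q) (hr : 3 ≤ r) {s : GS} (h : DG s) {w : ℂ}
    (h1 : denS p q r s w ≠ 0) (h2 : denS p q r (nxs s 3) w ≠ 0) :
    kapG p q r s w * teS p q r (nxs s 3) w = omS p q r s w := by
  have hl : (lamS p q r s : ℂ) ≠ 0 := by
    exact_mod_cast (LNI_lam_pos hp hq hr h).ne'
  rw [teS_eq h2, omS_eq, kapG, oriZ_odd h, lamS_odd, numS]
  cases oriZ s <;> simp <;> field_simp

/-! ### the charts -/

/-- from the chart of a `Y` state to the plain chart -/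
def DYm (om : ℂ) : Matrix (Fin 3) (Fin 3) ℂ := !![1, 0, 0; 0, om, 0; 0, 0, om * (1 / 2 - om)]

/-- from the chart of an `L` state to the plain chart -/
def DLm (om : ℂ) : Matrix (Fin 3) (Fin 3) ℂ := !![1, 0, 0; 0, 1 / 2 - om, om; 0, 1 / 2 - om, 0]

/-- both -/
def DKm (L : Bool) (om : ℂ) : Matrix (Fin 3) (Fin 3) ℂ := if L then DLm om else DYm om

/-- change of star, target a `Y` state -/
def CGm (p q r : ℕ) (s : GS) (m : ℕ) (w : ℂ) : Matrix (Fin 3) (Fin 3) ℂ :=
  if m % 2 = 1 then !![1, 0, 0; 0, 1, 0; 0, 0, kapG p q r s w]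
  else !![1, 0, (kk p q r s.1 s.2.1 : ℂ) * omS p q r s w / 2 -
      (kk p q r s.1 s.2.1 : ℂ) ^ 2 / (4 * (2 + (kk p q r s.1 s.2.1 : ℂ)));
    0, 1, 0; 0, 0, (kk p q r s.1 s.2.1 : ℂ) / 2 * tauG p q r s w]

/-- the matrix of a run from a state with chart `L` or `Y` to a state with chart `Y` -/
def GR (p q r : ℕ) (L : Bool) (s : GS) (m : ℕ) (w : ℂ) : Matrix (Fin 3) (Fin 3) ℂ :=
  CGm p q r s m w * (Bm (kk p q r s.1 s.2.1) (Rb (mm p q r s.1 s.2.1) (m - 1)) *
    DKm L (omS p q r s w))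

theorem nx_par (s : GS) (m : ℕ) : nxs s m = if m % 2 = 1 then nxs s 3 else nxs s 2 := by
  obtain ⟨n, a, b⟩ := s
  rcases Nat.mod_two_eq_zero_or_one m with h | h
  · rw [if_neg (by omega)]
    show nxD m n a b = nxD 2 n a b
    rw [nxD, if_pos h, nxD, if_pos rfl]
  · rw [if_pos h]
    show nxD m n a b = nxD 3 n a b
    rw [nxD, if_neg (by omega), nxD, if_neg (by omega)]

theorem DY_CG {p q r : ℕ} (hp : 3 ≤ p) (hq : 3 ≤ q) (hr : 3 ≤ r) {s : GS} (h : DG s) (m : ℕ)
    {w : ℂ} (h1 : denS p q r s w ≠ 0) (h2 : denS p q r (nxs s m) w ≠ 0) :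
    Cm (decide (m % 2 = 1)) (kk p q r s.1 s.2.1) (omS p q r s w) (omS p q r (nxs s m) w) =
      DYm (omS p q r (nxs s m) w) * CGm p q r s m w := by
  rcases Nat.mod_two_eq_zero_or_one m with hm | hm
  · have hnx : nxs s m = nxs s 2 := by rw [nx_par, if_neg (by omega)]
    rw [hnx] at h2 ⊢
    have e := tauG_te hp hq hr h h1 h2
    rw [teS, teS] at e
    rw [show (decide (m % 2 = 1)) = false by simp [hm], Cm, if_neg Bool.false_ne_true, CGm,
      if_neg (by omega), DYm]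
    ext i j
    fin_cases i <;> fin_cases j <;> simp [Matrix.mul_apply, Fin.sum_univ_three]
    rw [one_div] at e
    linear_combination (-(omS p q r (nxs s 2) w * ((kk p q r s.1 s.2.1 : ℂ) / 2))) * e
  · have hnx : nxs s m = nxs s 3 := by rw [nx_par, if_pos hm]
    rw [hnx] at h2 ⊢
    have e := kapG_te hp hq hr h h1 h2
    rw [teS] at e
    rw [show (decide (m % 2 = 1)) = true by simp [hm], Cm, if_pos rfl, CGm, if_pos hm, DYm]
    ext i j
    fin_cases i <;> fin_cases j <;> simp [Matrix.mul_apply, Fin.sum_univ_three]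
    rw [one_div] at e
    linear_combination (-(omS p q r (nxs s 3) w)) * e

/-- a run into a `Y` state -/
theorem RMb_DK {p q r : ℕ} (hp : 3 ≤ p) (hq : 3 ≤ q) (hr : 3 ≤ r) {s : GS} (h : DG s) (L : Bool)
    (m : ℕ) {w : ℂ} (h1 : denS p q r s w ≠ 0) (h2 : denS p q r (nxs s m) w ≠ 0) :
    RMb p q r s m w * DKm L (omS p q r s w) =
      DYm (omS p q r (nxs s m) w) * GR p q r L s m w := by
  rw [RMb, DY_CG hp hq hr h m h1 h2, GR]
  simp only [Matrix.mul_assoc]

/-! ### runs of two letters -/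

/-- the `S` parameter of a state -/
def SS (p q r : ℕ) (s : GS) : ℂ := (SbP (kk p q r s.1 s.2.1) : ℂ)

/-- `2`-run from `Y` to `L` -/
def N1m (p q r : ℕ) (s : GS) (w : ℂ) : Matrix (Fin 3) (Fin 3) ℂ :=
  !![1, 1, teS p q r s w; rhoG p q r s w * tauG p q r s w, 0, 0;
    1, 1, -(SS p q r s) * teS p q r s w]

/-- `2`-run from `L` to `L` -/
def NLm (p q r : ℕ) (s : GS) (w : ℂ) : Matrix (Fin 3) (Fin 3) ℂ :=
  !![omS p q r s w, 2 * teS p q r s w, omS p q r s w;
    omS p q r (nxs s 2) w * tauG p q r s w, 0, 0;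
    omS p q r s w, teS p q r s w * (1 - SS p q r s), omS p q r s w]

/-- two `2`-runs from `L` to `L`, divided by `ω` -/
def UUm (p q r : ℕ) (s : GS) (w : ℂ) : Matrix (Fin 3) (Fin 3) ℂ :=
  !![1, teS p q r s w * (3 - SS p q r s), 2 * omS p q r s w;
    rhoG p q r (nxs s 2) w * tauG p q r (nxs s 2) w * omS p q r s w,
    2 * (rhoG p q r (nxs s 2) w * tauG p q r (nxs s 2) w) * teS p q r s w,
    rhoG p q r (nxs s 2) w * tauG p q r (nxs s 2) w * omS p q r s w;
    2 * omS p q r s w + teS p q r s w * (1 - SS p q r (nxs s 2)), teS p q r s w * (3 - SS p q r s),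
    2 * omS p q r s w]

theorem LNG_Rb_one {M : ℕ} (hM : 3 ≤ M) :
    (Rb M 1 : ℝ) = 1 + 2 / Kp M ∧ Rb M 1 ^ 2 - SbP (Kp M) = 2 * Rb M 1 ∧
      (Rb M 1 ^ 2 + SbP (Kp M)) * Kp M = 4 * Rb M 1 := by
  have hk := (LNI_Kp hM).1
  have hM' : (3 : ℝ) ≤ M := by exact_mod_cast hM
  set f : ℝ := Real.pi / M with hf
  have hf0 : 0 < f := by positivity
  have hf1 : f < Real.pi := by
    rw [hf, div_lt_iff₀ (by linarith)]
    nlinarith [Real.pi_pos]
  have hc : Real.cos f ≠ 0 := by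
    intro h0
    rw [Kp, ← hf, h0] at hk
    simp at hk
  have hs2 : Real.sin (f / 2) ≠ 0 := (Real.sin_pos_of_pos_of_lt_pi (by linarith) (by linarith)).ne'
  have e1 : Real.sin f = 2 * Real.sin (f / 2) * Real.cos (f / 2) := by
    rw [← Real.sin_two_mul]; congr 1; ring
  have e2 : Real.cos f = 2 * Real.cos (f / 2) ^ 2 - 1 := by
    rw [← Real.cos_two_mul]; congr 1; ring
  have r1 : (Rb M 1 : ℝ) = 1 + 2 / Kp M := by
    rw [Rb, Kp, ← hf, Real.tan_eq_sin_div_cos]
    have : ((1 : ℕ) : ℝ) * f / 2 = f / 2 := by push_cast; ring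
    rw [this]
    field_simp
    rw [e1]
    linear_combination (-(Real.sin (f / 2))) * e2
  refine ⟨r1, ?_, ?_⟩
  · rw [r1, SbP]
    field_simp
    ring
  · rw [r1, SbP]
    field_simp
    ring

theorem RMb_two {p q r : ℕ} (hp : 3 ≤ p) (hq : 3 ≤ q) (hr : 3 ≤ r) {s : GS} (h : DG s) (w : ℂ) :
    ∃ R : ℂ, R ≠ 0 ∧ RMb p q r s 2 w = R •
      !![2 * omS p q r s w, 2, 2;
        omS p q r (nxs s 2) w, 2 * omS p q r (nxs s 2) w, -2 * SS p q r s * omS p q r (nxs s 2) w;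
        2 * omS p q r (nxs s 2) w * teS p q r s w, 0, 0] := by
  have hM := LNI_mm hp hq hr s.1 s.2.1 h.1
  have hk := (LNI_kk hp hq hr s.1 s.2.1 h.1).1
  obtain ⟨r1, r2, r3⟩ := LNG_Rb_one hM
  have hkk : Kp (mm p q r s.1 s.2.1) = kk p q r s.1 s.2.1 := rfl
  rw [hkk] at r1 r2 r3
  set k := kk p q r s.1 s.2.1 with hkdef
  set R : ℝ := Rb (mm p q r s.1 s.2.1) 1 with hR
  have hR0 : 0 < R := by rw [r1]; positivity
  have c0 : (k : ℂ) ≠ 0 := by exact_mod_cast hk.ne'
  have c1 : (2 + (k : ℂ)) ≠ 0 := by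
    have : (0 : ℝ) < 2 + k := by linarith
    exact_mod_cast this.ne'
  have d1 : (R : ℂ) = 1 + 2 / (k : ℂ) := by rw [r1]; push_cast; ring
  have d2 : (R : ℂ) ^ 2 - (SbP k : ℂ) = 2 * (R : ℂ) := by
    have := congrArg (fun x : ℝ => (x : ℂ)) r2
    push_cast at this
    exact this
  have d3 : ((R : ℂ) ^ 2 + (SbP k : ℂ)) = 4 * (R : ℂ) / (k : ℂ) := by
    have := congrArg (fun x : ℝ => (x : ℂ)) r3
    push_cast at this
    rw [eq_div_iff c0]
    exact this
  refine ⟨(R : ℂ), by exact_mod_cast hR0.ne', ?_⟩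
  have hB : Bm k R = (R : ℂ) • !![1 / (R : ℂ), 2, 2; 1, 2, -2 * SS p q r s; 4 / (k : ℂ), 0, 0] := by
    rw [Bm, d2, d3]
    have hRc : (R : ℂ) ≠ 0 := by exact_mod_cast hR0.ne'
    ext i j
    fin_cases i <;> fin_cases j <;> simp [SS, hRc, ← hkdef] <;> ring
  show Cm (decide (2 % 2 = 1)) k (omS p q r s w) (omS p q r (nxs s 2) w) *
    Bm k (Rb (mm p q r s.1 s.2.1) (2 - 1)) = _
  rw [show (2 - 1 : ℕ) = 1 from rfl, ← hR, hB, Matrix.mul_smul]
  congr 1
  rw [show (decide (2 % 2 = 1)) = false by decide, Cm]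
  simp only [Bool.false_eq_true, if_false]
  have hk2 : (k : ℂ) + 2 ≠ 0 := by rw [add_comm]; exact c1
  ext i j
  fin_cases i <;> fin_cases j <;> simp [Matrix.mul_apply, Fin.sum_univ_three, teS]
  · rw [d1]
    field_simp
    ring
  · ring
  · field_simp
  · field_simp
    ring

theorem RMb_two_Y {p q r : ℕ} (hp : 3 ≤ p) (hq : 3 ≤ q) (hr : 3 ≤ r) {s : GS} (h : DG s) {w : ℂ}
    (h1 : denS p q r s w ≠ 0) (h2 : denS p q r (nxs s 2) w ≠ 0) :
    ∃ R : ℂ, R ≠ 0 ∧ RMb p q r s 2 w * DYm (omS p q r s w) =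
      (R * omS p q r s w) • (DLm (omS p q r (nxs s 2) w) * N1m p q r s w) := by
  obtain ⟨R, hR, e⟩ := RMb_two hp hq hr h w
  refine ⟨2 * R, mul_ne_zero two_ne_zero hR, ?_⟩
  have e1 := rhoG_om h h1 h2
  have e2 := tauG_te hp hq hr h h1 h2
  rw [e, Matrix.smul_mul]
  rw [show (2 * R * omS p q r s w) • (DLm (omS p q r (nxs s 2) w) * N1m p q r s w) =
    R • ((2 * omS p q r s w) • (DLm (omS p q r (nxs s 2) w) * N1m p q r s w)) by
      rw [smul_smul]; ring_nf]
  congr 1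
  rw [DYm, DLm, N1m]
  simp only [teS] at e2 ⊢
  set o := omS p q r s w
  set o' := omS p q r (nxs s 2) w
  set ρ := rhoG p q r s w
  set τ := tauG p q r s w
  ext i j
  fin_cases i <;> fin_cases j <;>
    simp [Matrix.mul_apply, Fin.sum_univ_three, teS, -mul_eq_mul_left_iff] <;>
    rw [one_div] at e2
  · ring
  · linear_combination (-(2 * o * ρ)) * e2 + (-1 + 2 * o) * e1
  · ring
  · ring
  · linear_combination (-(2 * o * ρ)) * e2 + (-2 * (2⁻¹ - o)) * e1

theorem RMb_two_L {p q r : ℕ} (hp : 3 ≤ p) (hq : 3 ≤ q) (hr : 3 ≤ r) {s : GS} (h : DG s) {w : ℂ}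
    (h1 : denS p q r s w ≠ 0) (h2 : denS p q r (nxs s 2) w ≠ 0) :
    ∃ R : ℂ, R ≠ 0 ∧ RMb p q r s 2 w * DLm (omS p q r s w) =
      R • (DLm (omS p q r (nxs s 2) w) * NLm p q r s w) := by
  obtain ⟨R, hR, e⟩ := RMb_two hp hq hr h w
  refine ⟨2 * R, mul_ne_zero two_ne_zero hR, ?_⟩
  have e1 := rhoG_om h h1 h2
  have e2 := tauG_te hp hq hr h h1 h2
  rw [e, Matrix.smul_mul]
  rw [show (2 * R) • (DLm (omS p q r (nxs s 2) w) * NLm p q r s w) =
    R • ((2 : ℂ) • (DLm (omS p q r (nxs s 2) w) * NLm p q r s w)) by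
      rw [smul_smul]; ring_nf]
  congr 1
  rw [DLm, DLm, NLm]
  simp only [teS] at e2 ⊢
  set o := omS p q r s w
  set o' := omS p q r (nxs s 2) w
  set ρ := rhoG p q r s w
  set τ := tauG p q r s w
  ext i j
  fin_cases i <;> fin_cases j <;>
    simp [Matrix.mul_apply, Fin.sum_univ_three, -mul_eq_mul_left_iff] <;>
    rw [one_div] at e2
  · ring
  · linear_combination (-2 * o') * e2
  · ring
  · ring
  · linear_combination (-2 * o') * e2

theorem NL_NL {p q r : ℕ} (hp : 3 ≤ p) (hq : 3 ≤ q) (hr : 3 ≤ r) {s : GS} (h : DG s) {w : ℂ}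
    (h1 : denS p q r s w ≠ 0) (h2 : denS p q r (nxs s 2) w ≠ 0)
    (h3 : denS p q r (nxs (nxs s 2) 2) w ≠ 0) :
    NLm p q r (nxs s 2) w * NLm p q r s w = omS p q r (nxs s 2) w • UUm p q r s w := by
  have e1 := rhoG_om (DG_nx s 2 h) h2 h3
  have e2 := tauG_te hp hq hr h h1 h2
  rw [NLm, NLm, UUm]
  simp only [teS] at e2 ⊢
  set o := omS p q r s w
  set o' := omS p q r (nxs s 2) w
  set o'' := omS p q r (nxs (nxs s 2) 2) w
  set ρ' := rhoG p q r (nxs s 2) w
  set τ := tauG p q r s w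
  set τ' := tauG p q r (nxs s 2) w
  ext i j
  fin_cases i <;> fin_cases j <;>
    simp [Matrix.mul_apply, Fin.sum_univ_three, -mul_eq_mul_left_iff] <;>
    rw [one_div] at e2
  · linear_combination (2 * o') * e2
  · ring
  · ring
  · linear_combination (-(τ' * o)) * e1
  · linear_combination (-(2 * τ' * (2⁻¹ - o))) * e1
  · linear_combination (-(τ' * o)) * e1
  · linear_combination (o' * (1 - SS p q r (nxs s 2))) * e2
  · ring
  · ring

/-! ### superblocks of `2`-runs -/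

/-- the state after `n` runs of two letters -/
def s2 (s : GS) (n : ℕ) : GS := (fun t => nxs t 2)^[n] s

theorem s2_succ (s : GS) (n : ℕ) : s2 s (n + 1) = nxs (s2 s n) 2 := by
  rw [s2, Function.iterate_succ_apply']
  rfl

theorem s2_DG {s : GS} (h : DG s) (n : ℕ) : DG (s2 s n) := by
  induction n with
  | zero => exact h
  | succ n ih => rw [s2_succ]; exact DG_nx _ 2 ih

theorem s2_sD (s : GS) (n : ℕ) : sD s (List.replicate n 2) = s2 s n := by
  induction n with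
  | zero => exact sD_nil s
  | succ n ih =>
    rw [List.replicate_succ', sD_append, ih, sD_cons, sD_nil, s2_succ]

theorem gM_rep_succ (RM : GS → ℕ → ℂ → Matrix (Fin 3) (Fin 3) ℂ) (s : GS) (n : ℕ) (w : ℂ) :
    gM RM s (List.replicate (n + 1) 2) w =
      RM (s2 s n) 2 w * gM RM s (List.replicate n 2) w := by
  rw [List.replicate_succ', gM_append, s2_sD]
  simp [gM]

/-- the regular matrix of `2 ^ n`, from a `Y` state to an `L` state -/
def BN (p q r : ℕ) (s : GS) : ℕ → ℂ → Matrix (Fin 3) (Fin 3) ℂ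
  | 0, _ => 1
  | 1, w => N1m p q r s w
  | 2, w => NLm p q r (nxs s 2) w * N1m p q r s w
  | n + 3, w => UUm p q r (s2 s (n + 1)) w * BN p q r s (n + 1) w

theorem BN_link {p q r : ℕ} (hp : 3 ≤ p) (hq : 3 ≤ q) (hr : 3 ≤ r) {s : GS} (h : DG s) {w : ℂ}
    (hd : ∀ s', DG s' → denS p q r s' w ≠ 0) (ho : ∀ s', DG s' → omS p q r s' w ≠ 0) :
    ∀ n : ℕ, (∃ c : ℂ, c ≠ 0 ∧ gM (RMb p q r) s (List.replicate (n + 1) 2) w *
        DYm (omS p q r s w) = c • (DLm (omS p q r (s2 s (n + 1)) w) * BN p q r s (n + 1) w)) ∧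
      (∃ c : ℂ, c ≠ 0 ∧ gM (RMb p q r) s (List.replicate (n + 2) 2) w *
        DYm (omS p q r s w) = c • (DLm (omS p q r (s2 s (n + 2)) w) * BN p q r s (n + 2) w)) := by
  have base1 : ∃ c : ℂ, c ≠ 0 ∧ gM (RMb p q r) s (List.replicate (0 + 1) 2) w *
        DYm (omS p q r s w) = c • (DLm (omS p q r (s2 s (0 + 1)) w) * BN p q r s (0 + 1) w) := by
    obtain ⟨R, hR, e⟩ := RMb_two_Y hp hq hr h (hd s h) (hd _ (DG_nx s 2 h))
    refine ⟨R * omS p q r s w, mul_ne_zero hR (ho s h), ?_⟩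
    rw [gM_rep_succ]
    have : gM (RMb p q r) s (List.replicate 0 2) w = 1 := rfl
    rw [this, Matrix.mul_one]
    exact e
  intro n
  induction n with
  | zero =>
    refine ⟨base1, ?_⟩
    obtain ⟨c, hc, e⟩ := base1
    have hs1 : DG (s2 s 1) := s2_DG h 1
    obtain ⟨R, hR, e'⟩ := RMb_two_L hp hq hr hs1 (hd _ hs1) (hd _ (DG_nx _ 2 hs1))
    refine ⟨c * R, mul_ne_zero hc hR, ?_⟩
    have e1 := gM_rep_succ (RMb p q r) s (0 + 1) w
    rw [show (0 + 1 + 1 : ℕ) = 0 + 2 from rfl] at e1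
    rw [e1, Matrix.mul_assoc, e, Matrix.mul_smul, ← Matrix.mul_assoc]
    have e2 : RMb p q r (s2 s (0 + 1)) 2 w * DLm (omS p q r (s2 s (0 + 1)) w) =
      R • (DLm (omS p q r (nxs (s2 s 1) 2) w) * NLm p q r (s2 s 1) w) := e'
    rw [e2, Matrix.smul_mul, smul_smul]
    congr 1
    rw [Matrix.mul_assoc]
    rfl
  | succ n ih =>
    refine ⟨ih.2, ?_⟩
    obtain ⟨c, hc, e⟩ := ih.1
    have hs1 : DG (s2 s (n + 1)) := s2_DG h _
    have hs2 : DG (nxs (s2 s (n + 1)) 2) := DG_nx _ 2 hs1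
    have hs3 : DG (nxs (nxs (s2 s (n + 1)) 2) 2) := DG_nx _ 2 hs2
    obtain ⟨R, hR, e1⟩ := RMb_two_L hp hq hr hs1 (hd _ hs1) (hd _ hs2)
    obtain ⟨R', hR', e2⟩ := RMb_two_L hp hq hr hs2 (hd _ hs2) (hd _ hs3)
    have e3 := NL_NL hp hq hr hs1 (hd _ hs1) (hd _ hs2) (hd _ hs3)
    refine ⟨c * R * R' * omS p q r (nxs (s2 s (n + 1)) 2) w,
      mul_ne_zero (mul_ne_zero (mul_ne_zero hc hR) hR') (ho _ hs2), ?_⟩
    have g1 : gM (RMb p q r) s (List.replicate (n + 1 + 2) 2) w =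
        RMb p q r (nxs (s2 s (n + 1)) 2) 2 w * (RMb p q r (s2 s (n + 1)) 2 w *
          gM (RMb p q r) s (List.replicate (n + 1) 2) w) := by
      have a1 := gM_rep_succ (RMb p q r) s (n + 2) w
      have a2 := gM_rep_succ (RMb p q r) s (n + 1) w
      rw [show (n + 1 + 1 : ℕ) = n + 2 from rfl] at a2
      rw [show (n + 1 + 2 : ℕ) = n + 2 + 1 from rfl, a1, a2]
      congr 1
      rw [show (n + 2 : ℕ) = n + 1 + 1 from rfl, s2_succ]
    have g2 : BN p q r s (n + 1 + 2) w = UUm p q r (s2 s (n + 1)) w * BN p q r s (n + 1) w := by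
      rw [show (n + 1 + 2 : ℕ) = n + 3 from rfl, BN]
    have g3 : s2 s (n + 1 + 2) = nxs (nxs (s2 s (n + 1)) 2) 2 := by
      rw [show (n + 1 + 2 : ℕ) = n + 1 + 1 + 1 from rfl, s2_succ, s2_succ]
    rw [g1, g2, g3, Matrix.mul_assoc, Matrix.mul_assoc, e, Matrix.mul_smul, Matrix.mul_smul]
    rw [← Matrix.mul_assoc (RMb p q r (s2 s (n + 1)) 2 w), e1, Matrix.smul_mul, Matrix.mul_smul,
      Matrix.mul_assoc (DLm _), ← Matrix.mul_assoc (RMb p q r (nxs (s2 s (n + 1)) 2) 2 w), e2,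
      Matrix.smul_mul, Matrix.mul_assoc (DLm _), ← Matrix.mul_assoc (NLm p q r _ w), e3,
      Matrix.smul_mul, Matrix.mul_smul, smul_smul, smul_smul, smul_smul]

/-! ### general blocks -/

/-- the regular matrix of a list of runs into `Y` states, from an `L` or `Y` state -/
def gG (p q r : ℕ) : Bool → GS → List ℕ → ℂ → Matrix (Fin 3) (Fin 3) ℂ
  | _, _, [], _ => 1
  | L, s, m :: ms, w => gG p q r false (nxs s m) ms w * GR p q r L s m w

theorem gG_link {p q r : ℕ} (hp : 3 ≤ p) (hq : 3 ≤ q) (hr : 3 ≤ r) {w : ℂ}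
    (hd : ∀ s', DG s' → denS p q r s' w ≠ 0) :
    ∀ (l : List ℕ) (L : Bool) (s : GS), DG s → (l = [] → L = false) →
      gM (RMb p q r) s l w * DKm L (omS p q r s w) =
        DYm (omS p q r (sD s l) w) * gG p q r L s l w := by
  intro l
  induction l with
  | nil =>
    intro L s h hL
    rw [hL rfl, sD_nil]
    show 1 * DKm false _ = DYm _ * 1
    rw [Matrix.one_mul, Matrix.mul_one]
    rfl
  | cons m l ih =>
    intro L s h hL
    have hs := DG_nx s m h
    have e1 := RMb_DK hp hq hr h L m (hd _ h) (hd _ hs)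
    have e2 := ih false (nxs s m) hs (fun _ => rfl)
    show (gM (RMb p q r) (nxs s m) l w * RMb p q r s m w) * DKm L (omS p q r s w) =
      DYm (omS p q r (sD s (m :: l)) w) * (gG p q r false (nxs s m) l w * GR p q r L s m w)
    rw [Matrix.mul_assoc, e1, sD_cons, ← Matrix.mul_assoc]
    have e3 : gM (RMb p q r) (nxs s m) l w * DYm (omS p q r (nxs s m) w) =
        DYm (omS p q r (sD (nxs s m) l) w) * gG p q r false (nxs s m) l w := e2
    rw [e3, Matrix.mul_assoc]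

/-- THE GLOBAL CHART of a state of the automaton: from the global to the plain chart -/
def DG3 (p q r : ℕ) (s : SSt Ty) (w : ℂ) : Matrix (Fin 3) (Fin 3) ℂ :=
  haveI := Classical.dec (DG s.1)
  if DG s.1 then DKm (decide (s.2.2 = some Ty.B)) (omS p q r s.1 w) else 1

/-- THE REGULAR BLOCK MATRIX -/
def MG (p q r : ℕ) {Y : Modes} (b : SBlk (std Y) p q r) (w : ℂ) : Matrix (Fin 3) (Fin 3) ℂ :=
  if b.t = Ty.B then BN p q r b.s (b.ms.length + 1) w
  else gG p q r (decide (b.o = some Ty.B)) b.s b.runs w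

theorem MG_link {p q r : ℕ} (hp : 3 ≤ p) (hq : 3 ≤ q) (hr : 3 ≤ r) {w : ℂ} {Y : Modes}
    (hd : ∀ s', DG s' → denS p q r s' w ≠ 0) (ho : ∀ s', DG s' → omS p q r s' w ≠ 0)
    (b : SBlk (std Y) p q r) :
    ∃ c : ℂ, c ≠ 0 ∧ gM (RMb p q r) b.s b.runs w * DG3 p q r b.src w =
      c • (DG3 p q r b.tgt w * MG p q r b w) := by
  have hs := b.hs
  have hs' : DG (sD b.s b.runs) := DG_sD _ _ hs
  have hD1 : DG3 p q r b.src w = DKm (decide (b.o = some Ty.B)) (omS p q r b.s w) := by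
    rw [DG3]
    exact if_pos hs
  have hD2 : DG3 p q r b.tgt w = DKm (decide (some b.t = some Ty.B))
      (omS p q r (sD b.s b.runs) w) := by
    rw [DG3]
    exact if_pos hs'
  rw [hD1, hD2]
  obtain ⟨f1, f2, f3⟩ := std_blk Y p q r b.o b.f b.s b.m b.ms b.t b.hb
  by_cases ht : b.t = Ty.B
  · have hrun : b.m :: b.ms = alL 2 2 (b.ms.length + 1) := by
      rcases f3 with h | h | h | h
      · rw [ht] at h; exact absurd h.1 (by decide)
      · rw [ht] at h; exact absurd h.1 (by decide)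
      · exact h.2.2
      · exfalso
        have := h.2.2
        rw [ht] at this
        split_ifs at this
    have hrun' : b.runs = List.replicate (b.ms.length + 1) 2 := by
      show b.m :: b.ms = _
      rw [hrun, alL_self]
    have hm2 : b.m = 2 := by
      have := congrArg List.head? hrun'
      simp [SBlk.runs, List.replicate_succ] at this
      exact this
    have ho' : b.o ≠ some Ty.B := by
      intro h
      rcases f1 Ty.B h with h1 | h1
      · omega
      · exact h1 hm2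
    rw [MG, if_pos ht, ht, hrun', s2_sD]
    rw [show decide (b.o = some Ty.B) = false by simpa using ho',
      show decide (some Ty.B = some Ty.B) = true by simp]
    obtain ⟨c, hc, e⟩ := (BN_link hp hq hr hs hd ho b.ms.length).1
    exact ⟨c, hc, e⟩
  · refine ⟨1, one_ne_zero, ?_⟩
    rw [MG, if_neg ht, one_smul, show decide (some b.t = some Ty.B) = false by simpa using ht]
    exact gG_link hp hq hr hd b.runs _ b.s hs (fun h => by cases h)

/-! ### `Link` for the global charts -/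

theorem denS_zw {p q r : ℕ} (hp : 3 ≤ p) (hq : 3 ≤ q) (hr : 3 ≤ r) {x0 : ℝ} (hx : -2 < x0)
    {z : ℂ} (hz : InX x0 z) (s : GS) (h : DG s) :
    denS p q r s (zw z) ≠ 0 ∧ omS p q r s (zw z) ≠ 0 ∧ teS p q r s (zw z) ≠ 0 := by
  have h1 := denS_ne hp hq hr hx h (subset_closure (zw_mem hx hz))
  have hl : (lamS p q r s : ℂ) ≠ 0 := by exact_mod_cast (LNI_lam_pos hp hq hr h).ne'
  have a1 := zw_ne_one hx hz
  have a2 := zw_ne_neg hx hz
  refine ⟨h1, (LNI_Gh hp hq hr hx hz h).1, ?_⟩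
  rw [teS_eq h1]
  refine div_ne_zero (mul_ne_zero hl ?_) (mul_ne_zero two_ne_zero h1)
  cases oriZ s <;> simpa

theorem DYm_mulVec0 (om : ℂ) (v : V3) : (DYm om).mulVec v 0 = v 0 := by
  simp [DYm, Matrix.mulVec, dotProduct, Fin.sum_univ_three]

theorem DLm_mulVec0 (om : ℂ) (v : V3) : (DLm om).mulVec v 0 = v 0 := by
  simp [DLm, Matrix.mulVec, dotProduct, Fin.sum_univ_three]

theorem DKm_mulVec0 (L : Bool) (om : ℂ) (v : V3) : (DKm L om).mulVec v 0 = v 0 := by
  cases L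
  · exact DYm_mulVec0 om v
  · exact DLm_mulVec0 om v

theorem DKm_det {L : Bool} {om : ℂ} (h1 : om ≠ 0) (h2 : 1 / 2 - om ≠ 0) :
    IsUnit (DKm L om).det := by
  have h : (DKm L om).det ≠ 0 := by
    cases L
    · have e : (DKm false om).det = om * (om * (1 / 2 - om)) := by
        show (DYm om).det = _
        rw [DYm, Matrix.det_fin_three]
        simp
      rw [e]
      exact mul_ne_zero h1 (mul_ne_zero h1 h2)
    · have e : (DKm true om).det = -(om * (1 / 2 - om)) := by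
        show (DLm om).det = _
        rw [DLm, Matrix.det_fin_three]
        simp
      rw [e]
      exact neg_ne_zero.2 (mul_ne_zero h1 h2)
  exact isUnit_iff_ne_zero.2 h

theorem DG3_first (p q r : ℕ) (s : SSt Ty) (w : ℂ) (v : V3) :
    (DG3 p q r s w).mulVec v 0 = v 0 := by
  by_cases h : DG s.1
  · rw [DG3, if_pos h, DKm_mulVec0]
  · rw [DG3, if_neg h, Matrix.one_mulVec]

theorem DG3_det {p q r : ℕ} (hp : 3 ≤ p) (hq : 3 ≤ q) (hr : 3 ≤ r) {x0 : ℝ} (hx : -2 < x0)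
    {z : ℂ} (hz : InX x0 z) (s : SSt Ty) : IsUnit (DG3 p q r s (zw z)).det := by
  by_cases h : DG s.1
  · rw [DG3, if_pos h]
    obtain ⟨-, h2, h3⟩ := denS_zw hp hq hr hx hz s.1 h
    exact DKm_det h2 h3
  · rw [DG3, if_neg h, Matrix.det_one]
    exact isUnit_one

/-- the global chart is bounded -/
theorem DG3_bound {p q r : ℕ} (hp : 3 ≤ p) (hq : 3 ≤ q) (hr : 3 ≤ r) {x0 : ℝ} (hx : -2 < x0) :
    ∃ K : ℝ, 0 ≤ K ∧ ∀ (s : SSt Ty), ∀ w ∈ closure (Omg x0), ∀ v : V3,
      ‖(DG3 p q r s w).mulVec v‖ ≤ K * ‖v‖ := by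
  have hcomp : IsCompact (closure (Omg x0)) := (omg_bounded hx).isCompact_closure
  have hb : ∀ s : GS, ∃ C : ℝ, 0 ≤ C ∧ (DG s → ∀ w ∈ closure (Omg x0), ‖omS p q r s w‖ ≤ C) := by
    intro s
    by_cases h : DG s
    · obtain ⟨C, hC⟩ := hcomp.exists_bound_of_continuousOn (omS_reg hp hq hr hx h).1
      exact ⟨|C|, abs_nonneg C, fun _ w hw => (hC w hw).trans (le_abs_self C)⟩
    · exact ⟨0, le_rfl, fun h' => absurd h' h⟩
  choose C hC0 hC using hb
  set D : ℝ := ∑ s, C s with hD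
  have hD0 : 0 ≤ D := Finset.sum_nonneg fun s _ => hC0 s
  have hCD : ∀ s, C s ≤ D := fun s =>
    Finset.single_le_sum (fun s _ => hC0 s) (Finset.mem_univ s)
  refine ⟨(1 + D) * (2 + D), by positivity, fun s w hw v => ?_⟩
  have hK1 : 1 ≤ (1 + D) * (2 + D) := by nlinarith
  by_cases h : DG s.1
  swap
  · rw [DG3, if_neg h, Matrix.one_mulVec]
    nlinarith [norm_nonneg v]
  · rw [DG3, if_pos h]
    have ho : ‖omS p q r s.1 w‖ ≤ D := (hC s.1 h w hw).trans (hCD _)
    generalize omS p q r s.1 w = o at ho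
    have ht : ‖1 / 2 - o‖ ≤ 1 + D := by
      refine (norm_sub_le _ _).trans ?_
      have : ‖(1 / 2 : ℂ)‖ = 1 / 2 := by simp
      rw [this]
      linarith
    have n0 := norm_le_pi_norm v 0
    have n1 := norm_le_pi_norm v 1
    have n2 := norm_le_pi_norm v 2
    have nv := norm_nonneg v
    rw [pi_norm_le_iff_of_nonneg (by positivity)]
    intro i
    cases decide (s.2.2 = some Ty.B) with
    | false =>
      show ‖(DYm o).mulVec v i‖ ≤ _
      fin_cases i
      · simp [DYm, Matrix.mulVec, dotProduct, Fin.sum_univ_three]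
        nlinarith
      · simp [DYm, Matrix.mulVec, dotProduct, Fin.sum_univ_three]
        have := mul_le_mul ho n1 (norm_nonneg _) hD0
        nlinarith [mul_nonneg hD0 nv, mul_nonneg (mul_nonneg hD0 hD0) nv]
      · simp [DYm, Matrix.mulVec, dotProduct, Fin.sum_univ_three]
        have h1 : ‖o‖ * ‖(2⁻¹ - o : ℂ)‖ ≤ D * (1 + D) := by
          rw [one_div] at ht
          exact mul_le_mul ho ht (norm_nonneg _) hD0
        have := mul_le_mul h1 n2 (norm_nonneg _) (by positivity)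
        nlinarith [mul_nonneg hD0 nv]
    | true =>
      show ‖(DLm o).mulVec v i‖ ≤ _
      rw [one_div] at ht
      fin_cases i
      · simp [DLm, Matrix.mulVec, dotProduct, Fin.sum_univ_three]
        nlinarith
      · simp [DLm, Matrix.mulVec, dotProduct, Fin.sum_univ_three]
        refine (norm_add_le _ _).trans ?_
        rw [norm_mul, norm_mul]
        have a1 := mul_le_mul ht n1 (norm_nonneg _) (by positivity)
        have a2 := mul_le_mul ho n2 (norm_nonneg _) hD0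
        nlinarith [mul_nonneg hD0 nv, mul_nonneg (mul_nonneg hD0 hD0) nv]
      · simp [DLm, Matrix.mulVec, dotProduct, Fin.sum_univ_three]
        have a1 := mul_le_mul ht n1 (norm_nonneg _) (by positivity)
        nlinarith [mul_nonneg hD0 nv, mul_nonneg (mul_nonneg hD0 hD0) nv]

/-- THE LINK for the global charts -/
theorem link_global {p q r : ℕ} (hp : 3 ≤ p) (hq : 3 ≤ q) (hr : 3 ≤ r) {x0 : ℝ} (hx : -2 < x0)
    (Y : Modes) :
    Link p q r x0 SBlk.src SBlk.tgt (fun b : SBlk (std Y) p q r => MG p q r b)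
      (fun (s : SSt Ty) w => (DG3 p q r s w)⁻¹ * TM p q r s.1 w) (fun s => s.1) SBlk.runs := by
  have hinv : ∀ (s : SSt Ty) z, InX x0 z → ∀ v : V3,
      (DG3 p q r s (zw z)).mulVec ((DG3 p q r s (zw z))⁻¹.mulVec v) = v := by
    intro s z hz v
    rw [Matrix.mulVec_mulVec, Matrix.mul_nonsing_inv _ (DG3_det hp hq hr hx hz s),
      Matrix.one_mulVec]
  have hinv' : ∀ (s : SSt Ty) z, InX x0 z → ∀ v : V3,
      (DG3 p q r s (zw z))⁻¹.mulVec ((DG3 p q r s (zw z)).mulVec v) = v := by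
    intro s z hz v
    rw [Matrix.mulVec_mulVec, Matrix.nonsing_inv_mul _ (DG3_det hp hq hr hx hz s),
      Matrix.one_mulVec]
  have hf : ∀ (s : SSt Ty) z, InX x0 z → ∀ v : V3,
      (DG3 p q r s (zw z))⁻¹.mulVec v 0 = v 0 := by
    intro s z hz v
    have h1 := DG3_first p q r s (zw z) ((DG3 p q r s (zw z))⁻¹.mulVec v)
    rw [hinv s z hz] at h1
    exact h1.symm
  refine link_of_gauge hp hq hr hx (std Y) (fun s w => (DG3 p q r s w)⁻¹)
    (fun b w => MG p q r b w) ?_ ?_ ?_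
  · intro b z hz
    obtain ⟨c, hc, e⟩ := MG_link hp hq hr (w := zw z)
      (fun s' h' => (denS_zw hp hq hr hx hz s' h').1)
      (fun s' h' => (denS_zw hp hq hr hx hz s' h').2.1) b
    refine ⟨c⁻¹, inv_ne_zero hc, fun v => ?_⟩
    have h1 : ∀ u : V3, (gM (RMb p q r) b.s b.runs (zw z)).mulVec
        ((DG3 p q r b.src (zw z)).mulVec u) =
        c • (DG3 p q r b.tgt (zw z)).mulVec ((MG p q r b (zw z)).mulVec u) := by
      intro u
      rw [Matrix.mulVec_mulVec, e, Matrix.smul_mulVec, ← Matrix.mulVec_mulVec]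
    have h2 := h1 ((DG3 p q r b.src (zw z))⁻¹.mulVec v)
    rw [hinv _ z hz] at h2
    rw [h2, Matrix.mulVec_smul, hinv' _ z hz, smul_smul, inv_mul_cancel₀ hc, one_smul]
  · intro s z hz
    exact ⟨1, one_ne_zero, fun v => by rw [hf s z hz, one_mul]⟩
  · obtain ⟨K, hK, hb⟩ := DG3_bound hp hq hr hx (p := p) (q := q) (r := r) (x0 := x0)
    refine ⟨K + 1, by linarith, fun s z h1 h2 v => ?_⟩
    have hz := inX_of_norm h1 h2
    constructor
    · have h3 := hb s (zw z) (subset_closure (zw_mem hx hz)) ((DG3 p q r s (zw z))⁻¹.mulVec v)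
      rw [hinv s z hz] at h3
      refine h3.trans ?_
      exact mul_le_mul_of_nonneg_right (by linarith) (norm_nonneg _)
    · rw [hf s z hz]
      nlinarith [norm_nonneg (v 0)]

end Pool.Agent.Helper6.MONO
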