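import Pool.Agent.Helper6.CX.CTH
import Pool.Agent.Helper21.CX.CLO

/-!
The closure condition of the treatments, for all triangles, from helper21's row CLO.
-/

set_option autoImplicit false
noncomputable section
namespace Pool.Agent.Helper6.MONO

open Pool.Agent.Helper21.SUP (GS Sch gM gM_append fD SBlk SSt DG DG_nx sD_cons sD_nil sD_append
  okD_cons okD_append ok1 Ty std Modes std_blk alL alL_self)

open Pool.Agent.Helper21.SUP renaming nx → nxs

variable {p q r : ℕ} {Y : Modes}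

theorem rG_Y (V : RV2) {s : GS} {f : Bool} {o : Option Ty} (ho : o ≠ some Ty.B) (w : ℂ) :
    rG V p q r (s, f, o) w = ![1, (V.al : ℂ), (V.be : ℂ)] := by
  rw [rG]
  exact if_neg ho

theorem rG_L (V : RV2) {s : GS} {f : Bool} (h : mm p q r s.1 s.2.2 = 3) (w : ℂ) :
    rG V p q r (s, f, some Ty.B) w = ![1, (V.c : ℂ), (V.d (kk p q r s.1 s.2.2) : ℂ)] := by
  rw [rG]
  show (if (some Ty.B : Option Ty) = some Ty.B then _ else _) = _
  rw [if_pos rfl]
  exact if_pos h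

theorem rG_LY (V : RV2) {s : GS} {f : Bool} (h : mm p q r s.1 s.2.2 ≠ 3) (w : ℂ) :
    rG V p q r (s, f, some Ty.B) w = yL V.al V.be (omS p q r s w) := by
  rw [rG]
  show (if (some Ty.B : Option Ty) = some Ty.B then _ else _) = _
  rw [if_pos rfl]
  exact if_neg h

/-- the `Y` vector in the chart `L` -/
theorem DLm_yL (al be : ℝ) (om : ℂ) :
    (DLm om).mulVec (yL al be om) = (DYm om).mulVec ![1, (al : ℂ), (be : ℂ)] := by
  funext i
  fin_cases i <;>
    simp [DLm, DYm, yL, Matrix.mulVec, dotProduct, Fin.sum_univ_three] <;> ring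

/-- CLOSURE of the blocks treated by reference vectors, for all triangles -/
theorem clo_of_HX (hp : 3 ≤ p) (hq : 3 ≤ q) (hr : 3 ≤ r) {x0 : ℝ} (hx : -2 < x0)
    (h : CLO.HX p q r x0) {V : RV2} (h1 : 0 ≤ V.al) (h2 : 0 ≤ V.be) (h3 : V.be ≤ 3 / 2)
    (h4 : 0 ≤ V.c) (h5 : ∀ k, 0 ≤ V.d k) (live : SSt Ty → Prop) : Clo V p q r Y live x0 := by
  intro b _ hB hO w hw h0
  obtain ⟨z, hz, rfl⟩ := CLO.omg_zw hx hw
  obtain ⟨c, hc, e⟩ := MG_link hp hq hr (w := zw z)
    (fun s' h' => (denS_zw hp hq hr hx hz s' h').1)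
    (fun s' h' => (denS_zw hp hq hr hx hz s' h').2.1) b
  have e0 : (gM (RMb p q r) b.s b.runs (zw z)).mulVec
      ((DG3 p q r b.src (zw z)).mulVec (rG V p q r b.src (zw z))) 0 = 0 := by
    rw [Matrix.mulVec_mulVec, e, Matrix.smul_mulVec, ← Matrix.mulVec_mulVec, Pi.smul_apply,
      DG3_first, h0, smul_zero]
  have hok : okD p q r b.f b.s (b.m :: b.ms) := b.hb.ok
  have hok1 := ((okD_cons _ _ _ _ _ _ _).1 hok).1
  by_cases ht : b.t = Ty.B
  · obtain ⟨hrun, ho⟩ := runs_B b ht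
    have hD : DG3 p q r b.src (zw z) = DYm (omS p q r b.s (zw z)) := DG3_Y b.hs b.f ho _
    have hG : rG V p q r b.src (zw z) = ![1, (V.al : ℂ), (V.be : ℂ)] := rG_Y V ho _
    rw [hD, hG, ← CLO.rvY_eq] at e0
    have hl := hB ht
    rcases Nat.lt_or_ge 0 b.ms.length with hpos | hpos
    · have hl1 : b.ms.length = 1 := by omega
      rw [hl1] at hrun
      rw [hrun] at e0
      exact CLO.clo_B2 hp hq hr hx h b.hs h1 h2 h3 hz e0
    · have hl0 : b.ms.length = 0 := by omega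
      rw [hl0] at hrun
      rw [hrun] at e0
      have e1 : gM (RMb p q r) b.s (List.replicate (0 + 1) 2) (zw z) =
          RMb p q r b.s 2 (zw z) := by
        show (1 : Matrix (Fin 3) (Fin 3) ℂ) * RMb p q r b.s 2 (zw z) = _
        rw [Matrix.one_mul]
      rw [e1] at e0
      exact CLO.clo_Y hp hq hr hx h b.hs (by norm_num)
        ((by norm_num : 2 ≤ 3).trans (LNI_mm hp hq hr _ _ b.hs.1)) h1 h2 h3 hz e0
  · have hms : b.ms = [] := List.length_eq_zero_iff.1 (hO ht)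
    have hrun : b.runs = [b.m] := by
      show b.m :: b.ms = [b.m]
      rw [hms]
    have e1 : gM (RMb p q r) b.s [b.m] (zw z) = RMb p q r b.s b.m (zw z) := by
      show (1 : Matrix (Fin 3) (Fin 3) ℂ) * RMb p q r b.s b.m (zw z) = _
      rw [Matrix.one_mul]
    rw [hrun, e1] at e0
    by_cases ho : b.o = some Ty.B
    · have hsrc : b.src = (b.s, b.f, some Ty.B) := by
        show (b.s, b.f, b.o) = _
        rw [ho]
      by_cases h3' : mm p q r b.s.1 b.s.2.2 = 3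
      · rw [hsrc, DG3_L b.hs, rG_L V h3', ← CLO.rvL_eq] at e0
        exact CLO.clo_L hp hq hr hx b.hs hok1.1 hok1.2.1 h4 (h5 _) hz e0
      · rw [hsrc, DG3_L b.hs, rG_LY V h3', DLm_yL, ← CLO.rvY_eq] at e0
        exact CLO.clo_Y hp hq hr hx h b.hs hok1.1 hok1.2.1 h1 h2 h3 hz e0
    · have hD : DG3 p q r b.src (zw z) = DYm (omS p q r b.s (zw z)) := DG3_Y b.hs b.f ho _
      have hG : rG V p q r b.src (zw z) = ![1, (V.al : ℂ), (V.be : ℂ)] := rG_Y V ho _
      rw [hD, hG, ← CLO.rvY_eq] at e0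
      exact CLO.clo_Y hp hq hr hx h b.hs hok1.1 hok1.2.1 h1 h2 h3 hz e0

/-- for the sorted orders and `xA ≤ x0` -/
theorem clo_sorted (hp : 3 ≤ p) (hpq : p ≤ q) (hqr : q ≤ r) {x0 : ℝ} (hx : -2 < x0)
    (hA : xA p q r ≤ x0) {V : RV2} (h1 : 0 ≤ V.al) (h2 : 0 ≤ V.be) (h3 : V.be ≤ 3 / 2)
    (h4 : 0 ≤ V.c) (h5 : ∀ k, 0 ≤ V.d k) (live : SSt Ty → Prop) : Clo V p q r Y live x0 :=
  clo_of_HX hp (hp.trans hpq) (hp.trans (hpq.trans hqr)) hx (CLO.HX_of_le hp hpq hqr hA) h1 h2 h3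
    h4 h5 live

end Pool.Agent.Helper6.MONO
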