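import Pool.Agent.Helper6.CX.PCT
import Pool.Agent.Helper21.CX.MIRI

/-!
The class theorem from certificates in the global charts; mirror symmetry and rotation of the
certificates; only the quarter `Re w ≥ 0`, `Im w ≥ 0` is needed, for the class and for the
mirrored class.
-/

set_option autoImplicit false
noncomputable section
namespace Pool.Agent.Helper6.MONO

open Pool.Agent.Helper21.SUP (GS Sch gM gM_append fD SBlk SSt DG DG_nx sD_cons sD_nil sD_append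
  okD_cons okD_append ok1 Ty std Modes std_blk alL alL_self rl MmOK nx_rl sD_rl fD_rl DG_rl srl
  mmOK_02 mmOK_rot)
open Pool.Agent.Helper6.MONO.SV (UY StartY D4)
open Pool.Agent.Helper21.MIR (TR PT PTr Mt V isRegion_pull)
open Pool.Agent.Helper21.MIRI
open Pool.Agent.Helper39.C75 (IsRegion RCert Reg)
open Pool.Agent.Helper39.SLT (BlkCert)

open Pool.Agent.Helper21.SUP renaming nx → nxs

/-- THE CLASS THEOREM from certificates in the global charts on the upper half of the line -/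
theorem zf_of_gcert {p q r : ℕ} (hp : 3 ≤ p) (hq : 3 ≤ q) (hr : 3 ≤ r)
    (hne : ¬ (p = 3 ∧ q = 3 ∧ r = 3)) {x0 : ℝ} (hx : -2 < x0) {Y : Modes} {V : RV2} {e : ℝ}
    (he : e ≠ 0) {live : SSt Ty → Prop} (hc : Clo V p q r Y live x0) (C : ℝ)
    (h : ∀ w ∈ Frt x0, 0 ≤ w.im → ∃ R, GCert V e p q r Y live C w R) : ZF p q r x0 :=
  SV.zf_global hp hq hr hne hx Y V.al V.be e he (KG V p q r live) (fun b => b.ms.length)
    (fun b => KG_ok hp hq hr hx hc b) (fun b w _ => KG_conj b w) C fun w hw hi => by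
      obtain ⟨R, hR⟩ := h w hw hi
      exact hR.pt

/-! ### relabelling -/

/-- the ratios of two labellings agree, at the points `w` and `w'` -/
structure RlE (σ : Equiv.Perm (Fin 3)) (p q r p' q' r' : ℕ) (w w' : ℂ) : Prop where
  mm : MmOK σ p q r p' q' r'
  den : ∀ s, DG s → denS p' q' r' (rl σ s) w' = denS p q r s w
  om : ∀ s, DG s → omS p' q' r' (rl σ s) w' = omS p q r s w

theorem rle_02 (p q r : ℕ) (w : ℂ) : RlE (Equiv.swap 0 2) p q r q p r (-w) w := by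
  refine ⟨mmOK_02 p q r, fun s hs => ?_, fun s hs => (omS_02 p q r s hs w).symm⟩
  unfold denS
  rw [oriZ_02 s hs, lamS_rl (mmOK_02 p q r)]
  cases oriZ s <;> simp [sub_eq_add_neg]

theorem rle_rot (p q r : ℕ) (w : ℂ) :
    RlE (Equiv.addRight (1 : Fin 3)) p q r r p q w w := by
  refine ⟨mmOK_rot p q r, fun s hs => ?_, fun s hs => (omS_rot p q r s w).symm⟩
  unfold denS
  rw [oriZ_r s, lamS_rl (mmOK_rot p q r)]

section eqv

variable {σ : Equiv.Perm (Fin 3)} {p q r p' q' r' : ℕ} {w w' : ℂ}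

theorem RlE.te (h : RlE σ p q r p' q' r' w w') {s : GS} (hs : DG s) :
    teS p' q' r' (rl σ s) w' = teS p q r s w := by
  unfold teS
  rw [h.om s hs]

theorem RlE.rho (h : RlE σ p q r p' q' r' w w') {s : GS} (hs : DG s) :
    rhoG p' q' r' (rl σ s) w' = rhoG p q r s w := by
  unfold rhoG
  rw [h.den s hs, nx_rl, h.den _ (DG_nx s 2 hs)]

theorem RlE.tau (h : RlE σ p q r p' q' r' w w') {s : GS} (hs : DG s) :
    tauG p' q' r' (rl σ s) w' = tauG p q r s w := by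
  unfold tauG
  rw [h.den s hs, nx_rl, h.den _ (DG_nx s 2 hs), lamS_rl h.mm, lamS_rl h.mm]

theorem RlE.kap (h : RlE σ p q r p' q' r' w w') {s : GS} (hs : DG s) :
    kapG p' q' r' (rl σ s) w' = kapG p q r s w := by
  unfold kapG
  rw [h.den s hs, nx_rl, h.den _ (DG_nx s 3 hs), lamS_rl h.mm]

theorem RlE.kk (h : RlE σ p q r p' q' r' w w') (s : GS) :
    kk p' q' r' (rl σ s).1 (rl σ s).2.1 = kk p q r s.1 s.2.1 := kk_rl h.mm _ _

theorem RlE.kk2 (h : RlE σ p q r p' q' r' w w') (s : GS) :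
    Pool.Agent.Helper6.MONO.kk p' q' r' (rl σ s).1 (rl σ s).2.2 =
      Pool.Agent.Helper6.MONO.kk p q r s.1 s.2.2 := kk_rl h.mm _ _

theorem RlE.mmE (h : RlE σ p q r p' q' r' w w') (s : GS) :
    Pool.Agent.Helper6.MONO.mm p' q' r' (rl σ s).1 (rl σ s).2.1 =
      Pool.Agent.Helper6.MONO.mm p q r s.1 s.2.1 := h.mm _ _

theorem RlE.ss (h : RlE σ p q r p' q' r' w w') (s : GS) :
    SS p' q' r' (rl σ s) = SS p q r s := by
  unfold SS
  rw [h.kk]

theorem RlE.gr (h : RlE σ p q r p' q' r' w w') (L : Bool) {s : GS} (hs : DG s) (m : ℕ) :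
    GR p' q' r' L (rl σ s) m w' = GR p q r L s m w := by
  unfold GR CGm
  rw [h.om s hs, h.kk, h.mmE, h.tau hs, h.kap hs]

theorem RlE.n1 (h : RlE σ p q r p' q' r' w w') {s : GS} (hs : DG s) :
    N1m p' q' r' (rl σ s) w' = N1m p q r s w := by
  unfold N1m
  rw [h.te hs, h.rho hs, h.tau hs, h.ss]

theorem RlE.nl (h : RlE σ p q r p' q' r' w w') {s : GS} (hs : DG s) :
    NLm p' q' r' (rl σ s) w' = NLm p q r s w := by
  unfold NLm
  rw [h.te hs, h.tau hs, h.ss, h.om s hs, nx_rl, h.om _ (DG_nx s 2 hs)]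

theorem RlE.uu (h : RlE σ p q r p' q' r' w w') {s : GS} (hs : DG s) :
    UUm p' q' r' (rl σ s) w' = UUm p q r s w := by
  unfold UUm
  rw [h.te hs, h.ss, h.om s hs, nx_rl, h.rho (DG_nx s 2 hs), h.tau (DG_nx s 2 hs), h.ss]

theorem s2_rl (s : GS) (n : ℕ) : s2 (rl σ s) n = rl σ (s2 s n) := by
  induction n with
  | zero => rfl
  | succ n ih => rw [s2_succ, s2_succ, ih, nx_rl]

theorem RlE.bn (h : RlE σ p q r p' q' r' w w') {s : GS} (hs : DG s) :
    ∀ n : ℕ, BN p' q' r' (rl σ s) (n + 1) w' = BN p q r s (n + 1) w ∧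
      BN p' q' r' (rl σ s) (n + 2) w' = BN p q r s (n + 2) w := by
  intro n
  induction n with
  | zero =>
    refine ⟨h.n1 hs, ?_⟩
    show NLm p' q' r' (nxs (rl σ s) 2) w' * N1m p' q' r' (rl σ s) w' =
      NLm p q r (nxs s 2) w * N1m p q r s w
    rw [h.n1 hs, nx_rl, h.nl (DG_nx s 2 hs)]
  | succ n ih =>
    refine ⟨ih.2, ?_⟩
    show UUm p' q' r' (s2 (rl σ s) (n + 1)) w' * BN p' q' r' (rl σ s) (n + 1) w' =
      UUm p q r (s2 s (n + 1)) w * BN p q r s (n + 1) w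
    rw [ih.1, s2_rl, h.uu (s2_DG hs _)]

theorem RlE.gg (h : RlE σ p q r p' q' r' w w') : ∀ (l : List ℕ) (L : Bool) (s : GS), DG s →
    gG p' q' r' L (rl σ s) l w' = gG p q r L s l w := by
  intro l
  induction l with
  | nil => intro L s _; rfl
  | cons m l ih =>
    intro L s hs
    show gG p' q' r' false (nxs (rl σ s) m) l w' * GR p' q' r' L (rl σ s) m w' =
      gG p q r false (nxs s m) l w * GR p q r L s m w
    rw [h.gr L hs, nx_rl, ih false _ (DG_nx s m hs)]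

theorem RlE.mg (h : RlE σ p q r p' q' r' w w') {Y Y' : Modes} (hZ : SRel (std Y) (std Y') σ)
    (b : SBlk (std Y) p q r) : MG p' q' r' (rlB hZ h.mm b) w' = MG p q r b w := by
  unfold MG
  by_cases ht : b.t = Ty.B
  · rw [if_pos ht]
    have ht' : (rlB hZ h.mm b).t = Ty.B := ht
    rw [if_pos ht']
    exact (h.bn b.hs b.ms.length).1
  · rw [if_neg ht]
    have ht' : (rlB hZ h.mm b).t ≠ Ty.B := ht
    rw [if_neg ht']
    exact h.gg b.runs _ b.s b.hs

theorem rG_rl (h : RlE σ p q r p' q' r' w w') (V : RV2) (x : SSt Ty) (hx : DG x.1) :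
    rG V p' q' r' (srl σ x) w' = rG V p q r x w := by
  unfold rG
  have e : Pool.Agent.Helper6.MONO.kk p' q' r' (srl σ x).1.1 (srl σ x).1.2.2 =
      Pool.Agent.Helper6.MONO.kk p q r x.1.1 x.1.2.2 := kk_rl h.mm _ _
  have e2 : Pool.Agent.Helper6.MONO.mm p' q' r' (srl σ x).1.1 (srl σ x).1.2.2 =
      Pool.Agent.Helper6.MONO.mm p q r x.1.1 x.1.2.2 := h.mm _ _
  have e3 : omS p' q' r' (srl σ x).1 w' = omS p q r x.1 w := h.om x.1 hx
  rw [e, e2, e3]
  rfl

theorem D4_rl (h : MmOK σ p q r p' q' r') {s : GS} (h4 : D4 p q r s) :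
    D4 p' q' r' (rl σ s) := by
  show mm p' q' r' (σ s.1) (σ s.2.2) ≠ 3
  rw [h]
  exact h4

theorem ok1_rl (h : MmOK σ p q r p' q' r') {f : Bool} {s : GS} {m : ℕ} (h1 : ok1 p q r f s m) :
    ok1 p' q' r' f (rl σ s) m := by
  obtain ⟨a, b, c⟩ := h1
  refine ⟨a, ?_, c⟩
  show m ≤ mm p' q' r' (σ s.1) (σ s.2.1)
  rw [h]
  exact b

/-- THE CERTIFICATES OF TWO LABELLINGS, global charts -/
theorem GCert.rl {V : RV2} {e : ℝ} {Y Y' : Modes} {live live' : SSt Ty → Prop} {C : ℝ}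
    {R : SSt Ty → Set V3} (h : RlE σ p q r p' q' r' w w')
    (hZ : SRel (std Y) (std Y') σ) (hl : ∀ x, live' (srl σ x) ↔ live x)
    (hR : GCert V e p' q' r' Y' live' C w' R) :
    GCert V e p q r Y live C w (fun x => R (srl σ x)) := by
  refine ⟨fun x => hR.reg _, ?_, fun x hx v => hR.dead _ (fun h' => hx ((hl x).1 h')) v, ?_, ?_,
    ?_, ?_, ?_, ?_, fun x v j hv => hR.bound _ v j hv⟩
  · intro b v hv
    have h1 := hR.blk (rlB hZ h.mm b) v hv
    rw [h.mg hZ, tgt_rlB] at h1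
    exact h1
  · intro x hx hlx
    have h1 := hR.ref (srl σ x) (DG_rl σ x.1 hx) ((hl x).2 hlx)
    rw [rG_rl h V x hx] at h1
    exact h1
  · intro s hs h4 i
    exact hR.start (Pool.Agent.Helper21.SUP.rl σ s) (DG_rl σ s hs) (D4_rl h.mm h4) i
  · intro s f hs hok u hu
    have h1 := hR.slitA (Pool.Agent.Helper21.SUP.rl σ s) f (DG_rl σ s hs) (ok1_rl h.mm hok) u hu
    rw [h.gr false hs] at h1
    exact h1
  · intro s f k hs hok u hu
    have h1 := hR.slitP (Pool.Agent.Helper21.SUP.rl σ s) f k (DG_rl σ s hs) (ok1_rl h.mm hok) u hu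
    rw [h.gr false hs] at h1
    exact h1
  · intro s f k hs hok u hu
    have h1 := hR.slitQ (Pool.Agent.Helper21.SUP.rl σ s) f k (DG_rl σ s hs) (ok1_rl h.mm hok) u hu
    rw [h.gr false hs] at h1
    exact h1
  · intro s f hs hok u hu
    have h1 := hR.slitB (Pool.Agent.Helper21.SUP.rl σ s) f (DG_rl σ s hs) (ok1_rl h.mm hok) u hu
    rw [h.uu hs] at h1
    exact h1

end eqv

/-- the certificate of the mirrored class gives the one at `-w` -/
theorem GCert.mirror {p q r : ℕ} {V : RV2} {e : ℝ} {Y Y' : Modes} {live live' : SSt Ty → Prop}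
    {C : ℝ} {R : SSt Ty → Set V3} {w : ℂ} (hZ : SRel (std Y) (std Y') (Equiv.swap 0 2))
    (hl : ∀ x, live' (srl (Equiv.swap 0 2) x) ↔ live x)
    (hR : GCert V e q p r Y' live' C w R) :
    GCert V e p q r Y live C (-w) (fun x => R (srl (Equiv.swap 0 2) x)) :=
  hR.rl (rle_02 p q r w) hZ hl

/-- THE CLASS THEOREM, quarter of the line, for the class and for the mirrored class. -/
theorem zf_of_quarter {p q r : ℕ} (hp : 3 ≤ p) (hq : 3 ≤ q) (hr : 3 ≤ r)
    (hne : ¬ (p = 3 ∧ q = 3 ∧ r = 3)) {x0 : ℝ} (hx : -2 < x0) {Y Y' : Modes} {V : RV2} {e : ℝ}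
    (he : e ≠ 0) {live live' : SSt Ty → Prop} (hc : Clo V p q r Y live x0)
    (hZ : SRel (std Y) (std Y') (Equiv.swap 0 2))
    (hl : ∀ x, live' (srl (Equiv.swap 0 2) x) ↔ live x) (C : ℝ)
    (h1 : ∀ w ∈ Frt x0, 0 ≤ w.im → 0 ≤ w.re → ∃ R, GCert V e p q r Y live C w R)
    (h2 : ∀ w ∈ Frt x0, 0 ≤ w.im → 0 ≤ w.re → ∃ R, GCert V e q p r Y' live' C w R) :
    ZF p q r x0 := by
  refine SV.zf_global hp hq hr hne hx Y V.al V.be e he (KG V p q r live) (fun b => b.ms.length)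
    (fun b => KG_ok hp hq hr hx hc b) (fun b w _ => KG_conj b w) C ?_
  have hcj : ConjOK (S := SSt Ty) (fun b : SBlk (std Y) p q r => MG p q r b)
      (StartY p q r V.al V.be e) (KG V p q r live) x0 := by
    refine ⟨fun b w _ i j => (MG_rc hp hq hr hx b).conj w i j, fun b w _ => KG_conj b w, ?_⟩
    rintro s v ⟨-, -, -, -, i, rfl⟩ w -
    funext j
    show UY V.al V.be e i j = starRingEnd ℂ (UY V.al V.be e i j)
    unfold UY
    fin_cases i <;> fin_cases j <;> simp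
  exact pt_upper hcj (fun w hw hi hr => by
    obtain ⟨R, hR⟩ := h1 w hw hi hr
    exact hR.pt) fun w hw hi hr => by
    obtain ⟨R, hR⟩ := h2 w hw hi hr
    exact (hR.mirror hZ hl).pt

theorem GCert.mono {p q r : ℕ} {V : RV2} {e : ℝ} {Y : Modes} {live : SSt Ty → Prop} {C C' : ℝ}
    {w : ℂ} {R : SSt Ty → Set V3} (h : GCert V e p q r Y live C w R) (hC : C ≤ C') :
    GCert V e p q r Y live C' w R :=
  ⟨h.reg, h.blk, h.dead, h.ref, h.start, h.slitA, h.slitP, h.slitQ, h.slitB, fun σ v j hv =>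
    (h.bound σ v j hv).trans (mul_le_mul_of_nonneg_right hC (norm_nonneg _))⟩

/-- plain certificates away from `w = 1`, global ones near `w = 1` -/
theorem gcert_of_parts {p q r : ℕ} (hp : 3 ≤ p) (hq : 3 ≤ q) (hr : 3 ≤ r) {x0 : ℝ} (hx : -2 < x0)
    {Y : Modes} {V : RV2} {e : ℝ} {live : SSt Ty → Prop} {d : ℝ} (hd : 0 < d) (C₁ C₂ : ℝ)
    (h : ∀ w ∈ Frt x0, 0 ≤ w.im → 0 ≤ w.re →
      (d ≤ ‖1 - w‖ ∧ ∃ R, PCert V e p q r Y live C₁ w R) ∨ ∃ R, GCert V e p q r Y live C₂ w R) :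
    ∃ C, ∀ C', C ≤ C' → ∀ w ∈ Frt x0, 0 ≤ w.im → 0 ≤ w.re →
      ∃ R, GCert V e p q r Y live C' w R := by
  have hd1 : 0 < min d 1 := lt_min hd one_pos
  obtain ⟨C₃, hC₃⟩ := pcert_gcert hp hq hr hx hd1 C₁
  refine ⟨max C₂ C₃, fun C' hC' w hw hi hre => ?_⟩
  rcases h w hw hi hre with ⟨h1, R, hR⟩ | ⟨R, hR⟩
  · have h2 : 1 ≤ ‖1 + w‖ := by
      have h3 : (1 + w).re ≤ ‖1 + w‖ := Complex.re_le_norm _
      have h4 : (1 + w).re = 1 + w.re := by simp
      linarith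
    obtain ⟨R', hR'⟩ := hC₃ w hw ((min_le_left _ _).trans h1) ((min_le_right _ _).trans h2)
      V e Y live R hR
    exact ⟨R', hR'.mono ((le_max_right _ _).trans hC')⟩
  · exact ⟨R, hR.mono ((le_max_left _ _).trans hC')⟩

/-- THE CLASS THEOREM: plain certificates away from `w = 1`, global ones near `w = 1`, in the
quarter `Re w ≥ 0`, `Im w ≥ 0`, for the class and for the mirrored class. -/
theorem zf_of_parts {p q r : ℕ} (hp : 3 ≤ p) (hq : 3 ≤ q) (hr : 3 ≤ r)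
    (hne : ¬ (p = 3 ∧ q = 3 ∧ r = 3)) {x0 : ℝ} (hx : -2 < x0) {Y Y' : Modes} {V : RV2} {e : ℝ}
    (he : e ≠ 0) {live live' : SSt Ty → Prop} (hc : Clo V p q r Y live x0)
    (hZ : SRel (std Y) (std Y') (Equiv.swap 0 2))
    (hl : ∀ x, live' (srl (Equiv.swap 0 2) x) ↔ live x) {d : ℝ} (hd : 0 < d) (C₁ C₂ : ℝ)
    (h1 : ∀ w ∈ Frt x0, 0 ≤ w.im → 0 ≤ w.re →
      (d ≤ ‖1 - w‖ ∧ ∃ R, PCert V e p q r Y live C₁ w R) ∨ ∃ R, GCert V e p q r Y live C₂ w R)
    (h2 : ∀ w ∈ Frt x0, 0 ≤ w.im → 0 ≤ w.re →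
      (d ≤ ‖1 - w‖ ∧ ∃ R, PCert V e q p r Y' live' C₁ w R) ∨
        ∃ R, GCert V e q p r Y' live' C₂ w R) : ZF p q r x0 := by
  obtain ⟨A, hA⟩ := gcert_of_parts hp hq hr hx hd C₁ C₂ h1
  obtain ⟨B, hB⟩ := gcert_of_parts hq hp hr hx hd C₁ C₂ h2
  exact zf_of_quarter hp hq hr hne hx he hc hZ hl (max A B) (hA _ (le_max_left _ _))
    (hB _ (le_max_right _ _))

/-! ### live states -/

/-- the states which can be reached (the flag agrees with the type of the last run) -/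
def liveS (p q r : ℕ) (x : SSt Ty) : Prop :=
  match x.2.2 with
  | none => x.2.1 = false ∧ mm p q r x.1.1 x.1.2.2 ≠ 3
  | some Ty.A => x.2.1 = decide (3 = mm p q r x.1.1 x.1.2.2)
  | some Ty.B => x.2.1 = decide (2 = mm p q r x.1.1 x.1.2.2)
  | some (Ty.P k) => x.2.1 = decide (k = mm p q r x.1.1 x.1.2.2)
  | some (Ty.Q _) => x.2.1 = decide (3 = mm p q r x.1.1 x.1.2.2)
  | some Ty.o => mm p q r x.1.1 x.1.2.2 ≠ 3 ∧ (x.2.1 = false → 5 ≤ mm p q r x.1.1 x.1.2.2)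

theorem liveS_rl {σ : Equiv.Perm (Fin 3)} {p q r p' q' r' : ℕ} (h : MmOK σ p q r p' q' r')
    (x : SSt Ty) : liveS p' q' r' (srl σ x) ↔ liveS p q r x := by
  have e : mm p' q' r' (srl σ x).1.1 (srl σ x).1.2.2 = mm p q r x.1.1 x.1.2.2 := h _ _
  unfold liveS
  rw [e]
  rfl

/-- the modes with all superblocks of types A and B, and no others -/
def Y0 : Modes := ⟨fun _ => true, fun _ => true, fun _ _ => false⟩

theorem Y0_rel (σ : Equiv.Perm (Fin 3)) : SRel (std Y0) (std Y0) σ := by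
  refine ⟨fun s m _ => rfl, fun t s m _ => rfl⟩

end Pool.Agent.Helper6.MONO
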