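import Pool.Agent.Helper12.CX.Defs

/-!
LNK: the charts at the canonical states and the matrices of the runs (MP_c75db0_gt).

State `(n, a, b)`: wall `n` is crossed next, in-star `a`, out-star `b`. All identities hold for
every complex phase `z ≠ 0`.
-/

set_option autoImplicit false
noncomputable section
namespace Pool.Agent.Helper6.MONO

/-! ### general Gram data -/

/-- complex Gram data with weights `κ` -/
structure WGr (κ : Fin 3 → Fin 3 → ℝ) (G : Fin 3 → Fin 3 → ℂ) : Prop where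
  mul : ∀ i j, i ≠ j → G i j * G j i = (κ i j : ℂ) ^ 2
  sym : ∀ i j, κ i j = κ j i
  pos : ∀ i j, i ≠ j → 0 < κ i j

/-- the phase of the oriented state: `z` or `1/z` -/
def zoG (κ : Fin 3 → Fin 3 → ℝ) (G : Fin 3 → Fin 3 → ℂ) (n a b : Fin 3) : ℂ :=
  G b a * G a n * G n b / ((κ a b : ℂ) * (κ n a : ℂ) * (κ n b : ℂ))

/-- the centre parameter -/
def GhP (k h h' : ℝ) (zo : ℂ) : ℂ := 2 / (k : ℂ) ^ 2 * (2 * (h : ℂ) * zo + (k : ℂ) * (h' : ℂ))

/-- the chart vector at the state `(n, a, b)` -/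
def TSv (κ : Fin 3 → Fin 3 → ℝ) (G : Fin 3 → Fin 3 → ℂ) (n a b : Fin 3) (X : V3) : V3 :=
  ![G b n / (κ n b : ℂ) * X b,
    (-2 * X n + G a n * X a + G b n * X b) /
      ((κ n a : ℂ) * GhP (κ n a) (κ a b) (κ n b) (zoG κ G n a b)),
    G a n / (κ n a : ℂ) * X a / GhP (κ n a) (κ a b) (κ n b) (zoG κ G n a b)]

/-- the real matrix of a run with parameter `R` -/
def BRv (k R : ℝ) (v : V3) : V3 :=
  ![v 0 + 2 * (R : ℂ) * v 1 + ((R : ℂ) ^ 2 - (SbP k : ℂ)) * v 2,
    (R : ℂ) * v 0 + ((R : ℂ) ^ 2 - (SbP k : ℂ)) * v 1 - 2 * (SbP k : ℂ) * (R : ℂ) * v 2,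
    ((R : ℂ) ^ 2 + (SbP k : ℂ)) * v 0]

/-- change of star after an odd number of crossings (`m` even) -/
def COv (k h h' : ℝ) (zo : ℂ) (v : V3) : V3 :=
  ![GhP k h h' zo * v 0 + ((h' : ℂ) - (h : ℂ) * zo) / (2 + (k : ℂ)) * v 2,
    (k : ℂ) * GhP k h h' zo / ((h : ℂ) * GhP h h' k zo) * v 1,
    zo / GhP h h' k zo * v 2]

/-- change of star after an even number of crossings (`m` odd) -/
def CEv (k h h' : ℝ) (zo : ℂ) (v : V3) : V3 :=
  ![GhP k h h' zo * v 0,
    (k : ℂ) * GhP k h h' zo / ((h' : ℂ) * GhP h' h k zo⁻¹) * v 1,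
    1 / GhP h' h k zo⁻¹ * v 2]

/-! ### elementary facts -/

theorem LNK_fire (G : Fin 3 → Fin 3 → ℂ) {n a b : Fin 3} (h : Dist n a b) (x : V3) :
    fire G n x n = -x n + G a n * x a + G b n * x b ∧ fire G n x a = x a ∧
      fire G n x b = x b := by
  obtain ⟨h1, h2, h3⟩ := h
  refine ⟨?_, ?_, ?_⟩
  · simp only [fire, if_true]
    rw [Fin.sum_univ_three]
    fin_cases n <;> fin_cases a <;> fin_cases b <;> simp_all <;> ring
  · simp only [fire]
    rw [if_neg (Ne.symm h1)]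
  · simp only [fire]
    rw [if_neg h3]

theorem LNK_alt (i j : Fin 3) (m : ℕ) :
    alt i j (m + 1) = alt i j m ++ [if m % 2 = 0 then i else j] := by
  induction m generalizing i j with
  | zero => simp [alt]
  | succ m ih =>
    rw [alt, ih j i, alt, List.cons_append]
    congr 2
    rcases Nat.mod_two_eq_zero_or_one m with h | h
    · have h' : (m + 1) % 2 = 1 := by omega
      simp [h, h']
    · have h' : (m + 1) % 2 = 0 := by omega
      simp [h, h']

theorem LNK_gact (G : Fin 3 → Fin 3 → ℂ) (u : List (Fin 3)) (i : Fin 3) (x : V3) :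
    gact G (u ++ [i]) x = fire G i (gact G u x) := by
  simp [gact, List.foldl_append]

/-! ### the ring around the out-star -/

/-- the centre values -/
def reP (k : ℝ) (ge go : ℂ) : ℂ := (2 * go + (k : ℂ) * ge) / (4 - (k : ℂ) ^ 2)

/-- ring value with index `t` (`t` real; the parity is the Boolean) -/
def Vr (k f : ℝ) (ge go N U xi : ℂ) (even : Bool) (t : ℝ) : ℂ :=
  (if even then reP k ge go else reP k go ge) * N +
    (U - reP k ge go * N) * (Real.cos (t * f) : ℂ) + xi * ((Real.sin (t * f) / Real.sin f : ℝ) : ℂ) / 2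

theorem LNK_rec (k f : ℝ) (hk : k = 2 * Real.cos f) (hk4 : 4 - (k : ℂ) ^ 2 ≠ 0)
    (ge go N U xi : ℂ) (t : ℝ) :
    Vr k f ge go N U xi false (t + 1) + Vr k f ge go N U xi false (t - 1) =
      (k : ℂ) * Vr k f ge go N U xi true t + ge * N ∧
    Vr k f ge go N U xi true (t + 1) + Vr k f ge go N U xi true (t - 1) =
      (k : ℂ) * Vr k f ge go N U xi false t + go * N := by
  have c1 : Real.cos ((t + 1) * f) + Real.cos ((t - 1) * f) = k * Real.cos (t * f) := by
    rw [hk, add_mul, sub_mul, one_mul, Real.cos_add, Real.cos_sub]; ring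
  have s1 : Real.sin ((t + 1) * f) + Real.sin ((t - 1) * f) = k * Real.sin (t * f) := by
    rw [hk, add_mul, sub_mul, one_mul, Real.sin_add, Real.sin_sub]; ring
  have c2 : (Real.cos ((t + 1) * f) : ℂ) = (k : ℂ) * (Real.cos (t * f) : ℂ) -
      (Real.cos ((t - 1) * f) : ℂ) := by
    rw [← Complex.ofReal_mul, ← c1]; push_cast; ring
  have s2 : ((Real.sin ((t + 1) * f) / Real.sin f : ℝ) : ℂ) =
      (k : ℂ) * ((Real.sin (t * f) / Real.sin f : ℝ) : ℂ) -
      ((Real.sin ((t - 1) * f) / Real.sin f : ℝ) : ℂ) := by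
    rw [← Complex.ofReal_mul, ← mul_div_assoc, ← s1, add_div]; push_cast; ring
  constructor
  · simp only [Vr, reP, c2, s2, if_true, Bool.false_eq_true, if_false]
    field_simp
    ring
  · simp only [Vr, reP, c2, s2, if_true, Bool.false_eq_true, if_false]
    field_simp
    ring


theorem Dist.sw {n a b : Fin 3} (h : Dist n a b) : Dist a n b :=
  ⟨h.1.symm, h.2.2.symm, h.2.1.symm⟩

/-- coordinates after `j` crossings around the out-star -/
theorem LNK_ring (κ : Fin 3 → Fin 3 → ℝ) (G : Fin 3 → Fin 3 → ℂ) (hG : WGr κ G)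
    {n a b : Fin 3} (h : Dist n a b) (f : ℝ) (hk : κ n a = 2 * Real.cos f)
    (hs : Real.sin f ≠ 0) (X : V3) (j : ℕ) :
    gact G (alt n a j) X b = X b ∧
    (j % 2 = 0 →
      gact G (alt n a j) X a = G n a / (κ n a : ℂ) *
        Vr (κ n a) f (G b n) (G a n / (κ n a : ℂ) * G b a) (X b) (G a n / (κ n a : ℂ) * X a)
          (-2 * X n + G a n * X a + G b n * X b) true j ∧
      gact G (alt n a j) X n =
        Vr (κ n a) f (G b n) (G a n / (κ n a : ℂ) * G b a) (X b) (G a n / (κ n a : ℂ) * X a)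
          (-2 * X n + G a n * X a + G b n * X b) false (j - 1)) ∧
    (j % 2 = 1 →
      gact G (alt n a j) X n =
        Vr (κ n a) f (G b n) (G a n / (κ n a : ℂ) * G b a) (X b) (G a n / (κ n a : ℂ) * X a)
          (-2 * X n + G a n * X a + G b n * X b) false j ∧
      gact G (alt n a j) X a = G n a / (κ n a : ℂ) *
        Vr (κ n a) f (G b n) (G a n / (κ n a : ℂ) * G b a) (X b) (G a n / (κ n a : ℂ) * X a)
          (-2 * X n + G a n * X a + G b n * X b) true (j - 1)) := by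
  have hkpos := hG.pos n a h.1
  have hk0 : (κ n a : ℂ) ≠ 0 := by exact_mod_cast hkpos.ne'
  have hmul := hG.mul n a h.1
  have hmul' : G a n * G n a = (κ n a : ℂ) ^ 2 := by rw [mul_comm]; exact hmul
  have hk4 : 4 - (κ n a : ℂ) ^ 2 ≠ 0 := by
    have : (4 : ℂ) - (κ n a : ℂ) ^ 2 = ((4 * Real.sin f ^ 2 : ℝ) : ℂ) := by
      rw [hk]; push_cast
      have := Complex.sin_sq_add_cos_sq (f : ℂ)
      linear_combination (-4 : ℂ) * this
    rw [this]
    exact_mod_cast (by positivity : (4 * Real.sin f ^ 2 : ℝ) ≠ 0)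
  induction j with
  | zero =>
    refine ⟨rfl, fun _ => ⟨?_, ?_⟩, fun h => absurd h (by norm_num)⟩
    · show X a = _
      simp only [Vr, if_true, Nat.cast_zero, zero_mul, Real.cos_zero, Real.sin_zero, zero_div,
        Complex.ofReal_one, Complex.ofReal_zero, mul_zero, add_zero, mul_one]
      generalize reP (κ n a) (G b n) (G a n / (κ n a : ℂ) * G b a) = re
      rw [add_sub_cancel]
      field_simp
      linear_combination (-X a) * hmul
    · show X n = _
      have e1 : ((Real.cos (((0 : ℕ) : ℝ) - 1) * f) : ℝ) = Real.cos (((0 : ℕ) : ℝ) - 1) * f := rfl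
      have c0 : Real.cos ((((0 : ℕ) : ℝ) - 1) * f) = Real.cos f := by
        rw [Nat.cast_zero, zero_sub, neg_one_mul, Real.cos_neg]
      have s0 : Real.sin ((((0 : ℕ) : ℝ) - 1) * f) / Real.sin f = -1 := by
        rw [Nat.cast_zero, zero_sub, neg_one_mul, Real.sin_neg, neg_div, div_self hs]
      have hc : (Real.cos f : ℂ) = (κ n a : ℂ) / 2 := by
        rw [hk]; push_cast; ring
      simp only [Vr, reP, Bool.false_eq_true, if_false]
      rw [c0, s0, hc]
      push_cast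
      field_simp
      ring
  | succ j ih =>
    obtain ⟨ihb, ihe, iho⟩ := ih
    have hrec := LNK_rec (κ n a) f hk hk4 (G b n) (G a n / (κ n a : ℂ) * G b a) (X b)
      (G a n / (κ n a : ℂ) * X a) (-2 * X n + G a n * X a + G b n * X b) j
    rw [LNK_alt, LNK_gact]
    rcases Nat.mod_two_eq_zero_or_one j with hj | hj
    · have hj' : (j + 1) % 2 = 1 := by omega
      rw [if_pos hj]
      obtain ⟨f1, f2, f3⟩ := LNK_fire G h (gact G (alt n a j) X)
      obtain ⟨e1, e2⟩ := ihe hj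
      refine ⟨by rw [f3, ihb], fun h => absurd h (by omega), fun _ => ⟨?_, ?_⟩⟩
      · rw [f1, e1, e2, ihb]
        push_cast
        have := hrec.1
        have hx : G a n * (G n a / (κ n a : ℂ) *
            Vr (κ n a) f (G b n) (G a n / (κ n a : ℂ) * G b a) (X b) (G a n / (κ n a : ℂ) * X a)
              (-2 * X n + G a n * X a + G b n * X b) true j) = (κ n a : ℂ) *
            Vr (κ n a) f (G b n) (G a n / (κ n a : ℂ) * G b a) (X b) (G a n / (κ n a : ℂ) * X a)
              (-2 * X n + G a n * X a + G b n * X b) true j := by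
          rw [← mul_assoc, ← mul_div_assoc, hmul', sq, mul_div_assoc, div_self hk0, mul_one]
        rw [hx]
        linear_combination (-1 : ℂ) * this
      · rw [f2, e1]
        push_cast
        rw [add_sub_cancel_right]
    · have hj' : (j + 1) % 2 = 0 := by omega
      have hjn : ¬ (j % 2 = 0) := by omega
      rw [if_neg hjn]
      obtain ⟨f1, f2, f3⟩ := LNK_fire G h.sw (gact G (alt n a j) X)
      obtain ⟨e1, e2⟩ := iho hj
      refine ⟨by rw [f3, ihb], fun _ => ⟨?_, ?_⟩, fun h => absurd h (by omega)⟩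
      · rw [f1, e1, e2, ihb]
        push_cast
        have := hrec.2
        have hb : G b a = G n a / (κ n a : ℂ) * (G a n / (κ n a : ℂ) * G b a) := by
          field_simp
          linear_combination (-G b a) * hmul
        have hk2 : G n a = G n a / (κ n a : ℂ) * (κ n a : ℂ) := by field_simp
        generalize hV : Vr (κ n a) f (G b n) (G a n / (κ n a : ℂ) * G b a) (X b)
          (G a n / (κ n a : ℂ) * X a) (-2 * X n + G a n * X a + G b n * X b) = V at *
        generalize hgo : G a n / (κ n a : ℂ) * G b a = go at *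
        rw [hb]
        linear_combination (-(G n a / (κ n a : ℂ))) * this + (V false j) * hk2
      · rw [f2, e1]
        push_cast
        rw [add_sub_cancel_right]

/-- trigonometry of a run -/
theorem LNK_trig (k f t R : ℝ) (hk : k = 2 * Real.cos f) (hs : Real.sin f ≠ 0)
    (hc : Real.cos f ≠ 0) (ht : Real.sin (t * f / 2) ≠ 0)
    (hR : R = Real.tan f * (Real.cos (t * f / 2) / Real.sin (t * f / 2))) :
    (R ^ 2 + SbP k) * Real.cos (t * f) = R ^ 2 - SbP k ∧
    (R ^ 2 + SbP k) * (1 - Real.cos (t * f)) = 2 * SbP k ∧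
    (R ^ 2 + SbP k) * (Real.sin (t * f) / Real.sin f) * k = 4 * R ∧
    (R ^ 2 + SbP k) * (Real.sin f * Real.sin (t * f)) = k * R * SbP k := by
  have hSb : SbP k = Real.sin f ^ 2 / Real.cos f ^ 2 := by
    rw [SbP, hk]
    have := Real.sin_sq_add_cos_sq f
    field_simp
    linear_combination (-1 : ℝ) * this
  have e1 : Real.cos (t * f) = Real.cos (t * f / 2) ^ 2 - Real.sin (t * f / 2) ^ 2 := by
    have e : t * f = 2 * (t * f / 2) := by ring
    have h2 : Real.cos (t * f) = 2 * Real.cos (t * f / 2) ^ 2 - 1 := by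
      rw [← Real.cos_two_mul, ← e]
    linear_combination h2 + Real.sin_sq_add_cos_sq (t * f / 2)
  have e2 : Real.sin (t * f) = 2 * Real.sin (t * f / 2) * Real.cos (t * f / 2) := by
    rw [← Real.sin_two_mul]; congr 1; ring
  have h1 := Real.sin_sq_add_cos_sq (t * f / 2)
  generalize Real.sin (t * f / 2) = σ at *
  generalize Real.cos (t * f / 2) = γ at *
  have hW : R ^ 2 + SbP k = Real.sin f ^ 2 / (Real.cos f ^ 2 * σ ^ 2) := by
    rw [hR, hSb, Real.tan_eq_sin_div_cos]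
    field_simp
    linear_combination h1
  refine ⟨?_, ?_, ?_, ?_⟩
  · rw [hW, e1, hR, hSb, Real.tan_eq_sin_div_cos]
    field_simp
  · rw [hW, e1, hSb]
    field_simp
    linear_combination (-1 : ℝ) * h1
  · rw [hW, e2, hR, Real.tan_eq_sin_div_cos, hk]
    field_simp
    ring
  · rw [hW, e2, hR, hSb, Real.tan_eq_sin_div_cos, hk]
    field_simp

/-- ring values in terms of the real matrix -/
theorem LNK_V (k f t R : ℝ) (hk : k = 2 * Real.cos f) (hs : Real.sin f ≠ 0)
    (hc : Real.cos f ≠ 0) (ht : Real.sin (t * f / 2) ≠ 0) (hk0 : 0 < k)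
    (hR : R = Real.tan f * (Real.cos (t * f / 2) / Real.sin (t * f / 2)))
    (ge go N U xi : ℂ) :
    ((R : ℂ) ^ 2 + (SbP k : ℂ)) * Vr k f ge go N U xi true t =
      2 / (k : ℂ) ^ 2 * (2 * go + k * ge) * N + 2 * R / k * xi + ((R : ℂ) ^ 2 - (SbP k : ℂ)) * U ∧
    ((R : ℂ) ^ 2 + (SbP k : ℂ)) * Vr k f ge go N U xi false t =
      2 / (k : ℂ) ^ 2 * (2 * go + k * ge) * N + 2 * R / k * xi + ((R : ℂ) ^ 2 - (SbP k : ℂ)) * U +
        ((R : ℂ) ^ 2 + (SbP k : ℂ)) * ((ge - go) / (2 + k)) * N ∧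
    (∀ e : Bool, ((R : ℂ) ^ 2 + (SbP k : ℂ)) *
        (Vr k f ge go N U xi e (t + 1) - Vr k f ge go N U xi e (t - 1)) =
      k * R * (2 / (k : ℂ) ^ 2 * (2 * go + k * ge)) * N + ((R : ℂ) ^ 2 - (SbP k : ℂ)) * xi -
        2 * k * R * SbP k * U) := by
  obtain ⟨t1, t2, t3, t4⟩ := LNK_trig k f t R hk hs hc ht hR
  have hkc : (k : ℂ) ≠ 0 := by exact_mod_cast hk0.ne'
  have hSb : (4 - (k : ℂ) ^ 2) = SbP k * (k : ℂ) ^ 2 := by
    rw [SbP]; push_cast; field_simp; ring
  have hSb0 : (SbP k : ℂ) ≠ 0 := by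
    have h1 : SbP k * k ^ 2 = 4 * Real.sin f ^ 2 := by
      have h2 := Real.sin_sq_add_cos_sq f
      rw [SbP]; field_simp; rw [hk]
      linear_combination (-4 : ℝ) * h2
    have h3 : SbP k ≠ 0 := by
      intro h0
      rw [h0, zero_mul] at h1
      have : Real.sin f ^ 2 = 0 := by linarith
      exact hs (by simpa using this)
    exact_mod_cast h3
  have hk2 : (2 : ℂ) + k ≠ 0 := by exact_mod_cast (by linarith : (2 + k : ℝ) ≠ 0)
  have c1 : ((R : ℂ) ^ 2 + (SbP k : ℂ)) * (Real.cos (t * f) : ℂ) = (R : ℂ) ^ 2 - (SbP k : ℂ) := by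
    exact_mod_cast t1
  have c3 : ((R : ℂ) ^ 2 + (SbP k : ℂ)) * ((Real.sin (t * f) / Real.sin f : ℝ) : ℂ) * k = 4 * R := by
    exact_mod_cast t3
  have c4 : ((R : ℂ) ^ 2 + (SbP k : ℂ)) * ((Real.sin f * Real.sin (t * f) : ℝ) : ℂ) =
      k * R * SbP k := by exact_mod_cast t4
  have re : reP k ge go = 2 / (k : ℂ) ^ 2 * (2 * go + k * ge) / (2 * SbP k) := by
    rw [reP, hSb]; field_simp
  have ro : reP k go ge = reP k ge go + (ge - go) / (2 + k) := by
    have h4 : (4 - (k : ℂ) ^ 2) = (2 - k) * (2 + k) := by ring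
    have h5 : (2 : ℂ) - k ≠ 0 := by
      intro h0
      rw [h4, h0, zero_mul] at hSb
      exact (mul_ne_zero hSb0 (pow_ne_zero 2 hkc)) hSb.symm
    rw [reP, reP, h4]
    field_simp
    ring
  have hT : ((R : ℂ) ^ 2 + (SbP k : ℂ)) * Vr k f ge go N U xi true t =
      2 / (k : ℂ) ^ 2 * (2 * go + k * ge) * N + 2 * R / k * xi +
        ((R : ℂ) ^ 2 - (SbP k : ℂ)) * U := by
    simp only [Vr, if_true]
    generalize 2 / (k : ℂ) ^ 2 * (2 * go + k * ge) = g at *
    generalize ((Real.sin (t * f) / Real.sin f : ℝ) : ℂ) = σ at *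
    generalize (Real.cos (t * f) : ℂ) = γ at *
    rw [re]
    field_simp
    linear_combination (k * 2 * (SbP k : ℂ) * U - g * N * k) * c1 + (SbP k * xi) * c3
  refine ⟨hT, ?_, ?_⟩
  · rw [← hT]
    simp only [Vr, if_true, Bool.false_eq_true, if_false]
    rw [ro]
    ring
  · intro e
    have hd : Vr k f ge go N U xi e (t + 1) - Vr k f ge go N U xi e (t - 1) =
        -2 * ((Real.sin f * Real.sin (t * f) : ℝ) : ℂ) * (U - reP k ge go * N) +
          (Real.cos (t * f) : ℂ) * xi := by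
      have a1 : (Real.cos ((t + 1) * f) : ℂ) - (Real.cos ((t - 1) * f) : ℂ) =
          -2 * ((Real.sin f * Real.sin (t * f) : ℝ) : ℂ) := by
        rw [← Complex.ofReal_sub, add_mul, sub_mul, one_mul, Real.cos_add, Real.cos_sub]
        push_cast; ring
      have a2 : ((Real.sin ((t + 1) * f) / Real.sin f : ℝ) : ℂ) -
          ((Real.sin ((t - 1) * f) / Real.sin f : ℝ) : ℂ) = 2 * (Real.cos (t * f) : ℂ) := by
        rw [← Complex.ofReal_sub, add_mul, sub_mul, one_mul, Real.sin_add, Real.sin_sub,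
          ← sub_div]
        rw [show (Real.sin (t * f) * Real.cos f + Real.cos (t * f) * Real.sin f -
          (Real.sin (t * f) * Real.cos f - Real.cos (t * f) * Real.sin f)) / Real.sin f =
          2 * Real.cos (t * f) by field_simp; ring]
        push_cast; ring
      simp only [Vr]
      linear_combination (U - reP k ge go * N) * a1 + xi / 2 * a2
    rw [hd, re]
    generalize 2 / (k : ℂ) ^ 2 * (2 * go + k * ge) = g at *
    generalize ((Real.sin f * Real.sin (t * f) : ℝ) : ℂ) = σ at *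
    generalize (Real.cos (t * f) : ℂ) = γ at *
    field_simp
    linear_combination (-(2 * (SbP k : ℂ) * U - g * N)) * c4 + (SbP k * xi) * c1

/-- the trigonometric facts for the orders -/
theorem LNK_Kp (M j : ℕ) (hM : 3 ≤ M) (hj : 1 ≤ j) (hjM : j < M) :
    Real.sin (Real.pi / M) ≠ 0 ∧ Real.cos (Real.pi / M) ≠ 0 ∧
      Real.sin ((j : ℝ) * (Real.pi / M) / 2) ≠ 0 ∧ 0 < Kp M := by
  have hM' : (3 : ℝ) ≤ M := by exact_mod_cast hM
  have hM0 : (0 : ℝ) < M := by linarith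
  have hpi := Real.pi_pos
  have h1 : 0 < Real.pi / M := by positivity
  have h2 : Real.pi / M ≤ Real.pi / 3 := by
    apply div_le_div_of_nonneg_left hpi.le (by norm_num) hM'
  have hc : 0 < Real.cos (Real.pi / M) :=
    Real.cos_pos_of_mem_Ioo ⟨by linarith, by linarith⟩
  have hj' : (1 : ℝ) ≤ j := by exact_mod_cast hj
  have hjM' : (j : ℝ) < M := by exact_mod_cast hjM
  have h3 : 0 < (j : ℝ) * (Real.pi / M) / 2 := by positivity
  have h4 : (j : ℝ) * (Real.pi / M) / 2 < Real.pi := by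
    have : (j : ℝ) * (Real.pi / M) < M * (Real.pi / M) :=
      mul_lt_mul_of_pos_right hjM' h1
    have e : (M : ℝ) * (Real.pi / M) = Real.pi := by field_simp
    linarith
  refine ⟨(Real.sin_pos_of_pos_of_lt_pi h1 (by linarith)).ne', hc.ne',
    (Real.sin_pos_of_pos_of_lt_pi h3 h4).ne', ?_⟩
  rw [Kp]; linarith

/-- a run with an odd number of crossings -/
theorem LNK_odd (κ : Fin 3 → Fin 3 → ℝ) (G : Fin 3 → Fin 3 → ℂ) (hG : WGr κ G)
    {n a b : Fin 3} (h : Dist n a b) (M j : ℕ) (hM : 3 ≤ M) (hk : κ n a = Kp M)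
    (hj : j % 2 = 1) (hjM : j < M)
    (h0 : GhP (κ n a) (κ a b) (κ n b) (zoG κ G n a b) ≠ 0)
    (h1 : GhP (κ a b) (κ n b) (κ n a) (zoG κ G n a b) ≠ 0) (X : V3) :
    TSv κ G a b n (gact G (alt n a j) X) =
      (G n a / (κ n a : ℂ) / ((Rb M j : ℂ) ^ 2 + (SbP (κ n a) : ℂ))) •
        COv (κ n a) (κ a b) (κ n b) (zoG κ G n a b)
          (BRv (κ n a) (Rb M j) (TSv κ G n a b X)) := by
  have hj1 : 1 ≤ j := by omega
  obtain ⟨q1, q2, q3, q4⟩ := LNK_Kp M j hM hj1 hjM
  have hkf : κ n a = 2 * Real.cos (Real.pi / M) := hk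
  obtain ⟨rb, _, ro⟩ := LNK_ring κ G hG h (Real.pi / M) hkf q1 X j
  obtain ⟨r1, r2⟩ := ro hj
  have hrec := (LNK_rec (κ n a) (Real.pi / M) hkf (by
    have : (4 : ℂ) - (κ n a : ℂ) ^ 2 = ((4 * Real.sin (Real.pi / M) ^ 2 : ℝ) : ℂ) := by
      rw [hkf]; push_cast
      have := Complex.sin_sq_add_cos_sq ((Real.pi / M : ℝ) : ℂ)
      push_cast at this
      linear_combination (-4 : ℂ) * this
    rw [this]
    exact_mod_cast (by positivity : (4 * Real.sin (Real.pi / M) ^ 2 : ℝ) ≠ 0))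
    (G b n) (G a n / (κ n a : ℂ) * G b a) (X b) (G a n / (κ n a : ℂ) * X a)
    (-2 * X n + G a n * X a + G b n * X b) j).2
  obtain ⟨_, v2, v3⟩ := LNK_V (κ n a) (Real.pi / M) j (Rb M j) hkf q1 q2 q3 (hk ▸ q4) rfl
    (G b n) (G a n / (κ n a : ℂ) * G b a) (X b) (G a n / (κ n a : ℂ) * X a)
    (-2 * X n + G a n * X a + G b n * X b)
  have v3' := v3 true
  have kp1 := hG.pos n a h.1
  have kp2 := hG.pos a b h.2.1
  have kp3 := hG.pos n b h.2.2.symm
  have c1 : (κ n a : ℂ) ≠ 0 := by exact_mod_cast kp1.ne'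
  have c2 : (κ a b : ℂ) ≠ 0 := by exact_mod_cast kp2.ne'
  have c3 : (κ n b : ℂ) ≠ 0 := by exact_mod_cast kp3.ne'
  have c4 : (2 : ℂ) + (κ n a : ℂ) ≠ 0 := by exact_mod_cast (by linarith : (2 + κ n a : ℝ) ≠ 0)
  have m1 := hG.mul n a h.1
  have m2 := hG.mul a b h.2.1
  have m3 := hG.mul n b h.2.2.symm
  have hW : ((Rb M j : ℂ) ^ 2 + (SbP (κ n a) : ℂ)) ≠ 0 := by
    have hs : 0 ≤ SbP (κ n a) := by
      have hk2 : κ n a ≤ 2 := by rw [hkf]; linarith [Real.cos_le_one (Real.pi / M)]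
      have : 0 ≤ (2 - κ n a) * (2 + κ n a) := mul_nonneg (by linarith) (by linarith)
      exact mul_nonneg this (by positivity)
    have hs' : 0 < SbP (κ n a) := by
      refine lt_of_le_of_ne hs (fun h0 => ?_)
      have e1 : SbP (κ n a) * (κ n a) ^ 2 = 4 * Real.sin (Real.pi / M) ^ 2 := by
        have h2 := Real.sin_sq_add_cos_sq (Real.pi / M)
        rw [SbP]; field_simp; rw [hkf]
        linear_combination (-4 : ℝ) * h2
      rw [← h0, zero_mul] at e1
      have : Real.sin (Real.pi / M) ^ 2 = 0 := by linarith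
      exact q1 (by simpa using this)
    have : 0 < (Rb M j) ^ 2 + SbP (κ n a) := by positivity
    exact_mod_cast this.ne'
  -- phases
  have zdef : zoG κ G n a b = G b a * G a n * G n b / ((κ a b : ℂ) * (κ n a : ℂ) * (κ n b : ℂ)) := rfl
  have zz : zoG κ G a b n = zoG κ G n a b := by
    rw [zoG, zoG, hG.sym b n, hG.sym a n]
    congr 1 <;> ring
  have gN : (G a n / (κ n a : ℂ) * G b a) * X b =
      (κ a b : ℂ) * zoG κ G n a b * (G b n / (κ n b : ℂ) * X b) := by
    rw [zdef]; field_simp; linear_combination (-(G a n * G b a * X b)) * m3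
  have geN : G b n * X b = (κ n b : ℂ) * (G b n / (κ n b : ℂ) * X b) := by field_simp
  generalize hVf : Vr (κ n a) (Real.pi / M) (G b n) (G a n / (κ n a : ℂ) * G b a) (X b)
    (G a n / (κ n a : ℂ) * X a) (-2 * X n + G a n * X a + G b n * X b) = V at *
  set N' : ℂ := G b n / (κ n b : ℂ) * X b with hN'
  set U : ℂ := G a n / (κ n a : ℂ) * X a with hU
  set xi : ℂ := -2 * X n + G a n * X a + G b n * X b with hxi
  set go : ℂ := G a n / (κ n a : ℂ) * G b a with hgo
  set zo : ℂ := zoG κ G n a b with hzo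
  set W : ℂ := (Rb M j : ℂ) ^ 2 + (SbP (κ n a) : ℂ) with hWd
  have hg : GhP (κ n a) (κ a b) (κ n b) zo =
      2 / (κ n a : ℂ) ^ 2 * (2 * (κ a b : ℂ) * zo + (κ n a : ℂ) * (κ n b : ℂ)) := rfl
  have comb : (2 * go + (κ n a : ℂ) * G b n) * X b =
      (2 * (κ a b : ℂ) * zo + (κ n a : ℂ) * (κ n b : ℂ)) * N' := by
    linear_combination 2 * gN + (κ n a : ℂ) * geN
  set Gh : ℂ := GhP (κ n a) (κ a b) (κ n b) zo with hGh
  have w2 : W * V false j = Gh * N' + 2 * (Rb M j : ℂ) / (κ n a : ℂ) * xi +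
      ((Rb M j : ℂ) ^ 2 - (SbP (κ n a) : ℂ)) * U +
      W * (((κ n b : ℂ) - (κ a b : ℂ) * zo) / (2 + (κ n a : ℂ))) * N' := by
    rw [v2, hg]
    have e2 : (G b n - go) * X b = ((κ n b : ℂ) - (κ a b : ℂ) * zo) * N' := by
      linear_combination geN - gN
    linear_combination 2 / (κ n a : ℂ) ^ 2 * comb + W / (2 + (κ n a : ℂ)) * e2
  have w3 : W * (V true (j + 1) - V true (j - 1)) = (κ n a : ℂ) * (Rb M j : ℂ) * Gh * N' +
      ((Rb M j : ℂ) ^ 2 - (SbP (κ n a) : ℂ)) * xi -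
      2 * (κ n a : ℂ) * (Rb M j : ℂ) * (SbP (κ n a) : ℂ) * U := by
    rw [v3', hg]
    linear_combination (κ n a : ℂ) * (Rb M j : ℂ) * (2 / (κ n a : ℂ) ^ 2) * comb
  have hζ : G n a / (κ n a : ℂ) * (G a n / (κ n a : ℂ)) = 1 := by
    rw [div_mul_div_comm, m1, ← sq, div_self (pow_ne_zero 2 c1)]
  ext i
  fin_cases i
  · show G n a / (κ a n : ℂ) * gact G (alt n a j) X n = _ * _
    rw [r1, hG.sym a n]
    simp only [COv, BRv, TSv, Matrix.cons_val_zero, Matrix.cons_val_one, Matrix.cons_val,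
      Fin.zero_eta, Fin.isValue]
    rw [← hU, ← hxi, ← hN', ← hzo, ← hGh]
    have : V false j = (Gh * (N' + 2 * (Rb M j : ℂ) * (xi / ((κ n a : ℂ) * Gh)) +
        ((Rb M j : ℂ) ^ 2 - (SbP (κ n a) : ℂ)) * (U / Gh)) +
        ((κ n b : ℂ) - (κ a b : ℂ) * zo) / (2 + (κ n a : ℂ)) * (W * N')) / W := by
      rw [eq_div_iff hW, mul_comm, w2]
      field_simp
    rw [this]
    ring
  · show (-2 * gact G (alt n a j) X a + G b a * gact G (alt n a j) X b +
        G n a * gact G (alt n a j) X n) / ((κ a b : ℂ) * GhP (κ a b) (κ b n) (κ a n)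
          (zoG κ G a b n)) = _ * _
    rw [rb, r1, r2, zz, hG.sym a n, hG.sym b n]
    simp only [COv, BRv, TSv, Matrix.cons_val_zero, Matrix.cons_val_one, Matrix.cons_val,
      Fin.mk_one, Fin.isValue]
    rw [← hU, ← hxi, ← hN', ← hzo, ← hGh]
    set Gh' : ℂ := GhP (κ a b) (κ n b) (κ n a) zo with hGh'
    have e3 : -2 * (G n a / (κ n a : ℂ) * V true (j - 1)) + G b a * X b + G n a * V false j =
        G n a / (κ n a : ℂ) * (V true (j + 1) - V true (j - 1)) := by
      have hb : G b a = G n a / (κ n a : ℂ) * go := by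
        rw [hgo, ← mul_assoc, hζ, one_mul]
      have hk2 : G n a = G n a / (κ n a : ℂ) * (κ n a : ℂ) := by field_simp
      linear_combination (X b) * hb + (V false j) * hk2 - (G n a / (κ n a : ℂ)) * hrec
    rw [e3]
    have e4 : V true (j + 1) - V true (j - 1) = (κ n a : ℂ) * Gh * ((Rb M j : ℂ) * N' +
        ((Rb M j : ℂ) ^ 2 - (SbP (κ n a) : ℂ)) * (xi / ((κ n a : ℂ) * Gh)) -
        2 * (SbP (κ n a) : ℂ) * (Rb M j : ℂ) * (U / Gh)) / W := by
      rw [eq_div_iff hW, mul_comm, w3]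
      field_simp
    rw [e4]
    field_simp
  · show G b a / (κ a b : ℂ) * gact G (alt n a j) X b / GhP (κ a b) (κ b n) (κ a n)
          (zoG κ G a b n) = _ * _
    rw [rb, zz, hG.sym a n, hG.sym b n]
    simp only [COv, BRv, TSv, Matrix.cons_val_zero, Matrix.cons_val_one, Matrix.cons_val,
      Fin.reduceFinMk, Fin.isValue]
    rw [← hN']
    set Gh' : ℂ := GhP (κ a b) (κ n b) (κ n a) zo with hGh'
    have e5 : G b a * X b = (κ a b : ℂ) * (G n a / (κ n a : ℂ)) * (zo * N') := by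
      have : (G n a / (κ n a : ℂ)) * (go * X b) = G b a * X b := by
        rw [hgo, ← mul_assoc, ← mul_assoc, hζ, one_mul]
      rw [← this, gN]; ring
    have e6 : (Rb M j : ℂ) ^ 2 + (SbP (κ n a) : ℂ) = W := rfl
    rw [e6]
    have e7 : G b a / (κ a b : ℂ) * X b = G n a / (κ n a : ℂ) * (zo * N') := by
      rw [div_mul_eq_mul_div, e5]
      field_simp
    rw [e7]
    field_simp

/-- a run with an even number of crossings -/
theorem LNK_even (κ : Fin 3 → Fin 3 → ℝ) (G : Fin 3 → Fin 3 → ℂ) (hG : WGr κ G)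
    {n a b : Fin 3} (h : Dist n a b) (M j : ℕ) (hM : 3 ≤ M) (hk : κ n a = Kp M)
    (hj : j % 2 = 0) (hj1 : 1 ≤ j) (hjM : j < M)
    (h0 : GhP (κ n a) (κ a b) (κ n b) (zoG κ G n a b) ≠ 0)
    (h1 : GhP (κ n b) (κ a b) (κ n a) (zoG κ G n a b)⁻¹ ≠ 0) (X : V3) :
    TSv κ G n b a (gact G (alt n a j) X) =
      (1 / ((Rb M j : ℂ) ^ 2 + (SbP (κ n a) : ℂ))) •
        CEv (κ n a) (κ a b) (κ n b) (zoG κ G n a b)
          (BRv (κ n a) (Rb M j) (TSv κ G n a b X)) := by
  obtain ⟨q1, q2, q3, q4⟩ := LNK_Kp M j hM hj1 hjM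
  have hkf : κ n a = 2 * Real.cos (Real.pi / M) := hk
  obtain ⟨rb, re, _⟩ := LNK_ring κ G hG h (Real.pi / M) hkf q1 X j
  obtain ⟨r1, r2⟩ := re hj
  have hrec := (LNK_rec (κ n a) (Real.pi / M) hkf (by
    have : (4 : ℂ) - (κ n a : ℂ) ^ 2 = ((4 * Real.sin (Real.pi / M) ^ 2 : ℝ) : ℂ) := by
      rw [hkf]; push_cast
      have := Complex.sin_sq_add_cos_sq ((Real.pi / M : ℝ) : ℂ)
      push_cast at this
      linear_combination (-4 : ℂ) * this
    rw [this]
    exact_mod_cast (by positivity : (4 * Real.sin (Real.pi / M) ^ 2 : ℝ) ≠ 0))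
    (G b n) (G a n / (κ n a : ℂ) * G b a) (X b) (G a n / (κ n a : ℂ) * X a)
    (-2 * X n + G a n * X a + G b n * X b) j).1
  obtain ⟨v2, _, v3⟩ := LNK_V (κ n a) (Real.pi / M) j (Rb M j) hkf q1 q2 q3 (hk ▸ q4) rfl
    (G b n) (G a n / (κ n a : ℂ) * G b a) (X b) (G a n / (κ n a : ℂ) * X a)
    (-2 * X n + G a n * X a + G b n * X b)
  have v3' := v3 false
  have kp1 := hG.pos n a h.1
  have kp2 := hG.pos a b h.2.1
  have kp3 := hG.pos n b h.2.2.symm
  have c1 : (κ n a : ℂ) ≠ 0 := by exact_mod_cast kp1.ne'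
  have c2 : (κ a b : ℂ) ≠ 0 := by exact_mod_cast kp2.ne'
  have c3 : (κ n b : ℂ) ≠ 0 := by exact_mod_cast kp3.ne'
  have m1 := hG.mul n a h.1
  have m2 := hG.mul a b h.2.1
  have m3 := hG.mul n b h.2.2.symm
  have hW : ((Rb M j : ℂ) ^ 2 + (SbP (κ n a) : ℂ)) ≠ 0 := by
    have hs : 0 ≤ SbP (κ n a) := by
      have hk2 : κ n a ≤ 2 := by rw [hkf]; linarith [Real.cos_le_one (Real.pi / M)]
      have : 0 ≤ (2 - κ n a) * (2 + κ n a) := mul_nonneg (by linarith) (by linarith)
      exact mul_nonneg this (by positivity)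
    have hs' : 0 < SbP (κ n a) := by
      refine lt_of_le_of_ne hs (fun h0 => ?_)
      have e1 : SbP (κ n a) * (κ n a) ^ 2 = 4 * Real.sin (Real.pi / M) ^ 2 := by
        have h2 := Real.sin_sq_add_cos_sq (Real.pi / M)
        rw [SbP]; field_simp; rw [hkf]
        linear_combination (-4 : ℝ) * h2
      rw [← h0, zero_mul] at e1
      have : Real.sin (Real.pi / M) ^ 2 = 0 := by linarith
      exact q1 (by simpa using this)
    have : 0 < (Rb M j) ^ 2 + SbP (κ n a) := by positivity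
    exact_mod_cast this.ne'
  -- phases
  have zdef : zoG κ G n a b = G b a * G a n * G n b / ((κ a b : ℂ) * (κ n a : ℂ) * (κ n b : ℂ)) := rfl
  have nz : ∀ i j, i ≠ j → G i j ≠ 0 := by
    intro i j hij h0
    have := hG.mul i j hij
    rw [h0, zero_mul] at this
    have hp : (κ i j : ℂ) ≠ 0 := by exact_mod_cast (hG.pos i j hij).ne'
    exact pow_ne_zero 2 hp this.symm
  have zz : zoG κ G n b a = (zoG κ G n a b)⁻¹ := by
    have g1 := nz b a h.2.1.symm
    have g2 := nz a n h.1.symm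
    have g3 := nz n b h.2.2.symm
    rw [zoG, zoG, hG.sym b a]
    field_simp
    linear_combination (G b n * G n b * G n a * G a n) * m2 +
      ((κ a b : ℂ) ^ 2 * G n a * G a n) * m3 + ((κ a b : ℂ) ^ 2 * (κ n b : ℂ) ^ 2) * m1
  have gN : (G a n / (κ n a : ℂ) * G b a) * X b =
      (κ a b : ℂ) * zoG κ G n a b * (G b n / (κ n b : ℂ) * X b) := by
    rw [zdef]; field_simp; linear_combination (-(G a n * G b a * X b)) * m3
  have geN : G b n * X b = (κ n b : ℂ) * (G b n / (κ n b : ℂ) * X b) := by field_simp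
  generalize hVf : Vr (κ n a) (Real.pi / M) (G b n) (G a n / (κ n a : ℂ) * G b a) (X b)
    (G a n / (κ n a : ℂ) * X a) (-2 * X n + G a n * X a + G b n * X b) = V at *
  set N' : ℂ := G b n / (κ n b : ℂ) * X b with hN'
  set U : ℂ := G a n / (κ n a : ℂ) * X a with hU
  set xi : ℂ := -2 * X n + G a n * X a + G b n * X b with hxi
  set go : ℂ := G a n / (κ n a : ℂ) * G b a with hgo
  set zo : ℂ := zoG κ G n a b with hzo
  set W : ℂ := (Rb M j : ℂ) ^ 2 + (SbP (κ n a) : ℂ) with hWd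
  have hg : GhP (κ n a) (κ a b) (κ n b) zo =
      2 / (κ n a : ℂ) ^ 2 * (2 * (κ a b : ℂ) * zo + (κ n a : ℂ) * (κ n b : ℂ)) := rfl
  have comb : (2 * go + (κ n a : ℂ) * G b n) * X b =
      (2 * (κ a b : ℂ) * zo + (κ n a : ℂ) * (κ n b : ℂ)) * N' := by
    linear_combination 2 * gN + (κ n a : ℂ) * geN
  set Gh : ℂ := GhP (κ n a) (κ a b) (κ n b) zo with hGh
  have w2 : W * V true j = Gh * N' + 2 * (Rb M j : ℂ) / (κ n a : ℂ) * xi +
      ((Rb M j : ℂ) ^ 2 - (SbP (κ n a) : ℂ)) * U := by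
    rw [v2, hg]
    linear_combination 2 / (κ n a : ℂ) ^ 2 * comb
  have w3 : W * (V false (j + 1) - V false (j - 1)) = (κ n a : ℂ) * (Rb M j : ℂ) * Gh * N' +
      ((Rb M j : ℂ) ^ 2 - (SbP (κ n a) : ℂ)) * xi -
      2 * (κ n a : ℂ) * (Rb M j : ℂ) * (SbP (κ n a) : ℂ) * U := by
    rw [v3', hg]
    linear_combination (κ n a : ℂ) * (Rb M j : ℂ) * (2 / (κ n a : ℂ) ^ 2) * comb
  have hζ : G a n / (κ n a : ℂ) * (G n a / (κ n a : ℂ)) = 1 := by
    rw [div_mul_div_comm, mul_comm (G a n), m1, ← sq, div_self (pow_ne_zero 2 c1)]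
  ext i
  fin_cases i
  · show G a n / (κ n a : ℂ) * gact G (alt n a j) X a = _ * _
    rw [r1, ← mul_assoc, hζ, one_mul]
    simp only [CEv, BRv, TSv, Matrix.cons_val_zero, Matrix.cons_val_one, Matrix.cons_val,
      Fin.zero_eta, Fin.isValue]
    rw [← hU, ← hxi, ← hN', ← hzo, ← hGh]
    have : V true j = (Gh * (N' + 2 * (Rb M j : ℂ) * (xi / ((κ n a : ℂ) * Gh)) +
        ((Rb M j : ℂ) ^ 2 - (SbP (κ n a) : ℂ)) * (U / Gh))) / W := by
      rw [eq_div_iff hW, mul_comm, w2]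
      field_simp
    rw [this]
    ring
  · show (-2 * gact G (alt n a j) X n + G b n * gact G (alt n a j) X b +
        G a n * gact G (alt n a j) X a) / ((κ n b : ℂ) * GhP (κ n b) (κ b a) (κ n a)
          (zoG κ G n b a)) = _ * _
    rw [rb, r1, r2, zz, hG.sym b a]
    simp only [CEv, BRv, TSv, Matrix.cons_val_zero, Matrix.cons_val_one, Matrix.cons_val,
      Fin.mk_one, Fin.isValue]
    rw [← hU, ← hxi, ← hN', ← hzo, ← hGh]
    set Gh' : ℂ := GhP (κ n b) (κ a b) (κ n a) zo⁻¹ with hGh'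
    have e3 : -2 * V false (j - 1) + G b n * X b + G a n * (G n a / (κ n a : ℂ) * V true j) =
        V false (j + 1) - V false (j - 1) := by
      have hk2 : G a n * (G n a / (κ n a : ℂ) * V true j) = (κ n a : ℂ) * V true j := by
        field_simp
        linear_combination (V true j) * m1
      linear_combination hk2 - hrec
    rw [e3]
    have e4 : V false (j + 1) - V false (j - 1) = (κ n a : ℂ) * Gh * ((Rb M j : ℂ) * N' +
        ((Rb M j : ℂ) ^ 2 - (SbP (κ n a) : ℂ)) * (xi / ((κ n a : ℂ) * Gh)) -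
        2 * (SbP (κ n a) : ℂ) * (Rb M j : ℂ) * (U / Gh)) / W := by
      rw [eq_div_iff hW, mul_comm, w3]
      field_simp
    rw [e4]
    field_simp
  · show G b n / (κ n b : ℂ) * gact G (alt n a j) X b / GhP (κ n b) (κ b a) (κ n a)
          (zoG κ G n b a) = _ * _
    rw [rb, zz, hG.sym b a]
    simp only [CEv, BRv, TSv, Matrix.cons_val_zero, Matrix.cons_val_one, Matrix.cons_val,
      Fin.reduceFinMk, Fin.isValue]
    rw [← hN']
    set Gh' : ℂ := GhP (κ n b) (κ a b) (κ n a) zo⁻¹ with hGh'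
    have e6 : (Rb M j : ℂ) ^ 2 + (SbP (κ n a) : ℂ) = W := rfl
    rw [e6]
    field_simp

end Pool.Agent.Helper6.MONO
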