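import Pool.Agent.Helper6.CX.ARC
import Pool.Agent.Helper39.CX.TSW
import Pool.Agent.Helper86.CX.Fmt

/-!
Row MTC: from Hermitian forms at one point to `TCert`.
-/

set_option autoImplicit false
noncomputable section
namespace Pool.Agent.Helper6.MTC

open Pool.Agent.Helper6.MONO hiding ev I
open Pool.Agent.Helper21.SUP (GS Sch gM SBlk SSt DG DG_nx Ty std Modes)
open Pool.Agent.Helper6.MONO.SV (UY)
open Pool.Agent.Helper39.C75 (IsRegion IsHForm isRegion_of_hform slit_of_gamma)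
open Pool.Agent.Helper39.SLT (BlkCert T4 ML reg typ_cert)
open Pool.Agent.Helper86.CX (Hm ev)
open Complex ComplexConjugate

open Pool.Agent.Helper21.SUP renaming nx → nxs

/-! ### the forms -/

theorem isHForm_ev (K : Hm ℝ) : IsHForm (ev K) := by
  constructor
  · intro c v
    have h : ∀ x y : ℂ, (conj (c * x) * y * 1).re = (conj (c * x) * y).re := fun x y => by
      rw [mul_one]
    have h2 : ∀ (x y w : ℂ), (conj (c * x) * w * (c * y)).re = ‖c‖ ^ 2 * (conj x * w * y).re := by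
      intro x y w
      rw [map_mul]
      have : conj c * conj x * w * (c * y) = ((‖c‖ ^ 2 : ℝ) : ℂ) * (conj x * w * y) := by
        rw [← Complex.normSq_eq_norm_sq, ← Complex.mul_conj]
        ring
      rw [this, Complex.re_ofReal_mul]
    simp only [ev, Pi.smul_apply, smul_eq_mul, h2, Complex.normSq_eq_norm_sq, norm_mul, mul_pow]
    ring
  · intro s v v'
    simp only [ev, Pi.add_apply, Pi.sub_apply, Pi.smul_apply, smul_eq_mul, Complex.normSq_apply,
      Complex.add_re, Complex.add_im, Complex.sub_re, Complex.sub_im, Complex.mul_re,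
      Complex.mul_im, Complex.conj_re, Complex.conj_im, Complex.ofReal_re, Complex.ofReal_im,
      Complex.I_re, Complex.I_im]
    ring

/-- `[K11, K12; K22] ≤ -κ` -/
def NegD (κ : ℝ) (K : Hm ℝ) : Prop :=
  ∀ x y : ℂ, K.b * normSq x + K.c * normSq y + 2 * (conj x * K.w * y).re ≤
    -κ * (normSq x + normSq y)

theorem NegD.le {κ : ℝ} {K : Hm ℝ} (h : NegD κ K) (hκ : 0 ≤ κ) (v : Fin 3 → ℂ) (h0 : v 0 = 0) :
    ev K v ≤ 0 := by
  have h1 := h (v 1) (v 2)
  have e : ev K v = K.b * normSq (v 1) + K.c * normSq (v 2) + 2 * (conj (v 1) * K.w * v 2).re := by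
    simp only [ev, h0, map_zero, mul_zero, zero_mul, Complex.zero_re, Hm.w]
    ring
  rw [e]
  refine h1.trans ?_
  have := normSq_nonneg (v 1)
  have := normSq_nonneg (v 2)
  nlinarith

theorem isRegion_ev {κ : ℝ} {K : Hm ℝ} (h : NegD κ K) (hκ : 0 ≤ κ) :
    IsRegion {v : Fin 3 → ℂ | 0 < ev K v} :=
  isRegion_of_hform (isHForm_ev K) (h.le hκ)

/-- the bound of a region -/
theorem bound_ev {κ M : ℝ} (hκ : 0 < κ) {K : Hm ℝ} (h : NegD κ K) (ha : |K.a| ≤ M)
    (hx : ‖K.x‖ ≤ M) (hy : ‖K.y‖ ≤ M) {v : Fin 3 → ℂ} (hv : 0 < ev K v) (j : Fin 3) :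
    ‖v j‖ ≤ (5 * M / κ + 1) * ‖v 0‖ := by
  have hM : 0 ≤ M := (abs_nonneg _).trans ha
  have h1 := h (v 1) (v 2)
  have e : ev K v = K.a * normSq (v 0) + 2 * (conj (v 0) * K.x * v 1).re +
      2 * (conj (v 0) * K.y * v 2).re +
      (K.b * normSq (v 1) + K.c * normSq (v 2) + 2 * (conj (v 1) * K.w * v 2).re) := by
    simp only [ev, Hm.w, Hm.x, Hm.y]
    ring
  have b1 : (conj (v 0) * K.x * v 1).re ≤ M * (‖v 0‖ * ‖v 1‖) := by
    refine (Complex.re_le_norm _).trans ?_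
    rw [norm_mul, norm_mul, Complex.norm_conj]
    nlinarith [mul_le_mul_of_nonneg_right hx (mul_nonneg (norm_nonneg (v 0)) (norm_nonneg (v 1)))]
  have b2 : (conj (v 0) * K.y * v 2).re ≤ M * (‖v 0‖ * ‖v 2‖) := by
    refine (Complex.re_le_norm _).trans ?_
    rw [norm_mul, norm_mul, Complex.norm_conj]
    nlinarith [mul_le_mul_of_nonneg_right hy (mul_nonneg (norm_nonneg (v 0)) (norm_nonneg (v 2)))]
  have b0 : K.a * normSq (v 0) ≤ M * ‖v 0‖ ^ 2 := by
    rw [Complex.normSq_eq_norm_sq]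
    exact mul_le_mul_of_nonneg_right ((le_abs_self _).trans ha) (sq_nonneg _)
  rw [Complex.normSq_eq_norm_sq, Complex.normSq_eq_norm_sq] at h1
  rw [Complex.normSq_eq_norm_sq (v 1), Complex.normSq_eq_norm_sq (v 2)] at e
  have hmain : κ * (‖v 1‖ ^ 2 + ‖v 2‖ ^ 2) < M * ‖v 0‖ ^ 2 +
      2 * M * (‖v 0‖ * ‖v 1‖) + 2 * M * (‖v 0‖ * ‖v 2‖) := by
    linarith
  set a := ‖v 0‖ with ha'
  set b := ‖v 1‖ with hb'
  set c := ‖v 2‖ with hc'
  have n0 : 0 ≤ a := norm_nonneg _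
  have n1 : 0 ≤ b := norm_nonneg _
  have n2 : 0 ≤ c := norm_nonneg _
  have key : ∀ s t : ℝ, 0 ≤ s → 0 ≤ t → t ≤ s →
      κ * (s ^ 2 + t ^ 2) < M * a ^ 2 + 2 * M * (a * s) + 2 * M * (a * t) →
      s ≤ (5 * M / κ + 1) * a := by
    intro s t hs ht hts hlt
    by_contra hcon
    push Not at hcon
    have hC : 0 ≤ 5 * M / κ := by positivity
    have h2 : 0 < s := lt_of_le_of_lt (by positivity) hcon
    have h3 : κ * s ^ 2 < M * a ^ 2 + 4 * M * (a * s) := by
      have := mul_nonneg hκ.le (sq_nonneg t)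
      have := mul_le_mul_of_nonneg_left hts (mul_nonneg hM n0)
      nlinarith
    have h4 : (5 * M + κ) * a < κ * s := by
      have e1 : κ * ((5 * M / κ + 1) * a) = (5 * M + κ) * a := by field_simp
      have := mul_lt_mul_of_pos_left hcon hκ
      linarith
    have h5 : (5 * M + κ) * a * s ≤ κ * s ^ 2 := by nlinarith
    have h6 : a ≤ s := by
      have : a ≤ (5 * M / κ + 1) * a := by nlinarith
      linarith
    nlinarith [mul_nonneg hM (mul_nonneg n0 (sub_nonneg.2 h6)), mul_nonneg hκ.le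
      (mul_nonneg n0 h2.le)]
  have hCpos : 0 ≤ 5 * M / κ := by positivity
  fin_cases j
  · show a ≤ _
    nlinarith
  · show b ≤ _
    rcases le_total c b with hcb | hcb
    · exact key b c n1 n2 hcb hmain
    · exact hcb.trans (key c b n2 n1 hcb (by linarith))
  · show c ≤ _
    rcases le_total c b with hcb | hcb
    · exact hcb.trans (key b c n1 n2 hcb hmain)
    · exact key c b n2 n1 hcb (by linarith)

/-- the slit condition from a form -/
theorem slit_ev {K : Hm ℝ} {k : ℝ} {γ : ℂ} (hγ : 0 ≤ γ.re)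
    (h : ∀ v : Fin 3 → ℂ, ev K v ≤ (γ * (conj (v 0) * DTH k v)).re) {v : Fin 3 → ℂ}
    (h0 : v 0 ≠ 0) (hv : 0 < ev K v) : DTH k v / v 0 ∈ slitPlane := by
  refine slit_of_gamma hγ h0 ?_
  rw [mul_comm (DTH k v)]
  exact lt_of_lt_of_le hv (h v)

/-! ### the certificate -/

variable {p q r : ℕ}

/-- the forms at one point: everything except the inclusions of the blocks -/
structure FCert (V : RV2) (e : ℝ) (p q r : ℕ) (κ M : ℝ) (w : ℂ) (K : GS → T4 → Hm ℝ) : Prop where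
  neg : ∀ s, DG s → ∀ T : T4, T.ok (ML p q r s) → NegD κ (K s T)
  ha : ∀ s, DG s → ∀ T : T4, T.ok (ML p q r s) → |(K s T).a| ≤ M
  hx : ∀ s, DG s → ∀ T : T4, T.ok (ML p q r s) → ‖(K s T).x‖ ≤ M
  hy : ∀ s, DG s → ∀ T : T4, T.ok (ML p q r s) → ‖(K s T).y‖ ≤ M
  refY : ∀ s, DG s → ∀ T : T4, T.ok (ML p q r s) → T ≠ T4.two →
    0 < ev (K s T) ((DYm (omS p q r s w)).mulVec ![1, (V.al : ℂ), (V.be : ℂ)])
  refL : ∀ s, DG s → ML p q r s = 3 → 0 < ev (K s T4.two) ((DLm (omS p q r s w)).mulVec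
    ![1, (V.c : ℂ), (V.d (kk p q r s.1 s.2.2) : ℂ)])
  start : ∀ s, DG s → 4 ≤ ML p q r s → ∀ i,
    0 < ev (K s T4.two) ((DYm (omS p q r s w)).mulVec (UY V.al V.be e i)) ∧
      0 < ev (K s T4.three) ((DYm (omS p q r s w)).mulVec (UY V.al V.be e i))
  slit3 : ∀ s, DG s → ∃ γ : ℂ, 0 ≤ γ.re ∧ ∀ v : Fin 3 → ℂ,
    ev (K s T4.three) v ≤ (γ * (conj (v 0) * DTH (kk p q r s.1 s.2.1) v)).re
  slit2 : ∀ s, DG s → ∃ γ : ℂ, 0 ≤ γ.re ∧ ∀ v : Fin 3 → ℂ,
    ev (K s T4.two) v ≤ (γ * (conj (v 0) * DTH (kk p q r s.1 s.2.1) v)).re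

/-- the regions of the forms -/
def RK (K : GS → T4 → Hm ℝ) (s : GS) (T : T4) : Set V3 := {v | 0 < ev (K s T) v}

theorem FCert.tcert {V : RV2} {e κ M : ℝ} (hκ : 0 < κ) {w : ℂ} {K : GS → T4 → Hm ℝ}
    (h : FCert V e p q r κ M w K)
    (hb : BlkCert (std Y0) p q r (RMb p q r) w (Pool.Agent.Helper39.SLT.reg p q r (RK K))) :
    TCert V e p q r (5 * M / κ + 1) w (RK K) := by
  have hne : ∀ s, DG s → ∀ T : T4, T.ok (ML p q r s) → ∀ v ∈ RK K s T, v 0 ≠ 0 :=
    fun s hs T hT v hv => (isRegion_ev (h.neg s hs T hT) hκ.le).ne0 v hv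
  refine ⟨fun s hs T hT => isRegion_ev (h.neg s hs T hT) hκ.le, hb, h.refY, h.refL, h.start,
    ?_, ?_, ?_⟩
  · intro s hs u hu
    obtain ⟨γ, h1, h2⟩ := h.slit3 s hs
    exact slit_ev h1 h2 (hne s hs T4.three trivial u hu) hu
  · intro s hs u hu
    obtain ⟨γ, h1, h2⟩ := h.slit2 s hs
    exact slit_ev h1 h2 (hne s hs T4.two trivial u hu) hu
  · intro s hs T hT u hu j
    exact bound_ev hκ (h.neg s hs T hT) (h.ha s hs T hT) (h.hx s hs T hT) (h.hy s hs T hT) hu j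

/-- MIDDLE CELLS: all single runs respect the forms -/
theorem FCert.tcert_mid (hp : 3 ≤ p) (hq : 3 ≤ q) (hr : 3 ≤ r) {V : RV2} {e κ M : ℝ} (hκ : 0 < κ)
    {w : ℂ} {K : GS → T4 → Hm ℝ} (h : FCert V e p q r κ M w K)
    (hrun : ∀ s, DG s → ∀ T : T4, T.ok (ML p q r s) → ∀ m, T.low (ML p q r s) ≤ m →
      m ≤ mm p q r s.1 s.2.1 → ∀ v : V3, 0 < ev (K s T) v →
        0 < ev (K (nxs s m) (T4.next (mm p q r s.1 s.2.1) m)) ((RMb p q r s m w).mulVec v)) :
    TCert V e p q r (5 * M / κ + 1) w (RK K) := by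
  refine h.tcert hκ (typ_cert hp hq hr (fun _ => rfl) (fun _ => rfl) (fun _ _ => rfl)
    (ga := false) (gb := false) ?_ ?_ ?_ ?_ ?_)
  · intro s hs T hT m h4 hm v hv
    refine hrun s hs T hT m (le_trans ?_ h4) hm v hv
    cases T with
    | two => exact (by norm_num : 2 ≤ 4)
    | three =>
      show (if ML p q r s = 3 then 3 else 2) ≤ 4
      split_ifs <;> norm_num
    | oth => exact (by norm_num : 2 ≤ 4)
    | full => exact (by norm_num : 3 ≤ 4)
  · intro _ s hs T hT v hv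
    have h3 := LNI_mm hp hq hr _ _ hs.1
    have h1 := hrun s hs T hT 3 (by
      cases T with
      | two => exact (by norm_num : 2 ≤ 3)
      | three =>
        show (if ML p q r s = 3 then 3 else 2) ≤ 3
        split_ifs <;> norm_num
      | oth => exact (by norm_num : 2 ≤ 3)
      | full => exact le_rfl) h3 v hv
    have e1 : T4.next (mm p q r s.1 s.2.1) 3 = T4.three := rfl
    rw [e1] at h1
    exact h1
  · intro h0
    exact absurd h0 (by decide)
  · intro _ s hs T hT hl v hv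
    have h3 := LNI_mm hp hq hr _ _ hs.1
    have h1 := hrun s hs T hT 2 hl (by omega) v hv
    have e1 : T4.next (mm p q r s.1 s.2.1) 2 = T4.two := rfl
    rw [e1] at h1
    exact h1
  · intro h0
    exact absurd h0 (by decide)

/-! ### reference and start vectors -/

/-- positivity at the vectors of the `Y` chart from the congruence by `diag(1, om, om (1/2 - om))` -/
theorem DYm_CM (om : ℂ) (v : Fin 3 → ℂ) :
    (DYm om).mulVec v = (Pool.Agent.Helper86.CX.CM 0 om (om * (1 / 2 - om))).mulVec v := by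
  rw [DYm, Pool.Agent.Helper86.CX.CM]

theorem DLm_val (om : ℂ) (c d : ℝ) : (DLm om).mulVec ![1, (c : ℂ), (d : ℂ)] =
    ![1, (c / 2 : ℝ) + ((d - c : ℝ) : ℂ) * om, (c / 2 : ℝ) - (c : ℂ) * om] := by
  funext i
  fin_cases i <;>
    simp [DLm, Matrix.mulVec, dotProduct, Fin.sum_univ_three] <;> ring

end Pool.Agent.Helper6.MTC
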