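import Pool.Agent.Helper39.CX.TYP
import Pool.Agent.Helper12.CX.KVR

/-!
Row PRG: the program of the kernel checker covers all blocks, reference tests, static tests and
slit tests of a class.
-/

set_option autoImplicit false
noncomputable section
namespace Pool.Agent.Helper6.PRG

open Pool.Agent.Helper21.SUP (GS DG nx)
open Pool.Agent.Helper39.SLT (T4 ML)
open Pool.Agent.Helper6.MONO (mm)
open Pool.Agent.Helper86.CX (VR SE BE PE Prog)

/-- the states in the order of the checker -/
def gsF : ℕ → GS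
  | 0 => (0, 1, 2)
  | 1 => (1, 2, 0)
  | 2 => (2, 0, 1)
  | 3 => (0, 2, 1)
  | 4 => (1, 0, 2)
  | _ => (2, 1, 0)

/-- the number of a state -/
def giS (s : GS) : ℕ :=
  if s = (0, 1, 2) then 0 else if s = (1, 2, 0) then 1 else if s = (2, 0, 1) then 2
  else if s = (0, 2, 1) then 3 else if s = (1, 0, 2) then 4 else 5

theorem gsF_giS : ∀ s : GS, DG s → gsF (giS s) = s ∧ giS s < 6 := by
  rintro ⟨n, a, b⟩ ⟨h1, h2, h3⟩
  simp only at h1 h2 h3
  revert n a b
  decide

/-- the types of a state whose last star has order `M`, in the order of the checker -/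
def tys (M : ℕ) : List T4 :=
  if 5 ≤ M then [T4.two, T4.three, T4.oth, T4.full]
  else if 4 ≤ M then [T4.two, T4.three, T4.full] else [T4.two, T4.three]

theorem mem_tys {M : ℕ} {T : T4} (h : T.ok M) : T ∈ tys M := by
  unfold tys
  cases T with
  | two => split_ifs <;> simp
  | three => split_ifs <;> simp
  | oth =>
    have h5 : 5 ≤ M := h
    rw [if_pos h5]
    simp
  | full =>
    have h4 : 4 ≤ M := h
    by_cases h5 : 5 ≤ M
    · rw [if_pos h5]; simp
    · rw [if_neg h5, if_pos h4]; simp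

/-- the place of a type -/
def tpos (M : ℕ) : T4 → ℕ
  | T4.two => 0
  | T4.three => 1
  | T4.oth => 2
  | T4.full => if 5 ≤ M then 3 else 2

/-- the number of the first form of the state number `i` -/
def off (p q r : ℕ) : ℕ → ℕ
  | 0 => 0
  | i + 1 => off p q r i + (tys (ML p q r (gsF i))).length

/-- the number of a form in the table -/
def kidx (p q r : ℕ) (s : GS) (T : T4) : ℕ := off p q r (giS s) + tpos (ML p q r s) T

def veq (V W : VR) : Bool :=
  V.a == W.a && V.b == W.b && V.c == W.c && V.d == W.d && V.e == W.e && V.f == W.f &&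
    V.g == W.g && V.h == W.h && V.i == W.i

theorem veq_eq {V W : VR} (h : veq V W = true) : V = W := by
  unfold veq at h
  simp only [Bool.and_eq_true, beq_iff_eq] at h
  obtain ⟨⟨⟨⟨⟨⟨⟨⟨h1, h2⟩, h3⟩, h4⟩, h5⟩, h6⟩, h7⟩, h8⟩, h9⟩ := h
  cases V
  cases W
  simp_all

/-- the even (`m` odd) and odd (`m` even) lists, the reference lists -/
def eL (G : Prog) : ℕ → List PE
  | 0 => G.e0
  | 1 => G.e1
  | 2 => G.e2
  | 3 => G.e3
  | 4 => G.e4
  | _ => G.e5
def oL (G : Prog) : ℕ → List PE
  | 0 => G.o0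
  | 1 => G.o1
  | 2 => G.o2
  | 3 => G.o3
  | 4 => G.o4
  | _ => G.o5
def rL (G : Prog) : ℕ → List PE
  | 0 => G.r0
  | 1 => G.r1
  | 2 => G.r2
  | 3 => G.r3
  | 4 => G.r4
  | _ => G.r5
def lL (G : Prog) : ℕ → List PE
  | 0 => G.l0
  | 1 => G.l1
  | 2 => G.l2
  | 3 => G.l3
  | 4 => G.l4
  | _ => G.l5

/-- the entry of a block is in the list -/
def hasB (l : List PE) (k : ℕ) (V : VR) (k' : ℕ) : Bool :=
  l.any fun x => x.k == k && x.b.any fun y => veq y.V V && y.s.any fun z => z.k == k'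

theorem hasB_iff {l : List PE} {k k' : ℕ} {V : VR} (h : hasB l k V k' = true) :
    ∃ x ∈ l, x.k = k ∧ ∃ y ∈ x.b, y.V = V ∧ ∃ z ∈ y.s, z.k = k' := by
  unfold hasB at h
  rw [List.any_eq_true] at h
  obtain ⟨x, hx, h⟩ := h
  rw [Bool.and_eq_true, beq_iff_eq, List.any_eq_true] at h
  obtain ⟨h1, y, hy, h⟩ := h
  rw [Bool.and_eq_true, List.any_eq_true] at h
  obtain ⟨h2, z, hz, h3⟩ := h
  exact ⟨x, hx, h1, y, hy, veq_eq h2, z, hz, by simpa using h3⟩

/-- the runs from the state number `i` -/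
def covS (p q r : ℕ) (G : Prog) (i : ℕ) : Bool :=
  (List.range (mm p q r (gsF i).1 (gsF i).2.1 + 1)).all fun m =>
    (tys (ML p q r (gsF i))).all fun T =>
      if T.low (ML p q r (gsF i)) ≤ m then
        hasB (if m % 2 = 1 then eL G (giS (nx (gsF i) m)) else oL G (giS (nx (gsF i) m)))
          (kidx p q r (nx (gsF i) m) (T4.next (mm p q r (gsF i).1 (gsF i).2.1) m))
          (Pool.Agent.Helper6.MONO.VV (mm p q r (gsF i).1 (gsF i).2.1) (m - 1))
          (kidx p q r (gsF i) T)
      else true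

/-- the reference tests of the state number `i`; for label `3` the type `two` is excluded -/
def covR (p q r : ℕ) (G : Prog) (i : ℕ) : Bool :=
  (tys (ML p q r (gsF i))).all fun T => (decide (T = T4.two) && decide (ML p q r (gsF i) ≤ 3)) ||
    (rL G i).any fun x => x.k == kidx p q r (gsF i) T

/-- the tests of the `L` vector at the states with label `3` -/
def coverL (p q r : ℕ) (G : Prog) : Bool :=
  (List.range 6).all fun i => if ML p q r (gsF i) = 3 then
    (lL G i).any fun x => x.k == kidx p q r (gsF i) T4.two else true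

/-- THE PROGRAM COVERS EVERYTHING -/
def cover (p q r : ℕ) (G : Prog) : Bool :=
  (List.range 6).all fun i => covS p q r G i && covR p q r G i

theorem cover_blk {p q r : ℕ} {G : Prog} (h : cover p q r G = true) {s : GS} (hs : DG s) {T : T4}
    (hT : T.ok (ML p q r s)) {m : ℕ} (h1 : T.low (ML p q r s) ≤ m)
    (h2 : m ≤ mm p q r s.1 s.2.1) :
    ∃ x ∈ (if m % 2 = 1 then eL G (giS (nx s m)) else oL G (giS (nx s m))),
      x.k = kidx p q r (nx s m) (T4.next (mm p q r s.1 s.2.1) m) ∧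
      ∃ y ∈ x.b, y.V = Pool.Agent.Helper6.MONO.VV (mm p q r s.1 s.2.1) (m - 1) ∧
        ∃ z ∈ y.s, z.k = kidx p q r s T := by
  obtain ⟨e, hi⟩ := gsF_giS s hs
  unfold cover at h
  rw [List.all_eq_true] at h
  have h3 := h (giS s) (List.mem_range.2 hi)
  rw [Bool.and_eq_true] at h3
  have h4 := h3.1
  unfold covS at h4
  rw [e, List.all_eq_true] at h4
  have h5 := h4 m (List.mem_range.2 (by omega))
  rw [List.all_eq_true] at h5
  have h6 := h5 T (mem_tys hT)
  rw [if_pos h1] at h6
  exact hasB_iff h6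

theorem covR_at {p q r : ℕ} {G : Prog} {s : GS} (hs : DG s) (h : covR p q r G (giS s) = true)
    {T : T4} (hT : T.ok (ML p q r s)) (hT2 : T ≠ T4.two ∨ 4 ≤ ML p q r s) :
    ∃ x ∈ rL G (giS s), x.k = kidx p q r s T := by
  obtain ⟨e, -⟩ := gsF_giS s hs
  unfold covR at h
  rw [e, List.all_eq_true] at h
  have h5 := h T (mem_tys hT)
  have h6 : ¬ (T = T4.two ∧ ML p q r s ≤ 3) := by
    rintro ⟨h6, h7⟩
    rcases hT2 with h8 | h8
    · exact h8 h6
    · omega
  rw [Bool.or_eq_true, Bool.and_eq_true, decide_eq_true_eq, decide_eq_true_eq] at h5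
  have h7 := h5.resolve_left h6
  rw [List.any_eq_true] at h7
  obtain ⟨x, hx, h6⟩ := h7
  exact ⟨x, hx, by simpa using h6⟩

theorem cover_ref {p q r : ℕ} {G : Prog} (h : cover p q r G = true) {s : GS} (hs : DG s) {T : T4}
    (hT : T.ok (ML p q r s)) (hT2 : T ≠ T4.two ∨ 4 ≤ ML p q r s) :
    ∃ x ∈ rL G (giS s), x.k = kidx p q r s T := by
  obtain ⟨-, hi⟩ := gsF_giS s hs
  unfold cover at h
  rw [List.all_eq_true] at h
  have h3 := h (giS s) (List.mem_range.2 hi)
  rw [Bool.and_eq_true] at h3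
  exact covR_at hs h3.2 hT hT2

theorem cover_L {p q r : ℕ} {G : Prog} (h : coverL p q r G = true) {s : GS} (hs : DG s)
    (h3 : ML p q r s = 3) : ∃ x ∈ lL G (giS s), x.k = kidx p q r s T4.two := by
  obtain ⟨e, hi⟩ := gsF_giS s hs
  unfold coverL at h
  rw [List.all_eq_true] at h
  have h4 := h (giS s) (List.mem_range.2 hi)
  rw [e, if_pos h3, List.any_eq_true] at h4
  obtain ⟨x, hx, h6⟩ := h4
  exact ⟨x, hx, by simpa using h6⟩

/-- all forms of the class are in the list of the static tests -/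
def covT (p q r : ℕ) (l : List ℕ) : Bool :=
  (List.range 6).all fun i => (tys (ML p q r (gsF i))).all fun T =>
    l.any fun k => k == kidx p q r (gsF i) T

theorem cover_st {p q r : ℕ} {l : List ℕ} (h : covT p q r l = true) {s : GS} (hs : DG s) {T : T4}
    (hT : T.ok (ML p q r s)) : kidx p q r s T ∈ l := by
  obtain ⟨e, hi⟩ := gsF_giS s hs
  unfold covT at h
  rw [List.all_eq_true] at h
  have h3 := h (giS s) (List.mem_range.2 hi)
  rw [e, List.all_eq_true] at h3
  have h4 := h3 T (mem_tys hT)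
  rw [List.any_eq_true] at h4
  obtain ⟨x, hx, h6⟩ := h4
  have h7 : x = kidx p q r s T := by simpa using h6
  rw [← h7]
  exact hx

/-! ### slit tests -/

/-- `(1 - S)/2` in units `2 ^ (-48)`, modulo `2 ^ 1152` -/
def tN : ℕ → ℕ
  | 3 => Nat.sub Pool.Agent.Helper86.CX.M2 281474976710656
  | 4 => 0
  | 5 => 66447228468885
  | 6 => 93824992236885
  | 7 => 108098478510054
  | 8 => 116590752822205
  | _ => 122093383678066

/-- an entry of the list of the slit tests -/
def hasL (l : List Pool.Agent.Helper86.CX.LE) (k t : ℕ) : Bool := l.any fun x => x.k == k && x.t == t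

/-- every state has its slit tests for the types `two` and `three` -/
def covL (p q r : ℕ) (l : List Pool.Agent.Helper86.CX.LE) : Bool :=
  (List.range 6).all fun i =>
    hasL l (kidx p q r (gsF i) T4.two) (tN (mm p q r (gsF i).1 (gsF i).2.1)) &&
      hasL l (kidx p q r (gsF i) T4.three) (tN (mm p q r (gsF i).1 (gsF i).2.1))

theorem hasL_iff {l : List Pool.Agent.Helper86.CX.LE} {k t : ℕ} (h : hasL l k t = true) :
    ∃ x ∈ l, x.k = k ∧ x.t = t := by
  unfold hasL at h
  rw [List.any_eq_true] at h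
  obtain ⟨x, hx, h1⟩ := h
  rw [Bool.and_eq_true, beq_iff_eq, beq_iff_eq] at h1
  exact ⟨x, hx, h1.1, h1.2⟩

theorem covL_iff {p q r : ℕ} {l : List Pool.Agent.Helper86.CX.LE} (h : covL p q r l = true)
    {s : GS} (hs : DG s) :
    (∃ x ∈ l, x.k = kidx p q r s T4.two ∧ x.t = tN (mm p q r s.1 s.2.1)) ∧
      ∃ x ∈ l, x.k = kidx p q r s T4.three ∧ x.t = tN (mm p q r s.1 s.2.1) := by
  obtain ⟨e, hi⟩ := gsF_giS s hs
  unfold covL at h
  rw [List.all_eq_true] at h
  have h3 := h (giS s) (List.mem_range.2 hi)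
  rw [e, Bool.and_eq_true] at h3
  exact ⟨hasL_iff h3.1, hasL_iff h3.2⟩

end Pool.Agent.Helper6.PRG
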