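import Pool.Agent.Helper21.CX.KCF
import Pool.Agent.Helper17.C75.Kp9
import Pool.Agent.Helper6.CX.MTC
import Pool.Agent.Helper6.CX.PRG
import Pool.Agent.Helper12.CX.KVR

/-!
Facts about the forms of a cell at a point: affine combinations of the table, static tests, bounds,
slit tests.
-/

set_option autoImplicit false
noncomputable section
namespace Pool.Agent.Helper6.KPF

open Pool.Agent.Helper86.CX
open Pool.Agent.Helper90.C75 (Wts wq bt)
open Pool.Agent.Helper21.KCE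
open Pool.Agent.Helper17.PAK (kz sc nrm ev_lin slR chkSt_sound chkSl_sound u32_sub_bd)
open Pool.Agent.Helper6.MTC (NegD)
open Pool.Agent.Helper6.MONO (SbP Kp)
open Pool.Agent.Helper6.PRG (tN)
open Complex ComplexConjugate

variable {n : ℕ} {wc : Fin n → ℝ} {t : ℝ}

/-- averages of affine functions of `t` -/
theorem sum_wq (f g : Fin n → ℝ) (F : Fin n × Fin 3 → ℝ)
    (h : ∀ i, F (i, 0) = f i ∧ F (i, 1) = (f i + g i) / 2 ∧ F (i, 2) = g i) :
    ∑ v, wq wc t v * F v = ∑ i, wc i * ((1 - t) * f i + t * g i) := by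
  rw [Fintype.sum_prod_type]
  refine Finset.sum_congr rfl fun i _ => ?_
  obtain ⟨h0, h1, h2⟩ := h i
  rw [Fin.sum_univ_three]
  simp only [wq, bt, h0, h1, h2, Matrix.cons_val_zero, Matrix.cons_val_one, Matrix.cons_val]
  ring

theorem Kt_ev (L : List K2) (i : Fin n) (v : Fin 3 → ℂ) :
    ev (Kt n L (i, 0)) v = ev (sc 1 (kz (g2 L i).s)) v ∧
    ev (Kt n L (i, 1)) v = (ev (sc 1 (kz (g2 L i).s)) v + ev (sc 1 (kz (g2 L i).t)) v) / 2 ∧
    ev (Kt n L (i, 2)) v = ev (sc 1 (kz (g2 L i).t)) v := by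
  refine ⟨?_, ?_, ?_⟩
  · rw [ev_lin, ev_lin]
    simp only [Kt, Gr, kt, gz, sc, kz, Matrix.cons_val_zero, div_one]
  · rw [ev_lin, ev_lin, ev_lin]
    simp only [Kt, Gr, kt, gz, sc, kz, Matrix.cons_val_one, Matrix.cons_val_zero, div_one]
    ring
  · rw [ev_lin, ev_lin]
    simp only [Kt, Gr, kt, gz, sc, kz, Matrix.cons_val, div_one]

/-- THE FORM AT A POINT is the affine combination of the two ends, averaged over the corners -/
theorem ev_KP (L : List K2) (v : Fin 3 → ℂ) : ev (KP n wc t L) v =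
    ∑ i : Fin n, wc i * ((1 - t) * ev (sc 1 (kz (g2 L i).s)) v +
      t * ev (sc 1 (kz (g2 L i).t)) v) := by
  unfold KP
  rw [ev_avH]
  exact sum_wq (fun i : Fin n => ev (sc 1 (kz (g2 L i).s)) v)
    (fun i : Fin n => ev (sc 1 (kz (g2 L i).t)) v) _ fun i => Kt_ev L i v

theorem kt_avg (L : List K2) (j : ℕ) : ∑ v, wq wc t v * Gr n L j v =
    ∑ i : Fin n, wc i * ((1 - t) * (gz (g2 L i).s j : ℝ) + t * (gz (g2 L i).t j : ℝ)) :=
  sum_wq _ _ _ fun i => ⟨rfl, rfl, rfl⟩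

theorem gz_bd (K j : ℕ) : |(gz K j : ℝ)| ≤ 2 ^ 31 := by
  have h := u32_sub_bd K j
  have h2 : ((|gz K j| : ℤ) : ℝ) ≤ ((2 ^ 31 : ℤ) : ℝ) := by exact_mod_cast h
  rw [Int.cast_abs] at h2
  refine h2.trans (le_of_eq ?_)
  norm_num

theorem avg_bd (hw : Wts wc) (h0 : 0 ≤ t) (h1 : t ≤ 1) {f g : Fin n → ℝ} {B : ℝ}
    (hf : ∀ i, |f i| ≤ B) (hg : ∀ i, |g i| ≤ B) :
    |∑ i, wc i * ((1 - t) * f i + t * g i)| ≤ B := by
  calc |∑ i, wc i * ((1 - t) * f i + t * g i)| ≤ ∑ i, |wc i * ((1 - t) * f i + t * g i)| :=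
        Finset.abs_sum_le_sum_abs _ _
    _ ≤ ∑ i, wc i * B := by
        refine Finset.sum_le_sum fun i _ => ?_
        rw [abs_mul, abs_of_nonneg (hw.nonneg i)]
        refine mul_le_mul_of_nonneg_left ?_ (hw.nonneg i)
        refine (abs_add_le _ _).trans ?_
        rw [abs_mul, abs_mul, abs_of_nonneg h0, abs_of_nonneg (by linarith : (0 : ℝ) ≤ 1 - t)]
        have a1 := mul_le_mul_of_nonneg_left (hf i) (by linarith : (0 : ℝ) ≤ 1 - t)
        have a2 := mul_le_mul_of_nonneg_left (hg i) h0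
        linarith
    _ = B := by rw [← Finset.sum_mul, hw.sum, one_mul]

/-- all entries of the forms are at most `2 ^ 31` (units `2 ^ (-20)`) -/
theorem Gr_bd (hw : Wts wc) (h0 : 0 ≤ t) (h1 : t ≤ 1) (L : List K2) (j : ℕ) :
    |∑ v, wq wc t v * Gr n L j v| ≤ 2 ^ 31 := by
  rw [kt_avg]
  exact avg_bd hw h0 h1 (fun i => gz_bd _ _) (fun i => gz_bd _ _)

theorem KP_bd (hw : Wts wc) (h0 : 0 ≤ t) (h1 : t ≤ 1) (L : List K2) :
    |(KP n wc t L).a| ≤ 2 ^ 32 ∧ ‖(KP n wc t L).x‖ ≤ 2 ^ 32 ∧ ‖(KP n wc t L).y‖ ≤ 2 ^ 32 := by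
  have key : ∀ a b : ℝ, |a| ≤ 2 ^ 31 → |b| ≤ 2 ^ 31 → ‖(a : ℂ) + (b : ℂ) * I‖ ≤ 2 ^ 32 := by
    intro a b ha hb
    refine (norm_add_le _ _).trans ?_
    rw [norm_mul, Complex.norm_I, mul_one, Complex.norm_real, Complex.norm_real,
      Real.norm_eq_abs, Real.norm_eq_abs]
    linarith
  refine ⟨?_, ?_, ?_⟩
  · exact (Gr_bd hw h0 h1 L 0).trans (by norm_num)
  · exact key _ _ (Gr_bd hw h0 h1 L 96) (Gr_bd hw h0 h1 L 128)
  · exact key _ _ (Gr_bd hw h0 h1 L 160) (Gr_bd hw h0 h1 L 192)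

/-! ### the table of one form -/

theorem kfs_len (KTs : List K2) (k : ℕ) : (kfs KTs k).length = KTs.length := by
  induction KTs with
  | nil => rfl
  | cons T KTs ih =>
    show (kfs KTs k).length + 1 = KTs.length + 1
    rw [ih]

theorem g2_kfs {KTs : List K2} {i : ℕ} (h : i < KTs.length) (k : ℕ) :
    g2 (kfs KTs k) i = ⟨kf (g2 KTs i).s k, kf (g2 KTs i).t k⟩ := by
  induction KTs generalizing i with
  | nil => exact absurd h (Nat.not_lt_zero _)
  | cons T KTs ih =>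
    cases i with
    | zero => rfl
    | succ i => exact ih (Nat.lt_of_succ_lt_succ h)

/-! ### static tests -/

theorem sc1_eq (K : ℕ) (v : Fin 3 → ℂ) :
    ev (sc 1 (kz K)) v = 2 ^ 20 * ev (sc (2 ^ 20) (kz K)) v := by
  rw [ev_lin, ev_lin]
  simp only [sc]
  ring

theorem lin_aux {A B t R S : ℝ} (t0 : 0 ≤ 1 - t) (h0 : 0 ≤ t) (hA : A ≤ R) (hB : B ≤ S) :
    (1 - t) * (2 ^ 20 * A) + t * (2 ^ 20 * B) ≤ 2 ^ 20 * (1 - t) * R + 2 ^ 20 * t * S := by
  have a1 := mul_le_mul_of_nonneg_left hA t0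
  have a2 := mul_le_mul_of_nonneg_left hB h0
  linarith

/-- THE FORMS ARE NEGATIVE ON `v 0 = 0` -/
theorem negD_KP (hw : Wts wc) (h0 : 0 ≤ t) (h1 : t ≤ 1) {KTs : List K2} (hl : KTs.length = n)
    {l : List ℕ} (h : chkSt KTs l = true) {k : ℕ} (hk : k ∈ l) :
    NegD (2 ^ 10) (KP n wc t (kfs KTs k)) := by
  intro x y
  set v : Fin 3 → ℂ := ![0, x, y] with hv
  have v0 : v 0 = 0 := rfl
  have v1 : v 1 = x := rfl
  have v2 : v 2 = y := rfl
  have e : ev (KP n wc t (kfs KTs k)) v = (KP n wc t (kfs KTs k)).b * normSq x +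
      (KP n wc t (kfs KTs k)).c * normSq y +
      2 * (conj x * (KP n wc t (kfs KTs k)).w * y).re := by
    simp only [ev, v0, v1, v2, map_zero, mul_zero, zero_mul, Complex.zero_re, Hm.w]
    ring
  rw [← e, ev_KP]
  have hs := chkSt_sound h
  have key : ∀ i : Fin n, wc i * ((1 - t) * ev (sc 1 (kz (g2 (kfs KTs k) i).s)) v +
      t * ev (sc 1 (kz (g2 (kfs KTs k) i).t)) v) ≤ wc i * (-2 ^ 10 * (normSq x + normSq y)) := by
    intro i
    have hi : (i : ℕ) < KTs.length := by rw [hl]; exact i.2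
    obtain ⟨s1, s2⟩ := hs (g2 KTs i) (g2_mem hi) k hk v v0
    rw [g2_kfs hi]
    refine mul_le_mul_of_nonneg_left ?_ (hw.nonneg i)
    show (1 - t) * ev (sc 1 (kz (kf (g2 KTs i).s k))) v +
      t * ev (sc 1 (kz (kf (g2 KTs i).t k))) v ≤ _
    rw [sc1_eq, sc1_eq]
    have en : nrm v = normSq x + normSq y := by
      unfold nrm
      rw [v0, v1, v2, map_zero, zero_add]
    rw [en] at s1 s2
    have t0 : 0 ≤ 1 - t := by linarith
    refine (lin_aux t0 h0 s1 s2).trans (le_of_eq ?_)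
    ring
  refine (Finset.sum_le_sum fun i _ => key i).trans ?_
  rw [← Finset.sum_mul, hw.sum, one_mul]

/-! ### slit tests -/

/-- `(1 - S)/2` in units `2 ^ (-48)` -/
def tZ : ℕ → ℤ
  | 3 => -281474976710656
  | 4 => 0
  | 5 => 66447228468885
  | 6 => 93824992236885
  | 7 => 108098478510054
  | 8 => 116590752822205
  | _ => 122093383678066

theorem tN_rep {M : ℕ} (h3 : 3 ≤ M) (h9 : M ≤ 9) : Pool.Agent.Helper17.PAK.Rep M2 (tN M) (tZ M) := by
  interval_cases M <;> (unfold Pool.Agent.Helper17.PAK.Rep Int.ModEq; decide +kernel)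

theorem tZ_bd {M : ℕ} (h3 : 3 ≤ M) (h9 : M ≤ 9) : |tZ M| ≤ 2 ^ 100 := by
  interval_cases M <;> decide +kernel

theorem tZ_err {M : ℕ} (h3 : 3 ≤ M) (h9 : M ≤ 9) :
    |2 * ((tZ M : ℝ) / 2 ^ 48) - (1 - SbP (Kp M))| ≤ 1 / 2 ^ 47 := by
  rw [abs_le]
  interval_cases M
  · have h := Pool.Agent.Helper6.MONO.kvr_S3
    constructor <;> (simp only [tZ]; push_cast; linarith)
  · have h := Pool.Agent.Helper6.MONO.kvr_S4
    constructor <;> (simp only [tZ]; push_cast; linarith)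
  · have h := Pool.Agent.Helper6.MONO.kvr_S5
    constructor <;> (simp only [tZ]; push_cast; linarith)
  · have h := Pool.Agent.Helper6.MONO.kvr_S6
    constructor <;> (simp only [tZ]; push_cast; linarith)
  · have h := Pool.Agent.Helper6.MONO.kvr_S7
    constructor <;> (simp only [tZ]; push_cast; linarith)
  · have h := Pool.Agent.Helper6.MONO.kvr_S8
    constructor <;> (simp only [tZ]; push_cast; linarith)
  · have h := Pool.Agent.Helper6.MONO.kvr_S9
    constructor <;> (simp only [tZ]; push_cast; linarith)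

/-- the multiplier `s` at an end -/
def sE (ST k : ℕ) : ℂ := (((gz ST k : ℝ) / 2 ^ 20 : ℝ) : ℂ) + (((gz ST (k + 32) : ℝ) / 2 ^ 20 : ℝ) : ℂ) * I

/-- `0 ≤ Re s ≤ 2 ^ 8`, `|Im s| ≤ 2 ^ 8` at an end -/
def sOK (ST k : ℕ) : Bool :=
  Nat.ble 2147483648 (u32 ST k) && Nat.ble (u32 ST k) 2415919104 &&
    (Nat.ble 1879048192 (u32 ST (k + 32)) && Nat.ble (u32 ST (k + 32)) 2415919104)

theorem sOK_iff {ST k : ℕ} (h : sOK ST k = true) : 0 ≤ (sE ST k).re ∧ ‖sE ST k‖ ≤ 2 ^ 9 := by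
  unfold sOK at h
  simp only [Bool.and_eq_true] at h
  obtain ⟨⟨a1, a2⟩, a3, a4⟩ := h
  have b1 := Nat.le_of_ble_eq_true a1
  have b2 := Nat.le_of_ble_eq_true a2
  have b3 := Nat.le_of_ble_eq_true a3
  have b4 := Nat.le_of_ble_eq_true a4
  have c1 : (2147483648 : ℝ) ≤ (u32 ST k : ℝ) := by exact_mod_cast b1
  have c2 : (u32 ST k : ℝ) ≤ 2415919104 := by exact_mod_cast b2
  have c3 : (1879048192 : ℝ) ≤ (u32 ST (k + 32) : ℝ) := by exact_mod_cast b3
  have c4 : (u32 ST (k + 32) : ℝ) ≤ 2415919104 := by exact_mod_cast b4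
  have e1 : ((gz ST k : ℤ) : ℝ) = (u32 ST k : ℝ) - 2147483648 := by
    unfold gz; push_cast; norm_num
  have e2 : ((gz ST (k + 32) : ℤ) : ℝ) = (u32 ST (k + 32) : ℝ) - 2147483648 := by
    unfold gz; push_cast; norm_num
  constructor
  · have e : (sE ST k).re = (gz ST k : ℝ) / 2 ^ 20 := by
      unfold sE
      rw [Complex.add_re, Complex.ofReal_re, Complex.re_ofReal_mul, Complex.I_re, mul_zero,
        add_zero]
    rw [e, e1]
    exact div_nonneg (by linarith) (by positivity)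
  · unfold sE
    refine (norm_add_le _ _).trans ?_
    rw [norm_mul, Complex.norm_I, mul_one, Complex.norm_real, Complex.norm_real,
      Real.norm_eq_abs, Real.norm_eq_abs, e1, e2]
    have d1 : |((u32 ST k : ℝ) - 2147483648) / 2 ^ 20| ≤ 2 ^ 8 := by
      rw [abs_div, div_le_iff₀ (by positivity), abs_le]
      constructor
      · rw [abs_of_pos (by positivity : (0 : ℝ) < 2 ^ 20)]; linarith
      · rw [abs_of_pos (by positivity : (0 : ℝ) < 2 ^ 20)]; linarith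
    have d2 : |((u32 ST (k + 32) : ℝ) - 2147483648) / 2 ^ 20| ≤ 2 ^ 8 := by
      rw [abs_div, div_le_iff₀ (by positivity), abs_le]
      constructor
      · rw [abs_of_pos (by positivity : (0 : ℝ) < 2 ^ 20)]; linarith
      · rw [abs_of_pos (by positivity : (0 : ℝ) < 2 ^ 20)]; linarith
    linarith

open Pool.Agent.Helper6.MONO (DTH) in
/-- the functional of the test against the true one -/
theorem slR_le {ST k M : ℕ} (h3 : 3 ≤ M) (h9 : M ≤ 9) (hs : sOK ST k = true) (v : Fin 3 → ℂ) :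
    slR ST k (tZ M) v - (1 / 2 ^ 38) * nrm v ≤ (sE ST k * (conj (v 0) * DTH (Kp M) v)).re := by
  have hb := (sOK_iff hs).2
  have e1 : slR ST k (tZ M) v = (sE ST k * conj (v 0) *
      (v 0 + 2 * v 1 + 2 * (((tZ M : ℝ) / 2 ^ 48 : ℝ) : ℂ) * v 2)).re := by
    unfold slR sE gz
    norm_num
  have e2 : sE ST k * conj (v 0) * (v 0 + 2 * v 1 + 2 * (((tZ M : ℝ) / 2 ^ 48 : ℝ) : ℂ) * v 2) =
      sE ST k * (conj (v 0) * DTH (Kp M) v) +
      sE ST k * conj (v 0) * (((2 * ((tZ M : ℝ) / 2 ^ 48) - (1 - SbP (Kp M)) : ℝ) : ℂ)) * v 2 := by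
    unfold DTH
    push_cast
    ring
  rw [e1, e2, Complex.add_re]
  have h4 : (sE ST k * conj (v 0) * (((2 * ((tZ M : ℝ) / 2 ^ 48) - (1 - SbP (Kp M)) : ℝ) : ℂ)) *
      v 2).re ≤ (1 / 2 ^ 38) * nrm v := by
    refine (Complex.re_le_norm _).trans ?_
    rw [norm_mul, norm_mul, norm_mul, Complex.norm_conj, Complex.norm_real, Real.norm_eq_abs]
    have h5 := tZ_err h3 h9
    have n0 := norm_nonneg (v 0)
    have n2 := norm_nonneg (v 2)
    have g1 : ‖sE ST k‖ * ‖v 0‖ * |2 * ((tZ M : ℝ) / 2 ^ 48) - (1 - SbP (Kp M))| * ‖v 2‖ ≤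
        2 ^ 9 * ‖v 0‖ * (1 / 2 ^ 47) * ‖v 2‖ := by
      gcongr
    refine g1.trans ?_
    unfold nrm
    rw [Complex.normSq_eq_norm_sq, Complex.normSq_eq_norm_sq, Complex.normSq_eq_norm_sq]
    nlinarith [sq_nonneg (‖v 0‖ - ‖v 2‖), sq_nonneg ‖v 1‖]
  linarith

open Pool.Agent.Helper6.MONO (DTH) in
/-- THE SLIT CONDITION OF A FORM -/
theorem slit_KP (hw : Wts wc) (h0 : 0 ≤ t) (h1 : t ≤ 1) {KTs : List K2} (hl : KTs.length = n)
    {ST : ℕ} {l : List LE} (h : chkSl KTs ST l = true) {x : LE} (hx : x ∈ l) {M : ℕ}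
    (h3 : 3 ≤ M) (h9 : M ≤ 9) (ht : x.t = tN M) (hs0 : sOK ST (128 * x.l) = true)
    (hs1 : sOK ST (128 * x.l + 64) = true) :
    ∃ γ : ℂ, 0 ≤ γ.re ∧ ∀ v : Fin 3 → ℂ,
      ev (KP n wc t (kfs KTs x.k)) v ≤ (γ * (conj (v 0) * DTH (Kp M) v)).re := by
  have t0 : 0 ≤ 1 - t := by linarith
  have q0 := (sOK_iff hs0).1
  have q1 := (sOK_iff hs1).1
  refine ⟨((2 ^ 20 * (1 - t) : ℝ) : ℂ) * sE ST (128 * x.l) +
    ((2 ^ 20 * t : ℝ) : ℂ) * sE ST (128 * x.l + 64), ?_, ?_⟩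
  · rw [Complex.add_re, Complex.re_ofReal_mul, Complex.re_ofReal_mul]
    positivity
  · intro v
    have hs := chkSl_sound h
    rw [ev_KP, add_mul, Complex.add_re, mul_assoc, mul_assoc, Complex.re_ofReal_mul,
      Complex.re_ofReal_mul]
    have g0 := slR_le h3 h9 hs0 v
    have g1 := slR_le h3 h9 hs1 v
    have key : ∀ i : Fin n, wc i * ((1 - t) * ev (sc 1 (kz (g2 (kfs KTs x.k) i).s)) v +
        t * ev (sc 1 (kz (g2 (kfs KTs x.k) i).t)) v) ≤ wc i *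
        (2 ^ 20 * (1 - t) * (sE ST (128 * x.l) * (conj (v 0) * DTH (Kp M) v)).re +
        2 ^ 20 * t * (sE ST (128 * x.l + 64) * (conj (v 0) * DTH (Kp M) v)).re) := by
      intro i
      have hi : (i : ℕ) < KTs.length := by rw [hl]; exact i.2
      have hr : Pool.Agent.Helper17.PAK.Rep M2 x.t (tZ M) := by rw [ht]; exact tN_rep h3 h9
      obtain ⟨s1, s2⟩ := hs (g2 KTs i) (g2_mem hi) x hx (tZ M) hr (tZ_bd h3 h9) v
      rw [g2_kfs hi]
      refine mul_le_mul_of_nonneg_left ?_ (hw.nonneg i)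
      show (1 - t) * ev (sc 1 (kz (kf (g2 KTs i).s x.k))) v +
        t * ev (sc 1 (kz (kf (g2 KTs i).t x.k))) v ≤ _
      rw [sc1_eq, sc1_eq]
      exact lin_aux t0 h0 ((le_sub_iff_add_le.2 s1).trans g0) ((le_sub_iff_add_le.2 s2).trans g1)
    refine (Finset.sum_le_sum fun i _ => key i).trans ?_
    rw [← Finset.sum_mul, hw.sum, one_mul]

/-- the side condition on the multipliers of the slit tests of a cell -/
def sOKl (ST : ℕ) (l : List LE) : Bool :=
  l.all fun x => sOK ST (128 * x.l) && sOK ST (128 * x.l + 64)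

theorem sOKl_iff {ST : ℕ} {l : List LE} (h : sOKl ST l = true) {x : LE} (hx : x ∈ l) :
    sOK ST (128 * x.l) = true ∧ sOK ST (128 * x.l + 64) = true := by
  unfold sOKl at h
  rw [List.all_eq_true] at h
  have h1 := h x hx
  rwa [Bool.and_eq_true] at h1

end Pool.Agent.Helper6.KPF
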