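import Pool.Agent.Helper6.CX.KPF
import Pool.Agent.Helper12.CX.BRG

/-!
Row MID: from the results of the tests of a cell at one point to the certificate of the point.
-/

set_option autoImplicit false
noncomputable section
namespace Pool.Agent.Helper6.MID

open Pool.Agent.Helper86.CX
open Pool.Agent.Helper6.MONO (V3 RV2 TCert kk mm Kp Rb Bm Cm RMb omS omW oriZ lamS zw DYm DLm DTH
  LNI_kk LNI_kk_symm LNI_mm VV)
open Pool.Agent.Helper6.MONO.QTR (V0 e0)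
open Pool.Agent.Helper21.SUP (GS DG)
open Pool.Agent.Helper21.SUP renaming nx → nxs
open Pool.Agent.Helper39.SLT (T4 ML)
open Pool.Agent.Helper6.PRG
open Pool.Agent.Helper6.MTC
open Complex ComplexConjugate

/-! ### the six `om` -/

/-- the six `om` in the order of the checker -/
def oZ (κ : Fin 3 → ℂ) (z : ℂ) : ℕ → ℂ
  | 0 => (2 * (1 + 2 * κ 1 / (κ 0 * κ 2) * z⁻¹))⁻¹
  | 1 => (2 * (1 + 2 * κ 2 / (κ 1 * κ 0) * z⁻¹))⁻¹
  | 2 => (2 * (1 + 2 * κ 0 / (κ 2 * κ 1) * z⁻¹))⁻¹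
  | 3 => (2 * (1 + 2 * κ 1 / (κ 0 * κ 2) * z))⁻¹
  | 4 => (2 * (1 + 2 * κ 2 / (κ 1 * κ 0) * z))⁻¹
  | _ => (2 * (1 + 2 * κ 0 / (κ 2 * κ 1) * z))⁻¹

/-- the three weights -/
def kap3 (p q r : ℕ) : Fin 3 → ℂ := ![(kk p q r 0 1 : ℂ), (kk p q r 1 2 : ℂ), (kk p q r 2 0 : ℂ)]

theorem omW_zw {z : ℂ} (hz : z ≠ 0) (hz1 : z + 1 ≠ 0) (o : Bool) (lam : ℝ) :
    omW o lam (zw z) = (2 * (1 + (lam : ℂ) * if o then z else z⁻¹))⁻¹ := by
  have e1 : 1 - zw z = 2 / (z + 1) := by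
    unfold zw
    field_simp
    ring
  have e2 : 1 + zw z = 2 * z / (z + 1) := by
    unfold zw
    field_simp
    ring
  unfold omW
  rw [e1, e2]
  cases o
  · simp only [Bool.false_eq_true, if_false]
    have e3 : 2 * (2 * z / (z + 1) + (lam : ℂ) * (2 / (z + 1))) =
        2 * z / (z + 1) * (2 * (1 + (lam : ℂ) * z⁻¹)) := by
      field_simp
    rw [e3, div_mul_eq_div_div, div_self (div_ne_zero (mul_ne_zero two_ne_zero hz) hz1),
      one_div]
  · simp only [if_true]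
    have e3 : 2 * (2 / (z + 1) + (lam : ℂ) * (2 * z / (z + 1))) =
        2 / (z + 1) * (2 * (1 + (lam : ℂ) * z)) := by
      field_simp
    rw [e3, div_mul_eq_div_div, div_self (div_ne_zero two_ne_zero hz1), one_div]

theorem DG_cases {P : GS → Prop} (h0 : P (0, 1, 2)) (h1 : P (1, 2, 0)) (h2 : P (2, 0, 1))
    (h3 : P (0, 2, 1)) (h4 : P (1, 0, 2)) (h5 : P (2, 1, 0)) : ∀ s, DG s → P s := by
  rintro ⟨n, a, b⟩ ⟨g1, g2, g3⟩
  simp only at g1 g2 g3
  fin_cases n <;> fin_cases a <;> fin_cases b <;>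
    first
    | exact h0
    | exact h1
    | exact h2
    | exact h3
    | exact h4
    | exact h5
    | exact absurd rfl g1
    | exact absurd rfl g2
    | exact absurd rfl g3

theorem oZ_omS {p q r : ℕ} {z : ℂ} (hz : z ≠ 0) (hz1 : z + 1 ≠ 0) : ∀ s, DG s →
    omS p q r s (zw z) = oZ (kap3 p q r) z (giS s) := by
  have s20 : kk p q r 0 2 = kk p q r 2 0 := LNI_kk_symm p q r 0 2
  have s10 : kk p q r 1 0 = kk p q r 0 1 := LNI_kk_symm p q r 1 0
  have s21 : kk p q r 2 1 = kk p q r 1 2 := LNI_kk_symm p q r 2 1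
  refine DG_cases ?_ ?_ ?_ ?_ ?_ ?_ <;> unfold omS <;> rw [omW_zw hz hz1]
  · have e : oriZ ((0, 1, 2) : GS) = false := by decide
    have e2 : giS ((0, 1, 2) : GS) = 0 := by decide
    rw [e, e2]
    simp only [oZ, kap3, lamS, s20, s10, s21, Bool.false_eq_true, if_false, Matrix.cons_val_zero,
      Matrix.cons_val_one, Matrix.cons_val]
    push_cast
    rfl
  · have e : oriZ ((1, 2, 0) : GS) = false := by decide
    have e2 : giS ((1, 2, 0) : GS) = 1 := by decide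
    rw [e, e2]
    simp only [oZ, kap3, lamS, s20, s10, s21, Bool.false_eq_true, if_false, Matrix.cons_val_zero,
      Matrix.cons_val_one, Matrix.cons_val]
    push_cast
    rfl
  · have e : oriZ ((2, 0, 1) : GS) = false := by decide
    have e2 : giS ((2, 0, 1) : GS) = 2 := by decide
    rw [e, e2]
    simp only [oZ, kap3, lamS, s20, s10, s21, Bool.false_eq_true, if_false, Matrix.cons_val_zero,
      Matrix.cons_val_one, Matrix.cons_val]
    push_cast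
    rfl
  · have e : oriZ ((0, 2, 1) : GS) = true := by decide
    have e2 : giS ((0, 2, 1) : GS) = 3 := by decide
    rw [e, e2]
    simp only [oZ, kap3, lamS, s20, s10, s21, if_true, Matrix.cons_val_zero,
      Matrix.cons_val_one, Matrix.cons_val]
    push_cast
    rw [mul_comm (kk p q r 2 0 : ℂ) (kk p q r 0 1 : ℂ)]
  · have e : oriZ ((1, 0, 2) : GS) = true := by decide
    have e2 : giS ((1, 0, 2) : GS) = 4 := by decide
    rw [e, e2]
    simp only [oZ, kap3, lamS, s20, s10, s21, if_true, Matrix.cons_val_zero,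
      Matrix.cons_val_one, Matrix.cons_val]
    push_cast
    rw [mul_comm (kk p q r 0 1 : ℂ) (kk p q r 1 2 : ℂ)]
  · have e : oriZ ((2, 1, 0) : GS) = true := by decide
    have e2 : giS ((2, 1, 0) : GS) = 5 := by decide
    rw [e, e2]
    simp only [oZ, kap3, lamS, s20, s10, s21, if_true, Matrix.cons_val_zero,
      Matrix.cons_val_one, Matrix.cons_val]
    push_cast
    rw [mul_comm (kk p q r 1 2 : ℂ) (kk p q r 2 0 : ℂ)]

/-- the source of an odd run with target number `i` -/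
def sE : ℕ → ℕ
  | 0 => 3
  | 1 => 4
  | 2 => 5
  | 3 => 0
  | 4 => 1
  | _ => 2
/-- the source of an even run with target number `i` -/
def sO : ℕ → ℕ
  | 0 => 2
  | 1 => 0
  | 2 => 1
  | 3 => 4
  | 4 => 5
  | _ => 3
/-- the star of an even run with target number `i` -/
def kO : ℕ → Fin 3
  | 0 => 2
  | 1 => 0
  | 2 => 1
  | 3 => 0
  | 4 => 1
  | _ => 2

theorem src_odd {m : ℕ} (hm : m % 2 = 1) : ∀ s, DG s → sE (giS (nxs s m)) = giS s ∧
    giS (nxs s m) < 6 := by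
  intro s hs
  rw [Pool.Agent.Helper21.SUP.nx_odd s m hm]
  revert s
  refine DG_cases ?_ ?_ ?_ ?_ ?_ ?_ <;> decide

theorem src_even {p q r : ℕ} {m : ℕ} (hm : m % 2 = 0) : ∀ s, DG s → sO (giS (nxs s m)) = giS s ∧
    giS (nxs s m) < 6 ∧ kap3 p q r (kO (giS (nxs s m))) = (kk p q r s.1 s.2.1 : ℂ) := by
  have s20 : kk p q r 0 2 = kk p q r 2 0 := LNI_kk_symm p q r 0 2
  have s10 : kk p q r 1 0 = kk p q r 0 1 := LNI_kk_symm p q r 1 0
  have s21 : kk p q r 2 1 = kk p q r 1 2 := LNI_kk_symm p q r 2 1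
  intro s hs
  rw [Pool.Agent.Helper21.SUP.nx_even s m hm]
  refine ⟨?_, ?_, ?_⟩
  · revert s
    refine DG_cases ?_ ?_ ?_ ?_ ?_ ?_ <;> decide
  · revert s
    refine DG_cases ?_ ?_ ?_ ?_ ?_ ?_ <;> decide
  · revert s
    refine DG_cases ?_ ?_ ?_ ?_ ?_ ?_
    · have e : giS ((1, 2, 0) : GS) = 1 := by decide
      rw [e]; rfl
    · have e : giS ((2, 0, 1) : GS) = 2 := by decide
      rw [e]; rfl
    · have e : giS ((0, 1, 2) : GS) = 0 := by decide
      rw [e]; rfl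
    · have e : giS ((2, 1, 0) : GS) = 5 := by decide
      rw [e]
      show ((kk p q r 2 0 : ℝ) : ℂ) = ((kk p q r 0 2 : ℝ) : ℂ)
      rw [s20]
    · have e : giS ((0, 2, 1) : GS) = 3 := by decide
      rw [e]
      show ((kk p q r 0 1 : ℝ) : ℂ) = ((kk p q r 1 0 : ℝ) : ℂ)
      rw [s10]
    · have e : giS ((1, 0, 2) : GS) = 4 := by decide
      rw [e]
      show ((kk p q r 1 2 : ℝ) : ℂ) = ((kk p q r 2 1 : ℝ) : ℂ)
      rw [s21]

/-! ### the results of the tests at a point -/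

/-- WHAT THE KERNEL TEST GIVES AT A POINT: `K k` = form number `k` -/
structure KRes (K : ℕ → Hm ℝ) (κ : Fin 3 → ℂ) (z : ℂ) (G : Prog) : Prop where
  e : ∀ i < 6, ∀ x ∈ eL G i, ∀ y ∈ x.b, ∀ u ∈ y.s, ∀ M j, 3 ≤ M → M ≤ 9 → 1 ≤ j → j < M →
    y.V = VV M j → ∀ v, 0 < ev (K u.k) v →
      0 < ev (CK (K x.k) 0 (oZ κ z i) (oZ κ z (sE i) * oZ κ z i)) ((Bm (Kp M) (Rb M j)).mulVec v)
  o : ∀ i < 6, ∀ x ∈ oL G i, ∀ y ∈ x.b, ∀ u ∈ y.s, ∀ M j, 3 ≤ M → M ≤ 9 → 1 ≤ j → j < M →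
    y.V = VV M j → ∀ v, 0 < ev (K u.k) v →
      0 < ev (CK (K x.k) (κ (kO i) * oZ κ z (sO i) / 2 - κ (kO i) ^ 2 / (4 * (2 + κ (kO i))))
        (oZ κ z i) (oZ κ z i * (κ (kO i) / 2) * (1 / 2 - oZ κ z (sO i))))
        ((Bm (Kp M) (Rb M j)).mulVec v)
  r : ∀ i < 6, ∀ x ∈ rL G i, ∀ v : Fin 3 → ℂ,
    (v = Pool.Agent.Helper17.PAK.vpq 192 640 ∨ v = Pool.Agent.Helper17.PAK.vpq 197 640 ∨
      v = Pool.Agent.Helper17.PAK.vpq 192 645) →
      0 < ev (CK (K x.k) 0 (oZ κ z i) (oZ κ z i * (1 / 2 - oZ κ z i))) v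

/-- the tests of the `L` vector (only for classes with a label `3`) -/
def KResL (K : ℕ → Hm ℝ) (κ : Fin 3 → ℂ) (z : ℂ) (G : Prog) : Prop :=
  ∀ i < 6, ∀ x ∈ lL G i,
    0 < ev (K x.k) ![1, 1 / 5 + oZ κ z i / 10, 1 / 5 - 2 * oZ κ z i / 5]

/-- positivity at the `L` vector -/
def LPos (p q r : ℕ) (K : ℕ → Hm ℝ) (z : ℂ) : Prop :=
  ∀ s, DG s → ML p q r s = 3 → 0 < ev (K (kidx p q r s T4.two))
    ((DLm (omS p q r s (zw z))).mulVec ![1, (V0.c : ℂ), (V0.d (kk p q r s.1 s.2.2) : ℂ)])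

theorem lpos_of {p q r : ℕ} {z : ℂ} (hz : z ≠ 0) (hz1 : z + 1 ≠ 0) {K : ℕ → Hm ℝ} {G : Prog}
    (hc : coverL p q r G = true) (h : KResL K (kap3 p q r) z G) : LPos p q r K z := by
  intro s hs h3
  obtain ⟨x, hx, hk⟩ := cover_L hc hs h3
  have h1 := h _ (gsF_giS s hs).2 x hx
  rw [← hk, DLm_val, oZ_omS (p := p) (q := q) (r := r) hz hz1 s hs]
  have e : (![1, ((V0.c / 2 : ℝ) : ℂ) + ((V0.d (kk p q r s.1 s.2.2) - V0.c : ℝ) : ℂ) *
      oZ (kap3 p q r) z (giS s), ((V0.c / 2 : ℝ) : ℂ) - (V0.c : ℂ) *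
      oZ (kap3 p q r) z (giS s)] : Fin 3 → ℂ) =
      ![1, 1 / 5 + oZ (kap3 p q r) z (giS s) / 10, 1 / 5 - 2 * oZ (kap3 p q r) z (giS s) / 5] := by
    funext j
    fin_cases j
    · rfl
    · show ((V0.c / 2 : ℝ) : ℂ) + ((V0.d (kk p q r s.1 s.2.2) - V0.c : ℝ) : ℂ) *
        oZ (kap3 p q r) z (giS s) = 1 / 5 + oZ (kap3 p q r) z (giS s) / 10
      unfold V0
      push_cast
      ring
    · show ((V0.c / 2 : ℝ) : ℂ) - (V0.c : ℂ) *
        oZ (kap3 p q r) z (giS s) = 1 / 5 - 2 * oZ (kap3 p q r) z (giS s) / 5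
      unfold V0
      push_cast
      ring
  rw [e]
  exact h1

/-- no label `3`: nothing to test -/
theorem lpos_of_four {p q r : ℕ} (h4 : ∀ i j : Fin 3, i ≠ j → 4 ≤ mm p q r i j) (K : ℕ → Hm ℝ)
    (z : ℂ) : LPos p q r K z := by
  intro s hs h3
  have h5 : 4 ≤ ML p q r s := h4 _ _ (Ne.symm hs.2.2)
  omega

theorem UY_vpq (i : Fin 3) : Pool.Agent.Helper6.MONO.SV.UY V0.al V0.be e0 i =
      Pool.Agent.Helper17.PAK.vpq 192 640 ∨
    Pool.Agent.Helper6.MONO.SV.UY V0.al V0.be e0 i = Pool.Agent.Helper17.PAK.vpq 197 640 ∨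
    Pool.Agent.Helper6.MONO.SV.UY V0.al V0.be e0 i = Pool.Agent.Helper17.PAK.vpq 192 645 := by
  unfold Pool.Agent.Helper6.MONO.SV.UY Pool.Agent.Helper17.PAK.vpq V0 e0
  fin_cases i
  · left
    funext j
    fin_cases j <;> simp <;> norm_num
  · right; left
    funext j
    fin_cases j <;> simp <;> norm_num
  · right; right
    funext j
    fin_cases j <;> simp <;> norm_num

theorem V0_vpq : (![1, (V0.al : ℂ), (V0.be : ℂ)] : Fin 3 → ℂ) =
    Pool.Agent.Helper17.PAK.vpq 192 640 := by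
  unfold Pool.Agent.Helper17.PAK.vpq V0
  funext j
  fin_cases j <;> simp <;> norm_num

/-- FROM THE TESTS TO THE FORMS -/
theorem tcert_of {p q r : ℕ} (hp : 3 ≤ p) (hq : 3 ≤ q) (hr : 3 ≤ r)
    (h9 : ∀ i j : Fin 3, i ≠ j → mm p q r i j ≤ 9) {z : ℂ} (hz : z ≠ 0) (hz1 : z + 1 ≠ 0)
    {K : ℕ → Hm ℝ} {G : Prog} (hK : KRes K (kap3 p q r) z G) (hc : cover p q r G = true)
    {κ M : ℝ} (hκ : 0 < κ) {sl : List ℕ} (hs : covT p q r sl = true)
    (neg : ∀ k ∈ sl, NegD κ (K k))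
    (bd : ∀ k, |(K k).a| ≤ M ∧ ‖(K k).x‖ ≤ M ∧ ‖(K k).y‖ ≤ M)
    (hLP : LPos p q r K z) {le : List Pool.Agent.Helper86.CX.LE} (hL : covL p q r le = true)
    (slit : ∀ x ∈ le, ∀ N, 3 ≤ N → N ≤ 9 → x.t = tN N →
      ∃ γ : ℂ, 0 ≤ γ.re ∧ ∀ v : Fin 3 → ℂ, ev (K x.k) v ≤ (γ * (conj (v 0) * DTH (Kp N) v)).re) :
    TCert V0 e0 p q r (5 * M / κ + 1) (zw z) (RK fun s T => K (kidx p q r s T)) := by
  have hom := fun s hs => oZ_omS (p := p) (q := q) (r := r) hz hz1 s hs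
  have hF : FCert V0 e0 p q r κ M (zw z) (fun s T => K (kidx p q r s T)) := by
    refine ⟨fun s h T hT => neg _ (cover_st hs h hT), fun s h T hT => (bd _).1,
      fun s h T hT => (bd _).2.1, fun s h T hT => (bd _).2.2, ?_, ?_, ?_, ?_, ?_⟩
    · intro s h T hT hT2
      obtain ⟨x, hx, hk⟩ := cover_ref hc h hT (Or.inl hT2)
      rw [V0_vpq, DYm_CM, ev_CK, hom s h, ← hk]
      exact hK.r _ (gsF_giS s h).2 x hx _ (Or.inl rfl)
    · intro s h h3
      exact hLP s h h3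
    · intro s h h4 i
      have key : ∀ T : T4, T.ok (ML p q r s) → 0 < ev (K (kidx p q r s T))
          ((DYm (omS p q r s (zw z))).mulVec (Pool.Agent.Helper6.MONO.SV.UY V0.al V0.be e0 i)) := by
        intro T hT
        obtain ⟨x, hx, hk⟩ := cover_ref hc h hT (Or.inr h4)
        rw [DYm_CM, ev_CK, hom s h, ← hk]
        exact hK.r _ (gsF_giS s h).2 x hx _ (UY_vpq i)
      exact ⟨key T4.two trivial, key T4.three trivial⟩
    · intro s h
      obtain ⟨-, x, hx, hk, ht⟩ := covL_iff hL h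
      have h3 := LNI_mm hp hq hr _ _ h.1
      obtain ⟨γ, g1, g2⟩ := slit x hx _ h3 (h9 _ _ h.1) ht
      rw [hk] at g2
      exact ⟨γ, g1, g2⟩
    · intro s h
      obtain ⟨⟨x, hx, hk, ht⟩, -⟩ := covL_iff hL h
      have h3 := LNI_mm hp hq hr _ _ h.1
      obtain ⟨γ, g1, g2⟩ := slit x hx _ h3 (h9 _ _ h.1) ht
      rw [hk] at g2
      exact ⟨γ, g1, g2⟩
  refine hF.tcert_mid hp hq hr hκ ?_
  intro s h T hT m hl hm v hv
  have hM3 := LNI_mm hp hq hr _ _ h.1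
  have hm2 : 2 ≤ m := by
    refine le_trans ?_ hl
    cases T with
    | two => exact le_rfl
    | three =>
      show 2 ≤ if ML p q r s = 3 then 3 else 2
      split_ifs <;> norm_num
    | oth => exact le_rfl
    | full => exact (by norm_num : 2 ≤ 3)
  obtain ⟨x, hx, hk, y, hy, hV, u, hu, hku⟩ := cover_blk hc h hT hl hm
  rw [← hku] at hv
  have hsn : DG (nxs s m) := Pool.Agent.Helper21.SUP.DG_nx s m h
  rw [← hk]
  have hcomp : ∀ A B : Matrix (Fin 3) (Fin 3) ℂ, (A * B).mulVec v = A.mulVec (B.mulVec v) :=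
    fun A B => (Matrix.mulVec_mulVec v A B).symm
  unfold RMb
  rw [hcomp]
  by_cases hodd : m % 2 = 1
  · rw [if_pos hodd] at hx
    obtain ⟨e1, e2⟩ := src_odd hodd s h
    have h5 := hK.e _ e2 x hx y hy u hu _ _ hM3 (h9 _ _ h.1) (by omega) (by omega) hV v hv
    rw [← ev_CK, e1, ← hom s h, ← hom _ hsn] at h5
    have e3 : Cm (decide (m % 2 = 1)) (kk p q r s.1 s.2.1) (omS p q r s (zw z))
        (omS p q r (nxs s m) (zw z)) = CM 0 (omS p q r (nxs s m) (zw z))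
          (omS p q r s (zw z) * omS p q r (nxs s m) (zw z)) := by
      unfold Cm CM
      rw [if_pos (by rw [hodd]; rfl)]
    rw [e3]
    exact h5
  · rw [if_neg hodd] at hx
    have hev : m % 2 = 0 := by omega
    obtain ⟨e1, e2, e4⟩ := src_even (p := p) (q := q) (r := r) hev s h
    have h5 := hK.o _ e2 x hx y hy u hu _ _ hM3 (h9 _ _ h.1) (by omega) (by omega) hV v hv
    rw [← ev_CK, e1, e4, ← hom s h, ← hom _ hsn] at h5
    have e3 : Cm (decide (m % 2 = 1)) (kk p q r s.1 s.2.1) (omS p q r s (zw z))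
        (omS p q r (nxs s m) (zw z)) = CM ((kk p q r s.1 s.2.1 : ℂ) * omS p q r s (zw z) / 2 -
          (kk p q r s.1 s.2.1 : ℂ) ^ 2 / (4 * (2 + (kk p q r s.1 s.2.1 : ℂ))))
          (omS p q r (nxs s m) (zw z)) (omS p q r (nxs s m) (zw z) *
            ((kk p q r s.1 s.2.1 : ℂ) / 2) * (1 / 2 - omS p q r s (zw z))) := by
      unfold Cm CM
      rw [if_neg (by rw [hev]; decide)]
    rw [e3]
    exact h5

end Pool.Agent.Helper6.MID
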