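import Pool.Agent.Helper17.C75.Kp8
import Pool.Agent.Helper6.CX.LNI
import Pool.Agent.Helper12.CX.KVR
import Pool.Agent.Helper12.CX.RJT

/-!
Row RND: the rounded run parameters against the true ones.
-/

set_option autoImplicit false
noncomputable section
namespace Pool.Agent.Helper6.RND

open Pool.Agent.Helper86.CX
open Pool.Agent.Helper17.PAK (nrm ev_lin)
open Pool.Agent.Helper6.MONO (SbP Kp Rb Bm VRin RJ_pos RJ_one)
open Complex ComplexConjugate

/-- difference of two forms -/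
def subH (P Q : Hm ℝ) : Hm ℝ :=
  ⟨P.a - Q.a, P.b - Q.b, P.c - Q.c, P.d - Q.d, P.e - Q.e, P.f - Q.f, P.g - Q.g, P.h - Q.h,
    P.i - Q.i⟩

theorem ev_subH (P Q : Hm ℝ) (v : Fin 3 → ℂ) : ev (subH P Q) v = ev P v - ev Q v := by
  rw [ev_lin, ev_lin, ev_lin]
  simp only [subH]
  ring

/-- a form with small entries -/
structure BdR (δ : ℝ) (P : Hm ℝ) : Prop where
  a : |P.a| ≤ δ
  b : |P.b| ≤ δ
  c : |P.c| ≤ δ
  d : |P.d| ≤ δ
  e : |P.e| ≤ δ
  f : |P.f| ≤ δ
  g : |P.g| ≤ δ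
  h : |P.h| ≤ δ
  i : |P.i| ≤ δ

theorem cross_le (x y : ℂ) {s u δ : ℝ} (hs : |s| ≤ δ) (hu : |u| ≤ δ) :
    s * (2 * (conj x * y).re) - u * (2 * (conj x * y).im) ≤ 2 * δ * (normSq x + normSq y) := by
  have h1 := Complex.abs_re_le_norm (conj x * y)
  have h2 := Complex.abs_im_le_norm (conj x * y)
  rw [norm_mul, Complex.norm_conj] at h1 h2
  have h3 : 2 * (‖x‖ * ‖y‖) ≤ normSq x + normSq y := by
    rw [Complex.normSq_eq_norm_sq, Complex.normSq_eq_norm_sq]
    nlinarith [sq_nonneg (‖x‖ - ‖y‖)]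
  have hδ : 0 ≤ δ := (abs_nonneg _).trans hs
  have g1 : s * (conj x * y).re ≤ δ * (‖x‖ * ‖y‖) := by
    refine (le_abs_self _).trans ?_
    rw [abs_mul]
    exact mul_le_mul hs h1 (abs_nonneg _) hδ
  have g2 : -(u * (conj x * y).im) ≤ δ * (‖x‖ * ‖y‖) := by
    refine (neg_le_abs _).trans ?_
    rw [abs_mul]
    exact mul_le_mul hu h2 (abs_nonneg _) hδ
  have h4 := mul_le_mul_of_nonneg_left h3 hδ
  nlinarith

theorem ev_small {δ : ℝ} {P : Hm ℝ} (h : BdR δ P) (v : Fin 3 → ℂ) : ev P v ≤ 5 * δ * nrm v := by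
  rw [ev_lin]
  have c1 := cross_le (v 0) (v 1) h.d h.e
  have c2 := cross_le (v 0) (v 2) h.f h.g
  have c3 := cross_le (v 1) (v 2) h.h h.i
  have a1 := mul_le_mul_of_nonneg_right ((le_abs_self _).trans h.a) (normSq_nonneg (v 0))
  have a2 := mul_le_mul_of_nonneg_right ((le_abs_self _).trans h.b) (normSq_nonneg (v 1))
  have a3 := mul_le_mul_of_nonneg_right ((le_abs_self _).trans h.c) (normSq_nonneg (v 2))
  unfold nrm
  linarith

/-- `|x' y' - x y|` -/
theorem mul_err {x y x' y' X Y ε : ℝ} (hx : |x| ≤ X) (hy : |y| ≤ Y) (ex : |x' - x| ≤ ε)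
    (ey : |y' - y| ≤ ε) (h1 : ε ≤ 1 / 2 ^ 40) : |x' * y' - x * y| ≤ (X + Y + 1) * ε := by
  have hX : 0 ≤ X := (abs_nonneg _).trans hx
  have hY : 0 ≤ Y := (abs_nonneg _).trans hy
  have hε : 0 ≤ ε := (abs_nonneg _).trans ex
  have e : x' * y' - x * y = (x' - x) * y + x * (y' - y) + (x' - x) * (y' - y) := by ring
  rw [e]
  have g1 : |(x' - x) * y| ≤ ε * Y := by
    rw [abs_mul]; exact mul_le_mul ex hy (abs_nonneg _) hε
  have g2 : |x * (y' - y)| ≤ X * ε := by
    rw [abs_mul]; exact mul_le_mul hx ey (abs_nonneg _) hX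
  have g3 : |(x' - x) * (y' - y)| ≤ ε * ε := by
    rw [abs_mul]; exact mul_le_mul ex ey (abs_nonneg _) hε
  have g4 : ε * ε ≤ 1 * ε := mul_le_mul_of_nonneg_right (h1.trans (by norm_num)) hε
  have := abs_add_le ((x' - x) * y + x * (y' - y)) ((x' - x) * (y' - y))
  have := abs_add_le ((x' - x) * y) (x * (y' - y))
  linarith

/-- bounds of the run parameters -/
theorem run_bd {M j : ℕ} (h3 : 3 ≤ M) (hj : 1 ≤ j) (hjM : j ≤ M) :
    0 ≤ Rb M j ∧ Rb M j ≤ 3 ∧ 0 ≤ SbP (Kp M) ∧ SbP (Kp M) ≤ 3 := by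
  have k1 := Pool.Agent.Helper6.MONO.Kp_ge1 h3
  have k2 := Pool.Agent.Helper6.MONO.Kp_lt2 M h3
  have a0 := (RJ_pos M j h3 hj hjM).1
  have a1 := Pool.Agent.Helper6.MONO.RJ_le_of h3 le_rfl hj hjM
  rw [RJ_one M h3] at a1
  have e : SbP (Kp M) = (4 - Kp M ^ 2) / Kp M ^ 2 := by
    unfold SbP
    field_simp
    ring
  have kp : 0 < Kp M := by linarith
  have h2 : 2 / Kp M ≤ 2 := by
    rw [div_le_iff₀ kp]; linarith
  refine ⟨a0, by linarith, ?_, ?_⟩
  · rw [e]
    exact div_nonneg (by nlinarith) (by positivity)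
  · rw [e, div_le_iff₀ (by positivity)]
    nlinarith

theorem term_le {m p c B ε : ℝ} (hm : |m| ≤ c * ε) (hp : |p| ≤ B) : |m * p| ≤ c * ε * B := by
  rw [abs_mul]
  exact mul_le_mul hm hp (abs_nonneg _) ((abs_nonneg _).trans hm)

theorem NB_err {P : Hm ℝ} {B : ℝ} (hP : BdR B P) {R A W T R' A' W' T' ε : ℝ} (h1 : |R| ≤ 3)
    (h2 : |A| ≤ 9) (h3 : |W| ≤ 12) (h4 : |T| ≤ 18) (e1 : |R' - R| ≤ ε) (e2 : |A' - A| ≤ ε)
    (e3 : |W' - W| ≤ ε) (e4 : |T' - T| ≤ ε) (hε : ε ≤ 1 / 2 ^ 40) :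
    BdR (117 * ε * B) (subH (NB P R' A' W' T') (NB P R A W T)) := by
  have hB : 0 ≤ B := (abs_nonneg _).trans hP.a
  have hε0 : 0 ≤ ε := (abs_nonneg _).trans e1
  have hεB : 0 ≤ ε * B := mul_nonneg hε0 hB
  have RR := mul_err h1 h1 e1 e1 hε
  have WW := mul_err h3 h3 e3 e3 hε
  have RW := mul_err h1 h3 e1 e3 hε
  have AA := mul_err h2 h2 e2 e2 hε
  have RA := mul_err h1 h2 e1 e2 hε
  have TT := mul_err h4 h4 e4 e4 hε
  have AT := mul_err h2 h4 e2 e4 hε
  have WA := mul_err h3 h2 e3 e2 hε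
  have RT := mul_err h1 h4 e1 e4 hε
  have WT := mul_err h3 h4 e3 e4 hε
  have e1' : |R' - R| ≤ 1 * ε := by rwa [one_mul]
  have e2' : |A' - A| ≤ 1 * ε := by rwa [one_mul]
  have e3' : |W' - W| ≤ 1 * ε := by rwa [one_mul]
  have e4' : |T' - T| ≤ 1 * ε := by rwa [one_mul]
  constructor
  · have t1 := abs_le.1 (term_le RR hP.b)
    have t2 := abs_le.1 (term_le WW hP.c)
    have t3 := abs_le.1 (term_le e1' hP.d)
    have t4 := abs_le.1 (term_le e3' hP.f)
    have t5 := abs_le.1 (term_le RW hP.h)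
    have e : (subH (NB P R' A' W' T') (NB P R A W T)).a = (R' * R' - R * R) * P.b +
        (W' * W' - W * W) * P.c + 2 * ((R' - R) * P.d) + 2 * ((W' - W) * P.f) +
        2 * ((R' * W' - R * W) * P.h) := by simp only [subH, NB]; ring
    rw [e, abs_le]
    constructor <;> linarith [t1.1, t1.2, t2.1, t2.2, t3.1, t3.2, t4.1, t4.2, t5.1, t5.2]
  · have t1 := abs_le.1 (term_le RR hP.a)
    have t2 := abs_le.1 (term_le AA hP.b)
    have t3 := abs_le.1 (term_le RA hP.d)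
    have e : (subH (NB P R' A' W' T') (NB P R A W T)).b = 4 * ((R' * R' - R * R) * P.a) +
        (A' * A' - A * A) * P.b + 4 * ((R' * A' - R * A) * P.d) := by
      simp only [subH, NB]; ring
    rw [e, abs_le]
    constructor <;> linarith [t1.1, t1.2, t2.1, t2.2, t3.1, t3.2]
  · have t1 := abs_le.1 (term_le AA hP.a)
    have t2 := abs_le.1 (term_le TT hP.b)
    have t3 := abs_le.1 (term_le AT hP.d)
    have e : (subH (NB P R' A' W' T') (NB P R A W T)).c = (A' * A' - A * A) * P.a +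
        (T' * T' - T * T) * P.b - 2 * ((A' * T' - A * T) * P.d) := by
      simp only [subH, NB]; ring
    rw [e, abs_le]
    constructor <;> linarith [t1.1, t1.2, t2.1, t2.2, t3.1, t3.2]
  · have t1 := abs_le.1 (term_le e1' hP.a)
    have t2 := abs_le.1 (term_le RA hP.b)
    have t3 := abs_le.1 (term_le e2' hP.d)
    have t4 := abs_le.1 (term_le RR hP.d)
    have t5 := abs_le.1 (term_le RW hP.f)
    have t6 := abs_le.1 (term_le WA hP.h)
    have e : (subH (NB P R' A' W' T') (NB P R A W T)).d = 2 * ((R' - R) * P.a) +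
        (R' * A' - R * A) * P.b + (A' - A) * P.d + 2 * ((R' * R' - R * R) * P.d) +
        2 * ((R' * W' - R * W) * P.f) + (W' * A' - W * A) * P.h := by
      simp only [subH, NB]; ring
    rw [e, abs_le]
    constructor <;>
      linarith [t1.1, t1.2, t2.1, t2.2, t3.1, t3.2, t4.1, t4.2, t5.1, t5.2, t6.1, t6.2]
  · have t3 := abs_le.1 (term_le e2' hP.e)
    have t4 := abs_le.1 (term_le RR hP.e)
    have t5 := abs_le.1 (term_le RW hP.g)
    have t6 := abs_le.1 (term_le WA hP.i)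
    have e : (subH (NB P R' A' W' T') (NB P R A W T)).e = (A' - A) * P.e -
        2 * ((R' * R' - R * R) * P.e) - 2 * ((R' * W' - R * W) * P.g) -
        (W' * A' - W * A) * P.i := by
      simp only [subH, NB]; ring
    rw [e, abs_le]
    constructor <;> linarith [t3.1, t3.2, t4.1, t4.2, t5.1, t5.2, t6.1, t6.2]
  · have t1 := abs_le.1 (term_le e2' hP.a)
    have t2 := abs_le.1 (term_le RT hP.b)
    have t3 := abs_le.1 (term_le RA hP.d)
    have t4 := abs_le.1 (term_le e4' hP.d)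
    have t5 := abs_le.1 (term_le WA hP.f)
    have t6 := abs_le.1 (term_le WT hP.h)
    have e : (subH (NB P R' A' W' T') (NB P R A W T)).f = (A' - A) * P.a -
        (R' * T' - R * T) * P.b + (R' * A' - R * A) * P.d - (T' - T) * P.d +
        (W' * A' - W * A) * P.f - (W' * T' - W * T) * P.h := by
      simp only [subH, NB]; ring
    rw [e, abs_le]
    constructor <;>
      linarith [t1.1, t1.2, t2.1, t2.2, t3.1, t3.2, t4.1, t4.2, t5.1, t5.2, t6.1, t6.2]
  · have t3 := abs_le.1 (term_le RA hP.e)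
    have t4 := abs_le.1 (term_le e4' hP.e)
    have t5 := abs_le.1 (term_le WA hP.g)
    have t6 := abs_le.1 (term_le WT hP.i)
    have e : (subH (NB P R' A' W' T') (NB P R A W T)).g = -((T' - T) * P.e) -
        (R' * A' - R * A) * P.e - (W' * A' - W * A) * P.g + (W' * T' - W * T) * P.i := by
      simp only [subH, NB]; ring
    rw [e, abs_le]
    constructor <;> linarith [t3.1, t3.2, t4.1, t4.2, t5.1, t5.2, t6.1, t6.2]
  · have t1 := abs_le.1 (term_le RA hP.a)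
    have t2 := abs_le.1 (term_le AT hP.b)
    have t3 := abs_le.1 (term_le AA hP.d)
    have t4 := abs_le.1 (term_le RT hP.d)
    have e : (subH (NB P R' A' W' T') (NB P R A W T)).h = 2 * ((R' * A' - R * A) * P.a) -
        (A' * T' - A * T) * P.b + (A' * A' - A * A) * P.d - 2 * ((R' * T' - R * T) * P.d) := by
      simp only [subH, NB]; ring
    rw [e, abs_le]
    constructor <;> linarith [t1.1, t1.2, t2.1, t2.2, t3.1, t3.2, t4.1, t4.2]
  · have t3 := abs_le.1 (term_le AA hP.e)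
    have t4 := abs_le.1 (term_le RT hP.e)
    have e : (subH (NB P R' A' W' T') (NB P R A W T)).i = -(2 * ((R' * T' - R * T) * P.e)) -
        (A' * A' - A * A) * P.e := by
      simp only [subH, NB]; ring
    rw [e, abs_le]
    constructor <;> linarith [t3.1, t3.2, t4.1, t4.2]

theorem Bm_BA (k R : ℝ) : Bm k R = BA R (R ^ 2 - SbP k) (R ^ 2 + SbP k) (2 * SbP k * R) := by
  unfold Bm BA
  push_cast
  ring_nf

/-- ROW RND: the rounded block form is below the true one, up to `2 ^ (-31)` -/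
theorem ev_round {P : Hm ℝ} (hP : BdR (2 ^ 7) P) {M j : ℕ} (h3 : 3 ≤ M) (hj : 1 ≤ j)
    (hjM : j ≤ M) {R A W T : ℤ} (h : VRin M j R A W T) (v : Fin 3 → ℂ) :
    ev (NB P (R / 2 ^ 48) (A / 2 ^ 48) (W / 2 ^ 48) (T / 2 ^ 48)) v ≤
      ev P ((Bm (Kp M) (Rb M j)).mulVec v) + (1 / 2 ^ 31) * nrm v := by
  obtain ⟨r0, r1, s0, s1⟩ := run_bd h3 hj hjM
  have b1 : |Rb M j| ≤ 3 := by rw [abs_of_nonneg r0]; exact r1
  have b2 : |Rb M j ^ 2 - SbP (Kp M)| ≤ 9 := by
    rw [abs_le]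
    constructor <;> nlinarith
  have b3 : |Rb M j ^ 2 + SbP (Kp M)| ≤ 12 := by
    rw [abs_le]
    constructor <;> nlinarith
  have b4 : |2 * SbP (Kp M) * Rb M j| ≤ 18 := by
    rw [abs_le]
    constructor
    · have := mul_nonneg s0 r0
      linarith
    · nlinarith [mul_nonneg (sub_nonneg.2 s1) r0]
  have key := ev_small (NB_err hP b1 b2 b3 b4 h.R h.A h.W h.T (by norm_num)) v
  rw [ev_subH] at key
  rw [Bm_BA, ev_NB]
  have n0 := Pool.Agent.Helper17.PAK.nrm_nonneg v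
  have c : 5 * (117 * (1 / 2 ^ 48) * 2 ^ 7) * nrm v ≤ (1 / 2 ^ 31) * nrm v := by
    refine mul_le_mul_of_nonneg_right ?_ n0
    norm_num
  exact sub_le_iff_le_add'.1 (key.trans c)

end Pool.Agent.Helper6.RND
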