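import Pool.Agent.Helper6.CX.CEL
import Pool.Agent.Helper12.CX.XTE

/-!
Row PIE: the lists of cells of a module of an exact class give the cells of the quarter.
-/

set_option autoImplicit false
noncomputable section
namespace Pool.Agent.Helper6.PIE

open Pool.Agent.Helper86.CX
open Pool.Agent.Helper86.C75 (Z)
open Pool.Agent.Helper90.C75 (Wts wq avg bt)
open Pool.Agent.Helper90.KMO
open Pool.Agent.Helper21.KCE (KP andB_tt)
open Pool.Agent.Helper6.MONO (V3 RV2 TCert kk mm Kp zw DTH xA xA_gt xA_swap xA_le2 kb kap_enc)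
open Pool.Agent.Helper6.MONO.QTR (V0 e0 TCell tcell_of_z)
open Pool.Agent.Helper21.SUP (GS DG)
open Pool.Agent.Helper39.SLT (T4)
open Pool.Agent.Helper6.MTC (RK)
open Pool.Agent.Helper6.MID
open Pool.Agent.Helper6.KRL
open Pool.Agent.Helper6.PRG
open Pool.Agent.Helper6.CEL
open Pool.Agent.Helper6.KPF
open Complex ComplexConjugate

/-- one corner -/
def w1 : Fin 1 → ℝ := fun _ => 1

theorem w1_wts : Wts w1 := ⟨fun _ => zero_le_one, by simp [w1]⟩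

theorem UU_pow : (UU : ℝ) = 2 ^ 48 := by
  unfold UU
  norm_num

/-- the class of an exact class -/
def clsE (a b c : ℕ) : Cls :=
  mkCls (nat_lit 1) (cstM (nat_lit 1) (kb a) (nat_lit 1)) (cstM (nat_lit 1) (kb b) (nat_lit 1))
    (cstM (nat_lit 1) (kb c) (nat_lit 1))

def clsEok (a b c : ℕ) : Bool :=
  clsOK (nat_lit 1) (cstM (nat_lit 1) (kb a) (nat_lit 1)) (cstM (nat_lit 1) (kb b) (nat_lit 1))
    (cstM (nat_lit 1) (kb c) (nat_lit 1))

theorem clk_E {a b c : ℕ} (ha : 3 ≤ a ∧ a ≤ 9) (hb : 3 ≤ b ∧ b ≤ 9) (hc : 3 ≤ c ∧ c ≤ 9)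
    (hok : clsEok a b c = true) {t : ℝ} (h0 : 0 ≤ t) (h1 : t ≤ 1) :
    CLK 1 w1 t (kap3 a b c) (clsE a b c) := by
  have key : ∀ M : ℕ, 3 ≤ M ∧ M ≤ 9 →
      MOK 1 w1 t (Kp M : ℂ) (cstM (nat_lit 1) (kb M) (nat_lit 1)) := by
    intro M hM
    refine MOK.kap one_pos w1_wts h0 h1 (kb M) 1 ?_
    rw [UU_pow]
    have := kap_enc M hM.1 (by omega)
    push_cast
    exact this
  exact CLK.mk' one_pos w1_wts h0 h1 (key a ha) (key b hb) (key c hc) hok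

/-! ### the variable `x` -/

theorem evC_iff {a b : ℕ} (h : evC a b = true) : 2 * hs a b = a + b :=
  Nat.eq_of_beq_eq_true h

theorem xs_im {X : Z} {a b : ℕ} : ∀ x ∈ xsC X a b,
    x.a.im = Z.p a ∧ x.c.im = Z.p (hs a b) ∧ x.b.im = Z.p b := by
  intro x hx
  have e : x = ⟨⟨X, Z.p a⟩, ⟨X, Z.p (hs a b)⟩, ⟨X, Z.p b⟩⟩ := by
    unfold xsC at hx
    simpa using hx
  rw [e]
  exact ⟨rfl, rfl, rfl⟩

theorem avg_x {X : Z} {a b : ℕ} (h : evC a b = true) (t : ℝ) :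
    avg (wq w1 t) (Fv 1 (xsC X a b)) =
      ((zv X : ℝ) : ℂ) + (((1 - t) * a + t * b : ℝ) : ℂ) * I := by
  have h2 : (2 : ℝ) * (hs a b : ℕ) = a + b := by exact_mod_cast evC_iff h
  unfold avg
  rw [Fintype.sum_prod_type]
  simp only [Fin.sum_univ_three, Finset.univ_unique, Finset.sum_singleton, wq, bt, w1]
  have e0 : Fv 1 (xsC X a b) (default, 0) = ⟨(zv X : ℝ), (a : ℝ)⟩ := by
    show cz ⟨X, Z.p a⟩ = _
    unfold cz
    rw [zv_p]
    simp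
  have e1 : Fv 1 (xsC X a b) (default, 1) = ⟨(zv X : ℝ), (hs a b : ℝ)⟩ := by
    show cz ⟨X, Z.p (hs a b)⟩ = _
    unfold cz
    rw [zv_p]
    simp
  have e2 : Fv 1 (xsC X a b) (default, 2) = ⟨(zv X : ℝ), (b : ℝ)⟩ := by
    show cz ⟨X, Z.p b⟩ = _
    unfold cz
    rw [zv_p]
    simp
  rw [e0, e1, e2]
  apply Complex.ext
  · simp only [Matrix.cons_val_zero, Matrix.cons_val_one, Matrix.cons_val, Complex.add_re,
      Complex.re_ofReal_mul, Complex.ofReal_re, Complex.mul_re, Complex.I_re, Complex.I_im,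
      Complex.ofReal_im]
    ring
  · simp only [Matrix.cons_val_zero, Matrix.cons_val_one, Matrix.cons_val, Complex.add_im,
      Complex.im_ofReal_mul, Complex.ofReal_im, Complex.mul_im, Complex.I_re, Complex.I_im,
      Complex.ofReal_re]
    linear_combination (t * (1 - t)) * h2

theorem xs_nonneg {X : Z} {a b : ℕ} (v : Fin 1 × Fin 3) : 0 ≤ (Fv 1 (xsC X a b) v).im :=
  im_nonneg_line (n := 1) rfl xs_im v

theorem mod_x {X : Z} {a b : ℕ} (h : evC a b = true) (t : ℝ) {x0 : ℝ}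
    (hX : |x0 - (zv X : ℝ) / 2 ^ 48| ≤ 32 / 2 ^ 48) {y : ℝ}
    (hy : y * 2 ^ 48 = (1 - t) * a + t * b) :
    Pool.Agent.Helper90.C75.Mod (wq w1 t) (UU * ((x0 : ℂ) + (y : ℂ) * I)) (Fv 1 (xsC X a b)) ((nat_lit 32 : ℕ) : ℝ) := by
  unfold Pool.Agent.Helper90.C75.Mod
  rw [avg_x h]
  have e : (UU : ℂ) * ((x0 : ℂ) + (y : ℂ) * I) -
      (((zv X : ℝ) : ℂ) + (((1 - t) * a + t * b : ℝ) : ℂ) * I) =
      ((2 ^ 48 * (x0 - (zv X : ℝ) / 2 ^ 48) : ℝ) : ℂ) := by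
    rw [← hy, UU_pow]
    push_cast
    field_simp
    ring
  rw [e, Complex.norm_real, Real.norm_eq_abs, abs_mul, abs_of_pos (by positivity)]
  have e2 : ((nat_lit 32 : ℕ) : ℝ) = 2 ^ 48 * (32 / 2 ^ 48) := by
    show ((32 : ℕ) : ℝ) = _
    norm_num
  rw [e2]
  exact mul_le_mul_of_nonneg_left hX (by positivity)

theorem im_x {X : Z} {a b : ℕ} (h : evC a b = true) {t x0 y : ℝ}
    (hy : y * 2 ^ 48 = (1 - t) * a + t * b) :
    (avg (wq w1 t) (Fv 1 (xsC X a b))).im = UU * ((x0 : ℂ) + (y : ℂ) * I).im := by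
  have e1 : ((x0 : ℂ) + (y : ℂ) * I).im = y := by simp
  have e2 : (((zv X : ℝ) : ℂ) + (((1 - t) * a + t * b : ℝ) : ℂ) * I).im = (1 - t) * a + t * b := by
    simp only [Complex.add_im, Complex.ofReal_im, Complex.mul_im, Complex.I_re, Complex.I_im,
      Complex.ofReal_re]
    ring
  rw [avg_x h, e1, e2, ← hy, UU_pow]
  ring

/-- the parameter of a point of a cell -/
theorem exists_t {a b : ℕ} {y : ℝ} (h1 : (a : ℝ) / 2 ^ 48 ≤ y) (h2 : y ≤ (b : ℝ) / 2 ^ 48) :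
    ∃ t : ℝ, 0 ≤ t ∧ t ≤ 1 ∧ y * 2 ^ 48 = (1 - t) * a + t * b := by
  rw [div_le_iff₀ (by positivity)] at h1
  rw [le_div_iff₀ (by positivity)] at h2
  rcases (h1.trans h2).eq_or_lt with h | h
  · exact ⟨0, le_rfl, zero_le_one, by linarith⟩
  · have hd : (0 : ℝ) < b - a := by linarith
    refine ⟨(y * 2 ^ 48 - a) / (b - a), div_nonneg (by linarith) hd.le, ?_, ?_⟩
    · rw [div_le_one hd]
      linarith
    · field_simp
      ring

/-! ### one cell -/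

/-- side conditions of a cell -/
def sideC (le : List LE) (d : CellD) : Bool := decide (0 < d.m) && sOKl d.S le

/-- the constant of the bound -/
def CB : ℝ := 5 * 2 ^ 32 / 2 ^ 10 + 1

theorem z_ne {x0 : ℝ} (hx : -2 < x0) {z : ℂ} {y : ℝ}
    (hzx : z + z⁻¹ = (x0 : ℂ) + (y : ℂ) * I) : z + 1 ≠ 0 := by
  intro h
  have e : z = -1 := by linear_combination h
  rw [e] at hzx
  have h1 := congrArg Complex.re hzx
  have h2 : ((-1 : ℂ) + (-1 : ℂ)⁻¹).re = -2 := by norm_num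
  rw [h2] at h1
  simp at h1
  linarith

/-- everything which does not depend on the cell -/
structure Fix (a b c : ℕ) (x0 : ℝ) (X : Z) (G : Prog) (sl : List ℕ) (le : List LE) : Prop where
  ha : 3 ≤ a ∧ a ≤ 9
  hb : 3 ≤ b ∧ b ≤ 9
  hc : 3 ≤ c ∧ c ≤ 9
  x1 : -2 < x0
  x2 : x0 ≤ 2
  xX : |x0 - (zv X : ℝ) / 2 ^ 48| ≤ 32 / 2 ^ 48
  cls : clsEok a b c = true
  cov : cover a b c G = true
  covT : covT a b c sl = true
  covL : covL a b c le = true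

theorem mm_le {a b c : ℕ} (ha : a ≤ 9) (hb : b ≤ 9) (hc : c ≤ 9) (i j : Fin 3) (h : i ≠ j) :
    mm a b c i j ≤ 9 := by
  fin_cases i <;> fin_cases j <;> simp_all [mm]

theorem mm_ge {a b c : ℕ} (ha : 4 ≤ a) (hb : 4 ≤ b) (hc : 4 ≤ c) (i j : Fin 3) (h : i ≠ j) :
    4 ≤ mm a b c i j := by
  fin_cases i <;> fin_cases j <;> simp_all [mm]

variable {a b c : ℕ} {x0 : ℝ} {X : Z} {G : Prog} {sl : List ℕ} {le : List LE}

/-- the certificate at a point -/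
theorem Fix.tcert (hF : Fix a b c x0 X G sl le) {t : ℝ} (h0 : 0 ≤ t) (h1 : t ≤ 1) {z : ℂ}
    {y : ℝ} (hz : z ≠ 0) (hzx : z + z⁻¹ = (x0 : ℂ) + (y : ℂ) * I) {d : CellD}
    (hK : KRes (fun k => KP 1 w1 t (kfs [d.K] k)) (kap3 a b c) z G)
    (hLP : LPos a b c (fun k => KP 1 w1 t (kfs [d.K] k)) z) (hst : chkSt [d.K] sl = true)
    (hsl : chkSl [d.K] d.S le = true) (hso : sOKl d.S le = true) :
    TCert V0 e0 a b c CB (zw z) (RK fun s T => KP 1 w1 t (kfs [d.K] (kidx a b c s T))) := by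
  have hz1 := z_ne hF.x1 hzx
  exact tcert_of hF.ha.1 hF.hb.1 hF.hc.1 (mm_le hF.ha.2 hF.hb.2 hF.hc.2) hz hz1 hK hF.cov
    (κ := 2 ^ 10) (M := 2 ^ 32) (by positivity) hF.covT
    (fun k hk => negD_KP w1_wts h0 h1 rfl hst hk)
    (fun k => KP_bd w1_wts h0 h1 _) hLP hF.covL
    (fun x hx N h3 h9 ht => slit_KP w1_wts h0 h1 rfl hsl hx h3 h9 ht
      (sOKl_iff hso hx).1 (sOKl_iff hso hx).2)

/-- A CELL OF A CLASS WITHOUT LABEL `3` -/
theorem Fix.cell (hF : Fix a b c x0 X G sl le) (h4 : 4 ≤ a ∧ 4 ≤ b ∧ 4 ≤ c) {d : CellD}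
    (hs : sideC le d = true) (H : chkD (clsE a b c) G X sl le d = true) :
    TCell a b c x0 ((d.ya : ℝ) / 2 ^ 48) ((d.yb : ℝ) / 2 ^ 48) := by
  obtain ⟨e1, H⟩ := andB_tt H
  obtain ⟨e2, H⟩ := andB_tt H
  obtain ⟨e3, e4⟩ := andB_tt H
  unfold sideC at hs
  rw [Bool.and_eq_true, decide_eq_true_eq] at hs
  refine tcell_of_z hF.x1 hF.x2 CB ?_
  intro z y _ hya hyb hz _ _ hui hzx
  obtain ⟨t, h0, h1, ht⟩ := exists_t hya hyb
  refine ⟨_, hF.tcert h0 h1 hz hzx ?_ (lpos_of_four (mm_ge h4.1 h4.2.1 h4.2.2) _ _) e3 e4 hs.2⟩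
  exact kres_of_cell one_pos w1_wts h0 h1 (clk_E hF.ha hF.hb hF.hc hF.cls h0 h1) hz hzx hui
    rfl rfl (mod_x e1 t hF.xX ht) (im_x e1 ht) xs_nonneg hs.1 rfl e2

/-- A CELL OF A CLASS WITH A LABEL `3` -/
theorem Fix.cell3 (hF : Fix a b c x0 X G sl le) (hcL : coverL a b c G = true) {d : CellD}
    (hs : sideC le d = true) (H : chkD3 (clsE a b c) G X sl le d = true) :
    TCell a b c x0 ((d.ya : ℝ) / 2 ^ 48) ((d.yb : ℝ) / 2 ^ 48) := by
  obtain ⟨e1, H⟩ := andB_tt H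
  obtain ⟨e2, H⟩ := andB_tt H
  obtain ⟨e3, e4⟩ := andB_tt H
  unfold sideC at hs
  rw [Bool.and_eq_true, decide_eq_true_eq] at hs
  refine tcell_of_z hF.x1 hF.x2 CB ?_
  intro z y _ hya hyb hz _ _ hui hzx
  obtain ⟨t, h0, h1, ht⟩ := exists_t hya hyb
  have hk := kres_of_cell3 one_pos w1_wts h0 h1 (clk_E hF.ha hF.hb hF.hc hF.cls h0 h1) hz hzx hui
    rfl rfl (mod_x e1 t hF.xX ht) (im_x e1 ht) xs_nonneg hs.1 rfl e2
  exact ⟨_, hF.tcert h0 h1 hz hzx hk.1 (lpos_of hz (z_ne hF.x1 hzx) hcL hk.2) e3 e4 hs.2⟩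

/-! ### chains of cells -/

/-- a chain of cells with the test `f` -/
def pcF (f : CellD → Bool) (e : ℕ) (l : List CellD) : ℕ → Bool :=
  List.rec (motive := fun _ => Nat → Bool) (fun y => Nat.beq y e)
    (fun c _ ih y => andB (Nat.beq y c.ya) (andB (Nat.ble c.ya c.yb) (andB (f c) (ih c.yb)))) l

theorem pcF_tcell {f : CellD → Bool} {a b c : ℕ} {x0 : ℝ} {e : ℕ} : ∀ (l : List CellD) (d : CellD)
    (y : ℕ), pcF f e (d :: l) y = true → (∀ u ∈ d :: l, f u = true →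
      TCell a b c x0 ((u.ya : ℝ) / 2 ^ 48) ((u.yb : ℝ) / 2 ^ 48)) →
    TCell a b c x0 ((y : ℝ) / 2 ^ 48) ((e : ℝ) / 2 ^ 48) := by
  intro l
  induction l with
  | nil =>
    intro d y H hf
    obtain ⟨h1, H⟩ := andB_tt H
    obtain ⟨-, H⟩ := andB_tt H
    obtain ⟨h3, h4⟩ := andB_tt H
    have e1 : y = d.ya := Nat.eq_of_beq_eq_true h1
    have e2 : d.yb = e := Nat.eq_of_beq_eq_true h4
    rw [e1, ← e2]
    exact hf d List.mem_cons_self h3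
  | cons d' l ih =>
    intro d y H hf
    obtain ⟨h1, H⟩ := andB_tt H
    obtain ⟨-, H⟩ := andB_tt H
    obtain ⟨h3, h4⟩ := andB_tt H
    have e1 : y = d.ya := Nat.eq_of_beq_eq_true h1
    rw [e1]
    exact (hf d List.mem_cons_self h3).join (ih d' d.yb h4 fun u hu =>
      hf u (List.mem_cons_of_mem _ hu))

/-- THE LIST OF CELLS, class without label `3` -/
theorem Fix.pc (hF : Fix a b c x0 X G sl le) (h4 : 4 ≤ a ∧ 4 ≤ b ∧ 4 ≤ c) {l : List CellD}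
    (hl : l ≠ []) (hs : l.all (sideC le) = true) {y e : ℕ}
    (H : chkPc (clsE a b c) G X sl le e l y = true) :
    TCell a b c x0 ((y : ℝ) / 2 ^ 48) ((e : ℝ) / 2 ^ 48) := by
  obtain ⟨d, l, rfl⟩ := List.exists_cons_of_ne_nil hl
  rw [List.all_eq_true] at hs
  exact pcF_tcell (f := chkD (clsE a b c) G X sl le) l d y H fun u hu hc =>
    hF.cell h4 (hs u hu) hc

/-- THE LIST OF CELLS, class with a label `3` -/
theorem Fix.pc3 (hF : Fix a b c x0 X G sl le) (hcL : coverL a b c G = true) {l : List CellD}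
    (hl : l ≠ []) (hs : l.all (sideC le) = true) {y e : ℕ}
    (H : chkPc3 (clsE a b c) G X sl le e l y = true) :
    TCell a b c x0 ((y : ℝ) / 2 ^ 48) ((e : ℝ) / 2 ^ 48) := by
  obtain ⟨d, l, rfl⟩ := List.exists_cons_of_ne_nil hl
  rw [List.all_eq_true] at hs
  exact pcF_tcell (f := chkD3 (clsE a b c) G X sl le) l d y H fun u hu hc =>
    hF.cell3 hcL (hs u hu) hc

/-! ### modules -/

/-- the data of a module -/
def modOK (a b c : ℕ) (G : Prog) (sl : List ℕ) (le : List LE) : Bool :=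
  clsEok a b c && (cover a b c G && (covT a b c sl && covL a b c le))

theorem modOK_fix {a b c : ℕ} (ha : 3 ≤ a ∧ a ≤ 9) (hb : 3 ≤ b ∧ b ≤ 9) (hc : 3 ≤ c ∧ c ≤ 9)
    {x0 : ℝ} (x1 : -2 < x0) (x2 : x0 ≤ 2) {X : Z}
    (xX : |x0 - (zv X : ℝ) / 2 ^ 48| ≤ 32 / 2 ^ 48) {G : Prog} {sl : List ℕ} {le : List LE}
    (h : modOK a b c G sl le = true) : Fix a b c x0 X G sl le := by
  unfold modOK at h
  simp only [Bool.and_eq_true] at h
  exact ⟨ha, hb, hc, x1, x2, xX, h.1, h.2.1, h.2.2.1, h.2.2.2⟩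

theorem xX_A {a b c : ℕ} (ha : 3 ≤ a) (hb : 3 ≤ b) (hac : a ≤ c) (hbc : b ≤ c) (hc : c ≤ 9)
    (hne : ¬ (a = 3 ∧ b = 3 ∧ c = 3)) {X : Z}
    (hX : zv X = Pool.Agent.Helper6.MONO.XTH.XA (min a b) (max a b) c) :
    |xA a b c - (zv X : ℝ) / 2 ^ 48| ≤ 32 / 2 ^ 48 := by
  rw [hX]
  rcases le_total a b with h | h
  · rw [min_eq_left h, max_eq_right h]
    exact Pool.Agent.Helper6.MONO.XTH.xA_enc a b c ha h hbc hc hne
  · rw [min_eq_right h, max_eq_left h, ← xA_swap]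
    exact Pool.Agent.Helper6.MONO.XTH.xA_enc b a c hb h hac hc fun h' => hne ⟨h'.2.1, h'.1, h'.2.2⟩

/-- A MODULE of a class of type A without label `3` -/
theorem tcell_A {a b c : ℕ} (hh : 4 ≤ a ∧ 4 ≤ b ∧ a ≤ c ∧ b ≤ c ∧ c ≤ 9) {X : Z}
    (hX : zv X = Pool.Agent.Helper6.MONO.XTH.XA (min a b) (max a b) c) {G : Prog} {sl : List ℕ}
    {le : List LE} (hm : modOK a b c G sl le = true) {k0 k1 k2 : Mo}
    (e0 : k0 = cstM (nat_lit 1) (kb a) (nat_lit 1)) (e1 : k1 = cstM (nat_lit 1) (kb b) (nat_lit 1))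
    (e2 : k2 = cstM (nat_lit 1) (kb c) (nat_lit 1)) {l : List CellD} (hl : l ≠ [])
    (hs : l.all (sideC le) = true) {y e : ℕ}
    (H : chkPc (mkCls (nat_lit 1) k0 k1 k2) G X sl le e l y = true) :
    TCell a b c (xA a b c) ((y : ℝ) / 2 ^ 48) ((e : ℝ) / 2 ^ 48) := by
  obtain ⟨h1, h2, h3, h4, h5⟩ := hh
  rw [e0, e1, e2] at H
  exact (modOK_fix ⟨by omega, by omega⟩ ⟨by omega, by omega⟩ ⟨by omega, h5⟩
    (xA_gt (by omega) (by omega) h4) (xA_le2 (by omega) (by omega) (by omega))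
    (xX_A (by omega) (by omega) h3 h4 h5 (by omega) hX) hm).pc ⟨h1, h2, by omega⟩ hl hs H

/-- A MODULE of a class of type A with a label `3` -/
theorem tcell_A3 {a b c : ℕ} (hh : 3 ≤ a ∧ 3 ≤ b ∧ a ≤ c ∧ b ≤ c ∧ c ≤ 9)
    (hne : ¬ (a = 3 ∧ b = 3 ∧ c = 3)) {X : Z}
    (hX : zv X = Pool.Agent.Helper6.MONO.XTH.XA (min a b) (max a b) c) {G : Prog} {sl : List ℕ}
    {le : List LE} (hm : modOK a b c G sl le = true) (hcL : coverL a b c G = true)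
    {k0 k1 k2 : Mo}
    (e0 : k0 = cstM (nat_lit 1) (kb a) (nat_lit 1)) (e1 : k1 = cstM (nat_lit 1) (kb b) (nat_lit 1))
    (e2 : k2 = cstM (nat_lit 1) (kb c) (nat_lit 1)) {l : List CellD} (hl : l ≠ [])
    (hs : l.all (sideC le) = true) {y e : ℕ}
    (H : chkPc3 (mkCls (nat_lit 1) k0 k1 k2) G X sl le e l y = true) :
    TCell a b c (xA a b c) ((y : ℝ) / 2 ^ 48) ((e : ℝ) / 2 ^ 48) := by
  obtain ⟨h1, h2, h3, h4, h5⟩ := hh
  rw [e0, e1, e2] at H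
  exact (modOK_fix ⟨by omega, by omega⟩ ⟨by omega, by omega⟩ ⟨by omega, h5⟩
    (xA_gt (by omega) (by omega) h4) (xA_le2 (by omega) (by omega) (by omega))
    (xX_A (by omega) (by omega) h3 h4 h5 hne hX) hm).pc3 hcL hl hs H

end Pool.Agent.Helper6.PIE
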