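import Pool.Agent.Helper6.CX.KRL
import Pool.Agent.Helper86.CX.Pc3

/-!
Row CEL: the kernel test of a cell gives the certificates of all its points.
-/

set_option autoImplicit false
noncomputable section
namespace Pool.Agent.Helper6.CEL

open Pool.Agent.Helper86.CX
open Pool.Agent.Helper86.C75 (Z)
open Pool.Agent.Helper90.C75 (Wts wq Mod avg)
open Pool.Agent.Helper90.KMO
open Pool.Agent.Helper21.KCE (KP andB_tt)
open Pool.Agent.Helper6.MID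
open Pool.Agent.Helper6.KRL
open Pool.Agent.Helper6.PRG
open Complex ComplexConjugate

variable {n : ℕ} {wc : Fin n → ℝ} {t : ℝ}

/-- the tests of the six states, one by one -/
theorem kres_of_parts (hn : 0 < n) (hw : Wts wc) (h0 : 0 ≤ t) (h1 : t ≤ 1) {κ : Fin 3 → ℂ}
    {C : Cls} (hC : CLK n wc t κ C) {z : ℂ} {m0 m1 m2 m3 m4 m5 : Mo}
    (hO : OMK n wc t κ z m0 m1 m2 m3 m4 m5) {KTs : List K2} (hL : KTs.length = n) {LT : ℕ}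
    {G : Prog}
    (e0 : chkPE chkP FE EE n KTs LT (mkE n m0 m3) G.e0 = true)
    (e1 : chkPE chkP FE EE n KTs LT (mkE n m1 m4) G.e1 = true)
    (e2 : chkPE chkP FE EE n KTs LT (mkE n m2 m5) G.e2 = true)
    (e3 : chkPE chkP FE EE n KTs LT (mkE n m3 m0) G.e3 = true)
    (e4 : chkPE chkP FE EE n KTs LT (mkE n m4 m1) G.e4 = true)
    (e5 : chkPE chkP FE EE n KTs LT (mkE n m5 m2) G.e5 = true)
    (o0 : chkPE chkP FO EO n KTs LT (mkO n m0 m2 C.h2 C.q2 C.e2) G.o0 = true)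
    (o1 : chkPE chkP FO EO n KTs LT (mkO n m1 m0 C.h0 C.q0 C.e0) G.o1 = true)
    (o2 : chkPE chkP FO EO n KTs LT (mkO n m2 m1 C.h1 C.q1 C.e1) G.o2 = true)
    (o3 : chkPE chkP FO EO n KTs LT (mkO n m3 m4 C.h0 C.q0 C.e0) G.o3 = true)
    (o4 : chkPE chkP FO EO n KTs LT (mkO n m4 m5 C.h1 C.q1 C.e1) G.o4 = true)
    (o5 : chkPE chkP FO EO n KTs LT (mkO n m5 m3 C.h2 C.q2 C.e2) G.o5 = true)
    (r0 : chkPE chkT FE EE n KTs LT (mkR n m0) G.r0 = true)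
    (r1 : chkPE chkT FE EE n KTs LT (mkR n m1) G.r1 = true)
    (r2 : chkPE chkT FE EE n KTs LT (mkR n m2) G.r2 = true)
    (r3 : chkPE chkT FE EE n KTs LT (mkR n m3) G.r3 = true)
    (r4 : chkPE chkT FE EE n KTs LT (mkR n m4) G.r4 = true)
    (r5 : chkPE chkT FE EE n KTs LT (mkR n m5) G.r5 = true) :
    KRes (fun k => KP n wc t (kfs KTs k)) κ z G := by
  have E : ∀ {o o' : ℂ} {c2 s : Mo} {ps : List PE}, MOK n wc t o' c2 → MOK n wc t o s →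
      chkPE chkP FE EE n KTs LT (mkE n c2 s) ps = true → ∀ x ∈ ps, ∀ y ∈ x.b, ∀ u ∈ y.s,
      ∀ M j, 3 ≤ M → M ≤ 9 → 1 ≤ j → j < M → y.V = Pool.Agent.Helper6.MONO.VV M j → ∀ v,
      0 < ev (KP n wc t (kfs KTs u.k)) v → 0 < ev (CK (KP n wc t (kfs KTs x.k)) 0 o' (o * o'))
        ((Pool.Agent.Helper6.MONO.Bm (Pool.Agent.Helper6.MONO.Kp M)
          (Pool.Agent.Helper6.MONO.Rb M j)).mulVec v) := by
    intro o o' c2 s ps hc hs hh x hx y hy u hu M j h3 h9 hj hjM hV v hv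
    exact even_blk hn hw h0 h1 (EOK.mk' hn hw h0 h1 hc (mkE_c3 hn hw h0 h1 hc hs)) hL hh hx hy hu
      h3 h9 hj hjM hV v hv
  have O : ∀ {o o' k : ℂ} {c2 s h q ke : Mo} {ps : List PE}, MOK n wc t o' c2 →
      MOK n wc t o s → MOK n wc t (k / 2) h → MOK n wc t (k / 4) q →
      MOK n wc t (k ^ 2 / (4 * (2 + k))) ke →
      chkPE chkP FO EO n KTs LT (mkO n c2 s h q ke) ps = true → ∀ x ∈ ps, ∀ y ∈ x.b, ∀ u ∈ y.s,
      ∀ M j, 3 ≤ M → M ≤ 9 → 1 ≤ j → j < M → y.V = Pool.Agent.Helper6.MONO.VV M j → ∀ v,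
      0 < ev (KP n wc t (kfs KTs u.k)) v → 0 < ev (CK (KP n wc t (kfs KTs x.k))
        (k * o / 2 - k ^ 2 / (4 * (2 + k))) o' (o' * (k / 2) * (1 / 2 - o)))
        ((Pool.Agent.Helper6.MONO.Bm (Pool.Agent.Helper6.MONO.Kp M)
          (Pool.Agent.Helper6.MONO.Rb M j)).mulVec v) := by
    intro o o' k c2 s h q ke ps hc hs hh hq hke hx' x hx y hy u hu M j h3 h9 hj hjM hV v hv
    obtain ⟨g1, g2⟩ := mkO_c3 hn hw h0 h1 hc hs hh hq hke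
    exact odd_blk hn hw h0 h1 (OOK.mk' hn hw h0 h1 hc g1 g2) hL hx' hx hy hu h3 h9 hj hjM hV v hv
  have R : ∀ {o : ℂ} {s : Mo} {ps : List PE}, MOK n wc t o s →
      chkPE chkT FE EE n KTs LT (mkR n s) ps = true → ∀ x ∈ ps, ∀ v : Fin 3 → ℂ,
      (v = Pool.Agent.Helper17.PAK.vpq 192 640 ∨ v = Pool.Agent.Helper17.PAK.vpq 197 640 ∨
        v = Pool.Agent.Helper17.PAK.vpq 192 645) →
      0 < ev (CK (KP n wc t (kfs KTs x.k)) 0 o (o * (1 / 2 - o))) v := by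
    intro o s ps hs hh x hx v hv
    exact even_T hn hw h0 h1 (EOK.mk' hn hw h0 h1 hs (mkR_c3 hn hw h0 h1 hs)) hL hh hx v hv
  refine ⟨?_, ?_, ?_⟩
  · intro i hi
    interval_cases i
    · exact E hO.m0 hO.m3 e0
    · exact E hO.m1 hO.m4 e1
    · exact E hO.m2 hO.m5 e2
    · exact E hO.m3 hO.m0 e3
    · exact E hO.m4 hO.m1 e4
    · exact E hO.m5 hO.m2 e5
  · intro i hi
    interval_cases i
    · exact O hO.m0 hO.m2 hC.h2 hC.q2 hC.e2 o0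
    · exact O hO.m1 hO.m0 hC.h0 hC.q0 hC.e0 o1
    · exact O hO.m2 hO.m1 hC.h1 hC.q1 hC.e1 o2
    · exact O hO.m3 hO.m4 hC.h0 hC.q0 hC.e0 o3
    · exact O hO.m4 hO.m5 hC.h1 hC.q1 hC.e1 o4
    · exact O hO.m5 hO.m3 hC.h2 hC.q2 hC.e2 o5
  · intro i hi
    interval_cases i
    · exact R hO.m0 r0
    · exact R hO.m1 r1
    · exact R hO.m2 r2
    · exact R hO.m3 r3
    · exact R hO.m4 r4
    · exact R hO.m5 r5

/-- the tests of the six states -/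
theorem kres_of_om (hn : 0 < n) (hw : Wts wc) (h0 : 0 ≤ t) (h1 : t ≤ 1) {κ : Fin 3 → ℂ} {C : Cls}
    (hC : CLK n wc t κ C) {z : ℂ} {m0 m1 m2 m3 m4 m5 : Mo}
    (hO : OMK n wc t κ z m0 m1 m2 m3 m4 m5) {KTs : List K2} (hL : KTs.length = n) {LT : ℕ}
    {G : Prog} (H : chkOm n C KTs LT G m0 m1 m2 m3 m4 m5 = true) :
    KRes (fun k => KP n wc t (kfs KTs k)) κ z G := by
  obtain ⟨e0, H⟩ := andB_tt H
  obtain ⟨e1, H⟩ := andB_tt H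
  obtain ⟨e2, H⟩ := andB_tt H
  obtain ⟨e3, H⟩ := andB_tt H
  obtain ⟨e4, H⟩ := andB_tt H
  obtain ⟨e5, H⟩ := andB_tt H
  obtain ⟨o0, H⟩ := andB_tt H
  obtain ⟨o1, H⟩ := andB_tt H
  obtain ⟨o2, H⟩ := andB_tt H
  obtain ⟨o3, H⟩ := andB_tt H
  obtain ⟨o4, H⟩ := andB_tt H
  obtain ⟨o5, H⟩ := andB_tt H
  obtain ⟨r0, H⟩ := andB_tt H
  obtain ⟨r1, H⟩ := andB_tt H
  obtain ⟨r2, H⟩ := andB_tt H
  obtain ⟨r3, H⟩ := andB_tt H
  obtain ⟨r4, H⟩ := andB_tt H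
  obtain ⟨r5, -⟩ := andB_tt H
  exact kres_of_parts hn hw h0 h1 hC hO hL e0 e1 e2 e3 e4 e5 o0 o1 o2 o3 o4 o5 r0 r1 r2 r3 r4 r5

/-- the constants of the `L` vector -/
theorem mkL3_c (hn : 0 < n) (hw : Wts wc) (h0 : 0 ≤ t) (h1 : t ≤ 1) {o : ℂ} {s : Mo}
    (hs : MOK n wc t o s) :
    MOK n wc t (1 / 5 + o / 10) (addM (cstM n (nat_lit 56294995342131) (nat_lit 1))
      (mulM n (cstM n (nat_lit 28147497671066) (nat_lit 1)) s)) ∧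
    MOK n wc t (1 / 5 - 2 * o / 5) (subM (cstM n (nat_lit 56294995342131) (nat_lit 1))
      (mulM n (cstM n (nat_lit 112589990684262) (nat_lit 1)) s)) := by
  have a1 : MOK n wc t (1 / 5 : ℂ) (cstM n (nat_lit 56294995342131) (nat_lit 1)) := by
    refine MOK.cst hn hw h0 h1 (nat_lit 56294995342131) (nat_lit 1) ?_
    have e : (UU : ℂ) * (1 / 5) - ((56294995342131 : ℕ) : ℂ) = (((1 : ℝ) / 5 : ℝ) : ℂ) := by
      unfold UU
      push_cast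
      norm_num
    show ‖(UU : ℂ) * (1 / 5) - ((56294995342131 : ℕ) : ℂ)‖ ≤ ((1 : ℕ) : ℝ)
    rw [e, Complex.norm_real, Real.norm_eq_abs]
    norm_num
  have a2 : MOK n wc t (1 / 10 : ℂ) (cstM n (nat_lit 28147497671066) (nat_lit 1)) := by
    refine MOK.cst hn hw h0 h1 (nat_lit 28147497671066) (nat_lit 1) ?_
    have e : (UU : ℂ) * (1 / 10) - ((28147497671066 : ℕ) : ℂ) = ((-(2 : ℝ) / 5 : ℝ) : ℂ) := by
      unfold UU
      push_cast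
      norm_num
    show ‖(UU : ℂ) * (1 / 10) - ((28147497671066 : ℕ) : ℂ)‖ ≤ ((1 : ℕ) : ℝ)
    rw [e, Complex.norm_real, Real.norm_eq_abs]
    norm_num [abs_div]
  have a3 : MOK n wc t (2 / 5 : ℂ) (cstM n (nat_lit 112589990684262) (nat_lit 1)) := by
    refine MOK.cst hn hw h0 h1 (nat_lit 112589990684262) (nat_lit 1) ?_
    have e : (UU : ℂ) * (2 / 5) - ((112589990684262 : ℕ) : ℂ) = (((2 : ℝ) / 5 : ℝ) : ℂ) := by
      unfold UU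
      push_cast
      norm_num
    show ‖(UU : ℂ) * (2 / 5) - ((112589990684262 : ℕ) : ℂ)‖ ≤ ((1 : ℕ) : ℝ)
    rw [e, Complex.norm_real, Real.norm_eq_abs]
    norm_num
  have e1 : 1 / 5 + o / 10 = 1 / 5 + 1 / 10 * o := by ring
  have e2 : 1 / 5 - 2 * o / 5 = 1 / 5 - 2 / 5 * o := by ring
  rw [e1, e2]
  exact ⟨a1.add (a2.mul hn hw h0 h1 hs), a1.sub (a3.mul hn hw h0 h1 hs)⟩

/-- the tests of the six states, with the `L` vector -/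
theorem kres_of_om3 (hn : 0 < n) (hw : Wts wc) (h0 : 0 ≤ t) (h1 : t ≤ 1) {κ : Fin 3 → ℂ}
    {C : Cls} (hC : CLK n wc t κ C) {z : ℂ} {m0 m1 m2 m3 m4 m5 : Mo}
    (hO : OMK n wc t κ z m0 m1 m2 m3 m4 m5) {KTs : List K2} (hL : KTs.length = n) {LT : ℕ}
    {G : Prog} (H : chkOm3 n C KTs LT G m0 m1 m2 m3 m4 m5 = true) :
    KRes (fun k => KP n wc t (kfs KTs k)) κ z G ∧
      KResL (fun k => KP n wc t (kfs KTs k)) κ z G := by
  obtain ⟨e0, H⟩ := andB_tt H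
  obtain ⟨e1, H⟩ := andB_tt H
  obtain ⟨e2, H⟩ := andB_tt H
  obtain ⟨e3, H⟩ := andB_tt H
  obtain ⟨e4, H⟩ := andB_tt H
  obtain ⟨e5, H⟩ := andB_tt H
  obtain ⟨o0, H⟩ := andB_tt H
  obtain ⟨o1, H⟩ := andB_tt H
  obtain ⟨o2, H⟩ := andB_tt H
  obtain ⟨o3, H⟩ := andB_tt H
  obtain ⟨o4, H⟩ := andB_tt H
  obtain ⟨o5, H⟩ := andB_tt H
  obtain ⟨r0, H⟩ := andB_tt H
  obtain ⟨r1, H⟩ := andB_tt H
  obtain ⟨r2, H⟩ := andB_tt H
  obtain ⟨r3, H⟩ := andB_tt H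
  obtain ⟨r4, H⟩ := andB_tt H
  obtain ⟨r5, H⟩ := andB_tt H
  obtain ⟨l0, H⟩ := andB_tt H
  obtain ⟨l1, H⟩ := andB_tt H
  obtain ⟨l2, H⟩ := andB_tt H
  obtain ⟨l3, H⟩ := andB_tt H
  obtain ⟨l4, l5⟩ := andB_tt H
  refine ⟨kres_of_parts hn hw h0 h1 hC hO hL e0 e1 e2 e3 e4 e5 o0 o1 o2 o3 o4 o5 r0 r1 r2 r3 r4
    r5, ?_⟩
  have L : ∀ {o : ℂ} {s : Mo} {ps : List PE}, MOK n wc t o s →
      chkPE chkL FE EE n KTs LT (mkL3 n s) ps = true → ∀ x ∈ ps,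
      0 < ev (KP n wc t (kfs KTs x.k)) ![1, 1 / 5 + o / 10, 1 / 5 - 2 * o / 5] := by
    intro o s ps hs hh x hx
    obtain ⟨g1, g2⟩ := mkL3_c hn hw h0 h1 hs
    exact even_L hn hw h0 h1 (EOK.mk' hn hw h0 h1 g1 g2) hL hh hx
  intro i hi
  interval_cases i
  · exact L hO.m0 l0
  · exact L hO.m1 l1
  · exact L hO.m2 l2
  · exact L hO.m3 l3
  · exact L hO.m4 l4
  · exact L hO.m5 l5

/-- THE TEST OF A CELL AT A POINT -/
theorem kres_of_cell (hn : 0 < n) (hw : Wts wc) (h0 : 0 ≤ t) (h1 : t ≤ 1) {κ : Fin 3 → ℂ}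
    {C : Cls} (hC : CLK n wc t κ C) {z x : ℂ} (hz : z ≠ 0) (hx : z + z⁻¹ = x)
    (hi : (z⁻¹).im ≤ 0) {xs us : List C3} {rx m : ℕ} (hxl : xs.length = n)
    (hul : us.length = n) (hxm : Mod (wq wc t) (UU * x) (Fv n xs) rx)
    (hxi : (avg (wq wc t) (Fv n xs)).im = UU * x.im) (hx0 : ∀ v, 0 ≤ (Fv n xs v).im)
    (hm : 0 < m) {KTs : List K2} (hL : KTs.length = n) {LT : ℕ} {G : Prog}
    (H : chkCell n C G xs rx m us KTs LT = true) :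
    KRes (fun k => KP n wc t (kfs KTs k)) κ z G := by
  obtain ⟨hok, H⟩ := andB_tt H
  obtain ⟨hu, hzm⟩ := MOK.z hn hw h0 h1 hz hx hi rx hxl hul hxm hxi hx0 hm hok
  obtain ⟨b0, H⟩ := andB_tt H
  obtain ⟨b1, H⟩ := andB_tt H
  obtain ⟨b2, H⟩ := andB_tt H
  obtain ⟨b3, H⟩ := andB_tt H
  obtain ⟨b4, H⟩ := andB_tt H
  obtain ⟨b5, H⟩ := andB_tt H
  exact kres_of_om hn hw h0 h1 hC (OMK.mk' hn hw h0 h1 hC hu hzm b0 b1 b2 b3 b4 b5) hL H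

/-- THE TEST OF A CELL AT A POINT, with the `L` vector -/
theorem kres_of_cell3 (hn : 0 < n) (hw : Wts wc) (h0 : 0 ≤ t) (h1 : t ≤ 1) {κ : Fin 3 → ℂ}
    {C : Cls} (hC : CLK n wc t κ C) {z x : ℂ} (hz : z ≠ 0) (hx : z + z⁻¹ = x)
    (hi : (z⁻¹).im ≤ 0) {xs us : List C3} {rx m : ℕ} (hxl : xs.length = n)
    (hul : us.length = n) (hxm : Mod (wq wc t) (UU * x) (Fv n xs) rx)
    (hxi : (avg (wq wc t) (Fv n xs)).im = UU * x.im) (hx0 : ∀ v, 0 ≤ (Fv n xs v).im)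
    (hm : 0 < m) {KTs : List K2} (hL : KTs.length = n) {LT : ℕ} {G : Prog}
    (H : chkCell3 n C G xs rx m us KTs LT = true) :
    KRes (fun k => KP n wc t (kfs KTs k)) κ z G ∧
      KResL (fun k => KP n wc t (kfs KTs k)) κ z G := by
  obtain ⟨hok, H⟩ := andB_tt H
  obtain ⟨hu, hzm⟩ := MOK.z hn hw h0 h1 hz hx hi rx hxl hul hxm hxi hx0 hm hok
  obtain ⟨b0, H⟩ := andB_tt H
  obtain ⟨b1, H⟩ := andB_tt H
  obtain ⟨b2, H⟩ := andB_tt H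
  obtain ⟨b3, H⟩ := andB_tt H
  obtain ⟨b4, H⟩ := andB_tt H
  obtain ⟨b5, H⟩ := andB_tt H
  exact kres_of_om3 hn hw h0 h1 hC (OMK.mk' hn hw h0 h1 hC hu hzm b0 b1 b2 b3 b4 b5) hL H

end Pool.Agent.Helper6.CEL
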