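import Pool.Agent.Helper21.CX.KCH
import Pool.Agent.Helper6.CX.MID
import Pool.Agent.Helper6.CX.RND
import Pool.Agent.Helper17.C75.Kp6

/-!
Row KRL: from the list programs to the forms at a point (reference vectors).
-/

set_option autoImplicit false
set_option exponentiation.threshold 4000
noncomputable section
namespace Pool.Agent.Helper6.KRL

open Pool.Agent.Helper86.CX
open Pool.Agent.Helper86.C75 (Z)
open Pool.Agent.Helper90.C75 (Wts wq bt)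
open Pool.Agent.Helper90.KMO
open Pool.Agent.Helper21.KCE
open Pool.Agent.Helper17.PAK (EncP Bd kz sc nrm ev_lin combH ev_combH chkT_sound chkL_sound vpq)
open Complex ComplexConjugate

variable {n : ℕ} {wc : Fin n → ℝ} {t : ℝ}

theorem vt_b {c : Mo} (h : mok c = true) {f : ℂ} (hf : MOK n wc t f c) : F64 (Fv n c.v) :=
  f64_of h hf.1

/-- THE CORNERS OF AN EVEN SET -/
theorem even_corner (hn : 0 < n) (hw : Wts wc) (h0 : 0 ≤ t) (h1 : t ≤ 1)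
    {T : K2 → ℕ → List BE → P9 → P9 → P9 → Bool} {x y : ℂ} {c2 c3 c22 c33 m : Mo}
    (h : EOK n wc t x y c2 c3 c22 c33 m) {KTs : List K2} (hL : KTs.length = n) {LT : ℕ}
    {ps : List PE} (H : chkPE T FE EE n KTs LT (mkE3 c2 c3 c22 c33 m) ps = true) {pe : PE}
    (hp : pe ∈ ps) :
    ∃ Q : Fin n × Fin 3 → Hm ℤ,
      (∀ u, ∑ v, wq wc t v * ev (sc 1 (Q v)) u ≤
        4 * UU * ev (CK (KP n wc t (kfs KTs pe.k)) 0 x y) u) ∧
      (∀ v, Bd (2 ^ 200) (Q v)) ∧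
      ∀ i : Fin n, ∃ Pa Pc Pb, EncP Pa (Q (i, 0)) ∧ EncP Pc (Q (i, 1)) ∧ EncP Pb (Q (i, 2)) ∧
        T (g2 KTs i) LT pe.b Pa Pc Pb = true := by
  obtain ⟨ok, hm⟩ := chkPE_mem H
  have hv := hm pe hp
  obtain ⟨o1, ok⟩ := andB_tt ok
  obtain ⟨o2, ok⟩ := andB_tt ok
  obtain ⟨o3, ok⟩ := andB_tt ok
  obtain ⟨o4, o5⟩ := andB_tt ok
  set L := kfs KTs pe.k with hLd
  have hLL : L.length = n := by rw [hLd, Pool.Agent.Helper21.KCE.kfs_len, hL]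
  set E := EE ⟨r3 c2, r3 c3, z3, r3 c22, r3 c33, z3, r3 m, z3, z3⟩ (mkRK n L) with hE
  set l : L9 := ⟨c2.v, c3.v, [], c22.v, c33.v, [], m.v, [], []⟩ with hl
  refine ⟨QV n E l L, fun u => hat_even hn hw h0 h1 h hLL u, ?_, ?_⟩
  · intro v
    refine QV_bd hn (EE_b ?_ (mkRK_b hn hLL)) ?_ hLL v
    · exact ⟨r3_b o1, r3_b o2, z3_b, r3_b o3, r3_b o4, z3_b, r3_b o5, z3_b, z3_b⟩
    · exact ⟨vt_b o1 h.c2, vt_b o2 h.c3, f64_nil n, vt_b o3 h.n22, vt_b o4 h.n33, f64_nil n,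
        vt_b o5 h.m, f64_nil n, f64_nil n⟩
  · intro i
    have hi : (i : ℕ) < n := i.2
    have hc := chkV_even n c2.v c3.v c22.v c33.v m.v KTs h.c2.1.len h.c3.1.len h.n22.1.len
      h.n33.1.len h.m.1.len hL hv i hi
    have hg : g2 L i = ⟨kf (g2 KTs i).s pe.k, kf (g2 KTs i).t pe.k⟩ :=
      Pool.Agent.Helper21.KCE.g2_kfs KTs pe.k i (by rw [hL]; exact hi)
    obtain ⟨e1, e2, e3⟩ := encE E (gv c2.v i) (gv c3.v i) (gv c22.v i) (gv c33.v i) (gv m.v i)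
      (g2 L i) (kf (g2 KTs i).s pe.k) (kf (g2 KTs i).t pe.k) hg
    exact ⟨_, _, _, e1, e2, e3, hc⟩

/-- THE CORNERS OF AN ODD SET -/
theorem odd_corner (hn : 0 < n) (hw : Wts wc) (h0 : 0 ≤ t) (h1 : t ≤ 1)
    {T : K2 → ℕ → List BE → P9 → P9 → P9 → Bool} {x y e : ℂ}
    {c2 c3 ce c22 c33 cee m p q : Mo}
    (h : OOK n wc t x y e c2 c3 ce c22 c33 cee m p q) {KTs : List K2} (hL : KTs.length = n)
    {LT : ℕ} {ps : List PE} (H : chkPE T FO EO n KTs LT (mkO3 c2 c3 ce c22 c33 cee m p q) ps = true)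
    {pe : PE} (hp : pe ∈ ps) :
    ∃ Q : Fin n × Fin 3 → Hm ℤ,
      (∀ u, ∑ v, wq wc t v * ev (sc 1 (Q v)) u ≤
        4 * UU * ev (CK (KP n wc t (kfs KTs pe.k)) e x y) u) ∧
      (∀ v, Bd (2 ^ 200) (Q v)) ∧
      ∀ i : Fin n, ∃ Pa Pc Pb, EncP Pa (Q (i, 0)) ∧ EncP Pc (Q (i, 1)) ∧ EncP Pb (Q (i, 2)) ∧
        T (g2 KTs i) LT pe.b Pa Pc Pb = true := by
  obtain ⟨ok, hm⟩ := chkPE_mem H
  have hv := hm pe hp
  obtain ⟨o1, ok⟩ := andB_tt ok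
  obtain ⟨o2, ok⟩ := andB_tt ok
  obtain ⟨o3, ok⟩ := andB_tt ok
  obtain ⟨o4, ok⟩ := andB_tt ok
  obtain ⟨o5, ok⟩ := andB_tt ok
  obtain ⟨o6, ok⟩ := andB_tt ok
  obtain ⟨o7, ok⟩ := andB_tt ok
  obtain ⟨o8, o9⟩ := andB_tt ok
  set L := kfs KTs pe.k with hLd
  have hLL : L.length = n := by rw [hLd, Pool.Agent.Helper21.KCE.kfs_len, hL]
  set E := EO ⟨r3 c2, r3 c3, r3 ce, r3 c22, r3 c33, r3 cee, r3 m, r3 p, r3 q⟩ (mkRK n L) with hE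
  set l : L9 := ⟨c2.v, c3.v, ce.v, c22.v, c33.v, cee.v, m.v, p.v, q.v⟩ with hl
  refine ⟨QV n E l L, fun u => hat_odd hn hw h0 h1 h hLL u, ?_, ?_⟩
  · intro v
    refine QV_bd hn (EO_b ?_ (mkRK_b hn hLL)) ?_ hLL v
    · exact ⟨r3_b o1, r3_b o2, r3_b o3, r3_b o4, r3_b o5, r3_b o6, r3_b o7, r3_b o8, r3_b o9⟩
    · exact ⟨vt_b o1 h.c2, vt_b o2 h.c3, vt_b o3 h.fe, vt_b o4 h.n22, vt_b o5 h.n33,
        vt_b o6 h.nee, vt_b o7 h.m, vt_b o8 h.p, vt_b o9 h.q⟩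
  · intro i
    have hi : (i : ℕ) < n := i.2
    have hc := chkV_odd n c2.v c3.v ce.v c22.v c33.v cee.v m.v p.v q.v KTs h.c2.1.len h.c3.1.len
      h.fe.1.len h.n22.1.len h.n33.1.len h.nee.1.len h.m.1.len h.p.1.len h.q.1.len hL hv i hi
    have hg : g2 L i = ⟨kf (g2 KTs i).s pe.k, kf (g2 KTs i).t pe.k⟩ :=
      Pool.Agent.Helper21.KCE.g2_kfs KTs pe.k i (by rw [hL]; exact hi)
    obtain ⟨e1, e2, e3⟩ := encO E (gv c2.v i) (gv c3.v i) (gv ce.v i) (gv c22.v i) (gv c33.v i)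
      (gv cee.v i) (gv m.v i) (gv p.v i) (gv q.v i)
      (g2 L i) (kf (g2 KTs i).s pe.k) (kf (g2 KTs i).t pe.k) hg
    exact ⟨_, _, _, e1, e2, e3, hc⟩

/-! ### averages -/

theorem sc_ev (Q : Hm ℤ) (u : Fin 3 → ℂ) (s : ℝ) (hs : s ≠ 0) :
    ev (sc 1 Q) u = s * ev (sc s Q) u := by
  rw [ev_lin, ev_lin]
  simp only [sc]
  field_simp

/-- the average of the control forms -/
theorem avg3 (Q : Fin n × Fin 3 → Hm ℤ) (u : Fin 3 → ℂ) :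
    ∑ v, wq wc t v * ev (sc 1 (Q v)) u = ∑ i : Fin n, wc i * (2 ^ 70 *
      ev (combH t (sc (2 ^ 70) (Q (i, 0))) (sc (2 ^ 70) (Q (i, 1))) (sc (2 ^ 70) (Q (i, 2)))) u) := by
  rw [Fintype.sum_prod_type]
  refine Finset.sum_congr rfl fun i _ => ?_
  rw [Fin.sum_univ_three, ev_combH, sc_ev (Q (i, 0)) u (2 ^ 70) (by positivity),
    sc_ev (Q (i, 1)) u (2 ^ 70) (by positivity), sc_ev (Q (i, 2)) u (2 ^ 70) (by positivity)]
  simp only [wq, bt, Matrix.cons_val_zero, Matrix.cons_val_one, Matrix.cons_val]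
  ring

theorem pos_sum (hw : Wts wc) {f : Fin n → ℝ} (h : ∀ i, 0 < f i) : 0 < ∑ i, wc i * f i := by
  have h1 : ∃ i, 0 < wc i := by
    by_contra hc
    push Not at hc
    have h2 : ∑ i, wc i ≤ 0 := Finset.sum_nonpos fun i _ => hc i
    rw [hw.sum] at h2
    linarith
  obtain ⟨i, hi⟩ := h1
  refine Finset.sum_pos' (fun j _ => mul_nonneg (hw.nonneg j) (h j).le) ⟨i, Finset.mem_univ i, ?_⟩
  exact mul_pos hi (h i)

theorem bd_mono {Q : Hm ℤ} (h : Bd (2 ^ 200) Q) : Bd (2 ^ 2200) Q ∧ Bd (2 ^ 2302) Q := by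
  obtain ⟨a, b, c, d, e, f, g, i, j⟩ := h
  have k1 : (2 : ℤ) ^ 200 ≤ 2 ^ 2200 := by decide +kernel
  have k2 : (2 : ℤ) ^ 200 ≤ 2 ^ 2302 := by decide +kernel
  exact ⟨⟨a.trans k1, b.trans k1, c.trans k1, d.trans k1, e.trans k1, f.trans k1, g.trans k1,
    i.trans k1, j.trans k1⟩, ⟨a.trans k2, b.trans k2, c.trans k2, d.trans k2, e.trans k2,
    f.trans k2, g.trans k2, i.trans k2, j.trans k2⟩⟩

/-- positivity of the form from positivity at all corners -/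
theorem pos_of_corners (hw : Wts wc) {Q : Fin n × Fin 3 → Hm ℤ} {K : Hm ℝ} {u : Fin 3 → ℂ}
    (hQ : ∑ v, wq wc t v * ev (sc 1 (Q v)) u ≤ 4 * UU * ev K u)
    (h : ∀ i : Fin n, 0 < ev (combH t (sc (2 ^ 70) (Q (i, 0))) (sc (2 ^ 70) (Q (i, 1)))
      (sc (2 ^ 70) (Q (i, 2)))) u) : 0 < ev K u := by
  rw [avg3] at hQ
  have h1 := pos_sum hw (f := fun i => 2 ^ 70 * ev (combH t (sc (2 ^ 70) (Q (i, 0)))
    (sc (2 ^ 70) (Q (i, 1))) (sc (2 ^ 70) (Q (i, 2)))) u) fun i => mul_pos (by positivity) (h i)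
  have h2 := h1.trans_le hQ
  have hU := UU_pos
  exact (mul_pos_iff_of_pos_left (by linarith : 0 < 4 * UU)).1 h2

/-- THE REFERENCE TESTS -/
theorem even_T (hn : 0 < n) (hw : Wts wc) (h0 : 0 ≤ t) (h1 : t ≤ 1) {x y : ℂ}
    {c2 c3 c22 c33 m : Mo} (h : EOK n wc t x y c2 c3 c22 c33 m) {KTs : List K2}
    (hL : KTs.length = n) {LT : ℕ} {ps : List PE}
    (H : chkPE chkT FE EE n KTs LT (mkE3 c2 c3 c22 c33 m) ps = true) {pe : PE} (hp : pe ∈ ps)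
    (v : Fin 3 → ℂ) (hv : v = vpq 192 640 ∨ v = vpq 197 640 ∨ v = vpq 192 645) :
    0 < ev (CK (KP n wc t (kfs KTs pe.k)) 0 x y) v := by
  obtain ⟨Q, q1, q2, q3⟩ := even_corner hn hw h0 h1 h hL H hp
  refine pos_of_corners hw (q1 v) fun i => ?_
  obtain ⟨Pa, Pc, Pb, a, c, b, hT⟩ := q3 i
  exact chkT_sound a c b (bd_mono (q2 _)).1 (bd_mono (q2 _)).1 (bd_mono (q2 _)).1 hT h0 h1 v hv

/-- THE L TESTS -/
theorem even_L (hn : 0 < n) (hw : Wts wc) (h0 : 0 ≤ t) (h1 : t ≤ 1) {x y : ℂ}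
    {c2 c3 c22 c33 m : Mo} (h : EOK n wc t x y c2 c3 c22 c33 m) {KTs : List K2}
    (hL : KTs.length = n) {LT : ℕ} {ps : List PE}
    (H : chkPE chkL FE EE n KTs LT (mkE3 c2 c3 c22 c33 m) ps = true) {pe : PE} (hp : pe ∈ ps) :
    0 < ev (KP n wc t (kfs KTs pe.k)) ![1, x, y] := by
  obtain ⟨Q, q1, q2, q3⟩ := even_corner hn hw h0 h1 h hL H hp
  have h2 : 0 < ev (CK (KP n wc t (kfs KTs pe.k)) 0 x y) ![1, 1, 1] := by
    refine pos_of_corners hw (q1 _) fun i => ?_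
    obtain ⟨Pa, Pc, Pb, a, c, b, hT⟩ := q3 i
    exact chkL_sound a c b (bd_mono (q2 _)).1 (bd_mono (q2 _)).1 (bd_mono (q2 _)).1 hT h0 h1
  rw [← ev_CK] at h2
  have e : (CM 0 x y).mulVec ![1, 1, 1] = ![1, x, y] := by
    funext j
    fin_cases j <;> simp [CM, Matrix.mulVec, dotProduct, Fin.sum_univ_three]
  rwa [e] at h2

/-! ### the blocks -/

theorem comb_bd {Qa Qc Qb : Hm ℤ} (ha : Bd (2 ^ 76) Qa) (hc : Bd (2 ^ 76) Qc)
    (hb : Bd (2 ^ 76) Qb) (h0 : 0 ≤ t) (h1 : t ≤ 1) :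
    Pool.Agent.Helper6.RND.BdR (2 ^ 7) (combH t (sc (2 ^ 70) Qa) (sc (2 ^ 70) Qc)
      (sc (2 ^ 70) Qb)) := by
  have t0 : 0 ≤ 1 - t := by linarith
  have w0 : 0 ≤ (1 - t) ^ 2 := sq_nonneg _
  have w1 : 0 ≤ 2 * t * (1 - t) := by positivity
  have w2 : 0 ≤ t ^ 2 := sq_nonneg _
  have key : ∀ x y z : ℤ, |x| ≤ 2 ^ 76 → |y| ≤ 2 ^ 76 → |z| ≤ 2 ^ 76 →
      |(1 - t) ^ 2 * ((x : ℝ) / 2 ^ 70) + 2 * t * (1 - t) * ((y : ℝ) / 2 ^ 70) +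
        t ^ 2 * ((z : ℝ) / 2 ^ 70)| ≤ 2 ^ 7 := by
    intro x y z hx hy hz
    have g : ∀ x : ℤ, |x| ≤ 2 ^ 76 → |(x : ℝ) / 2 ^ 70| ≤ 2 ^ 6 := by
      intro x hx
      have h1 : ((|x| : ℤ) : ℝ) ≤ ((2 ^ 76 : ℤ) : ℝ) := by exact_mod_cast hx
      rw [Int.cast_abs] at h1
      rw [abs_div, abs_of_pos (by positivity : (0 : ℝ) < 2 ^ 70), div_le_iff₀ (by positivity)]
      refine h1.trans (le_of_eq ?_)
      norm_num
    have a1 := abs_le.1 (g x hx)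
    have a2 := abs_le.1 (g y hy)
    have a3 := abs_le.1 (g z hz)
    generalize (x : ℝ) / 2 ^ 70 = X at *
    generalize (y : ℝ) / 2 ^ 70 = Y at *
    generalize (z : ℝ) / 2 ^ 70 = Z' at *
    rw [abs_le]
    constructor
    · nlinarith [mul_le_mul_of_nonneg_left a1.1 w0, mul_le_mul_of_nonneg_left a2.1 w1,
        mul_le_mul_of_nonneg_left a3.1 w2]
    · nlinarith [mul_le_mul_of_nonneg_left a1.2 w0, mul_le_mul_of_nonneg_left a2.2 w1,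
        mul_le_mul_of_nonneg_left a3.2 w2]
  obtain ⟨a1, a2, a3, a4, a5, a6, a7, a8, a9⟩ := ha
  obtain ⟨b1, b2, b3, b4, b5, b6, b7, b8, b9⟩ := hc
  obtain ⟨c1, c2, c3, c4, c5, c6, c7, c8, c9⟩ := hb
  exact ⟨key _ _ _ a1 b1 c1, key _ _ _ a2 b2 c2, key _ _ _ a3 b3 c3, key _ _ _ a4 b4 c4,
    key _ _ _ a5 b5 c5, key _ _ _ a6 b6 c6, key _ _ _ a7 b7 c7, key _ _ _ a8 b8 c8,
    key _ _ _ a9 b9 c9⟩

theorem ev_zero (K : Hm ℝ) : ev K 0 = 0 := by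
  rw [ev_lin]
  simp

theorem nrm_pos {u : Fin 3 → ℂ} (h : u ≠ 0) : 0 < nrm u := by
  have h1 : ∃ i, u i ≠ 0 := by
    by_contra hc
    push Not at hc
    exact h (funext hc)
  obtain ⟨i, hi⟩ := h1
  have h2 := Complex.normSq_pos.2 hi
  have n0 := Complex.normSq_nonneg (u 0)
  have n1 := Complex.normSq_nonneg (u 1)
  have n2 := Complex.normSq_nonneg (u 2)
  unfold nrm
  fin_cases i
  · have h3 : 0 < normSq (u 0) := h2
    linarith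
  · have h3 : 0 < normSq (u 1) := h2
    linarith
  · have h3 : 0 < normSq (u 2) := h2
    linarith

open Pool.Agent.Helper17.PAK (chkP_sound rng9_sound lineH ev_lineH andB_iff encV_vrec) in
open Pool.Agent.Helper6.MONO (VV vv_ok Kp Rb Bm) in
/-- A BLOCK AT A POINT -/
theorem blk_point (hw : Wts wc) (h0 : 0 ≤ t) (h1 : t ≤ 1) {Q : Fin n × Fin 3 → Hm ℤ}
    {P : Hm ℝ} {KTs : List K2} (hL : KTs.length = n) {LT : ℕ} {b : List BE}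
    (q1 : ∀ u, ∑ v, wq wc t v * ev (sc 1 (Q v)) u ≤ 4 * UU * ev P u)
    (q2 : ∀ v, Bd (2 ^ 200) (Q v))
    (q3 : ∀ i : Fin n, ∃ Pa Pc Pb, EncP Pa (Q (i, 0)) ∧ EncP Pc (Q (i, 1)) ∧
      EncP Pb (Q (i, 2)) ∧ chkP (g2 KTs i) LT b Pa Pc Pb = true)
    {x : BE} (hx : x ∈ b) {y : SE} (hy : y ∈ x.s) {M j : ℕ} (h3 : 3 ≤ M) (h9 : M ≤ 9)
    (hj : 1 ≤ j) (hjM : j < M) (hV : x.V = VV M j) (v : Fin 3 → ℂ)
    (hv : 0 < ev (KP n wc t (kfs KTs y.k)) v) : 0 < ev P ((Bm (Kp M) (Rb M j)).mulVec v) := by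
  obtain ⟨R, A, W, T, e1, e2, b1, b2, b3, b4⟩ := vv_ok M j h3 h9 hj hjM
  have c53 : (2 : ℤ) ^ 53 ≤ 2 ^ 56 := by norm_num
  have henc := encV_vrec R A W T
  rw [← e1, ← hV] at henc
  set l0 := u32 LT (64 * y.l) with hl0
  set l1 := u32 LT (64 * y.l + 32) with hl1
  set lam : ℝ := (1 - t) * (l0 / 2 ^ 24) + t * (l1 / 2 ^ 24) with hlam
  have hlam0 : 0 ≤ lam := by
    have t0 : 0 ≤ 1 - t := by linarith
    positivity
  have hvn : v ≠ 0 := by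
    rintro rfl
    rw [ev_zero] at hv
    exact lt_irrefl _ hv
  have hn0 := nrm_pos hvn
  set Bv := (Bm (Kp M) (Rb M j)).mulVec v with hBv
  -- at every corner
  have key : ∀ i : Fin n, lam * ev (lineH t (sc (2 ^ 20) (kz (kf (g2 KTs i).s y.k)))
      (sc (2 ^ 20) (kz (kf (g2 KTs i).t y.k)))) v + (1 / 2 ^ 31) * nrm v ≤
      ev (combH t (sc (2 ^ 70) (Q (i, 0))) (sc (2 ^ 70) (Q (i, 1))) (sc (2 ^ 70) (Q (i, 2)))) Bv := by
    intro i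
    obtain ⟨Pa, Pc, Pb, a, c, bb, hT⟩ := q3 i
    have hT' := hT
    unfold chkP at hT'
    simp only [andB_iff] at hT'
    obtain ⟨r1, r2, r3, -⟩ := hT'
    have hs := chkP_sound a c bb (bd_mono (q2 _)).2 (bd_mono (q2 _)).2 (bd_mono (q2 _)).2 hT x hx
      y hy R A W T henc (b1.le.trans c53) (b2.le.trans c53) (b3.le.trans c53)
      (b4.le.trans c53) t h0 h1 v
    have hb := comb_bd (rng9_sound a (bd_mono (q2 _)).2 r1) (rng9_sound c (bd_mono (q2 _)).2 r2)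
      (rng9_sound bb (bd_mono (q2 _)).2 r3) h0 h1
    have hr := Pool.Agent.Helper6.RND.ev_round hb h3 hj hjM.le e2 v
    have hsr := hs.trans hr
    have e5 : (1 : ℝ) / 2 ^ 30 * nrm v = 1 / 2 ^ 31 * nrm v + 1 / 2 ^ 31 * nrm v := by ring
    rw [e5, ← add_assoc] at hsr
    exact le_of_add_le_add_right hsr
  -- the average
  have hsum : ∑ i : Fin n, wc i * (lam * ev (lineH t (sc (2 ^ 20) (kz (kf (g2 KTs i).s y.k)))
      (sc (2 ^ 20) (kz (kf (g2 KTs i).t y.k)))) v + (1 / 2 ^ 31) * nrm v) ≤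
      ∑ i : Fin n, wc i * ev (combH t (sc (2 ^ 70) (Q (i, 0))) (sc (2 ^ 70) (Q (i, 1)))
        (sc (2 ^ 70) (Q (i, 2)))) Bv :=
    Finset.sum_le_sum fun i _ => mul_le_mul_of_nonneg_left (key i) (hw.nonneg i)
  have hl : ∑ i : Fin n, wc i * (lam * ev (lineH t (sc (2 ^ 20) (kz (kf (g2 KTs i).s y.k)))
      (sc (2 ^ 20) (kz (kf (g2 KTs i).t y.k)))) v + (1 / 2 ^ 31) * nrm v) =
      lam * (ev (KP n wc t (kfs KTs y.k)) v / 2 ^ 20) + (1 / 2 ^ 31) * nrm v := by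
    have f1 : ∀ i : Fin n, wc i * (lam * ev (lineH t (sc (2 ^ 20) (kz (kf (g2 KTs i).s y.k)))
        (sc (2 ^ 20) (kz (kf (g2 KTs i).t y.k)))) v + (1 / 2 ^ 31) * nrm v) =
        lam / 2 ^ 20 * (wc i * ((1 - t) * ev (sc 1 (kz (g2 (kfs KTs y.k) i).s)) v +
          t * ev (sc 1 (kz (g2 (kfs KTs y.k) i).t)) v)) + wc i * ((1 / 2 ^ 31) * nrm v) := by
      intro i
      have hi : (i : ℕ) < KTs.length := by rw [hL]; exact i.2
      rw [Pool.Agent.Helper6.KPF.g2_kfs hi, ev_lineH]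
      show _ = lam / 2 ^ 20 * (wc i * ((1 - t) * ev (sc 1 (kz (kf (g2 KTs i).s y.k))) v +
          t * ev (sc 1 (kz (kf (g2 KTs i).t y.k))) v)) + wc i * ((1 / 2 ^ 31) * nrm v)
      rw [Pool.Agent.Helper6.KPF.sc1_eq, Pool.Agent.Helper6.KPF.sc1_eq]
      generalize ev (sc (2 ^ 20) (kz (kf (g2 KTs i).s y.k))) v = X
      generalize ev (sc (2 ^ 20) (kz (kf (g2 KTs i).t y.k))) v = Y
      generalize nrm v = N
      field_simp
    rw [Finset.sum_congr rfl fun i _ => f1 i, Finset.sum_add_distrib, ← Finset.mul_sum,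
      ← Pool.Agent.Helper6.KPF.ev_KP, ← Finset.sum_mul, hw.sum, one_mul]
    ring
  rw [hl] at hsum
  have hq := q1 Bv
  rw [avg3] at hq
  have h5 : ∑ i : Fin n, wc i * (2 ^ 70 * ev (combH t (sc (2 ^ 70) (Q (i, 0)))
      (sc (2 ^ 70) (Q (i, 1))) (sc (2 ^ 70) (Q (i, 2)))) Bv) = 2 ^ 70 * ∑ i : Fin n, wc i *
        ev (combH t (sc (2 ^ 70) (Q (i, 0))) (sc (2 ^ 70) (Q (i, 1)))
          (sc (2 ^ 70) (Q (i, 2)))) Bv := by
    rw [Finset.mul_sum]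
    exact Finset.sum_congr rfl fun i _ => by ring
  rw [h5] at hq
  have h6 : 0 < lam * (ev (KP n wc t (kfs KTs y.k)) v / 2 ^ 20) + (1 / 2 ^ 31) * nrm v := by
    have g1 : 0 ≤ lam * (ev (KP n wc t (kfs KTs y.k)) v / 2 ^ 20) :=
      mul_nonneg hlam0 (div_nonneg hv.le (by positivity))
    have g2 : 0 < (1 / 2 ^ 31 : ℝ) * nrm v := mul_pos (by positivity) hn0
    exact add_pos_of_nonneg_of_pos g1 g2
  have h7 := h6.trans_le hsum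
  have h8 : 0 < 4 * UU * ev P Bv := (mul_pos (by positivity) h7).trans_le hq
  have hU := UU_pos
  exact (mul_pos_iff_of_pos_left (by linarith : 0 < 4 * UU)).1 h8

open Pool.Agent.Helper6.MONO (VV Kp Rb Bm) in
/-- THE BLOCKS OF AN EVEN SET -/
theorem even_blk (hn : 0 < n) (hw : Wts wc) (h0 : 0 ≤ t) (h1 : t ≤ 1) {x y : ℂ}
    {c2 c3 c22 c33 m : Mo} (h : EOK n wc t x y c2 c3 c22 c33 m) {KTs : List K2}
    (hL : KTs.length = n) {LT : ℕ} {ps : List PE}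
    (H : chkPE chkP FE EE n KTs LT (mkE3 c2 c3 c22 c33 m) ps = true) {pe : PE} (hp : pe ∈ ps)
    {b : BE} (hb : b ∈ pe.b) {u : SE} (hu : u ∈ b.s) {M j : ℕ} (h3 : 3 ≤ M) (h9 : M ≤ 9)
    (hj : 1 ≤ j) (hjM : j < M) (hV : b.V = VV M j) (v : Fin 3 → ℂ)
    (hv : 0 < ev (KP n wc t (kfs KTs u.k)) v) :
    0 < ev (CK (KP n wc t (kfs KTs pe.k)) 0 x y) ((Bm (Kp M) (Rb M j)).mulVec v) := by
  obtain ⟨Q, q1, q2, q3⟩ := even_corner hn hw h0 h1 h hL H hp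
  exact blk_point hw h0 h1 hL q1 q2 q3 hb hu h3 h9 hj hjM hV v hv

open Pool.Agent.Helper6.MONO (VV Kp Rb Bm) in
/-- THE BLOCKS OF AN ODD SET -/
theorem odd_blk (hn : 0 < n) (hw : Wts wc) (h0 : 0 ≤ t) (h1 : t ≤ 1) {x y e : ℂ}
    {c2 c3 ce c22 c33 cee m p q : Mo} (h : OOK n wc t x y e c2 c3 ce c22 c33 cee m p q)
    {KTs : List K2} (hL : KTs.length = n) {LT : ℕ} {ps : List PE}
    (H : chkPE chkP FO EO n KTs LT (mkO3 c2 c3 ce c22 c33 cee m p q) ps = true) {pe : PE}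
    (hp : pe ∈ ps)
    {b : BE} (hb : b ∈ pe.b) {u : SE} (hu : u ∈ b.s) {M j : ℕ} (h3 : 3 ≤ M) (h9 : M ≤ 9)
    (hj : 1 ≤ j) (hjM : j < M) (hV : b.V = VV M j) (v : Fin 3 → ℂ)
    (hv : 0 < ev (KP n wc t (kfs KTs u.k)) v) :
    0 < ev (CK (KP n wc t (kfs KTs pe.k)) e x y) ((Bm (Kp M) (Rb M j)).mulVec v) := by
  obtain ⟨Q, q1, q2, q3⟩ := odd_corner hn hw h0 h1 h hL H hp
  exact blk_point hw h0 h1 hL q1 q2 q3 hb hu h3 h9 hj hjM hV v hv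

end Pool.Agent.Helper6.KRL
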