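import Pool.Agent.Helper12.CX.CLG
import Pool.Agent.Helper39.CX.SUB
import Pool.Agent.Helper39.CX.DTH

/-!
Row KT: the global treatments of the blocks in the global charts. The certificate at one frontier
point in the global charts (`GCert`) and in the plain charts (`PCert`), and how to pass from the
second to the first.
-/

set_option autoImplicit false
noncomputable section
namespace Pool.Agent.Helper6.MONO

open Pool.Agent.Helper21.SUP (GS Sch gM gM_append fD SBlk SSt DG DG_nx sD_cons sD_nil sD_append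
  okD_cons okD_append ok1 Ty std Modes std_blk alL alL_self)
open Pool.Agent.Helper6.MONO.SV (UY StartY D4)
open Pool.Agent.Helper21.MIR (TR PT PTr Mt V)
open Pool.Agent.Helper39.C75 (IsRegion RCert Reg)
open Pool.Agent.Helper39.SLT (drop last drop_src drop_rank last_length drop_runs drop_seg BlkCert
  seg_append)

open Pool.Agent.Helper21.SUP renaming nx → nxs

/-! ### reference vectors -/

/-- the constants of the reference vectors: `(1, al, be)` in the `Y` charts (also at the `L` states
whose wall to the out-star has label `≥ 4`, in the chart `L` this is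
`(1, be ω, al - be/2 + be ω)`), and `(1, c, d h')` in the `L` charts of the states with label `3`,
`h'` the weight of the edge between the wall and the out-star -/
structure RV2 : Type where
  al : ℝ
  be : ℝ
  c : ℝ
  d : ℝ → ℝ

/-- the `Y` vector in the chart `L` -/
def yL (al be : ℝ) (om : ℂ) : V3 := ![1, (be : ℂ) * om, (al : ℂ) - (be : ℂ) / 2 + (be : ℂ) * om]

/-- the reference vector of a state, in the global chart -/
def rG (V : RV2) (p q r : ℕ) (σ : SSt Ty) (w : ℂ) : V3 :=
  if σ.2.2 = some Ty.B then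
    (if mm p q r σ.1.1 σ.1.2.2 = 3 then
      ![1, (V.c : ℂ), (V.d (kk p q r σ.1.1 σ.1.2.2) : ℂ)]
    else yL V.al V.be (omS p q r σ.1 w))
  else ![1, (V.al : ℂ), (V.be : ℂ)]

theorem rG_zero (V : RV2) (p q r : ℕ) (σ : SSt Ty) (w : ℂ) : rG V p q r σ w 0 = 1 := by
  rw [rG]
  split_ifs <;> simp [yL]

theorem rG_conj (V : RV2) (p q r : ℕ) (σ : SSt Ty) (w : ℂ) (i : Fin 3) :
    rG V p q r σ (starRingEnd ℂ w) i = starRingEnd ℂ (rG V p q r σ w i) := by
  have e : omS p q r σ.1 (starRingEnd ℂ w) = starRingEnd ℂ (omS p q r σ.1 w) := by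
    unfold omS omW
    cases oriZ σ.1 <;> simp [map_ofNat]
  rw [rG, rG]
  split_ifs
  · fin_cases i <;> simp
  · rw [e]
    fin_cases i <;> simp [yL, map_ofNat]
  · fin_cases i <;> simp

theorem rG_reg {p q r : ℕ} (hp : 3 ≤ p) (hq : 3 ≤ q) (hr : 3 ≤ r) {x0 : ℝ} (hx : -2 < x0)
    (V : RV2) (σ : SSt Ty) (h : DG σ.1) : Reg (Omg x0) (rG V p q r σ) := by
  obtain ⟨h1, h2⟩ := omS_reg hp hq hr hx h
  intro j
  by_cases hB : σ.2.2 = some Ty.B
  · by_cases h3 : mm p q r σ.1.1 σ.1.2.2 = 3
    · have e : (fun w => rG V p q r σ w j) = fun _ =>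
          (![1, (V.c : ℂ), (V.d (kk p q r σ.1.1 σ.1.2.2) : ℂ)] : V3) j := by
        funext w
        rw [rG, if_pos hB, if_pos h3]
      rw [e]
      exact ⟨continuousOn_const, differentiableOn_const _⟩
    · have e : (fun w => rG V p q r σ w j) = fun w => yL V.al V.be (omS p q r σ.1 w) j := by
        funext w
        rw [rG, if_pos hB, if_neg h3]
      rw [e]
      fin_cases j
      · exact ⟨continuousOn_const, differentiableOn_const _⟩
      · exact ⟨continuousOn_const.mul h1, (differentiableOn_const _).mul h2⟩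
      · exact ⟨continuousOn_const.add (continuousOn_const.mul h1),
          (differentiableOn_const _).add ((differentiableOn_const _).mul h2)⟩
  · have e : (fun w => rG V p q r σ w j) = fun _ => (![1, (V.al : ℂ), (V.be : ℂ)] : V3) j := by
      funext w
      rw [rG, if_neg hB]
    rw [e]
    exact ⟨continuousOn_const, differentiableOn_const _⟩

/-! ### treatments -/

/-- THE TREATMENTS: blocks from dead states by themselves, single runs and `2 ^ 2` by reference
vectors, `2 ^ n` against `2 ^ (n - 2)`, other superblocks against the block without the last run -/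
def KG (V : RV2) (p q r : ℕ) {Y : Modes} (live : SSt Ty → Prop) (b : SBlk (std Y) p q r) :
    TR (SBlk (std Y) p q r) :=
  haveI := Classical.dec (live b.src)
  if live b.src then
    if b.t = Ty.B then
      (if b.ms.length ≤ 1 then TR.ref (rG V p q r b.src)
        else TR.comp (drop 2 b) (fun _ => 1))
    else
      (if b.ms.length = 0 then TR.ref (rG V p q r b.src)
        else TR.comp (drop 1 b) (fun _ => 1))
  else TR.self (fun _ => 1)

/-- the closure condition: the blocks which are treated by reference vectors -/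
def Clo (V : RV2) (p q r : ℕ) (Y : Modes) (live : SSt Ty → Prop) (x0 : ℝ) : Prop :=
  ∀ b : SBlk (std Y) p q r, live b.src → (b.t = Ty.B → b.ms.length ≤ 1) →
    (b.t ≠ Ty.B → b.ms.length = 0) →
    ∀ w ∈ Omg x0, (MG p q r b w).mulVec (rG V p q r b.src w) 0 ≠ 0

theorem KG_ok {V : RV2} {p q r : ℕ} (hp : 3 ≤ p) (hq : 3 ≤ q) (hr : 3 ≤ r) {Y : Modes}
    {live : SSt Ty → Prop} {x0 : ℝ} (hx : -2 < x0)
    (hc : Clo V p q r Y live x0) (b : SBlk (std Y) p q r) :
    (KG V p q r live b).ok SBlk.src (MG p q r) (Omg x0) (fun b => b.ms.length) b := by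
  have hreg : Reg (Omg x0) (rG V p q r b.src) := rG_reg hp hq hr hx V b.src b.hs
  have h1 : ContinuousOn (fun _ : ℂ => (1 : ℂ)) (closure (Omg x0)) ∧
      DifferentiableOn ℂ (fun _ : ℂ => (1 : ℂ)) (Omg x0) ∧
      ∀ w ∈ closure (Omg x0), (fun _ : ℂ => (1 : ℂ)) w ≠ 0 :=
    ⟨continuousOn_const, differentiableOn_const _, fun _ _ => one_ne_zero⟩
  unfold KG
  by_cases hl : live b.src
  · rw [if_pos hl]
    by_cases ht : b.t = Ty.B
    · rw [if_pos ht]
      by_cases hm : b.ms.length ≤ 1
      · rw [if_pos hm]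
        refine ⟨hreg, fun w _ => ?_, fun w hw => hc b hl (fun _ => hm) (fun h => absurd ht h) w hw⟩
        show rG V p q r b.src w 0 ≠ 0
        rw [rG_zero]
        exact one_ne_zero
      · rw [if_neg hm]
        exact ⟨⟨rfl, drop_rank (by norm_num) (by omega)⟩, h1⟩
    · rw [if_neg ht]
      by_cases hm : b.ms.length = 0
      · rw [if_pos hm]
        refine ⟨hreg, fun w _ => ?_, fun w hw => hc b hl (fun h => absurd h ht) (fun _ => hm) w hw⟩
        show rG V p q r b.src w 0 ≠ 0
        rw [rG_zero]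
        exact one_ne_zero
      · rw [if_neg hm]
        exact ⟨⟨rfl, drop_rank (by norm_num) (by omega)⟩, h1⟩
  · rw [if_neg hl]
    exact h1

theorem KG_conj {V : RV2} {p q r : ℕ} {Y : Modes} {live : SSt Ty → Prop}
    (b : SBlk (std Y) p q r) (w : ℂ) : (KG V p q r live b).conjOK w (starRingEnd ℂ w) := by
  have hr : rG V p q r b.src (starRingEnd ℂ w) =
      Pool.Agent.Helper21.MIR.cj (rG V p q r b.src w) := by
    funext i
    exact rG_conj V p q r b.src w i
  have h1 : (fun _ : ℂ => (1 : ℂ)) (starRingEnd ℂ w) =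
      starRingEnd ℂ ((fun _ : ℂ => (1 : ℂ)) w) := by simp
  unfold KG
  split_ifs
  · exact hr
  · exact h1
  · exact hr
  · exact h1
  · exact h1

/-! ### the last runs of a block -/

theorem cont_std {Y : Modes} {t t' : Ty} {s : GS} {m : ℕ} (h : (std Y).cont t s m = some t') :
    (t = Ty.A ∧ m = 3 ∧ t' = Ty.A) ∨ (t = Ty.B ∧ m = 2 ∧ t' = Ty.B) ∨
      (∃ k, t = Ty.P k ∧ m = 3 ∧ t' = Ty.Q k) ∨ (∃ k, t = Ty.Q k ∧ m = k ∧ t' = Ty.P k) := by
  cases t with
  | o => cases h
  | A =>
    have h' : (if m = 3 then some Ty.A else none) = some t' := h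
    split_ifs at h' with hm
    cases h'
    exact Or.inl ⟨rfl, hm, rfl⟩
  | B =>
    have h' : (if m = 2 then some Ty.B else none) = some t' := h
    split_ifs at h' with hm
    cases h'
    exact Or.inr (Or.inl ⟨rfl, hm, rfl⟩)
  | P k =>
    have h' : (if m = 3 then some (Ty.Q k) else none) = some t' := h
    split_ifs at h' with hm
    cases h'
    exact Or.inr (Or.inr (Or.inl ⟨k, rfl, hm, rfl⟩))
  | Q k =>
    have h' : (if m = k then some (Ty.P k) else none) = some t' := h
    split_ifs at h' with hm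
    cases h'
    exact Or.inr (Or.inr (Or.inr ⟨k, rfl, hm, rfl⟩))

variable {p q r : ℕ} {Y : Modes}

/-- the last run of a superblock which is not of type `B` -/
theorem last_one (b : SBlk (std Y) p q r) (h0 : b.ms.length ≠ 0) (ht : b.t ≠ Ty.B) :
    ∃ m : ℕ, last 1 b = [m] ∧ (drop 1 b).t ≠ Ty.B ∧
      ((∃ k, (drop 1 b).t = Ty.Q k ∧ m = k) ∨ (((drop 1 b).t = Ty.A ∨ ∃ k, (drop 1 b).t = Ty.P k) ∧
        m = 3)) := by
  have hlen : (last 1 b).length = 1 := last_length (by omega)
  obtain ⟨m, hm⟩ := List.length_eq_one_iff.1 hlen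
  have hseg := drop_seg 1 b
  rw [hm] at hseg
  obtain ⟨t₁, h1, h2⟩ := Pool.Agent.Helper21.SUP.seg_cons (std Y) _ _ m [] b.t hseg
  have h3 : t₁ = b.t := Option.some.inj h2
  subst h3
  refine ⟨m, hm, ?_⟩
  rcases cont_std h1 with h | h | ⟨k, h⟩ | ⟨k, h⟩
  · exact ⟨by rw [h.1]; decide, Or.inr ⟨Or.inl h.1, h.2.1⟩⟩
  · exact absurd h.2.2 ht
  · exact ⟨by rw [h.1]; exact (fun h' => by cases h'), Or.inr ⟨Or.inr ⟨k, h.1⟩, h.2.1⟩⟩
  · exact ⟨by rw [h.1]; exact (fun h' => by cases h'), Or.inl ⟨k, h.1, h.2.1⟩⟩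

/-- the last two runs of a superblock of type `B` -/
theorem last_two (b : SBlk (std Y) p q r) (h0 : 1 < b.ms.length) (ht : b.t = Ty.B) :
    last 2 b = [2, 2] ∧ (drop 2 b).t = Ty.B := by
  have hlen : (last 2 b).length = 2 := last_length (by omega)
  obtain ⟨m, m', hm⟩ := List.length_eq_two.1 hlen
  have hseg := drop_seg 2 b
  rw [hm, ht] at hseg
  obtain ⟨t₁, h1, h2⟩ := Pool.Agent.Helper21.SUP.seg_cons (std Y) _ _ m [m'] Ty.B hseg
  obtain ⟨t₂, h3, h4⟩ := Pool.Agent.Helper21.SUP.seg_cons (std Y) _ _ m' [] Ty.B h2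
  have h5 : t₂ = Ty.B := Option.some.inj h4
  subst h5
  rcases cont_std h3 with h | h | ⟨k, h⟩ | ⟨k, h⟩
  · cases h.2.2
  · obtain ⟨e1, e2, -⟩ := h
    subst e1
    rcases cont_std h1 with h | h | ⟨k, h⟩ | ⟨k, h⟩
    · cases h.2.2
    · exact ⟨by rw [hm, h.2.1, e2], h.1⟩
    · cases h.2.2
    · cases h.2.2
  · cases h.2.2
  · cases h.2.2

/-- a block of type `B` is a power of `2` -/
theorem runs_B (b : SBlk (std Y) p q r) (ht : b.t = Ty.B) :
    b.runs = List.replicate (b.ms.length + 1) 2 ∧ b.o ≠ some Ty.B := by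
  obtain ⟨f1, f2, f3⟩ := std_blk Y p q r b.o b.f b.s b.m b.ms b.t b.hb
  have hrun : b.m :: b.ms = alL 2 2 (b.ms.length + 1) := by
    rcases f3 with h | h | h | h
    · rw [ht] at h; exact absurd h.1 (by decide)
    · rw [ht] at h; exact absurd h.1 (by decide)
    · exact h.2.2
    · exfalso
      have := h.2.2
      rw [ht] at this
      split_ifs at this
  have hrun' : b.runs = List.replicate (b.ms.length + 1) 2 := by
    show b.m :: b.ms = _
    rw [hrun, alL_self]
  refine ⟨hrun', fun h => ?_⟩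
  have hm2 : b.m = 2 := by
    have := congrArg List.head? hrun'
    simp [SBlk.runs, List.replicate_succ] at this
    exact this
  rcases f1 Ty.B h with h1 | h1
  · omega
  · exact h1 hm2

/-! ### matrices of superblocks -/

theorem gG_append (l : List ℕ) (m : ℕ) (L : Bool) (s : GS) (w : ℂ) (hl : l ≠ []) :
    gG p q r L s (l ++ [m]) w = GR p q r false (sD s l) m w * gG p q r L s l w := by
  induction l generalizing L s with
  | nil => exact absurd rfl hl
  | cons m' l ih =>
    rw [List.cons_append, sD_cons]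
    show gG p q r false (nxs s m') (l ++ [m]) w * GR p q r L s m' w =
      GR p q r false (sD (nxs s m') l) m w * (gG p q r false (nxs s m') l w * GR p q r L s m' w)
    by_cases h : l = []
    · subst h
      rw [sD_nil]
      show (1 * GR p q r false (nxs s m') m w) * GR p q r L s m' w =
        GR p q r false (nxs s m') m w * (1 * GR p q r L s m' w)
      rw [Matrix.one_mul, Matrix.one_mul]
    · rw [ih false (nxs s m') h, Matrix.mul_assoc]

/-- `MG` of a superblock not of type `B` from the block without its last run -/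
theorem MG_last_one (b : SBlk (std Y) p q r) (h0 : b.ms.length ≠ 0) (ht : b.t ≠ Ty.B) {m : ℕ}
    (hm : last 1 b = [m]) (ht' : (drop 1 b).t ≠ Ty.B) (w : ℂ) :
    MG p q r b w = GR p q r false (sD b.s (drop 1 b).runs) m w * MG p q r (drop 1 b) w := by
  rw [MG, if_neg ht, MG, if_neg ht']
  have h1 := drop_runs 1 b
  rw [hm] at h1
  rw [h1]
  exact gG_append _ m _ _ w (by simp [SBlk.runs])

theorem BN_step (s : GS) (n : ℕ) (hn : n ≠ 0) (w : ℂ) :
    BN p q r s (n + 2) w = UUm p q r (s2 s n) w * BN p q r s n w := by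
  obtain ⟨k, rfl⟩ := Nat.exists_eq_succ_of_ne_zero hn
  rfl

/-- `MG` of a superblock of type `B` from the block without its last two runs -/
theorem MG_last_two (b : SBlk (std Y) p q r) (h0 : 1 < b.ms.length) (ht : b.t = Ty.B) (w : ℂ) :
    MG p q r b w = UUm p q r (sD b.s (drop 2 b).runs) w * MG p q r (drop 2 b) w := by
  obtain ⟨h1, h2⟩ := last_two b h0 ht
  obtain ⟨h3, -⟩ := runs_B (drop 2 b) h2
  have hlen : (drop 2 b).ms.length + 2 = b.ms.length := by
    rw [Pool.Agent.Helper39.SLT.drop_ms, List.length_take]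
    omega
  rw [MG, if_pos ht, MG, if_pos h2, h3, s2_sD]
  have hs : (drop 2 b).s = b.s := rfl
  rw [hs, ← hlen]
  exact BN_step b.s ((drop 2 b).ms.length + 1) (by omega) w

/-- the last run of a block is admissible at its place -/
theorem ok_last (b : SBlk (std Y) p q r) (j : ℕ) {m : ℕ} {l : List ℕ} (hl : last j b = m :: l) :
    ok1 p q r (fD p q r b.f b.s (drop j b).runs) (sD b.s (drop j b).runs) m := by
  have h1 : okD p q r b.f b.s b.runs := b.hb.ok
  rw [drop_runs j b, hl, okD_append] at h1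
  exact ((okD_cons _ _ _ _ _ _ _).1 h1.2).1

/-! ### the certificate in the global charts -/

/-- THE CERTIFICATE at the frontier point `w`, in the global charts -/
structure GCert (V : RV2) (e : ℝ) (p q r : ℕ) (Y : Modes) (live : SSt Ty → Prop) (C : ℝ) (w : ℂ)
    (R : SSt Ty → Set V3) : Prop where
  reg : ∀ σ, IsRegion (R σ)
  blk : ∀ b : SBlk (std Y) p q r, ∀ v ∈ R b.src, (MG p q r b w).mulVec v ∈ R b.tgt
  dead : ∀ σ, ¬ live σ → ∀ v, v ∉ R σ
  ref : ∀ σ, DG σ.1 → live σ → rG V p q r σ w ∈ R σ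
  start : ∀ s, DG s → D4 p q r s → ∀ i, UY V.al V.be e i ∈ R (s, false, none)
  slitA : ∀ s f, DG s → ok1 p q r f s 3 → ∀ u ∈ R (s, f, some Ty.A),
    (GR p q r false s 3 w).mulVec u 0 / u 0 ∈ Complex.slitPlane
  slitP : ∀ s f k, DG s → ok1 p q r f s 3 → ∀ u ∈ R (s, f, some (Ty.P k)),
    (GR p q r false s 3 w).mulVec u 0 / u 0 ∈ Complex.slitPlane
  slitQ : ∀ s f k, DG s → ok1 p q r f s k → ∀ u ∈ R (s, f, some (Ty.Q k)),
    (GR p q r false s k w).mulVec u 0 / u 0 ∈ Complex.slitPlane
  slitB : ∀ s f, DG s → ok1 p q r f s 2 → ∀ u ∈ R (s, f, some Ty.B),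
    (UUm p q r s w).mulVec u 0 / u 0 ∈ Complex.slitPlane
  bound : ∀ σ v j, v ∈ R σ → ‖v j‖ ≤ C * ‖v 0‖

theorem GCert.pt {V : RV2} {e : ℝ} {live : SSt Ty → Prop} {C : ℝ} {w : ℂ}
    {R : SSt Ty → Set V3} (h : GCert V e p q r Y live C w R) :
    PT SBlk.src SBlk.tgt (fun b : SBlk (std Y) p q r => MG p q r b) (StartY p q r V.al V.be e)
      (KG V p q r live) C w := by
  refine ⟨R, ⟨h.reg, fun b v hv => h.blk b v hv, ?_⟩, fun b => ?_, fun s v j hv => h.bound s v j hv⟩
  · rintro ⟨s, f, o⟩ v ⟨h1, h2, h3, h4, i, rfl⟩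
    have h3' : f = false := h3
    have h4' : o = none := h4
    subst h3' h4'
    exact h.start s h1 h2 i
  · unfold KG
    by_cases hl : live b.src
    · rw [if_pos hl]
      by_cases ht : b.t = Ty.B
      · rw [if_pos ht]
        by_cases hm : b.ms.length ≤ 1
        · rw [if_pos hm]
          exact h.ref b.src b.hs hl
        · rw [if_neg hm]
          intro v hv
          obtain ⟨h1, h2⟩ := last_two b (by omega) ht
          have h3 := MG_last_two b (by omega) ht w
          show (MG p q r b w).mulVec v 0 / (1 * (MG p q r (drop 2 b) w).mulVec v 0) ∈ _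
          rw [h3, ← Matrix.mulVec_mulVec, one_mul]
          have h4 := h.blk (drop 2 b) v hv
          have h5 : (drop 2 b).tgt = (sD b.s (drop 2 b).runs, fD p q r b.f b.s (drop 2 b).runs,
              some Ty.B) := by
            show (sD b.s (drop 2 b).runs, fD p q r b.f b.s (drop 2 b).runs,
              some (drop 2 b).t) = _
            rw [h2]
          rw [h5] at h4
          exact h.slitB _ _ (DG_sD _ _ b.hs) (ok_last b 2 h1) _ h4
      · rw [if_neg ht]
        by_cases hm : b.ms.length = 0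
        · rw [if_pos hm]
          exact h.ref b.src b.hs hl
        · rw [if_neg hm]
          intro v hv
          obtain ⟨m, h1, h2, h3⟩ := last_one b hm ht
          have h4 := MG_last_one b hm ht h1 h2 w
          show (MG p q r b w).mulVec v 0 / (1 * (MG p q r (drop 1 b) w).mulVec v 0) ∈ _
          rw [h4, ← Matrix.mulVec_mulVec, one_mul]
          have h5 := h.blk (drop 1 b) v hv
          have h6 : (drop 1 b).tgt = (sD b.s (drop 1 b).runs, fD p q r b.f b.s (drop 1 b).runs,
              some (drop 1 b).t) := rfl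
          rw [h6] at h5
          have hD := DG_sD (drop 1 b).runs b.s b.hs
          have hok := ok_last b 1 h1
          rcases h3 with ⟨k, h7, h8⟩ | ⟨h7 | ⟨k, h7⟩, h8⟩
          · rw [h7] at h5
            rw [h8] at hok ⊢
            exact h.slitQ _ _ k hD hok _ h5
          · rw [h7] at h5
            rw [h8] at hok ⊢
            exact h.slitA _ _ hD hok _ h5
          · rw [h7] at h5
            rw [h8] at hok ⊢
            exact h.slitP _ _ k hD hok _ h5
    · rw [if_neg hl]
      intro v hv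
      exact absurd hv (h.dead _ hl v)

end Pool.Agent.Helper6.MONO
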