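import Pool.Agent.Helper6.CX.KTG

/-!
The certificate at one frontier point in the plain charts (`PCert`) gives the one in the global
charts (`GCert`); uniform bounds away from `w = 1` and `w = -1`.
-/

set_option autoImplicit false
noncomputable section
namespace Pool.Agent.Helper6.MONO

open Pool.Agent.Helper21.SUP (GS Sch gM gM_append fD SBlk SSt DG DG_nx sD_cons sD_nil sD_append
  okD_cons okD_append ok1 Ty std Modes std_blk alL alL_self)
open Pool.Agent.Helper6.MONO.SV (UY StartY D4)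
open Pool.Agent.Helper21.MIR (TR PT PTr Mt V isRegion_pull)
open Pool.Agent.Helper39.C75 (IsRegion RCert Reg)
open Pool.Agent.Helper39.SLT (BlkCert)

open Pool.Agent.Helper21.SUP renaming nx → nxs

/-- THE CERTIFICATE at the frontier point `w`, in the plain charts `TM` -/
structure PCert (V : RV2) (e : ℝ) (p q r : ℕ) (Y : Modes) (live : SSt Ty → Prop) (C : ℝ) (w : ℂ)
    (R : SSt Ty → Set V3) : Prop where
  reg : ∀ σ, IsRegion (R σ)
  blk : BlkCert (std Y) p q r (RMb p q r) w R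
  dead : ∀ σ, ¬ live σ → ∀ v, v ∉ R σ
  ref : ∀ σ, DG σ.1 → live σ → (DG3 p q r σ w).mulVec (rG V p q r σ w) ∈ R σ
  start : ∀ s, DG s → D4 p q r s → ∀ i,
    (DYm (omS p q r s w)).mulVec (UY V.al V.be e i) ∈ R (s, false, none)
  slitA : ∀ s f, DG s → ok1 p q r f s 3 → ∀ u ∈ R (s, f, some Ty.A),
    DTH (kk p q r s.1 s.2.1) u / u 0 ∈ Complex.slitPlane
  slitP : ∀ s f k, DG s → ok1 p q r f s 3 → ∀ u ∈ R (s, f, some (Ty.P k)),
    DTH (kk p q r s.1 s.2.1) u / u 0 ∈ Complex.slitPlane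
  slitQ : ∀ s f k, DG s → ok1 p q r f s k → ∀ u ∈ R (s, f, some (Ty.Q k)),
    (RMb p q r s k w).mulVec u 0 / u 0 ∈ Complex.slitPlane
  slitB : ∀ s f, DG s → ok1 p q r f s 2 → ∀ u ∈ R (s, f, some Ty.B),
    DTH (kk p q r s.1 s.2.1) u / u 0 ∈ Complex.slitPlane
  bound : ∀ σ v j, v ∈ R σ → ‖v j‖ ≤ C * ‖v 0‖

variable {p q r : ℕ} {Y : Modes}

theorem DTH_smul (k : ℝ) (c : ℂ) (v : V3) : DTH k (c • v) = c * DTH k v := by
  simp only [DTH, Pi.smul_apply, smul_eq_mul]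
  ring

/-- the pivot of two runs of two letters in the `L` chart -/
theorem UUm_zero (s : GS) (w : ℂ) (y : V3) :
    (UUm p q r s w).mulVec y 0 =
      DTH (kk p q r s.1 s.2.1) ((DLm (omS p q r s w)).mulVec y) := by
  simp only [UUm, DTH, DLm, SS, teS, Matrix.mulVec, dotProduct, Fin.sum_univ_three,
    Matrix.cons_val_zero, Matrix.cons_val_one, Matrix.cons_val_two, Matrix.head_cons,
    Matrix.tail_cons, Matrix.of_apply, Matrix.cons_val', Matrix.empty_val',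
    Matrix.cons_val_fin_one, Matrix.head_fin_const]
  ring

/-- the pivot of a run in the `Y` chart -/
theorem GR_zero (hp : 3 ≤ p) (hq : 3 ≤ q) (hr : 3 ≤ r) {s : GS} (h : DG s) (m : ℕ) {w : ℂ}
    (h1 : denS p q r s w ≠ 0) (h2 : denS p q r (nxs s m) w ≠ 0) (y : V3) :
    (GR p q r false s m w).mulVec y 0 =
      (RMb p q r s m w).mulVec ((DYm (omS p q r s w)).mulVec y) 0 := by
  have e := RMb_DK hp hq hr h false m h1 h2
  have e2 : (RMb p q r s m w).mulVec ((DYm (omS p q r s w)).mulVec y) =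
      (DYm (omS p q r (nxs s m) w)).mulVec ((GR p q r false s m w).mulVec y) := by
    rw [Matrix.mulVec_mulVec, Matrix.mulVec_mulVec]
    have e' : RMb p q r s m w * DYm (omS p q r s w) =
      DYm (omS p q r (nxs s m) w) * GR p q r false s m w := e
    rw [e']
  rw [e2, DYm_mulVec0]

theorem DG3_Y {s : GS} (h : DG s) (f : Bool) {o : Option Ty} (ho : o ≠ some Ty.B) (w : ℂ) :
    DG3 p q r (s, f, o) w = DYm (omS p q r s w) := by
  have h' : DG (s, f, o).1 := h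
  rw [DG3, if_pos h']
  have : (decide ((s, f, o).2.2 = some Ty.B)) = false := by simpa using ho
  rw [this]
  rfl

theorem DG3_L {s : GS} (h : DG s) (f : Bool) (w : ℂ) :
    DG3 p q r (s, f, some Ty.B) w = DLm (omS p q r s w) := by
  have h' : DG (s, f, some Ty.B).1 := h
  rw [DG3, if_pos h']
  have : (decide ((s, f, some Ty.B).2.2 = some Ty.B)) = true := by simp
  rw [this]
  rfl

/-- FROM THE PLAIN TO THE GLOBAL CHARTS. -/
theorem PCert.gcert (hp : 3 ≤ p) (hq : 3 ≤ q) (hr : 3 ≤ r) {w : ℂ}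
    (hd : ∀ s', DG s' → denS p q r s' w ≠ 0) (ho : ∀ s', DG s' → omS p q r s' w ≠ 0)
    {V : RV2} {e : ℝ} {live : SSt Ty → Prop} {C C' : ℝ} {R : SSt Ty → Set V3}
    (h : PCert V e p q r Y live C w R)
    (hC : ∀ (σ : SSt Ty) (v : V3), DG σ.1 ∨ True →
      (∀ j, ‖(DG3 p q r σ w).mulVec v j‖ ≤ C * ‖v 0‖) → ∀ j, ‖v j‖ ≤ C' * ‖v 0‖) :
    GCert V e p q r Y live C' w (fun σ => {y | (DG3 p q r σ w).mulVec y ∈ R σ}) := by
  have h0 : ∀ (σ : SSt Ty) (v : V3), (DG3 p q r σ w).mulVec v 0 = 1 * v 0 := by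
    intro σ v
    rw [DG3_first, one_mul]
  refine ⟨fun σ => isRegion_pull (h.reg σ) _ 1 one_ne_zero (h0 σ), ?_, fun σ hl v => h.dead σ hl _,
    h.ref, ?_, ?_, ?_, ?_, ?_, ?_⟩
  · intro b v hv
    obtain ⟨c, hc, e1⟩ := MG_link hp hq hr hd ho b
    have h1 := h.blk b.o b.f b.s b.m b.ms b.t b.hs b.hb _ hv
    have h2 : (gM (RMb p q r) b.s b.runs w).mulVec ((DG3 p q r b.src w).mulVec v) =
        c • (DG3 p q r b.tgt w).mulVec ((MG p q r b w).mulVec v) := by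
      rw [Matrix.mulVec_mulVec, e1, Matrix.smul_mulVec, Matrix.mulVec_mulVec]
    have h3 : (gM (RMb p q r) b.s b.runs w).mulVec ((DG3 p q r b.src w).mulVec v) ∈ R b.tgt := h1
    rw [h2] at h3
    have h4 := (h.reg b.tgt).smul c⁻¹ _ (inv_ne_zero hc) h3
    rw [smul_smul, inv_mul_cancel₀ hc, one_smul] at h4
    exact h4
  · intro s hs h4 i
    show (DG3 p q r (s, false, none) w).mulVec _ ∈ R (s, false, none)
    rw [DG3_Y hs false (by simp)]
    exact h.start s hs h4 i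
  · intro s f hs hok u hu
    have hu' : (DYm (omS p q r s w)).mulVec u ∈ R (s, f, some Ty.A) := by
      rw [← DG3_Y hs f (o := some Ty.A) (by simp)]
      exact hu
    have h1 := h.slitA s f hs hok _ hu'
    rw [DYm_mulVec0] at h1
    rw [GR_zero hp hq hr hs 3 (hd s hs) (hd _ (DG_nx s 3 hs)), RMb3_zero hp hq hr hs]
    exact h1
  · intro s f k hs hok u hu
    have hu' : (DYm (omS p q r s w)).mulVec u ∈ R (s, f, some (Ty.P k)) := by
      rw [← DG3_Y hs f (o := some (Ty.P k)) (by simp)]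
      exact hu
    have h1 := h.slitP s f k hs hok _ hu'
    rw [DYm_mulVec0] at h1
    rw [GR_zero hp hq hr hs 3 (hd s hs) (hd _ (DG_nx s 3 hs)), RMb3_zero hp hq hr hs]
    exact h1
  · intro s f k hs hok u hu
    have hu' : (DYm (omS p q r s w)).mulVec u ∈ R (s, f, some (Ty.Q k)) := by
      rw [← DG3_Y hs f (o := some (Ty.Q k)) (by simp)]
      exact hu
    have h1 := h.slitQ s f k hs hok _ hu'
    rw [DYm_mulVec0] at h1
    rw [GR_zero hp hq hr hs k (hd s hs) (hd _ (DG_nx s k hs))]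
    exact h1
  · intro s f hs hok u hu
    have hu' : (DLm (omS p q r s w)).mulVec u ∈ R (s, f, some Ty.B) := by
      rw [← DG3_L hs f]
      exact hu
    have h1 := h.slitB s f hs hok _ hu'
    rw [DLm_mulVec0] at h1
    rw [UUm_zero]
    exact h1
  · intro σ v j hv
    refine hC σ v (Or.inr trivial) (fun j => ?_) j
    have h1 := h.bound σ _ j hv
    rw [DG3_first] at h1
    exact h1

/-! ### the frontier -/

theorem frt_norm {x0 : ℝ} (hx : -2 < x0) {w : ℂ} (hw : w ∈ Frt x0) :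
    ‖w‖ ^ 2 ≤ (2 + |x0|) / (x0 + 2) := by
  have h0 : (0 : ℝ) < x0 + 2 := by linarith
  have h1 : ‖((x0 + 2 : ℝ) : ℂ) * w ^ 2 - (x0 : ℂ)‖ = 2 := hw
  rw [le_div_iff₀ h0]
  have h2 : ‖((x0 + 2 : ℝ) : ℂ) * w ^ 2‖ ≤ 2 + |x0| := by
    have e : ((x0 + 2 : ℝ) : ℂ) * w ^ 2 = (((x0 + 2 : ℝ) : ℂ) * w ^ 2 - (x0 : ℂ)) + (x0 : ℂ) := by
      ring
    rw [e]
    refine (norm_add_le _ _).trans ?_
    rw [h1, Complex.norm_real, Real.norm_eq_abs]
  rw [norm_mul, Complex.norm_real, Real.norm_eq_abs, abs_of_pos h0, norm_pow] at h2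
  linarith

/-- a point of the critical line, different from `1` and `-1`, is `zw z` with `z` outside the
disc -/
theorem frt_z {x0 : ℝ} (hx : -2 < x0) {w : ℂ} (hw : w ∈ Frt x0) (h1 : w ≠ 1) (h2 : w ≠ -1) :
    (wz w + (wz w)⁻¹).re = x0 := by
  have h0 : (0 : ℝ) < x0 + 2 := by linarith
  have a1 : 1 - w ≠ 0 := fun h => h1 (by linear_combination -h)
  have a2 : 1 + w ≠ 0 := fun h => h2 (by linear_combination h)
  have e : wz w + (wz w)⁻¹ = 2 * (1 + w ^ 2) / (1 - w ^ 2) := by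
    unfold wz
    have : (1 - w ^ 2) = (1 - w) * (1 + w) := by ring
    rw [this]
    field_simp
    ring
  rw [e]
  have a3 : (1 - w ^ 2) ≠ 0 := by
    have : (1 - w ^ 2) = (1 - w) * (1 + w) := by ring
    rw [this]
    exact mul_ne_zero a1 a2
  -- `|x - x'| = |x + ...|`
  set u := w ^ 2 with hu
  have hw' : ‖((x0 + 2 : ℝ) : ℂ) * u - (x0 : ℂ)‖ = 2 := hw
  have hsq : Complex.normSq (((x0 + 2 : ℝ) : ℂ) * u - (x0 : ℂ)) = 4 := by
    rw [Complex.normSq_eq_norm_sq, hw']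
    norm_num
  have hre : (((x0 + 2) * u.re - x0) * ((x0 + 2) * u.re - x0) + (x0 + 2) * u.im * ((x0 + 2) * u.im))
      = 4 := by
    have : Complex.normSq (((x0 + 2 : ℝ) : ℂ) * u - (x0 : ℂ)) =
        ((x0 + 2) * u.re - x0) * ((x0 + 2) * u.re - x0) +
          (x0 + 2) * u.im * ((x0 + 2) * u.im) := by
      rw [Complex.normSq_apply]
      simp
    rw [← this]
    exact hsq
  have hn : Complex.normSq (1 - u) ≠ 0 := by
    rw [Ne, Complex.normSq_eq_zero]
    exact a3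
  rw [Complex.div_re]
  have b1 : (2 * (1 + u)).re = 2 * (1 + u.re) := by simp
  have b2 : (2 * (1 + u)).im = 2 * u.im := by simp
  have b3 : (1 - u).re = 1 - u.re := by simp
  have b4 : (1 - u).im = -u.im := by simp
  rw [b1, b2, b3, b4, ← add_div, div_eq_iff hn, Complex.normSq_apply, b3, b4]
  have hk : (x0 + 2) * ((x0 + 2) * (u.re * u.re + u.im * u.im) - 2 * x0 * u.re + x0 - 2) = 0 := by
    linear_combination hre
  have hk' : (x0 + 2) * (u.re * u.re + u.im * u.im) - 2 * x0 * u.re + x0 - 2 = 0 := by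
    rcases mul_eq_zero.1 hk with h | h
    · exact absurd h h0.ne'
    · exact h
  linear_combination (-1) * hk'

/-- the denominators at the points of the critical line -/
theorem frt_den {p q r : ℕ} (hp : 3 ≤ p) (hq : 3 ≤ q) (hr : 3 ≤ r) {x0 : ℝ} (hx : -2 < x0)
    {w : ℂ} (hw : w ∈ Frt x0) {s : GS} (h : DG s) : denS p q r s w ≠ 0 := by
  have hl := LNI_lam_pos hp hq hr h
  intro h0
  have key : ∀ v : ℂ, v ∈ Frt x0 → (1 - v) + (lamS p q r s : ℂ) * (1 + v) ≠ 0 := by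
    intro v hv h1
    have hv' : ‖((x0 + 2 : ℝ) : ℂ) * v ^ 2 - (x0 : ℂ)‖ = 2 := hv
    set l := lamS p q r s with hl'
    -- `v = (1 + l)/(1 - l)` real with `|v| > 1`
    have h2 : (1 - (l : ℂ)) * v = 1 + l := by linear_combination -h1
    have hl1 : (1 - l) ≠ 0 := by
      intro h3
      have h4 : l = 1 := by linarith
      rw [h4] at h2
      norm_num at h2
    have h3 : v = (((1 + l) / (1 - l) : ℝ) : ℂ) := by
      have hc : (1 - (l : ℂ)) ≠ 0 := by exact_mod_cast hl1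
      push_cast
      rw [eq_div_iff hc]
      linear_combination h2
    have h4 : 1 < ((1 + l) / (1 - l)) ^ 2 := by
      rw [div_pow, lt_div_iff₀ (by positivity)]
      nlinarith
    rw [h3] at hv'
    have h5 : ((x0 + 2 : ℝ) : ℂ) * (((1 + l) / (1 - l) : ℝ) : ℂ) ^ 2 - (x0 : ℂ) =
        (((x0 + 2) * ((1 + l) / (1 - l)) ^ 2 - x0 : ℝ) : ℂ) := by push_cast; ring
    rw [h5, Complex.norm_real, Real.norm_eq_abs] at hv'
    have h6 : 2 < (x0 + 2) * ((1 + l) / (1 - l)) ^ 2 - x0 := by nlinarith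
    rw [abs_of_pos (by linarith)] at hv'
    linarith
  unfold denS at h0
  cases ho : oriZ s with
  | true =>
    rw [ho, if_pos rfl] at h0
    exact key w hw h0
  | false =>
    rw [ho, if_neg Bool.false_ne_true] at h0
    refine key (-w) (frt_neg hw) ?_
    linear_combination h0

theorem frt_om {p q r : ℕ} (hp : 3 ≤ p) (hq : 3 ≤ q) (hr : 3 ≤ r) {x0 : ℝ} (hx : -2 < x0)
    {w : ℂ} (hw : w ∈ Frt x0) (h1 : w ≠ 1) (h2 : w ≠ -1) {s : GS} (h : DG s) :
    omS p q r s w ≠ 0 ∧ teS p q r s w ≠ 0 := by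
  have hd := frt_den hp hq hr hx hw h
  have hl : (lamS p q r s : ℂ) ≠ 0 := by exact_mod_cast (LNI_lam_pos hp hq hr h).ne'
  have a1 : 1 - w ≠ 0 := fun h => h1 (by linear_combination -h)
  have a2 : 1 + w ≠ 0 := fun h => h2 (by linear_combination h)
  constructor
  · rw [omS_eq]
    refine div_ne_zero ?_ (mul_ne_zero two_ne_zero hd)
    unfold numS
    cases oriZ s <;> simpa
  · rw [teS_eq hd]
    refine div_ne_zero (mul_ne_zero hl ?_) (mul_ne_zero two_ne_zero hd)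
    cases oriZ s <;> simpa

/-- `DG3` is uniformly invertible away from `1` and `-1` -/
theorem DG3_away {p q r : ℕ} (hp : 3 ≤ p) (hq : 3 ≤ q) (hr : 3 ≤ r) {x0 : ℝ} (hx : -2 < x0)
    {d : ℝ} (hd : 0 < d) : ∃ K : ℝ, 0 < K ∧ ∀ w ∈ Frt x0, d ≤ ‖1 - w‖ → d ≤ ‖1 + w‖ →
      ∀ s, DG s → K ≤ ‖omS p q r s w‖ ∧ K ≤ ‖teS p q r s w‖ ∧ ‖omS p q r s w‖ ≤ K⁻¹ ∧
        ‖teS p q r s w‖ ≤ K⁻¹ := by
  set F : Set ℂ := {w | w ∈ Frt x0 ∧ d ≤ ‖1 - w‖ ∧ d ≤ ‖1 + w‖} with hF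
  have hcl : IsClosed F := by
    have c1 : IsClosed {w : ℂ | ‖((x0 + 2 : ℝ) : ℂ) * w ^ 2 - (x0 : ℂ)‖ = 2} :=
      isClosed_eq (by fun_prop) continuous_const
    have c2 : IsClosed {w : ℂ | d ≤ ‖1 - w‖} := isClosed_le continuous_const (by fun_prop)
    have c3 : IsClosed {w : ℂ | d ≤ ‖1 + w‖} := isClosed_le continuous_const (by fun_prop)
    exact c1.inter (c2.inter c3)
  have hbd : Bornology.IsBounded F := by
    rw [Metric.isBounded_iff_subset_closedBall 0]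
    refine ⟨Real.sqrt ((2 + |x0|) / (x0 + 2)), fun w hw => ?_⟩
    rw [mem_closedBall_zero_iff]
    exact Real.le_sqrt_of_sq_le (frt_norm hx hw.1)
  have hcomp : IsCompact F := Metric.isCompact_of_isClosed_isBounded hcl hbd
  have hne : ∀ w ∈ F, w ≠ 1 ∧ w ≠ -1 := by
    rintro w ⟨-, h1, h2⟩
    constructor
    · rintro rfl
      simp at h1
      linarith
    · rintro rfl
      simp at h2
      linarith
  have one : ∀ s : GS, ∃ K : ℝ, 0 < K ∧ ∀ w ∈ F, DG s →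
      K ≤ ‖omS p q r s w‖ ∧ K ≤ ‖teS p q r s w‖ ∧ ‖omS p q r s w‖ ≤ K⁻¹ ∧
        ‖teS p q r s w‖ ≤ K⁻¹ := by
    intro s
    by_cases hs : DG s
    swap
    · exact ⟨1, one_pos, fun w _ h => absurd h hs⟩
    rcases F.eq_empty_or_nonempty with hE | hE
    · refine ⟨1, one_pos, fun w hw => ?_⟩
      rw [hE] at hw
      exact absurd hw (Set.notMem_empty w)
    have hc1 : ContinuousOn (fun w => omS p q r s w) F := by
      have e : (fun w => omS p q r s w) = fun w => numS s w / (2 * denS p q r s w) := by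
        funext w
        exact omS_eq p q r s w
      rw [e]
      refine ContinuousOn.div ?_ ?_ ?_
      · have : Continuous (numS s) := by
          unfold numS
          cases oriZ s <;> simp <;> fun_prop
        exact this.continuousOn
      · exact (continuous_const.mul (denS_reg p q r s).continuous).continuousOn
      · intro w hw
        exact mul_ne_zero two_ne_zero (frt_den hp hq hr hx hw.1 hs)
    have hc2 : ContinuousOn (fun w => teS p q r s w) F := by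
      unfold teS
      exact continuousOn_const.sub hc1
    obtain ⟨w1, hw1, m1⟩ := hcomp.exists_isMinOn hE hc1.norm
    obtain ⟨w2, hw2, m2⟩ := hcomp.exists_isMinOn hE hc2.norm
    obtain ⟨C1, hC1⟩ := hcomp.exists_bound_of_continuousOn hc1
    obtain ⟨C2, hC2⟩ := hcomp.exists_bound_of_continuousOn hc2
    have p1 : 0 < ‖omS p q r s w1‖ :=
      norm_pos_iff.2 (frt_om hp hq hr hx hw1.1 (hne _ hw1).1 (hne _ hw1).2 hs).1
    have p2 : 0 < ‖teS p q r s w2‖ :=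
      norm_pos_iff.2 (frt_om hp hq hr hx hw2.1 (hne _ hw2).1 (hne _ hw2).2 hs).2
    have hp1 : 0 < 1 + |C1| := by positivity
    have hp2 : 0 < 1 + |C2| := by positivity
    refine ⟨min (min ‖omS p q r s w1‖ ‖teS p q r s w2‖) (min (1 + |C1|)⁻¹ (1 + |C2|)⁻¹),
      lt_min (lt_min p1 p2) (lt_min (inv_pos.2 hp1) (inv_pos.2 hp2)), fun w hw _ => ?_⟩
    have hmin : 0 < min (min ‖omS p q r s w1‖ ‖teS p q r s w2‖)
        (min (1 + |C1|)⁻¹ (1 + |C2|)⁻¹) :=
      lt_min (lt_min p1 p2) (lt_min (inv_pos.2 hp1) (inv_pos.2 hp2))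
    refine ⟨((min_le_left _ _).trans (min_le_left _ _)).trans (m1 hw),
      ((min_le_left _ _).trans (min_le_right _ _)).trans (m2 hw), ?_, ?_⟩
    · have h1 : min (min ‖omS p q r s w1‖ ‖teS p q r s w2‖)
          (min (1 + |C1|)⁻¹ (1 + |C2|)⁻¹) ≤ (1 + |C1|)⁻¹ :=
        (min_le_right _ _).trans (min_le_left _ _)
      have h2 := inv_anti₀ hmin h1
      rw [inv_inv] at h2
      have h3 : ‖omS p q r s w‖ ≤ C1 := hC1 w hw
      linarith [le_abs_self C1]
    · have h1 : min (min ‖omS p q r s w1‖ ‖teS p q r s w2‖)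
          (min (1 + |C1|)⁻¹ (1 + |C2|)⁻¹) ≤ (1 + |C2|)⁻¹ :=
        (min_le_right _ _).trans (min_le_right _ _)
      have h2 := inv_anti₀ hmin h1
      rw [inv_inv] at h2
      have h3 : ‖teS p q r s w‖ ≤ C2 := hC2 w hw
      linarith [le_abs_self C2]
  choose K hK0 hK using one
  have hfin : (Finset.univ : Finset GS).Nonempty := ⟨(0, 0, 0), Finset.mem_univ _⟩
  obtain ⟨s0, -, hs0⟩ := Finset.exists_min_image Finset.univ K hfin
  refine ⟨K s0, hK0 s0, fun w hw h1 h2 s hs => ?_⟩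
  have hle := hs0 s (Finset.mem_univ s)
  obtain ⟨a1, a2, a3, a4⟩ := hK s w ⟨hw, h1, h2⟩ hs
  have hinv : (K s)⁻¹ ≤ (K s0)⁻¹ := inv_anti₀ (hK0 s0) hle
  exact ⟨hle.trans a1, hle.trans a2, a3.trans hinv, a4.trans hinv⟩

theorem norm_le_of_mul {K B : ℝ} (hK : 0 < K) {a b : ℂ} (ha : K ≤ ‖a‖) (hb : ‖a * b‖ ≤ B) :
    ‖b‖ ≤ K⁻¹ * B := by
  rw [norm_mul] at hb
  have h1 : K * ‖b‖ ≤ B := (mul_le_mul_of_nonneg_right ha (norm_nonneg _)).trans hb
  rw [inv_mul_eq_div, le_div_iff₀ hK]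
  linarith

/-- FROM THE PLAIN TO THE GLOBAL CHARTS, with uniform bounds -/
theorem pcert_gcert (hp : 3 ≤ p) (hq : 3 ≤ q) (hr : 3 ≤ r) {x0 : ℝ} (hx : -2 < x0) {d : ℝ}
    (hd : 0 < d) (C : ℝ) : ∃ C' : ℝ, ∀ w ∈ Frt x0, d ≤ ‖1 - w‖ → d ≤ ‖1 + w‖ →
      ∀ (V : RV2) (e : ℝ) (Y : Modes) (live : SSt Ty → Prop) (R : SSt Ty → Set V3),
        PCert V e p q r Y live C w R → ∃ R', GCert V e p q r Y live C' w R' := by
  obtain ⟨K, hK0, hK⟩ := DG3_away hp hq hr hx hd (p := p) (q := q) (r := r)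
  refine ⟨1 + |C| * (1 + 2 * K⁻¹ + K⁻¹ * K⁻¹), fun w hw h1 h2 V e Y live R h => ?_⟩
  have hw1 : w ≠ 1 := by
    rintro rfl
    simp at h1
    linarith
  have hw2 : w ≠ -1 := by
    rintro rfl
    simp at h2
    linarith
  refine ⟨_, h.gcert hp hq hr (fun s' hs' => frt_den hp hq hr hx hw hs')
    (fun s' hs' => (frt_om hp hq hr hx hw hw1 hw2 hs').1) ?_⟩
  rintro ⟨s, f, o⟩ v - hv j
  have hKi : 0 < K⁻¹ := inv_pos.2 hK0
  have hC0 := abs_nonneg C
  have hCC := le_abs_self C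
  have hv0 := norm_nonneg (v 0)
  have hv' : ∀ j, ‖(DG3 p q r (s, f, o) w).mulVec v j‖ ≤ |C| * ‖v 0‖ := fun j =>
    (hv j).trans (mul_le_mul_of_nonneg_right hCC hv0)
  have t1 : |C| * ‖v 0‖ ≤ (1 + |C| * (1 + 2 * K⁻¹ + K⁻¹ * K⁻¹)) * ‖v 0‖ := by
    refine mul_le_mul_of_nonneg_right ?_ hv0
    nlinarith [mul_nonneg hC0 hKi.le, mul_nonneg hC0 (mul_pos hKi hKi).le]
  have t2 : ‖v 0‖ ≤ (1 + |C| * (1 + 2 * K⁻¹ + K⁻¹ * K⁻¹)) * ‖v 0‖ := by
    have : 0 ≤ |C| * (1 + 2 * K⁻¹ + K⁻¹ * K⁻¹) := by positivity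
    nlinarith
  have t3 : K⁻¹ * (2 * (|C| * ‖v 0‖)) ≤ (1 + |C| * (1 + 2 * K⁻¹ + K⁻¹ * K⁻¹)) * ‖v 0‖ := by
    have e : K⁻¹ * (2 * (|C| * ‖v 0‖)) = (|C| * (2 * K⁻¹)) * ‖v 0‖ := by ring
    rw [e]
    refine mul_le_mul_of_nonneg_right ?_ hv0
    nlinarith [mul_nonneg hC0 hKi.le, mul_nonneg hC0 (mul_pos hKi hKi).le]
  have t4 : K⁻¹ * K⁻¹ * (|C| * ‖v 0‖) ≤ (1 + |C| * (1 + 2 * K⁻¹ + K⁻¹ * K⁻¹)) * ‖v 0‖ := by
    have e : K⁻¹ * K⁻¹ * (|C| * ‖v 0‖) = (|C| * (K⁻¹ * K⁻¹)) * ‖v 0‖ := by ring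
    rw [e]
    refine mul_le_mul_of_nonneg_right ?_ hv0
    nlinarith [mul_nonneg hC0 hKi.le, mul_nonneg hC0 (mul_pos hKi hKi).le]
  have t5 : K⁻¹ * (|C| * ‖v 0‖) ≤ (1 + |C| * (1 + 2 * K⁻¹ + K⁻¹ * K⁻¹)) * ‖v 0‖ := by
    have : 0 ≤ K⁻¹ * (|C| * ‖v 0‖) := by positivity
    linarith
  by_cases hs : DG s
  swap
  · have e1 : DG3 p q r (s, f, o) w = 1 := by
      rw [DG3]
      exact if_neg hs
    have h3 := hv' j
    rw [e1, Matrix.one_mulVec] at h3
    exact h3.trans t1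
  obtain ⟨a1, a2, a3, a4⟩ := hK w hw h1 h2 s hs
  by_cases hoB : o = some Ty.B
  · subst hoB
    rw [DG3_L hs] at hv'
    have b1 := hv' 1
    have b2 := hv' 2
    have c1 : (DLm (omS p q r s w)).mulVec v 1 = teS p q r s w * v 1 + omS p q r s w * v 2 := by
      simp [DLm, teS, Matrix.mulVec, dotProduct, Fin.sum_univ_three]
    have c2 : (DLm (omS p q r s w)).mulVec v 2 = teS p q r s w * v 1 := by
      simp [DLm, teS, Matrix.mulVec, dotProduct, Fin.sum_univ_three]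
    rw [c1] at b1
    rw [c2] at b2
    have b3 : ‖omS p q r s w * v 2‖ ≤ 2 * (|C| * ‖v 0‖) := by
      have e : omS p q r s w * v 2 =
          (teS p q r s w * v 1 + omS p q r s w * v 2) - teS p q r s w * v 1 := by ring
      rw [e]
      refine (norm_sub_le _ _).trans ?_
      linarith
    fin_cases j
    · exact t2
    · exact (norm_le_of_mul hK0 a2 b2).trans t5
    · exact (norm_le_of_mul hK0 a1 b3).trans t3
  · rw [DG3_Y hs f hoB] at hv'
    have b1 := hv' 1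
    have b2 := hv' 2
    have c1 : (DYm (omS p q r s w)).mulVec v 1 = omS p q r s w * v 1 := by
      simp [DYm, Matrix.mulVec, dotProduct, Fin.sum_univ_three]
    have c2 : (DYm (omS p q r s w)).mulVec v 2 = omS p q r s w * (teS p q r s w * v 2) := by
      simp [DYm, teS, Matrix.mulVec, dotProduct, Fin.sum_univ_three]
      ring
    rw [c1] at b1
    rw [c2] at b2
    fin_cases j
    · exact t2
    · exact (norm_le_of_mul hK0 a1 b1).trans t5
    · refine (norm_le_of_mul hK0 a2 (norm_le_of_mul hK0 a1 b2)).trans (le_trans (le_of_eq ?_) t4)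
      ring

end Pool.Agent.Helper6.MONO
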